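import Pool.Agent.P.MP_f511bc_an.Nf.Defs

/-! The algebra of the blocks. -/

open Finset Module Filter Topology MeasureTheory ProbabilityTheory

universe u

namespace Pool.Agent.P.MP_f511bc_an.Nf

open Pool.Agent.P.MP_f511bc_an.Nb

variable {H : Type*} [NormedAddCommGroup H] [InnerProductSpace ℝ H] (B : Blocks H)

theorem pr_apply (s t : ℕ) (x : H) : B.pr s t x = ∑ l ∈ Ico s t, B.π l x := by
  simp only [Blocks.pr, _root_.sum_apply]

theorem mul_apply (τ : ℕ → ℝ) (R : ℕ) (x : H) : B.mul τ R x = ∑ l ∈ range R, τ l • B.π l x := by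
  simp only [Blocks.mul, _root_.sum_apply, _root_.smul_apply]

theorem basicA_pi (A : Finset ℕ) (τ : ℕ → ℝ) (l : ℕ) (x : H) :
    B.π l (∑ m ∈ A, τ m • B.π m x) = if l ∈ A then τ l • B.π l x else 0 := by
  rw [map_sum]
  split_ifs with h
  · rw [sum_eq_single_of_mem l h, map_smul, B.idem]
    intro m _ hm
    rw [map_smul, B.orth _ _ _ hm.symm, smul_zero]
  · refine sum_eq_zero fun m hm => ?_
    rw [map_smul, B.orth l m x (fun e => h (e ▸ hm)), smul_zero]

theorem pi_pr (l s t : ℕ) (x : H) :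
    B.π l (B.pr s t x) = if s ≤ l ∧ l < t then B.π l x else 0 := by
  have h := basicA_pi B (Ico s t) (fun _ => 1) l x
  simp only [one_smul, mem_Ico] at h
  rw [pr_apply, h]

theorem pi_mul (τ : ℕ → ℝ) (R l : ℕ) (x : H) :
    B.π l (B.mul τ R x) = if l < R then τ l • B.π l x else 0 := by
  have h := basicA_pi B (range R) τ l x
  simp only [mem_range] at h
  rw [mul_apply, h]

theorem pr_symm (s t : ℕ) (x y : H) : inner ℝ (B.pr s t x) y = inner ℝ x (B.pr s t y) := by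
  rw [pr_apply, pr_apply, sum_inner, inner_sum]
  exact sum_congr rfl fun l _ => B.symm l x y

theorem mem_S {s t : ℕ} {x : H} : x ∈ B.S s t ↔ B.pr s t x = x := by
  refine ⟨?_, fun h => ⟨x, h⟩⟩
  rintro ⟨y, rfl⟩
  show B.pr s t (B.pr s t y) = B.pr s t y
  rw [pr_apply B s t (B.pr s t y), pr_apply B s t y]
  refine sum_congr rfl fun l hl => ?_
  rw [← pr_apply, pi_pr, if_pos (mem_Ico.1 hl)]

theorem mem_S_iff {s t : ℕ} {x : H} : x ∈ B.S s t ↔ ∀ l, l < s ∨ t ≤ l → B.π l x = 0 := by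
  rw [mem_S]
  constructor
  · intro h l hl
    rw [← h, pi_pr, if_neg (by omega)]
  · intro h
    refine tendsto_nhds_unique (tendsto_const_nhds.congr' ?_) (B.dense x)
    filter_upwards [eventually_ge_atTop t] with R hR
    rw [pr_apply]
    refine sum_subset (fun l hl => mem_range.2 (by have := mem_Ico.1 hl; omega)) fun l _ hl => h l ?_
    rw [mem_Ico] at hl
    omega

theorem pr_mem (s t : ℕ) (x : H) : B.pr s t x ∈ B.S s t := ⟨x, rfl⟩

theorem mul_mem (τ : ℕ → ℝ) (R : ℕ) (x : H) : B.mul τ R x ∈ B.S 0 R := by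
  refine (mem_S_iff B).2 fun l hl => ?_
  rw [pi_mul, if_neg (by omega)]

theorem S_mono {s t s' t' : ℕ} (hs : s' ≤ s) (ht : t ≤ t') : B.S s t ≤ B.S s' t' := by
  intro x hx
  rw [mem_S_iff] at hx ⊢
  exact fun l hl => hx l (by omega)

theorem S_orth {s t s' t' : ℕ} (h : t ≤ s') {x y : H} (hx : x ∈ B.S s t) (hy : y ∈ B.S s' t') :
    inner ℝ x y = 0 := by
  rw [← (mem_S B).1 hx, pr_apply, sum_inner]
  refine sum_eq_zero fun l hl => ?_
  rw [B.symm, (mem_S_iff B).1 hy l (by have := mem_Ico.1 hl; omega), inner_zero_right]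

theorem inner_pr {s t : ℕ} {x : H} (hx : x ∈ B.S s t) (y : H) :
    inner ℝ x (B.pr s t y) = inner ℝ x y := by
  rw [← pr_symm, (mem_S B).1 hx]

theorem basicA_sq (A : Finset ℕ) (τ : ℕ → ℝ) (x : H) :
    ‖∑ m ∈ A, τ m • B.π m x‖ ^ 2 = ∑ m ∈ A, τ m ^ 2 * ‖B.π m x‖ ^ 2 := by
  rw [← real_inner_self_eq_norm_sq, sum_inner]
  refine sum_congr rfl fun l hl => ?_
  rw [real_inner_smul_left, ← B.idem l x, B.symm, basicA_pi, if_pos hl, B.idem,
    real_inner_smul_right, real_inner_self_eq_norm_sq]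
  ring

theorem norm_pr_sq (s t : ℕ) (x : H) : ‖B.pr s t x‖ ^ 2 = ∑ l ∈ Ico s t, ‖B.π l x‖ ^ 2 := by
  have h := basicA_sq B (Ico s t) (fun _ => 1) x
  simp only [one_smul, one_pow, one_mul] at h
  rw [pr_apply, h]

theorem norm_pr_le (s t : ℕ) (x : H) : ‖B.pr s t x‖ ≤ ‖x‖ := by
  have h : ‖B.pr s t x‖ ^ 2 ≤ ‖B.pr s t x‖ * ‖x‖ := by
    rw [← real_inner_self_eq_norm_sq, inner_pr B (pr_mem B s t x)]
    exact real_inner_le_norm _ _
  rcases (norm_nonneg (B.pr s t x)).eq_or_lt with h0 | h0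
  · rw [← h0]
    exact norm_nonneg x
  · rw [sq] at h
    exact le_of_mul_le_mul_left h h0

theorem basicA_bessel (A : Finset ℕ) (x : H) : ∑ l ∈ A, ‖B.π l x‖ ^ 2 ≤ ‖x‖ ^ 2 := by
  obtain ⟨t, ht⟩ := A.exists_nat_subset_range
  refine (sum_le_sum_of_subset_of_nonneg ht fun _ _ _ => sq_nonneg _).trans ?_
  rw [range_eq_Ico, ← norm_pr_sq]
  exact pow_le_pow_left₀ (norm_nonneg _) (norm_pr_le B 0 t x) 2

theorem norm_mul_le {τ : ℕ → ℝ} (h : ∀ l, |τ l| ≤ 1) (R : ℕ) (x : H) : ‖B.mul τ R x‖ ≤ ‖x‖ := by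
  refine (pow_le_pow_iff_left₀ (norm_nonneg _) (norm_nonneg _) two_ne_zero).1 ?_
  rw [mul_apply, basicA_sq]
  refine le_trans (sum_le_sum fun l _ => ?_) (basicA_bessel B (range R) x)
  have := (sq_le_one_iff_abs_le_one _).2 (h l)
  nlinarith [sq_nonneg ‖B.π l x‖]

theorem sum_pair_le (A : Finset ℕ) (x : H) : ∑ l ∈ A, ‖B.pr l (l + 2) x‖ ^ 2 ≤ 2 * ‖x‖ ^ 2 := by
  have e : ∀ l, ‖B.pr l (l + 2) x‖ ^ 2 = ‖B.π l x‖ ^ 2 + ‖B.π (l + 1) x‖ ^ 2 := by
    intro l
    rw [norm_pr_sq, sum_Ico_succ_top (by omega), Nat.Ico_succ_singleton, sum_singleton]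
  have h1 := basicA_bessel B A x
  have h2 := basicA_bessel B (A.image (· + 1)) x
  rw [sum_image (fun a _ b _ h => by simpa using h)] at h2
  simp only [e, sum_add_distrib]
  linarith

theorem basicA_rank (s t : ℕ) : FiniteDimensional ℝ (B.S s t) ∧
    finrank ℝ (B.S s t) = ∑ l ∈ Ico s t, nn l := by
  have bot : ∀ t, t ≤ s → FiniteDimensional ℝ (B.S s t) ∧
      finrank ℝ (B.S s t) = ∑ l ∈ Ico s t, nn l := by
    intro t ht
    have : B.S s t = ⊥ := by
      refine eq_bot_iff.2 fun x hx => ?_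
      rw [Submodule.mem_bot, ← (mem_S B).1 hx, pr_apply, Ico_eq_empty_of_le ht, sum_empty]
    rw [this, Ico_eq_empty_of_le ht]
    exact ⟨inferInstance, by simp⟩
  induction t with
  | zero => exact bot 0 (Nat.zero_le s)
  | succ t ih =>
    rcases Nat.lt_or_ge t s with h | h
    · exact bot _ h
    obtain ⟨f1, r1⟩ := ih
    have r2 := B.rank t
    have f2 : FiniteDimensional ℝ (LinearMap.range (B.π t : H →ₗ[ℝ] H)) :=
      Module.finite_of_finrank_pos (r2.symm ▸ (pow_pos (Nat.succ_pos t) 48 : 0 < nn t))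
    have e1 : B.S s (t + 1) = B.S s t ⊔ LinearMap.range (B.π t : H →ₗ[ℝ] H) := by
      refine le_antisymm (fun x hx => ?_) (sup_le (S_mono B le_rfl (by omega)) ?_)
      · rw [← (mem_S B).1 hx, pr_apply, sum_Ico_succ_top h, ← pr_apply]
        exact Submodule.add_mem_sup (pr_mem B s t x) ⟨x, rfl⟩
      · rintro _ ⟨y, rfl⟩
        exact (mem_S_iff B).2 fun l hl => B.orth l t y (by omega)
    have e2 : B.S s t ⊓ LinearMap.range (B.π t : H →ₗ[ℝ] H) = ⊥ := by
      refine eq_bot_iff.2 ?_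
      rintro _ ⟨hx, y, rfl⟩
      have := (mem_S_iff B).1 hx t (Or.inr le_rfl)
      exact (B.idem t y).symm.trans this
    have e3 := Submodule.finrank_sup_add_finrank_inf_eq (B.S s t)
      (LinearMap.range (B.π t : H →ₗ[ℝ] H))
    rw [e2, finrank_bot, add_zero, r1, r2] at e3
    rw [e1, sum_Ico_succ_top h]
    exact ⟨inferInstance, e3⟩

instance fin_S (s t : ℕ) : FiniteDimensional ℝ (B.S s t) := by
  exact (basicA_rank B s t).1

theorem finrank_S (s t : ℕ) : finrank ℝ (B.S s t) = ∑ l ∈ Ico s t, nn l := by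
  exact (basicA_rank B s t).2

theorem nn_pos (l : ℕ) : 0 < nn l := by
  exact pow_pos (Nat.succ_pos l) 48

theorem nn_mono {l m : ℕ} (h : l ≤ m) : nn l ≤ nn m := by
  exact Nat.pow_le_pow_left (by omega) _

theorem NN_mono {l m : ℕ} (h : l ≤ m) : NN l ≤ NN m := by
  exact Nat.pow_le_pow_left (Nat.succ_le_succ h) _

theorem nn_succ_le {l : ℕ} (h : 100 ≤ l) : nn (l + 1) ≤ 2 * nn l := by
  unfold nn
  have h1 : (101 * (l + 1 + 1)) ^ 48 ≤ (102 * (l + 1)) ^ 48 := Nat.pow_le_pow_left (by omega) _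
  have h2 : 102 ^ 48 * (l + 1) ^ 48 ≤ 101 ^ 48 * 2 * (l + 1) ^ 48 :=
    Nat.mul_le_mul_right _ (by norm_num)
  rw [mul_pow, mul_pow] at h1
  rw [mul_assoc] at h2
  exact Nat.le_of_mul_le_mul_left (h1.trans h2) (by positivity)

theorem sqrt_nn (l : ℕ) : √(nn l : ℝ) = ((l : ℝ) + 1) ^ 24 := by
  have e : (nn l : ℝ) = (((l : ℝ) + 1) ^ 24) ^ 2 := by
    rw [nn, Nat.cast_pow, Nat.cast_succ, ← pow_mul]
  rw [e, Real.sqrt_sq (pow_nonneg (add_nonneg (Nat.cast_nonneg l) zero_le_one) 24)]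

theorem finrank_W {l : ℕ} (h : 100 ≤ l) :
    2 * nn l ≤ finrank ℝ (B.S l (l + 2)) ∧ finrank ℝ (B.S l (l + 2)) ≤ 3 * nn l := by
  rw [finrank_S, sum_Ico_succ_top (by omega), Nat.Ico_succ_singleton, sum_singleton]
  have h1 := nn_succ_le h
  have h2 := nn_mono (Nat.le_succ l)
  rw [Nat.succ_eq_add_one] at h2
  omega

theorem finrank_Y (R : ℕ) : finrank ℝ (B.S 0 R) ≤ R ^ 49 := by
  rw [finrank_S, pow_succ']
  refine (sum_le_card_nsmul _ _ (R ^ 48) fun l hl => ?_).trans (by simp)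
  exact Nat.pow_le_pow_left (mem_Ico.1 hl).2 _

theorem S_inf (k : ℕ) (X : Submodule ℝ H) (hX : X ≤ B.S k (k + 2)) :
    finrank ℝ X ≤ finrank ℝ (X ⊓ B.S (k + 1) (k + 2) : Submodule ℝ H) + nn k := by
  have : FiniteDimensional ℝ X := Submodule.finiteDimensional_of_le hX
  have h1 := Submodule.finrank_sup_add_finrank_inf_eq X (B.S (k + 1) (k + 2))
  have h2 := Submodule.finrank_mono (sup_le hX (S_mono B (Nat.le_succ k) (le_refl (k + 2))))
  rw [finrank_S, sum_Ico_succ_top (by omega), Nat.Ico_succ_singleton, sum_singleton] at h2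
  rw [finrank_S, Nat.Ico_succ_singleton, sum_singleton] at h1
  rw [Nat.succ_eq_add_one] at h2
  omega

theorem finrank_inf_le (W X X' : Submodule ℝ H) [FiniteDimensional ℝ W] (hX : X ≤ W)
    (hX' : X' ≤ W) {a b : ℕ} (ha : finrank ℝ W ≤ finrank ℝ X + a)
    (hb : finrank ℝ W ≤ finrank ℝ X' + b) :
    finrank ℝ W ≤ finrank ℝ (X ⊓ X' : Submodule ℝ H) + (a + b) := by
  have : FiniteDimensional ℝ X := Submodule.finiteDimensional_of_le hX
  have : FiniteDimensional ℝ X' := Submodule.finiteDimensional_of_le hX'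
  have h1 := Submodule.finrank_sup_add_finrank_inf_eq X X'
  have h2 := Submodule.finrank_mono (sup_le hX hX')
  omega

end Pool.Agent.P.MP_f511bc_an.Nf
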