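import Pool.Agent.P.MP_f511bc_an.Nf.BasicA

/-! The norm of the space. -/

open Finset Module Filter Topology MeasureTheory ProbabilityTheory

universe u

namespace Pool.Agent.P.MP_f511bc_an.Nf

open Pool.Agent.P.MP_f511bc_an.Nb

variable {H : Type*} [NormedAddCommGroup H] [InnerProductSpace ℝ H] {B : Blocks H}
  {u : ∀ l, Fin (NN l) → H}

theorem pp_nonneg (l : ℕ) (x : H) : 0 ≤ pp u l x := norm_nonneg _

theorem le_pp (l : ℕ) (j : Fin (NN l)) (x : H) : (l : ℝ) * |inner ℝ (u l j) x| ≤ pp u l x := by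
  have := norm_le_pi_norm (fun j : Fin (NN l) => (l : ℝ) * inner ℝ (u l j) x) j
  rwa [Real.norm_eq_abs, abs_mul, Nat.abs_cast] at this

theorem pp_le {l : ℕ} {x : H} {a : ℝ} (ha : 0 ≤ a)
    (h : ∀ j, (l : ℝ) * |inner ℝ (u l j) x| ≤ a) : pp u l x ≤ a := by
  refine (pi_norm_le_iff_of_nonneg ha).2 fun j => ?_
  rw [Real.norm_eq_abs, abs_mul, Nat.abs_cast]
  exact h j

theorem pp_add_le (l : ℕ) (x y : H) : pp u l (x + y) ≤ pp u l x + pp u l y := by
  refine le_trans (le_of_eq ?_) (norm_add_le _ _)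
  unfold pp
  congr 1
  funext j
  simp only [Pi.add_apply, inner_add_right, mul_add]

theorem pp_smul (l : ℕ) (c : ℝ) (x : H) : pp u l (c • x) = |c| * pp u l x := by
  unfold pp
  rw [← Real.norm_eq_abs, ← norm_smul]
  congr 1
  funext j
  simp only [Pi.smul_apply, real_inner_smul_right, smul_eq_mul]
  ring

theorem pp_le_pr (h : Loc B u) (l : ℕ) (x : H) : pp u l x ≤ l * ‖B.pr l (l + 2) x‖ := by
  refine pp_le (by positivity) fun j => mul_le_mul_of_nonneg_left ?_ (Nat.cast_nonneg _)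
  rw [← inner_pr B (h.mem l j)]
  refine (abs_real_inner_le_norm _ _).trans ?_
  exact mul_le_of_le_one_left (norm_nonneg _) (h.le1 l j)

theorem pp_eq_zero (h : Loc B u) {s t l : ℕ} {x : H} (hx : x ∈ B.S s t)
    (hl : l + 2 ≤ s ∨ t ≤ l) : pp u l x = 0 := by
  refine le_antisymm (pp_le le_rfl fun j => ?_) (pp_nonneg l x)
  have : inner ℝ (u l j) x = 0 := by
    rcases hl with hl | hl
    · exact S_orth B hl (h.mem l j) hx
    · rw [real_inner_comm]
      exact S_orth B hl hx (h.mem l j)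
  rw [this, abs_zero, mul_zero]

theorem nE_nonneg (R : ℕ) (x : H) : 0 ≤ nE u R x := Real.sqrt_nonneg _

theorem nE_sq (R : ℕ) (x : H) : nE u R x ^ 2 = ‖x‖ ^ 2 + ∑ l ∈ range R, pp u l x ^ 2 := by
  exact Real.sq_sqrt (add_nonneg (sq_nonneg _) (sum_nonneg fun _ _ => sq_nonneg _))

theorem norm_le_nE (R : ℕ) (x : H) : ‖x‖ ≤ nE u R x := by
  exact Real.le_sqrt_of_sq_le (le_add_of_nonneg_right (sum_nonneg fun _ _ => sq_nonneg _))

theorem pp_le_nE {l R : ℕ} (h : l < R) (x : H) : pp u l x ≤ nE u R x := by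
  refine Real.le_sqrt_of_sq_le (le_trans ?_ (le_add_of_nonneg_left (sq_nonneg _)))
  exact single_le_sum (f := fun l => pp u l x ^ 2) (fun _ _ => sq_nonneg _) (mem_range.2 h)

theorem nE_add_le (R : ℕ) (x y : H) : nE u R (x + y) ≤ nE u R x + nE u R y := by
  have hx := nE_sq (u := u) R x
  have hy := nE_sq (u := u) R y
  have x0 := nE_nonneg (u := u) R x
  have y0 := nE_nonneg (u := u) R y
  have cs := sum_mul_sq_le_sq_mul_sq (range R) (fun l => pp u l x) (fun l => pp u l y)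
  have a : ∑ l ∈ range R, pp u l (x + y) ^ 2 ≤ ∑ l ∈ range R, pp u l x ^ 2 +
      ∑ l ∈ range R, pp u l y ^ 2 + 2 * ∑ l ∈ range R, pp u l x * pp u l y := by
    rw [mul_sum, ← sum_add_distrib, ← sum_add_distrib]
    refine sum_le_sum fun l _ => ?_
    have := pow_le_pow_left₀ (pp_nonneg l _) (pp_add_le (u := u) l x y) 2
    linarith [add_sq (pp u l x) (pp u l y)]
  have b := pow_le_pow_left₀ (norm_nonneg _) (norm_add_le x y) 2
  have A0 : 0 ≤ ∑ l ∈ range R, pp u l x ^ 2 := sum_nonneg fun _ _ => sq_nonneg _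
  have B0 : 0 ≤ ∑ l ∈ range R, pp u l y ^ 2 := sum_nonneg fun _ _ => sq_nonneg _
  generalize ∑ l ∈ range R, pp u l x ^ 2 = A at *
  generalize ∑ l ∈ range R, pp u l y ^ 2 = C at *
  generalize ∑ l ∈ range R, pp u l x * pp u l y = S at *
  have c : 2 * (‖x‖ * ‖y‖ * S) ≤ ‖x‖ ^ 2 * C + ‖y‖ ^ 2 * A := by
    refine (abs_le_of_sq_le_sq' ?_ (by positivity)).2
    have := mul_le_mul_of_nonneg_left cs (sq_nonneg (‖x‖ * ‖y‖))
    nlinarith [sq_nonneg (‖x‖ ^ 2 * C - ‖y‖ ^ 2 * A)]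
  have d : ‖x‖ * ‖y‖ + S ≤ nE u R x * nE u R y := by
    refine (abs_le_of_sq_le_sq' ?_ (mul_nonneg x0 y0)).2
    rw [mul_pow (nE u R x), hx, hy]
    nlinarith
  refine (abs_le_of_sq_le_sq' ?_ (add_nonneg x0 y0)).2
  rw [nE_sq]
  nlinarith

theorem nE_smul (R : ℕ) (c : ℝ) (x : H) : nE u R (c • x) = |c| * nE u R x := by
  unfold nE
  rw [← Real.sqrt_sq_eq_abs, ← Real.sqrt_mul (sq_nonneg c), mul_add, mul_sum, norm_smul, mul_pow,
    Real.norm_eq_abs, sq_abs]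
  congr 2
  exact sum_congr rfl fun l _ => by rw [pp_smul, mul_pow, sq_abs]

theorem nE_eq (h : Loc B u) {t R : ℕ} (hR : t ≤ R) {x : H} (hx : x ∈ B.S 0 t) :
    nE u R x = nE u t x := by
  unfold nE
  congr 2
  refine (sum_subset (range_subset_range.2 hR) fun l _ hl => ?_).symm
  rw [pp_eq_zero h hx (Or.inr (not_lt.1 fun a => hl (mem_range.2 a)))]
  ring

theorem nE_le (h : Loc B u) {s t : ℕ} (R : ℕ) {x : H} (hx : x ∈ B.S s t) :
    nE u R x ≤ 3 * (t + 1) * ‖x‖ := by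
  have a : ∀ l ∈ range R, pp u l x ^ 2 ≤ (t : ℝ) ^ 2 * ‖B.pr l (l + 2) x‖ ^ 2 := by
    intro l _
    by_cases hl : t ≤ l
    · rw [pp_eq_zero h hx (Or.inr hl), zero_pow two_ne_zero]
      positivity
    · rw [← mul_pow]
      refine pow_le_pow_left₀ (pp_nonneg l x) ((pp_le_pr h l x).trans ?_) 2
      exact mul_le_mul_of_nonneg_right (by exact_mod_cast (not_le.1 hl).le) (norm_nonneg _)
  have b := sum_le_sum a
  rw [← mul_sum] at b
  have c := mul_le_mul_of_nonneg_left (sum_pair_le B (range R) x) (sq_nonneg (t : ℝ))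
  refine (abs_le_of_sq_le_sq' ?_ (by positivity)).2
  rw [nE_sq]
  have t0 : (0 : ℝ) ≤ t := Nat.cast_nonneg t
  nlinarith [sq_nonneg ‖x‖, mul_nonneg t0 (sq_nonneg ‖x‖),
    mul_nonneg (sq_nonneg (t : ℝ)) (sq_nonneg ‖x‖)]

theorem pp_mul_le (h : Loc B u) {τ : ℕ → ℝ} {R l : ℕ} (hl : l + 1 < R) (x : H) :
    pp u l (B.mul τ R x) ≤ |τ l| * pp u l x + l * |τ l - τ (l + 1)| * ‖B.π (l + 1) x‖ := by
  have l0 : (0 : ℝ) ≤ l := Nat.cast_nonneg l
  refine pp_le (add_nonneg (mul_nonneg (abs_nonneg _) (pp_nonneg l x)) (by positivity)) fun j => ?_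
  have two : ∀ y : H, B.pr l (l + 2) y = B.π l y + B.π (l + 1) y := by
    intro y
    rw [pr_apply, sum_Ico_succ_top (by omega), sum_Ico_succ_top (by omega)]
    simp
  have e : B.pr l (l + 2) (B.mul τ R x) =
      τ l • B.pr l (l + 2) x - (τ l - τ (l + 1)) • B.π (l + 1) x := by
    rw [two, two, pi_mul, pi_mul, if_pos (by omega), if_pos hl]
    module
  rw [← inner_pr B (h.mem l j), e, inner_sub_right, real_inner_smul_right, real_inner_smul_right,
    inner_pr B (h.mem l j)]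
  have a := le_pp (u := u) l j x
  have b : |inner ℝ (u l j) (B.π (l + 1) x)| ≤ ‖B.π (l + 1) x‖ :=
    (abs_real_inner_le_norm _ _).trans (mul_le_of_le_one_left (norm_nonneg _) (h.le1 l j))
  refine (mul_le_mul_of_nonneg_left (abs_sub _ _) l0).trans ?_
  rw [abs_mul, abs_mul, mul_add]
  refine add_le_add ?_ ?_
  · rw [mul_left_comm]
    exact mul_le_mul_of_nonneg_left a (abs_nonneg _)
  · rw [← mul_assoc]
    exact mul_le_mul_of_nonneg_left b (mul_nonneg l0 (abs_nonneg _))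

theorem nE_mul_le (h : Loc B u) {τ : ℕ → ℝ} {c : ℝ} (hc : 0 ≤ c) (h0 : ∀ l, 0 ≤ τ l ∧ τ l ≤ 1)
    (h1 : ∀ l : ℕ, (l : ℝ) * |τ l - τ (l + 1)| ≤ c) {R R' : ℕ} {x : H} (hx : x ∈ B.S 0 R) :
    nE u R' (B.mul τ R x) ≤ (2 + 2 * c) * nE u R' x := by
  have e : B.mul τ R x = B.mul τ (R + R' + 1) x := by
    rw [mul_apply, mul_apply]
    refine sum_subset (range_subset_range.2 (by omega)) fun l _ hl => ?_
    rw [(mem_S_iff B).1 hx l (Or.inr (not_lt.1 fun a => hl (mem_range.2 a))), smul_zero]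
  have t1 : ∀ l, |τ l| ≤ 1 := fun l => by rw [abs_of_nonneg (h0 l).1]; exact (h0 l).2
  have a : ∀ l ∈ range R', pp u l (B.mul τ R x) ^ 2 ≤
      2 * pp u l x ^ 2 + 2 * c ^ 2 * ‖B.π (l + 1) x‖ ^ 2 := by
    intro l hl
    have hl := mem_range.1 hl
    have b := pp_mul_le h (τ := τ) (R := R + R' + 1) (l := l) (by omega) x
    rw [← e] at b
    have b1 : |τ l| * pp u l x ≤ pp u l x := mul_le_of_le_one_left (pp_nonneg l x) (t1 l)
    have b2 := mul_le_mul_of_nonneg_right (h1 l) (norm_nonneg (B.π (l + 1) x))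
    have := pow_le_pow_left₀ (pp_nonneg l _) (b.trans (add_le_add b1 b2)) 2
    nlinarith [sq_nonneg (pp u l x - c * ‖B.π (l + 1) x‖)]
  have b := sum_le_sum a
  rw [sum_add_distrib, ← mul_sum, ← mul_sum] at b
  have d : ∑ l ∈ range R', ‖B.π (l + 1) x‖ ^ 2 ≤ ‖x‖ ^ 2 := by
    have := pow_le_pow_left₀ (norm_nonneg _) (norm_pr_le B 1 (R' + 1) x) 2
    rw [norm_pr_sq, sum_Ico_eq_sum_range, Nat.add_sub_cancel] at this
    exact le_trans (le_of_eq (sum_congr rfl fun l _ => by rw [add_comm])) this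
  have d' := mul_le_mul_of_nonneg_left d (mul_nonneg zero_le_two (sq_nonneg c))
  have f := pow_le_pow_left₀ (norm_nonneg _) (norm_mul_le B t1 R x) 2
  refine (abs_le_of_sq_le_sq' ?_ (mul_nonneg (by linarith) (nE_nonneg R' x))).2
  rw [mul_pow, nE_sq, nE_sq]
  have A0 : 0 ≤ ∑ l ∈ range R', pp u l x ^ 2 := sum_nonneg fun _ _ => sq_nonneg _
  generalize ∑ l ∈ range R', pp u l x ^ 2 = A at *
  have x0 := sq_nonneg ‖x‖
  nlinarith [mul_nonneg hc A0, mul_nonneg hc x0, mul_nonneg (sq_nonneg c) A0,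
    mul_nonneg (sq_nonneg c) x0]

/-- `CoreAt` for an operator bounded by `K`. -/
theorem core_bd (h : Loc B u) {l R : ℕ} {K : ℝ} {P : H →ₗ[ℝ] H} (hc : CoreAt B u l)
    (hK : 1 ≤ K) (hP : Bd B u R K P) (hl : 1 ≤ l) (hR : 2 * l ^ 6 ≤ R)
    {X X' : Submodule ℝ H} (hX : X ≤ B.S 0 (2 * l ^ 6)) (hX' : X' ≤ B.S l (l + 2)) {b : ℝ}
    (hb : K * bet l ≤ b) : ¬ PMix X X' (nn l / 100) b P := by
  have K0 : 0 < K := lt_of_lt_of_le one_pos hK
  have ll : l < R + 1 := by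
    have : l ≤ l ^ 6 := Nat.le_self_pow (by norm_num) l
    omega
  rintro ⟨v, w, hv, hw, mv, mw, ho, hf⟩
  refine hc (K⁻¹ • P) (fun x hx => ?_) ⟨v, w, hv, hw, fun a => hX (mv a), fun a => hX' (mw a), ho,
    fun c => ?_⟩
  · have a := (hP x (S_mono B le_rfl (by omega) hx)).2
    rw [nE_eq h (show 2 * l ^ 6 ≤ R + 1 by omega) hx] at a
    have b : nE u (R + 1) ((K⁻¹ • P) x) ≤ nE u (2 * l ^ 6) x := by
      rw [LinearMap.smul_apply, nE_smul, abs_of_pos (inv_pos.2 K0), inv_mul_le_iff₀ K0]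
      exact a
    exact ⟨(norm_le_nE _ _).trans b, fun j => (le_pp l j _).trans ((pp_le_nE ll _).trans b)⟩
  · rw [LinearMap.smul_apply, real_inner_smul_left, le_inv_mul_iff₀ K0, ← mul_assoc]
    exact (mul_le_mul_of_nonneg_right hb (sum_nonneg fun _ _ => sq_nonneg _)).trans (hf c)

end Pool.Agent.P.MP_f511bc_an.Nf
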