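import Pool.Agent.P.MP_f511bc_an.Nf.BasicA

/-! The Cesaro means are nearly scalar on consecutive blocks. -/

open Finset Module Filter Topology MeasureTheory ProbabilityTheory

universe u

namespace Pool.Agent.P.MP_f511bc_an.Nf

open Pool.Agent.P.MP_f511bc_an.Nb

theorem ces_sum (f : ℕ → ℝ) (n j : ℕ) :
    (∑ i ∈ range n, f i • ee i : L2) j = if j < n then f j else 0 := by
  rw [lp.coeFn_sum, Finset.sum_apply]
  have h : ∀ i, (f i • ee i : L2) j = if j = i then f i else 0 := fun i => by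
    rw [lp.coeFn_smul, Pi.smul_apply, ee, lp.single_apply, Pi.single_apply, smul_eq_mul]
    split_ifs <;> simp
  simp only [h, sum_ite_eq, mem_range]

theorem ces_norm {c : ℝ} (hc : 0 ≤ c) {x y : L2} (h : ∀ j, |y j| ≤ c * |x j|) :
    ‖y‖ ≤ c * ‖x‖ := by
  have h1 : ‖y‖ ≤ ‖c • x‖ := lp.norm_mono (by norm_num) fun j => by
    rw [lp.coeFn_smul, Pi.smul_apply, norm_smul, Real.norm_eq_abs, Real.norm_eq_abs,
      Real.norm_eq_abs, abs_of_nonneg hc]
    exact h j
  rwa [norm_smul, Real.norm_eq_abs, abs_of_nonneg hc] at h1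

/-- the defect of the Cesaro weights -/
noncomputable def cesW (r i : ℕ) : ℝ := min 1 ((i : ℝ) / (r + 1))

theorem cesW_nonneg (r i : ℕ) : 0 ≤ cesW r i := le_min zero_le_one (by positivity)

theorem cesW_le (r i : ℕ) : cesW r i ≤ 1 := min_le_left _ _

theorem cesW_mono (r : ℕ) {i j : ℕ} (h : i ≤ j) : cesW r i ≤ cesW r j :=
  min_le_min le_rfl (div_le_div_of_nonneg_right (by exact_mod_cast h) (by positivity))

theorem cesW_one {r i : ℕ} (h : r + 1 ≤ i) : cesW r i = 1 :=
  min_eq_left ((one_le_div (by positivity)).2 (by exact_mod_cast h))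

theorem cesW_lim (i : ℕ) : Tendsto (fun r : ℕ => cesW r i) atTop (𝓝 0) := by
  have h : Tendsto (fun r : ℕ => (i : ℝ) / (r + 1)) atTop (𝓝 0) := by
    have := tendsto_one_div_add_atTop_nhds_zero_nat (𝕜 := ℝ).const_mul (i : ℝ)
    simpa [div_eq_mul_inv] using this
  have h2 := (tendsto_const_nhds (x := (1 : ℝ))).min h
  simpa [cesW] using h2

theorem ces_apply (r : ℕ) (x : L2) (j : ℕ) : cesOp r x j = (1 - cesW r j) * x j := by
  have h : cesOp r x = ∑ i ∈ range (r + 1), ((1 - (i : ℝ) / (r + 1)) * x i) • ee i := by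
    rw [cesOp, _root_.sum_apply]
    refine sum_congr rfl fun i _ => ?_
    rw [smul_apply, ContinuousLinearMap.smulRight_apply, innerSL_apply_apply,
      smul_smul]
    congr 2
    rw [ee, lp.inner_single_left]
    simp
  rw [h, ces_sum]
  split_ifs with hj
  · rw [cesW, min_eq_right ((div_le_one (by positivity)).2 (by exact_mod_cast hj.le))]
  · rw [cesW_one (not_lt.1 hj), sub_self, zero_mul]

theorem ces_aa_mono {s t : ℕ} (h : s ≤ t) : aa s ≤ aa t :=
  sum_le_sum_of_subset (range_subset_range.2 h)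

theorem ces_aa_ge (t : ℕ) : t ≤ aa t := by
  have : ∑ _m ∈ range t, 1 ≤ aa t := sum_le_sum fun m _ => Nat.one_le_pow _ _ (Nat.succ_pos m)
  simpa using this

theorem ces_aa_succ (l : ℕ) : (aa (l + 1) : ℝ) = aa l + ((l : ℝ) + 1) ^ 48 := by
  have h : aa (l + 1) = aa l + (l + 1) ^ 48 := sum_range_succ _ _
  rw [h, Nat.cast_add, Nat.cast_pow, Nat.cast_add, Nat.cast_one]

theorem ces_aa_low (l : ℕ) : (l : ℝ) ^ 49 ≤ 49 * aa l := by
  induction l with
  | zero => simp
  | succ l ih =>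
    have h0 : (0 : ℝ) < l + 1 := by positivity
    have h1 := ces_aa_succ l
    have h2 := one_add_mul_le_pow (a := -(1 / ((l : ℝ) + 1))) (by
      have : 1 / ((l : ℝ) + 1) ≤ 1 := (div_le_one h0).2 (by linarith [Nat.cast_nonneg (α := ℝ) l])
      linarith) 49
    have h3 : (1 + -(1 / ((l : ℝ) + 1))) = l / (l + 1) := by
      field_simp
      ring
    rw [h3, div_pow, le_div_iff₀ (by positivity)] at h2
    have h4 : (1 + ((49 : ℕ) : ℝ) * -(1 / ((l : ℝ) + 1))) * ((l : ℝ) + 1) ^ 49 =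
        ((l : ℝ) + 1) ^ 49 - 49 * ((l : ℝ) + 1) ^ 48 := by
      rw [pow_succ ((l : ℝ) + 1) 48]
      generalize ((l : ℝ) + 1) ^ 48 = y
      field_simp
      push_cast
      ring
    rw [h4] at h2
    push_cast
    rw [h1]
    linarith

theorem ces_gr (l : ℕ) : (l : ℝ) * ((aa (l + 2) : ℝ) - aa l) ≤ 98 * 3 ^ 48 * aa l := by
  rcases Nat.eq_zero_or_pos l with rfl | hl
  · rw [Nat.cast_zero, zero_mul]
    positivity
  have h0 : (1 : ℝ) ≤ l := by exact_mod_cast hl
  have h1 : (aa (l + 2) : ℝ) - aa l = ((l : ℝ) + 1) ^ 48 + ((l : ℝ) + 2) ^ 48 := by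
    rw [ces_aa_succ (l + 1), ces_aa_succ l, Nat.cast_add, Nat.cast_one,
      show (l : ℝ) + 1 + 1 = l + 2 by ring, add_assoc, add_sub_cancel_left]
  have h2 : ((l : ℝ) + 1) ^ 48 ≤ (3 * l) ^ 48 := pow_le_pow_left₀ (by positivity) (by linarith) _
  have h3 : ((l : ℝ) + 2) ^ 48 ≤ (3 * l) ^ 48 := pow_le_pow_left₀ (by positivity) (by linarith) _
  have h4 := ces_aa_low l
  rw [h1]
  calc (l : ℝ) * (((l : ℝ) + 1) ^ 48 + ((l : ℝ) + 2) ^ 48) ≤ l * ((3 * l) ^ 48 + (3 * l) ^ 48) :=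
        mul_le_mul_of_nonneg_left (add_le_add h2 h3) (by positivity)
    _ = 2 * 3 ^ 48 * (l : ℝ) ^ 49 := by ring
    _ ≤ 2 * 3 ^ 48 * (49 * aa l) := mul_le_mul_of_nonneg_left h4 (by positivity)
    _ = 98 * 3 ^ 48 * aa l := by ring

theorem ces_ramp (B : Blocks L2)
    (hB : ∀ (t : ℕ) (x : L2), B.pr 0 t x = ∑ i ∈ range (aa t), x i • ee i) : Ramp B cesOp := by
  have p0 : ∀ t (x : L2) j, B.pr 0 t x j = if j < aa t then x j else 0 := fun t x j => by
    rw [hB, ces_sum]
  have p1 : ∀ l (x : L2) j, B.pr l (l + 2) x j =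
      if aa l ≤ j ∧ j < aa (l + 2) then x j else 0 := fun l x j => by
    have h : B.pr l (l + 2) x = B.pr 0 (l + 2) x - B.pr 0 l x := by
      rw [eq_sub_iff_add_eq', ← add_apply, Blocks.pr, Blocks.pr, Blocks.pr,
        sum_Ico_consecutive _ (Nat.zero_le _) (Nat.le_add_right _ _)]
    have h2 := ces_aa_mono (Nat.le_add_right l 2)
    rw [h, lp.coeFn_sub, Pi.sub_apply, p0, p0]
    split_ifs <;> first | omega | simp
  have d1 : ∀ r (x : L2) j, (x - cesOp r x) j = cesW r j * x j := fun r x j => by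
    rw [lp.coeFn_sub, Pi.sub_apply, ces_apply]
    ring
  refine ⟨fun r => ⟨r + 1, fun x => ⟨cesOp r x, ?_⟩⟩, fun r x => ?_, fun x => ?_,
    98 * 3 ^ 48, fun r l => 1 - cesW r (aa l), fun r l => cesW r (aa (l + 2)) - cesW r (aa l),
    fun r l => ?_, fun r l => ⟨?_, ?_⟩, fun l => ?_, fun l => ?_, fun r l x => ?_⟩
  · refine lp.ext (funext fun j => ?_)
    change B.pr 0 (r + 1) (cesOp r x) j = _
    rw [p0]
    split_ifs with hj
    · rfl
    · rw [ces_apply, cesW_one ((ces_aa_ge _).trans (not_lt.1 hj)), sub_self, zero_mul]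
  · have := ces_norm zero_le_one (x := x) (y := cesOp r x) fun j => by
      rw [ces_apply, abs_mul, abs_of_nonneg (sub_nonneg.2 (cesW_le r j))]
      exact mul_le_mul_of_nonneg_right (by linarith [cesW_nonneg r j]) (abs_nonneg _)
    rwa [one_mul] at this
  · rw [Metric.tendsto_atTop]
    intro ε hε
    obtain ⟨R, hR⟩ := (Metric.tendsto_atTop.1 (B.dense x)) (ε / 2) (by positivity)
    have h1 : ‖x - B.pr 0 R x‖ < ε / 2 := by
      have := hR R le_rfl
      rw [dist_comm, dist_eq_norm] at this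
      rwa [Blocks.pr, _root_.sum_apply, ← range_eq_Ico]
    have h2 := ((cesW_lim (aa R)).mul_const ‖B.pr 0 R x‖)
    rw [zero_mul] at h2
    obtain ⟨N, hN⟩ := eventually_atTop.1 (h2.eventually_lt_const (show 0 < ε / 2 by positivity))
    refine ⟨N, fun r hr => ?_⟩
    have h3 := ces_norm zero_le_one (x := x - B.pr 0 R x)
      (y := (x - B.pr 0 R x) - cesOp r (x - B.pr 0 R x)) fun j => by
        rw [d1, abs_mul, abs_of_nonneg (cesW_nonneg r j)]
        exact mul_le_mul_of_nonneg_right (cesW_le r j) (abs_nonneg _)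
    have h4 := ces_norm (cesW_nonneg r (aa R)) (x := B.pr 0 R x)
      (y := B.pr 0 R x - cesOp r (B.pr 0 R x)) fun j => by
        rw [d1, abs_mul, abs_of_nonneg (cesW_nonneg r j), p0]
        split_ifs with hj
        · exact mul_le_mul_of_nonneg_right (cesW_mono r hj.le) (abs_nonneg _)
        · simp
    have h5 : x - cesOp r x = ((x - B.pr 0 R x) - cesOp r (x - B.pr 0 R x)) +
        (B.pr 0 R x - cesOp r (B.pr 0 R x)) := by
      rw [map_sub]
      abel
    have h6 := hN r hr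
    rw [dist_comm, dist_eq_norm, h5]
    refine (norm_add_le _ _).trans_lt ?_
    linarith
  · exact ⟨sub_nonneg.2 (cesW_le _ _), by linarith [cesW_nonneg r (aa l)]⟩
  · exact sub_nonneg.2 (cesW_mono r (ces_aa_mono (Nat.le_add_right l 2)))
  · have hr : (0 : ℝ) < r + 1 := by positivity
    beta_reduce
    rcases le_total (r + 1) (aa l) with h | h
    · rw [cesW_one h, cesW_one (h.trans (ces_aa_mono (Nat.le_add_right l 2))), sub_self, mul_zero]
      positivity
    · have h1 : (aa l : ℝ) / (r + 1) ≤ 1 := (div_le_one hr).2 (by exact_mod_cast h)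
      have h2 : cesW r (aa (l + 2)) - cesW r (aa l) ≤ ((aa (l + 2) : ℝ) - aa l) / (r + 1) := by
        rw [sub_div, cesW, cesW, min_eq_right h1]
        linarith [min_le_right 1 ((aa (l + 2) : ℝ) / (r + 1))]
      calc (l : ℝ) * (cesW r (aa (l + 2)) - cesW r (aa l))
          ≤ l * (((aa (l + 2) : ℝ) - aa l) / (r + 1)) :=
            mul_le_mul_of_nonneg_left h2 (Nat.cast_nonneg _)
        _ = l * ((aa (l + 2) : ℝ) - aa l) / (r + 1) := by ring
        _ ≤ 98 * 3 ^ 48 * aa l / (r + 1) := div_le_div_of_nonneg_right (ces_gr l) hr.le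
        _ = 98 * 3 ^ 48 * ((aa l : ℝ) / (r + 1)) := by ring
        _ ≤ 98 * 3 ^ 48 := mul_le_of_le_one_right (by positivity) h1
  · simpa using (tendsto_const_nhds (x := (1 : ℝ))).sub (cesW_lim (aa l))
  · simpa using (cesW_lim (aa (l + 2))).sub (cesW_lim (aa l))
  · refine ces_norm (sub_nonneg.2 (cesW_mono r (ces_aa_mono (Nat.le_add_right l 2)))) fun j => ?_
    rw [lp.coeFn_sub, Pi.sub_apply, lp.coeFn_smul, Pi.smul_apply, p1, p1, smul_eq_mul]
    split_ifs with hj
    · rw [ces_apply, ← sub_mul, abs_mul]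
      refine mul_le_mul_of_nonneg_right (abs_le.2 ⟨?_, ?_⟩) (abs_nonneg _)
      · linarith [cesW_mono r hj.2.le]
      · linarith [cesW_mono r hj.2.le, cesW_mono r hj.1]
    · simp

end Pool.Agent.P.MP_f511bc_an.Nf
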