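import Mathlib

/-! The numbers in the union bound. -/

open Finset Filter

namespace Pool.Agent.P.MP_f511bc_an.Nf

theorem cn_vol {κ : ℕ} {ρ β : ℝ} (hρ : 0 ≤ ρ) (hβ : 0 < β) (h : 150 * ρ ≤ β * √κ) :
    (2 * (3 * ρ / β * √κ)) ^ κ / κ.factorial ≤ (1 / 8 : ℝ) ^ κ := by
  have h0 : (0 : ℝ) ≤ κ := Nat.cast_nonneg _
  have h1 : 2 * (3 * ρ / β * √κ) ≤ κ / 25 := by
    have h2 : 3 * ρ / β ≤ √κ / 50 := by
      rw [div_le_iff₀ hβ]
      linarith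
    have h3 := mul_le_mul_of_nonneg_right h2 (Real.sqrt_nonneg (κ : ℝ))
    have h4 := Real.mul_self_sqrt h0
    linarith
  have h5 : Real.exp κ ≤ (25 / 8 : ℝ) ^ κ := by
    rw [← Real.exp_one_pow]
    exact pow_le_pow_left₀ (Real.exp_pos _).le (by linarith [Real.exp_one_lt_d9]) _
  calc (2 * (3 * ρ / β * √κ)) ^ κ / κ.factorial ≤ ((κ : ℝ) / 25) ^ κ / κ.factorial := by
        gcongr
    _ = (κ : ℝ) ^ κ / κ.factorial * (1 / 25) ^ κ := by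
        rw [div_pow, one_div_pow]
        ring
    _ ≤ (25 / 8 : ℝ) ^ κ * (1 / 25) ^ κ :=
        mul_le_mul_of_nonneg_right ((Real.pow_div_factorial_le_exp _ h0 κ).trans h5)
          (by positivity)
    _ = (1 / 8 : ℝ) ^ κ := by
        rw [← mul_pow]
        norm_num

theorem cn_abs {k p q m I N r κ : ℕ} {ρ β : ℝ} (hρ : 0 ≤ ρ) (hβ : 0 < β)
    (h : 150 * ρ ≤ β * √κ) (hm : 2 * m + 1 ≤ 2 ^ k) (hI : 2 * (I + N) + 1 ≤ 2 ^ k)
    (hr : k * r ≤ κ) (hκ : 1 ≤ κ) (hN : k * (q * p) + (k + 4) ≤ N) :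
    ((2 * m + 1) ^ (q * p) : ℕ) * ENNReal.ofReal ((2 * (I + N) + 1) ^ r *
      ((2 * (3 * ρ / β * √κ)) ^ κ / κ.factorial)) ^ N ≤
      ENNReal.ofReal ((1 / 2) ^ (k + 4)) := by
  have h1 : (2 * ((I : ℝ) + N) + 1) ^ r ≤ 2 ^ κ := by
    have h2 : (2 * (I + N) + 1) ^ r ≤ 2 ^ κ :=
      (Nat.pow_le_pow_left hI r).trans (by
        rw [← pow_mul]
        exact Nat.pow_le_pow_right two_pos hr)
    exact_mod_cast h2
  have h2 : (2 * ((I : ℝ) + N) + 1) ^ r * ((2 * (3 * ρ / β * √κ)) ^ κ / κ.factorial) ≤ 1 / 2 := by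
    calc (2 * ((I : ℝ) + N) + 1) ^ r * ((2 * (3 * ρ / β * √κ)) ^ κ / κ.factorial)
        ≤ 2 ^ κ * (1 / 8) ^ κ :=
          mul_le_mul h1 (cn_vol hρ hβ h) (by positivity) (by positivity)
      _ = (1 / 4) ^ κ := by
          rw [← mul_pow]
          norm_num
      _ ≤ (1 / 4) ^ 1 := pow_le_pow_of_le_one (by norm_num) (by norm_num) hκ
      _ ≤ 1 / 2 := by norm_num
  have h3 : (((2 * m + 1) ^ (q * p) : ℕ) : ℝ) ≤ 2 ^ (k * (q * p)) := by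
    have h4 : (2 * m + 1) ^ (q * p) ≤ 2 ^ (k * (q * p)) := by
      rw [pow_mul 2 k]
      exact Nat.pow_le_pow_left hm _
    exact_mod_cast h4
  have h4 : (2 : ℝ) ^ (k * (q * p)) * (1 / 2) ^ N ≤ (1 / 2) ^ (k + 4) := by
    calc (2 : ℝ) ^ (k * (q * p)) * (1 / 2) ^ N
        ≤ 2 ^ (k * (q * p)) * (1 / 2) ^ (k * (q * p) + (k + 4)) :=
          mul_le_mul_of_nonneg_left (pow_le_pow_of_le_one (by norm_num) (by norm_num) hN)
            (by positivity)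
      _ = (1 / 2) ^ (k + 4) := by
          rw [pow_add (1 / 2 : ℝ) (k * (q * p)), ← mul_assoc, ← mul_pow]
          norm_num
  calc ((2 * m + 1) ^ (q * p) : ℕ) * ENNReal.ofReal ((2 * (I + N) + 1) ^ r *
        ((2 * (3 * ρ / β * √κ)) ^ κ / κ.factorial)) ^ N
      ≤ ENNReal.ofReal (2 ^ (k * (q * p))) * ENNReal.ofReal (1 / 2) ^ N := by
        refine mul_le_mul' ?_ (pow_le_pow_left' (ENNReal.ofReal_le_ofReal h2) N)
        rw [← ENNReal.ofReal_natCast]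
        exact ENNReal.ofReal_le_ofReal h3
    _ = ENNReal.ofReal (2 ^ (k * (q * p)) * (1 / 2) ^ N) := by
        rw [← ENNReal.ofReal_pow (by norm_num), ← ENNReal.ofReal_mul (by positivity)]
    _ ≤ _ := ENNReal.ofReal_le_ofReal h4

theorem cn_poly (d : ℕ) : ∀ᶠ k : ℕ in atTop, k ^ d ≤ 2 ^ k := by
  have h := (tendsto_pow_const_div_const_pow_of_one_lt d (r := 2) one_lt_two).eventually
    (gt_mem_nhds one_pos)
  filter_upwards [h] with k hk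
  rw [div_lt_one (by positivity)] at hk
  exact_mod_cast hk.le

theorem cn_nat : ∃ k0 : ℕ, 4 ≤ k0 ∧ ∀ k, k0 ≤ k → ∀ p q m I N r κ : ℕ, p ≤ 2 * (k + 2) ^ 48 →
    q ≤ (2 * k ^ 6) ^ 49 → m ≤ 4 * k ^ 7 * (p * q) → I ≤ (2 * k ^ 6) ^ 401 → N = (k + 1) ^ 400 →
    r ≤ 512 * k ^ 18 → (k + 1) ^ 48 / 100 ≤ κ →
    2 * m + 1 ≤ 2 ^ k ∧ 2 * (I + N) + 1 ≤ 2 ^ k ∧ k * r ≤ κ ∧ 1 ≤ κ ∧
      k * (q * p) + (k + 4) ≤ N := by
  obtain ⟨k0, h0⟩ := eventually_atTop.1 (((cn_poly 400).and (cn_poly (3 + 7 * 401))).and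
    (eventually_ge_atTop 4))
  refine ⟨max k0 4, le_max_right _ _, fun k hk p q m I N r κ hp hq hm hI hN hr hκ => ?_⟩
  obtain ⟨⟨a1, a2⟩, h4⟩ := h0 k ((le_max_left _ _).trans hk)
  have kp : ∀ n, 1 ≤ k ^ n := fun n => Nat.one_le_pow _ _ (by omega)
  have b1 : p ≤ 2 * (2 * k) ^ 48 :=
    hp.trans (Nat.mul_le_mul_left _ (Nat.pow_le_pow_left (by omega) _))
  have b2 : 4 ^ 49 ≤ k ^ 49 := Nat.pow_le_pow_left h4 _
  have b3 : p * q ≤ k ^ 391 :=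
    calc p * q ≤ 2 * (2 * k) ^ 48 * (2 * k ^ 6) ^ 49 := Nat.mul_le_mul b1 hq
      _ = 4 ^ 49 * k ^ 342 := by ring
      _ ≤ k ^ 49 * k ^ 342 := Nat.mul_le_mul_right _ b2
      _ = k ^ 391 := by rw [← pow_add]
  have b4 : m ≤ k ^ 399 :=
    calc m ≤ 4 * k ^ 7 * (p * q) := hm
      _ ≤ k * k ^ 7 * k ^ 391 := Nat.mul_le_mul (Nat.mul_le_mul_right _ h4) b3
      _ = k ^ 399 := by rw [← pow_succ', ← pow_add]
  have b5 : 2 * k ^ 6 ≤ k ^ 7 := by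
    rw [pow_succ' k 6]
    exact Nat.mul_le_mul_right _ (by omega)
  have b6 : I ≤ k ^ (7 * 401) := by
    rw [pow_mul]
    exact hI.trans (Nat.pow_le_pow_left b5 _)
  have b7 : N ≤ k ^ (7 * 401) := by
    rw [pow_mul, hN]
    have c1 : k + 1 ≤ k ^ 7 := by
      have := Nat.le_self_pow (n := 6) (by norm_num) k
      omega
    exact (Nat.pow_le_pow_left c1 _).trans (Nat.pow_le_pow_right (kp 7) (by norm_num))
  have b8 : k * (512 * k ^ 18) ≤ (k + 1) ^ 48 / 100 := by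
    rw [Nat.le_div_iff_mul_le (by norm_num)]
    calc k * (512 * k ^ 18) * 100 = 51200 * k ^ 19 := by ring
      _ ≤ k ^ 29 * k ^ 19 := Nat.mul_le_mul_right _
          ((show 51200 ≤ 4 ^ 29 by norm_num).trans (Nat.pow_le_pow_left h4 _))
      _ = k ^ 48 := by rw [← pow_add]
      _ ≤ (k + 1) ^ 48 := Nat.pow_le_pow_left (Nat.le_succ k) _
  refine ⟨le_trans ?_ a1, le_trans ?_ a2, ((Nat.mul_le_mul_left _ hr).trans b8).trans hκ,
    le_trans ?_ (b8.trans hκ), ?_⟩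
  · have c1 : 4 * k ^ 399 ≤ k ^ 400 := by
      rw [pow_succ' k 399]
      exact Nat.mul_le_mul_right _ h4
    have := kp 399
    omega
  · have c1 : 4 ^ 3 * k ^ (7 * 401) ≤ k ^ (3 + 7 * 401) := by
      rw [pow_add]
      exact Nat.mul_le_mul_right _ (Nat.pow_le_pow_left h4 _)
    have := kp (7 * 401)
    generalize k ^ (7 * 401) = X at *
    omega
  · exact Nat.mul_pos (by omega) (Nat.mul_pos (by norm_num) (kp 18))
  · have c1 : k * (q * p) ≤ k ^ 392 := by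
      rw [pow_succ' k 391, mul_comm q p]
      exact Nat.mul_le_mul_left _ b3
    have c2 : 4 * k ^ 392 ≤ k ^ 393 := by
      rw [pow_succ' k 392]
      exact Nat.mul_le_mul_right _ h4
    have c3 : k ≤ k ^ 392 := Nat.le_self_pow (by norm_num) k
    have c4 : k ^ 393 ≤ N := by
      rw [hN]
      exact (Nat.pow_le_pow_right (by omega) (by norm_num)).trans
        (Nat.pow_le_pow_left (Nat.le_succ k) 400)
    omega

theorem cnum : ∃ k0 : ℕ, 4 ≤ k0 ∧ ∀ k, k0 ≤ k → ∀ (p q m I N r κ : ℕ) (ρ β : ℝ),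
    p ≤ 2 * (k + 2) ^ 48 → q ≤ (2 * k ^ 6) ^ 49 → m ≤ 4 * k ^ 7 * (p * q) →
    I ≤ (2 * k ^ 6) ^ 401 → N = (k + 1) ^ 400 → r ≤ 512 * k ^ 18 → (k + 1) ^ 48 / 100 ≤ κ →
    0 ≤ ρ → 0 < β → 150 * ρ ≤ β * √κ →
    ((2 * m + 1) ^ (q * p) : ℕ) * ENNReal.ofReal ((2 * (I + N) + 1) ^ r *
      ((2 * (3 * ρ / β * √κ)) ^ κ / κ.factorial)) ^ N ≤
      ENNReal.ofReal ((1 / 2) ^ (k + 4)) := by
  obtain ⟨k0, h0, h⟩ := cn_nat
  refine ⟨k0, h0, fun k hk p q m I N r κ ρ β a1 a2 a3 a4 a5 a6 a7 hρ hβ h1 => ?_⟩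
  obtain ⟨b1, b2, b3, b4, b5⟩ := h k hk p q m I N r κ a1 a2 a3 a4 a5 a6 a7
  exact cn_abs hρ hβ h1 b1 b2 b3 b4 b5

end Pool.Agent.P.MP_f511bc_an.Nf
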