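import Mathlib

open Finset Module

namespace Pool.Agent.P.MP_f511bc_an.Nf

variable {W Y : Type*} [NormedAddCommGroup W] [InnerProductSpace ℝ W] [FiniteDimensional ℝ W]
  [NormedAddCommGroup Y] [InnerProductSpace ℝ Y] [FiniteDimensional ℝ Y]

theorem nt_l1 {ι : Type*} [Fintype ι] : IsCompact {a : ι → ℝ | ∑ j, |a j| ≤ 1} := by
  refine Metric.isCompact_of_isClosed_isBounded (isClosed_le (by fun_prop) continuous_const)
    ((Metric.isBounded_closedBall (x := (0 : ι → ℝ)) (r := 1)).subset fun a ha => ?_)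
  rw [mem_closedBall_zero_iff, pi_norm_le_iff_of_nonneg zero_le_one]
  exact fun j => (single_le_sum (f := fun j => |a j|) (fun _ _ => abs_nonneg _)
    (mem_univ j)).trans ha

theorem nt_closed {X ι : Type*} [TopologicalSpace X] [Fintype ι] (R ρ : ℝ) (z : X → Y)
    (y : X → ι → Y) (hz : Continuous z) (hy : ∀ i, Continuous fun x => y x i) :
    IsClosed {x | ∃ (b : Y) (a : ι → ℝ), ‖b‖ ≤ R ∧ ∑ i, |a i| ≤ 1 ∧
      z x = ρ • (b + ∑ i, a i • y x i)} := by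
  have hC := (isCompact_closedBall (0 : Y) R).prod (nt_l1 (ι := ι))
  have := isCompact_iff_compactSpace.1 hC
  have h1 : IsClosed {p : X × ↥(Metric.closedBall (0 : Y) R ×ˢ {a : ι → ℝ | ∑ j, |a j| ≤ 1}) |
      z p.1 = ρ • (p.2.1.1 + ∑ i, p.2.1.2 i • y p.1 i)} :=
    isClosed_eq (hz.comp continuous_fst) (Continuous.const_smul (Continuous.add (by fun_prop)
      (continuous_finsetSum _ fun i _ =>
        Continuous.smul (by fun_prop) ((hy i).comp continuous_fst))) ρ)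
  have h2 := isClosedMap_fst_of_compactSpace _ h1
  refine (congrArg IsClosed (Set.ext fun x => ?_)).mp h2
  constructor
  · rintro ⟨⟨_, ⟨b, a⟩, hb, ha⟩, h, rfl⟩
    exact ⟨b, a, mem_closedBall_zero_iff.1 hb, ha, h⟩
  · rintro ⟨b, a, hb, ha, h⟩
    exact ⟨(x, ⟨(b, a), mem_closedBall_zero_iff.2 hb, ha⟩), h, rfl⟩

theorem nt_hb {ι : Type*} [Fintype ι] (y : ι → Y) (z : Y) (ρ : ℝ)
    (h : ∀ (x : Y) (t : ℝ), 0 ≤ t → (∀ i, |inner ℝ (y i) x| ≤ t) → inner ℝ z x ≤ ρ * (‖x‖ + t)) :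
    ∃ (b : Y) (a : ι → ℝ), ‖b‖ ≤ 1 ∧ ∑ i, |a i| ≤ 1 ∧ z = ρ • (b + ∑ i, a i • y i) := by
  classical
  by_contra hz
  have hcl := nt_closed 1 ρ (fun x : Y => x) (fun _ => y) continuous_id fun _ => continuous_const
  have hcv : Convex ℝ {x : Y | ∃ (b : Y) (a : ι → ℝ), ‖b‖ ≤ 1 ∧ ∑ i, |a i| ≤ 1 ∧
      x = ρ • (b + ∑ i, a i • y i)} := by
    rintro _ ⟨b, a, hb, ha, rfl⟩ _ ⟨b', a', hb', ha', rfl⟩ s t hs ht hst
    refine ⟨s • b + t • b', fun j => s * a j + t * a' j, ?_, ?_, ?_⟩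
    · refine (norm_add_le _ _).trans ?_
      rw [norm_smul, norm_smul, Real.norm_of_nonneg hs, Real.norm_of_nonneg ht]
      nlinarith
    · calc ∑ j, |s * a j + t * a' j| ≤ ∑ j, (s * |a j| + t * |a' j|) := by
            refine sum_le_sum fun j _ => (abs_add_le _ _).trans ?_
            rw [abs_mul, abs_mul, abs_of_nonneg hs, abs_of_nonneg ht]
        _ = s * ∑ j, |a j| + t * ∑ j, |a' j| := by rw [sum_add_distrib, mul_sum, mul_sum]
        _ ≤ 1 := by nlinarith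
    · simp only [add_smul, sum_add_distrib, mul_smul, ← smul_sum]
      module
  obtain ⟨f, u, h1, h2⟩ := geometric_hahn_banach_closed_point hcv hcl hz
  have : CompleteSpace Y := FiniteDimensional.complete ℝ Y
  obtain ⟨x, hx⟩ : ∃ x : Y, ∀ v, f v = inner ℝ v x :=
    ⟨(InnerProductSpace.toDual ℝ Y).symm f, fun v => by
      rw [real_inner_comm, InnerProductSpace.toDual_symm_apply]⟩
  obtain ⟨t, a, ht, hyt, ha, hat⟩ : ∃ (t : ℝ) (a : ι → ℝ), 0 ≤ t ∧ (∀ i, |inner ℝ (y i) x| ≤ t) ∧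
      ∑ i, |a i| ≤ 1 ∧ inner ℝ (∑ i, a i • y i) x = t := by
    rcases isEmpty_or_nonempty ι with hι | hι
    · exact ⟨0, 0, le_rfl, fun i => isEmptyElim i, by simp, by simp⟩
    · obtain ⟨j, -, hj⟩ := exists_max_image univ (fun i => |inner ℝ (y i) x|) univ_nonempty
      obtain ⟨s, hs, hs'⟩ : ∃ s : ℝ, |s| = 1 ∧ s * inner ℝ (y j) x = |inner ℝ (y j) x| := by
        rcases le_total 0 (inner ℝ (y j) x) with h0 | h0
        · exact ⟨1, abs_one, by rw [one_mul, abs_of_nonneg h0]⟩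
        · exact ⟨-1, by simp, by rw [neg_one_mul, abs_of_nonpos h0]⟩
      refine ⟨_, Pi.single j s, abs_nonneg _, fun i => hj i (mem_univ i), ?_, ?_⟩
      · rw [sum_eq_single j (fun i _ hi => by simp [hi]) (by simp)]
        simpa using hs.le
      · rw [sum_eq_single j (fun i _ hi => by simp [hi]) (by simp), Pi.single_eq_same,
          real_inner_smul_left, hs']
  have hb : ‖‖x‖⁻¹ • x‖ ≤ 1 := by
    rw [norm_smul, norm_inv, norm_norm]
    exact inv_mul_le_one_of_le₀ le_rfl (norm_nonneg _)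
  have hb' : inner ℝ (‖x‖⁻¹ • x) x = ‖x‖ := by
    rw [real_inner_smul_left, real_inner_self_eq_norm_sq]
    by_cases h0 : ‖x‖ = 0
    · simp [h0]
    · field_simp
  have h3 := h1 _ ⟨_, a, hb, ha, rfl⟩
  rw [hx, real_inner_smul_left, inner_add_left, hb', hat] at h3
  have h4 := h x t ht hyt
  rw [← hx] at h4
  linarith

theorem nt_net {p q : ℕ} (hp : finrank ℝ W = p) (hq : finrank ℝ Y = q) (m : ℕ) {ρ δ : ℝ}
    (hρ : 0 < ρ) (hδ : 0 ≤ δ) (h : p * q * ρ ^ 2 ≤ δ ^ 2) :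
    ∃ F : (Fin q × Fin p → Fin (2 * m + 1)) → W →ₗ[ℝ] Y, ∀ S : W →ₗ[ℝ] Y,
      (∀ x, ‖S x‖ ≤ m * ρ * ‖x‖) → ∃ d, ∀ x, ‖F d x - S x‖ ≤ δ * ‖x‖ := by
  let e : OrthonormalBasis (Fin p) ℝ W := (stdOrthonormalBasis ℝ W).reindex (finCongr hp)
  let f : OrthonormalBasis (Fin q) ℝ Y := (stdOrthonormalBasis ℝ Y).reindex (finCongr hq)
  refine ⟨fun d => e.toBasis.constr ℝ fun b => ∑ a, ((((d (a, b) : ℕ) : ℝ) - m) * ρ) • f a,
    fun S hS => ?_⟩
  have h1 : ∀ a b, ∃ d : Fin (2 * m + 1),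
      |(((d : ℕ) : ℝ) - m) * ρ - inner ℝ (f a) (S (e b))| ≤ ρ := by
    intro a b
    set s := inner ℝ (f a) (S (e b)) with hs
    have h2 : |s| ≤ m * ρ := by
      have := abs_real_inner_le_norm (f a) (S (e b))
      have h3 := hS (e b)
      rw [e.orthonormal.1 b, mul_one] at h3
      rw [f.orthonormal.1 a, one_mul] at this
      exact this.trans h3
    obtain ⟨h3, h4⟩ := abs_le.1 h2
    have h5 : 0 ≤ s / ρ + m := by
      rw [← neg_le_iff_add_nonneg, le_div_iff₀ hρ]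
      linarith
    have h6 : s / ρ ≤ m := (div_le_iff₀ hρ).2 h4
    have h7 := Nat.floor_le h5
    have h8 := Nat.lt_floor_add_one (s / ρ + m)
    refine ⟨⟨⌊s / ρ + m⌋₊, Nat.lt_succ_of_le (Nat.floor_le_of_le (by push_cast; linarith))⟩, ?_⟩
    have h9 : s = s / ρ * ρ := (div_mul_cancel₀ s hρ.ne').symm
    rw [abs_le]
    constructor <;> nlinarith
  choose d hd using h1
  refine ⟨fun c => d c.1 c.2, fun x => le_of_sq_le_sq ?_ (by positivity)⟩
  rw [← f.sum_sq_norm_inner_right]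
  have h2 : ∀ a, ‖inner ℝ (f a) ((e.toBasis.constr ℝ fun b =>
      ∑ a, ((((d a b : ℕ) : ℝ) - m) * ρ) • f a) x - S x)‖ ^ 2 ≤ p * ρ ^ 2 * ‖x‖ ^ 2 := by
    intro a
    have h3 : inner ℝ (f a) ((e.toBasis.constr ℝ fun b =>
        ∑ a, ((((d a b : ℕ) : ℝ) - m) * ρ) • f a) x - S x) =
        ∑ b, ((((d a b : ℕ) : ℝ) - m) * ρ - inner ℝ (f a) (S (e b))) * inner ℝ (e b) x := by
      conv_lhs => rw [← e.sum_repr' x]
      rw [map_sum, map_sum, ← sum_sub_distrib, inner_sum]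
      refine sum_congr rfl fun b _ => ?_
      rw [map_smul, map_smul, ← smul_sub, real_inner_smul_right, inner_sub_right, mul_comm,
        ← e.coe_toBasis, Basis.constr_basis, f.orthonormal.inner_right_fintype]
    rw [h3, Real.norm_eq_abs, sq_abs]
    refine (sum_mul_sq_le_sq_mul_sq _ _ _).trans (mul_le_mul ?_ (le_of_eq ?_)
      (sum_nonneg fun _ _ => sq_nonneg _) (by positivity))
    · refine (sum_le_card_nsmul _ _ (ρ ^ 2) fun b _ => ?_).trans (by simp)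
      rw [← sq_abs]
      exact pow_le_pow_left₀ (abs_nonneg _) (hd a b) 2
    · simpa using e.sum_sq_norm_inner_right x
  refine (sum_le_card_nsmul _ _ _ fun a _ => h2 a).trans ?_
  rw [card_univ, Fintype.card_fin, nsmul_eq_mul, mul_pow]
  nlinarith [mul_le_mul_of_nonneg_right h (sq_nonneg ‖x‖)]

end Pool.Agent.P.MP_f511bc_an.Nf
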