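import Pool.Agent.P.MP_f511bc_an.Nf.PtRaw
import Pool.Agent.P.MP_f511bc_an.Nf.Net

open Finset Module MeasureTheory ProbabilityTheory

namespace Pool.Agent.P.MP_f511bc_an.Nf

theorem cs_norm {V : Type*} [NormedAddCommGroup V] [InnerProductSpace ℝ V] {k : ℕ}
    {u : Fin k → V} (hu : Orthonormal ℝ u) (c : Fin k → ℝ) :
    ‖∑ a, c a • u a‖ ^ 2 = ∑ a, c a ^ 2 := by
  rw [← real_inner_self_eq_norm_sq, hu.inner_sum]
  simp [sq]

theorem core_set {W Y : Type*} [NormedAddCommGroup W] [InnerProductSpace ℝ W]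
    [FiniteDimensional ℝ W] [MeasurableSpace W] [BorelSpace W] [NormedAddCommGroup Y]
    [InnerProductSpace ℝ Y] [FiniteDimensional ℝ Y] {p q k N r : ℕ} (m : ℕ) (ι : Type) [Fintype ι]
    (hp : finrank ℝ W = p) (hq : finrank ℝ Y = q) (emb : W →ₗ[ℝ] Y) (hemb : ∀ x, ‖emb x‖ ≤ ‖x‖)
    {β L hi ρ s η δ : ℝ} (hβ : 0 < β) (hhi : 0 ≤ hi) (hρ : 0 < ρ) (hs : 0 ≤ s) (hsL : s * hi ≤ L)
    (hr : 0 < r) (hLr : L ^ 2 ≤ r) (hη : 0 < η) (hδ : 0 ≤ δ) (hpq : p * q * η ^ 2 ≤ δ ^ 2)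
    (hδβ : δ ≤ β) (hδρ : δ * hi ≤ ρ) :
    ∃ B : Set ((ι → Y) × (Fin N → W)), IsClosed B ∧
      (∀ y, (Measure.pi fun _ : Fin N => stdGaussian W) {g | (y, g) ∈ B} ≤
        ((2 * m + 1) ^ (q * p) : ℕ) * ENNReal.ofReal ((2 * (Fintype.card ι + N) + 1) ^ r *
          ((2 * (3 * ρ / β * √k)) ^ k / k.factorial)) ^ N) ∧
      ∀ y g, (y, g) ∉ B → (∀ i, ‖y i‖ ≤ L) → (∀ j, ‖g j‖ ≤ hi) → ∀ T : Y →ₗ[ℝ] W,
        (∀ x, ‖T x‖ ≤ m * η * ‖x‖) →
        (∀ j x t, 0 ≤ t → (∀ i, |inner ℝ (y i) x| ≤ t) → (∀ i, s * |inner ℝ (emb (g i)) x| ≤ t) →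
          inner ℝ (g j) (T x) ≤ ρ * (‖x‖ + t)) →
        ∀ (v : Fin k → Y) (w : Fin k → W), Orthonormal ℝ v → Orthonormal ℝ w →
          (∀ a b, inner ℝ (v a) (emb (w b)) = 0) →
          ¬ ∀ c : Fin k → ℝ, 2 * β * ∑ a, c a ^ 2 ≤
            inner ℝ (T (∑ a, c a • v a)) (∑ a, c a • w a) := by
  classical
  obtain ⟨F, hF⟩ := nt_net hp hq m hη hδ hpq
  let Gd : (Fin q × Fin p → Fin (2 * m + 1)) → Prop := fun d =>
    ∃ (v : Fin k → Y) (w : Fin k → W), Orthonormal ℝ v ∧ Orthonormal ℝ w ∧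
      (∀ a b, inner ℝ (v a) (emb (w b)) = 0) ∧
      ∀ c : Fin k → ℝ, β * ∑ a, c a ^ 2 ≤ inner ℝ (∑ a, c a • v a) (F d (∑ a, c a • w a))
  let E : (Fin q × Fin p → Fin (2 * m + 1)) → Set ((ι → Y) × (Fin N → W)) := fun d =>
    {z | Gd d ∧ (∀ i, ‖z.1 i‖ ≤ L) ∧ (∀ j, ‖z.2 j‖ ≤ hi) ∧ ∀ j, ∃ (b : Y) (a : ι ⊕ Fin N → ℝ),
      ‖b‖ ≤ 2 ∧ ∑ i, |a i| ≤ 1 ∧
        F d (z.2 j) = ρ • (b + ∑ i, a i • Sum.elim z.1 (fun i => s • emb (z.2 i)) i)}
  have hE : ∀ d, IsClosed (E d) := by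
    intro d
    have he := emb.continuous_of_finiteDimensional
    have hf := (F d).continuous_of_finiteDimensional
    simp only [E, Set.ofPred_and, Set.ofPred_forall]
    refine isClosed_const.inter ((isClosed_iInter fun i => isClosed_le (by fun_prop)
      continuous_const).inter ((isClosed_iInter fun i => isClosed_le (by fun_prop)
      continuous_const).inter (isClosed_iInter fun j => ?_)))
    refine nt_closed 2 ρ (fun z : (ι → Y) × (Fin N → W) => F d (z.2 j))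
      (fun z => Sum.elim z.1 fun i => s • emb (z.2 i)) (by fun_prop) ?_
    rintro (i | i)
    · exact (continuous_apply i).comp continuous_fst
    · exact (he.comp ((continuous_apply i).comp continuous_snd)).const_smul s
  refine ⟨⋃ d, E d, isClosed_iUnion_of_finite hE, fun y => ?_,
    fun y g hB hy hg T hT hb v w hv hw hvw hc => hB ?_⟩
  · have e : {g | (y, g) ∈ ⋃ d, E d} = ⋃ d, {g | (y, g) ∈ E d} := by
      ext g
      simp only [Set.mem_ofPred_eq, Set.mem_iUnion]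
    rw [e]
    refine (measure_iUnion_fintype_le _ _).trans ((sum_le_card_nsmul _ _
      (ENNReal.ofReal ((2 * (Fintype.card ι + N) + 1) ^ r *
        ((2 * (3 * ρ / β * √k)) ^ k / k.factorial)) ^ N) fun d _ => ?_).trans (le_of_eq ?_))
    · rcases Set.eq_empty_or_nonempty {g | (y, g) ∈ E d} with h0 | ⟨g0, ⟨v, w, hv, hw, hvw, hc⟩,
        hy, -⟩
      · rw [h0, measure_empty]
        exact zero_le
      · exact pt_raw emb (F d) hemb v w hv hw hvw hβ hc y hhi hρ.le hs hy hsL hr hLr _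
          ((hE d).preimage (Continuous.prodMk_right y)).measurableSet fun g hg => hg.2.2
    · simp [nsmul_eq_mul]
  · have hS : ∀ x, ‖LinearMap.adjoint T x‖ ≤ m * η * ‖x‖ := by
      intro x
      have h1 : ‖LinearMap.adjoint T x‖ ^ 2 ≤ ‖x‖ * (m * η * ‖LinearMap.adjoint T x‖) := by
        rw [← real_inner_self_eq_norm_sq, LinearMap.adjoint_inner_left]
        exact (real_inner_le_norm _ _).trans (mul_le_mul_of_nonneg_left (hT _) (norm_nonneg _))
      rcases (norm_nonneg (LinearMap.adjoint T x)).eq_or_lt with h0 | h0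
      · rw [← h0]
        positivity
      · nlinarith
    obtain ⟨d, hd⟩ := hF _ hS
    refine Set.mem_iUnion.2 ⟨d, ⟨v, w, hv, hw, hvw, fun c => ?_⟩, hy, hg, fun j => ?_⟩
    · have h1 := hc c
      have h2 := cs_norm hv c
      have h3 := cs_norm hw c
      have h4 : ‖∑ a, c a • v a‖ = ‖∑ a, c a • w a‖ :=
        (pow_left_inj₀ (norm_nonneg _) (norm_nonneg _) two_ne_zero).1 (h2.trans h3.symm)
      have h5 := (abs_le.1 ((abs_real_inner_le_norm (∑ a, c a • v a) _).trans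
        (mul_le_mul_of_nonneg_left (hd (∑ a, c a • w a)) (norm_nonneg _)))).1
      rw [inner_sub_right, LinearMap.adjoint_inner_right, h4] at h5
      have h6 := mul_le_mul_of_nonneg_right hδβ (sq_nonneg ‖∑ a, c a • w a‖)
      rw [← h3] at h1 ⊢
      nlinarith
    · obtain ⟨b, a, h1, h2, h3⟩ := nt_hb (Sum.elim y fun i => s • emb (g i))
        (LinearMap.adjoint T (g j)) ρ fun x t ht hx => by
          rw [LinearMap.adjoint_inner_left]
          refine hb j x t ht (fun i => hx (Sum.inl i)) fun i => ?_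
          have := hx (Sum.inr i)
          rwa [Sum.elim_inr, real_inner_smul_left, abs_mul, abs_of_nonneg hs] at this
      refine ⟨b + ρ⁻¹ • (F d (g j) - LinearMap.adjoint T (g j)), a, ?_, h2, ?_⟩
      · have h4 : ‖ρ⁻¹ • (F d (g j) - LinearMap.adjoint T (g j))‖ ≤ 1 := by
          rw [norm_smul, norm_inv, Real.norm_of_nonneg hρ.le, inv_mul_le_iff₀ hρ, mul_one]
          exact (hd _).trans ((mul_le_mul_of_nonneg_left (hg j) hδ).trans hδρ)
        linarith [norm_add_le_of_le h1 h4]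
      · change F d (g j) = ρ • (_ + ∑ i, a i • Sum.elim y (fun i => s • emb (g i)) i)
        rw [add_right_comm, smul_add, ← h3, smul_inv_smul₀ hρ.ne', add_sub_cancel]

end Pool.Agent.P.MP_f511bc_an.Nf
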