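import Pool.Agent.P.MP_f511bc_an.Nf.BasicB
import Pool.Agent.P.MP_f511bc_an.Nf.CoreSet
import Pool.Agent.P.MP_f511bc_an.Nf.CoreN

/-! The mixing bound. -/

open Finset Module Filter Topology MeasureTheory ProbabilityTheory

universe u

namespace Pool.Agent.P.MP_f511bc_an.Nf

open Pool.Agent.P.MP_f511bc_an.Nb

variable {H : Type*} [NormedAddCommGroup H] [InnerProductSpace ℝ H]

theorem core_card (l : ℕ) : Fintype.card (Oth l) ≤ (2 * l ^ 6) ^ 401 := by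
  rw [Fintype.card_sigma, pow_succ' _ 400]
  refine (sum_le_card_nsmul _ _ ((2 * l ^ 6) ^ 400) fun m _ => ?_).trans
    (by rw [card_univ, Fintype.card_fin, smul_eq_mul])
  rw [Fintype.card_fin, NN]
  exact Nat.pow_le_pow_left (Nat.succ_le_of_lt m.2) 400

theorem core_dim (B : Blocks H) (l : ℕ) : finrank ℝ (B.S l (l + 2)) ≤ 2 * (l + 2) ^ 48 := by
  have e : Ico l (l + 2) = {l, l + 1} := by
    ext m
    simp only [mem_Ico, mem_insert, mem_singleton]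
    omega
  have h1 : nn l ≤ nn (l + 1) := nn_mono (Nat.le_succ l)
  have h2 : nn (l + 1) = (l + 2) ^ 48 := by rw [nn]
  rw [finrank_S, e, sum_pair (by omega), ← h2]
  omega

theorem core_yv {B : Blocks H} {u : ∀ l, Fin (NN l) → H} (h : Loc B u) (l : ℕ) (i : Oth l) :
    ‖yv B u l i‖ ≤ 2 * (l : ℝ) ^ 6 := by
  unfold yv
  split_ifs
  · rw [norm_zero]
    positivity
  · have h1 : ‖B.prS 0 (2 * l ^ 6) (u i.1 i.2)‖ ≤ 1 := (norm_pr_le B _ _ _).trans (h.le1 _ _)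
    have h2 : ((i.1 : ℕ) : ℝ) ≤ 2 * (l : ℝ) ^ 6 := by exact_mod_cast i.1.2.le
    rw [norm_smul, Real.norm_natCast]
    exact (mul_le_of_le_one_right (Nat.cast_nonneg _) h1).trans h2

theorem core_nE {u : ∀ l, Fin (NN l) → H} {l : ℕ} {x : H} {t : ℝ} (hl : 1 ≤ l) (ht : 0 ≤ t)
    (h : ∀ m, m < 2 * l ^ 6 → ∀ i, 2 * (l : ℝ) ^ 3 * ((m : ℝ) * |inner ℝ (u m i) x|) ≤ t) :
    nE u (2 * l ^ 6) x ≤ ‖x‖ + t := by
  have hl' : (0 : ℝ) < l := by exact_mod_cast hl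
  have hc : 0 < 2 * (l : ℝ) ^ 3 := by positivity
  have h1 : ∀ m ∈ range (2 * l ^ 6), pp u m x ^ 2 ≤ (t / (2 * (l : ℝ) ^ 3)) ^ 2 := fun m hm =>
    pow_le_pow_left₀ (pp_nonneg _ _) (pp_le (by positivity) fun i =>
      (le_div_iff₀' hc).2 (h m (mem_range.1 hm) i)) 2
  have h2 := sum_le_card_nsmul _ _ _ h1
  rw [card_range, nsmul_eq_mul] at h2
  have h3 : ((2 * l ^ 6 : ℕ) : ℝ) * (t / (2 * (l : ℝ) ^ 3)) ^ 2 = t ^ 2 / 2 := by
    push_cast
    field_simp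
  refine le_of_sq_le_sq ?_ (by positivity)
  rw [nE_sq]
  nlinarith [mul_nonneg (norm_nonneg x) ht, sq_nonneg t]

theorem core_num {l p q : ℕ} {z : ℝ} (hl : (100 : ℝ) ≤ l) (hz : 100 ≤ z) (hD : (16 : ℝ) ≤ p * q) :
    (0 < 15000 / (l : ℝ) ∧ 0 ≤ 7 * z ∧ 0 < 7 * z / l ∧ 0 ≤ 2 * (l : ℝ) ^ 3 * (2 * l / z) ∧
      2 * (l : ℝ) ^ 3 * (2 * l / z) * (7 * z) ≤ 4 * (l : ℝ) ^ 9 ∧ 0 < 16 * l ^ 18 ∧
      (4 * (l : ℝ) ^ 9) ^ 2 ≤ (16 * l ^ 18 : ℕ) ∧ 0 < 4 / ((l : ℝ) * (p * q)) ∧ 0 ≤ 1 / (l : ℝ) ∧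
      (p : ℝ) * q * (4 / (l * (p * q))) ^ 2 ≤ (1 / l) ^ 2 ∧ 1 / (l : ℝ) ≤ 15000 / l ∧
      1 / (l : ℝ) * (7 * z) ≤ 7 * z / l) ∧ 0 ≤ 2 * (l : ℝ) ^ 3 ∧
      3 * (((2 * l ^ 6 : ℕ) : ℝ) + 1) ≤ ((4 * l ^ 7 * (p * q) : ℕ) : ℝ) * (4 / (l * (p * q))) ∧
      ∀ n : ℕ, (n : ℝ) = z ^ 2 → 150 * (7 * z / l) ≤ 15000 / l * √((n / 100 : ℕ) : ℝ) := by
  have hl0 : (0 : ℝ) < l := by linarith
  have hl1 : 0 < l := by exact_mod_cast hl0
  have hz0 : 0 < z := by linarith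
  have hD0 : (0 : ℝ) < p * q := by linarith
  refine ⟨⟨by positivity, by positivity, by positivity, by positivity, ?_, by positivity,
    le_of_eq (by push_cast; ring), by positivity, by positivity, ?_,
    div_le_div_of_nonneg_right (by norm_num) hl0.le, le_of_eq (by ring)⟩, by positivity, ?_,
    fun n hn => ?_⟩
  · have e : 2 * (l : ℝ) ^ 3 * (2 * l / z) * (7 * z) = 4 * (l : ℝ) ^ 4 * 7 := by
      field_simp
      ring
    have h1 : (7 : ℝ) ≤ (l : ℝ) ^ 5 :=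
      (by linarith : (7 : ℝ) ≤ l).trans (le_self_pow₀ (by linarith) (by norm_num))
    rw [e, show 4 * (l : ℝ) ^ 9 = 4 * (l : ℝ) ^ 4 * (l : ℝ) ^ 5 by ring]
    exact mul_le_mul_of_nonneg_left h1 (by positivity)
  · have e : (p : ℝ) * q * (4 / (l * (p * q))) ^ 2 = (1 / l) ^ 2 * (16 / (p * q)) := by
      have : (p : ℝ) ≠ 0 := left_ne_zero_of_mul hD0.ne'
      have : (q : ℝ) ≠ 0 := right_ne_zero_of_mul hD0.ne'
      field_simp
      norm_num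
    rw [e]
    exact mul_le_of_le_one_right (by positivity) ((div_le_one hD0).2 hD)
  · have a3 : ((4 * l ^ 7 * (p * q) : ℕ) : ℝ) * (4 / (l * (p * q))) = 16 * (l : ℝ) ^ 6 := by
      have : (p : ℝ) ≠ 0 := left_ne_zero_of_mul hD0.ne'
      have : (q : ℝ) ≠ 0 := right_ne_zero_of_mul hD0.ne'
      push_cast
      field_simp
      norm_num
    have a4 : (1 : ℝ) ≤ (l : ℝ) ^ 6 := one_le_pow₀ (by linarith)
    rw [a3]
    push_cast
    linarith
  · have h1 : n < 100 * (n / 100 + 1) := Nat.lt_mul_div_succ _ (by norm_num)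
    have h2 : z ^ 2 < 100 * (((n / 100 : ℕ) : ℝ) + 1) := by
      rw [← hn]
      exact_mod_cast h1
    have hz2 : 10000 ≤ z ^ 2 := by nlinarith
    have h3 : 7 / 100 * z ≤ √((n / 100 : ℕ) : ℝ) := Real.le_sqrt_of_sq_le (by
      rw [mul_pow]
      linarith)
    rw [← mul_div_assoc, div_mul_eq_mul_div]
    exact div_le_div_of_nonneg_right (by linarith) hl0.le

theorem core_prob (B : Blocks H) : ∃ l0 : ℕ, ∀ l, l0 ≤ l →
    ∀ [MeasurableSpace (B.S l (l + 2))] [BorelSpace (B.S l (l + 2))],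
    ∃ A : Set ((Oth l → B.S 0 (2 * l ^ 6)) × (Fin (NN l) → B.S l (l + 2))), IsClosed A ∧
      (∀ y : Oth l → B.S 0 (2 * l ^ 6), (∀ i, ‖y i‖ ≤ 2 * (l : ℝ) ^ 6) →
        gam (B.S l (l + 2)) (NN l) {g | (y, g) ∈ A} ≤ (1 / 2) ^ (l + 4)) ∧
      ∀ (u : ∀ l, Fin (NN l) → H) (g : Fin (NN l) → B.S l (l + 2)), Loc B u →
        (∀ j, u l j = (nrm (g j) : B.S l (l + 2))) →
        (∀ j, (nn l : ℝ) / 2 ≤ ‖g j‖ ^ 2 ∧ ‖g j‖ ^ 2 ≤ 48 * nn l) →
        (yv B u l, g) ∉ A → CoreAt B u l := by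
  obtain ⟨k0, h4, hnum⟩ := cnum
  refine ⟨max k0 100, fun l hl _ _ => ?_⟩
  have hk : k0 ≤ l := (le_max_left _ _).trans hl
  have h100 : 100 ≤ l := (le_max_right _ _).trans hl
  have hl1 : (100 : ℝ) ≤ l := by exact_mod_cast h100
  have hl0 : (0 : ℝ) < l := by linarith
  have hl6 : l ≤ l ^ 6 := Nat.le_self_pow (by norm_num) l
  have hWY : B.S l (l + 2) ≤ B.S 0 (2 * l ^ 6) := S_mono B (Nat.zero_le _) (by omega)
  obtain ⟨p, hp⟩ : ∃ p, finrank ℝ (B.S l (l + 2)) = p := ⟨_, rfl⟩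
  obtain ⟨q, hq⟩ : ∃ q, finrank ℝ (B.S 0 (2 * l ^ 6)) = q := ⟨_, rfl⟩
  obtain ⟨z, hzn, hz1⟩ : ∃ z : ℝ, (nn l : ℝ) = z ^ 2 ∧ 100 ≤ z := ⟨((l : ℝ) + 1) ^ 24, by
    rw [nn, ← pow_mul]
    push_cast
    rfl, (by linarith : (100 : ℝ) ≤ l + 1).trans (le_self_pow₀ (by linarith) (by norm_num))⟩
  have hz2 : 10000 ≤ z ^ 2 := by nlinarith
  have hz0 : 0 < z := by linarith
  have hp1 : 16 ≤ p := by
    have h1 := (finrank_W B h100).1
    have h2 : (16 : ℝ) ≤ nn l := by linarith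
    have h3 : 16 ≤ nn l := by exact_mod_cast h2
    omega
  have hpq : p ≤ q := hp.symm.trans_le ((Submodule.finrank_mono hWY).trans_eq hq)
  have hp2 : p ≤ 2 * (l + 2) ^ 48 := hp.symm.trans_le (core_dim B l)
  have hD : (16 : ℝ) ≤ p * q := by
    have : 16 * 1 ≤ p * q := Nat.mul_le_mul hp1 (by omega)
    exact_mod_cast this
  obtain ⟨⟨n1, n2, n3, n4, n5, n6, n7, n8, n9, n10, n11, n12⟩, m1, m2, m3⟩ := core_num hl1 hz1 hD
  obtain ⟨A, hA, hμ, hT⟩ := core_set (k := nn l / 100) (N := NN l)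
    (4 * l ^ 7 * (p * q)) (Oth l) hp hq (Submodule.inclusion hWY) (fun _ => le_rfl)
    n1 n2 n3 n4 n5 n6 n7 n8 n9 n10 n11 n12
  refine ⟨(fun a => ((2 * (l : ℝ) ^ 3) • a.1, a.2)) ⁻¹' A,
    hA.preimage ((continuous_fst.const_smul (2 * (l : ℝ) ^ 3)).prodMk continuous_snd),
    fun y _ => (hμ ((2 * (l : ℝ) ^ 3) • y)).trans ((hnum l hk p q _ _ _ _ _ _ _ hp2 (hq.symm.trans_le (finrank_Y B _)) le_rfl
      (core_card l) rfl (Nat.mul_le_mul_right _ (by norm_num)) le_rfl n3.le n1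
      (m3 _ hzn)).trans (le_of_eq ?_)),
    fun u g hu hg hn hA' T h1 h2 => ?_⟩
  · rw [ENNReal.ofReal_pow (by norm_num), ENNReal.ofReal_div_of_pos two_pos]
    simp
  · obtain ⟨v, w, hv, hw, hvY, hwW, hvw, hc⟩ := h2
    have hg1 : ∀ j, z / 2 ≤ ‖g j‖ := fun j =>
      le_of_sq_le_sq (by rw [div_pow]; linarith [(hn j).1]) (norm_nonneg _)
    have hg2 : ∀ j, ‖g j‖ ≤ 7 * z := fun j =>
      le_of_sq_le_sq (by rw [mul_pow]; linarith [(hn j).2]) n2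
    have hg0 : ∀ j, 0 < ‖g j‖ := fun j => (half_pos hz0).trans_le (hg1 j)
    have hgu : ∀ j (x : H), inner ℝ (g j : H) x = ‖g j‖ * inner ℝ (u l j) x := by
      intro j x
      rw [hg, nrm, Submodule.coe_smul, real_inner_smul_left, mul_inv_cancel_left₀ (hg0 j).ne']
    let T' : B.S 0 (2 * l ^ 6) →ₗ[ℝ] B.S l (l + 2) := LinearMap.codRestrict _
      ((B.pr l (l + 2) : H →ₗ[ℝ] H) ∘ₗ T ∘ₗ (B.S 0 (2 * l ^ 6)).subtype) fun x => pr_mem B _ _ _
    have hT' : ∀ x, (T' x : H) = B.pr l (l + 2) (T x) := fun _ => rfl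
    refine hT _ g hA' (fun i => ?_) hg2 T' (fun x => ?_) (fun j x t ht a1 a2 => ?_)
      (fun a => ⟨v a, hvY a⟩) (fun a => ⟨w a, hwW a⟩) ⟨fun a => hv.1 a, fun a b h => hv.2 h⟩
      ⟨fun a => hw.1 a, fun a b h => hw.2 h⟩ hvw fun c => ?_
    · rw [Pi.smul_apply, norm_smul, Real.norm_of_nonneg m1]
      exact (mul_le_mul_of_nonneg_left (core_yv hu l i) m1).trans_eq (by ring)
    · have a1 : ‖T' x‖ ≤ ‖T x‖ := norm_pr_le B _ _ _
      have a2 := nE_le hu (2 * l ^ 6) x.2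
      exact a1.trans ((h1 x x.2).1.trans (a2.trans
        (mul_le_mul_of_nonneg_right m2 (norm_nonneg _))))
    · have b1 : nE u (2 * l ^ 6) x ≤ ‖(x : H)‖ + t := core_nE (by omega) ht fun m hm i => by
        by_cases hm' : m = l
        · subst hm'
          have c1 : 2 * (m : ℝ) ^ 3 * (2 * m / z) * |inner ℝ (g i : H) x| ≤ t := a2 i
          rw [hgu, abs_mul, abs_norm] at c1
          refine le_trans ?_ c1
          rw [mul_assoc _ (2 * m / z), ← mul_assoc (2 * m / z)]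
          refine mul_le_mul_of_nonneg_left (mul_le_mul_of_nonneg_right ?_ (abs_nonneg _)) m1
          rw [div_mul_eq_mul_div, le_div_iff₀ hz0]
          linarith [mul_le_mul_of_nonneg_left (hg1 i) hl0.le]
        · have c1 := a1 ⟨⟨m, hm⟩, i⟩
          have c0 : yv B u l ⟨⟨m, hm⟩, i⟩ = (m : ℝ) • B.prS 0 (2 * l ^ 6) (u m i) := if_neg hm'
          change |inner ℝ ((2 * (l : ℝ) ^ 3) • yv B u l ⟨⟨m, hm⟩, i⟩) x| ≤ t at c1
          rw [real_inner_smul_left, c0, real_inner_smul_left, abs_mul, abs_of_nonneg m1,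
            abs_mul, Nat.abs_cast] at c1
          have c2 : inner ℝ (B.prS 0 (2 * l ^ 6) (u m i)) x = inner ℝ (u m i) (x : H) := by
            rw [real_inner_comm, real_inner_comm (x : H)]
            exact inner_pr B x.2 _
          rwa [c2] at c1
      have b2 : inner ℝ (g j) (T' x) = ‖g j‖ * inner ℝ (u l j) (T x) := by
        rw [← hgu]
        exact inner_pr B (g j).2 _
      have b3 := ((h1 x x.2).2 j).trans b1
      have b4 : ‖g j‖ * inner ℝ (u l j) (T x) ≤ 7 * z * |inner ℝ (u l j) (T x)| :=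
        (mul_le_mul_of_nonneg_left (le_abs_self _) (norm_nonneg _)).trans
          (mul_le_mul_of_nonneg_right (hg2 j) (abs_nonneg _))
      rw [b2, div_mul_eq_mul_div, le_div_iff₀ hl0]
      have b5 := mul_le_mul_of_nonneg_left b3 n2
      have b6 := mul_le_mul_of_nonneg_right b4 hl0.le
      change _ ≤ 7 * z * (‖(x : H)‖ + t)
      linarith
    · have c1 := hc c
      have c2 : ∑ a, c a • w a ∈ B.S l (l + 2) :=
        Submodule.sum_mem _ fun a _ => Submodule.smul_mem _ _ (hwW a)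
      rw [real_inner_comm, ← inner_pr B c2, real_inner_comm, bet] at c1
      rw [Submodule.coe_inner, hT']
      simp only [Submodule.coe_sum, Submodule.coe_smul]
      exact le_of_eq_of_le (by ring) c1

end Pool.Agent.P.MP_f511bc_an.Nf
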