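import Pool.Agent.P.MP_f511bc_an.Nb.Defs

/-! Definitions used inside the construction of a space without finite-rank projections. -/

open Finset Module Filter Topology MeasureTheory ProbabilityTheory

namespace Pool.Agent.P.MP_f511bc_an.Nf

open Pool.Agent.P.MP_f511bc_an.Nb

/-- The dimension of the block `l`. -/
def nn (l : ℕ) : ℕ := (l + 1) ^ 48

/-- The first index of the block `l`. -/
def aa (l : ℕ) : ℕ := ∑ m ∈ range l, nn m

/-- Orthogonal projections onto mutually orthogonal blocks of dimension `nn l`. -/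
structure Blocks (H : Type*) [NormedAddCommGroup H] [InnerProductSpace ℝ H] where
  π : ℕ → H →L[ℝ] H
  symm : ∀ l x y, inner ℝ (π l x) y = inner ℝ x (π l y)
  idem : ∀ l x, π l (π l x) = π l x
  orth : ∀ l m x, l ≠ m → π l (π m x) = 0
  rank : ∀ l, finrank ℝ (LinearMap.range (π l : H →ₗ[ℝ] H)) = nn l
  dense : ∀ x, Tendsto (fun R => ∑ l ∈ range R, π l x) atTop (𝓝 x)

variable {H : Type*} [NormedAddCommGroup H] [InnerProductSpace ℝ H]

/-- The multiplier with symbol `τ` on the blocks below `R`. -/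
noncomputable def Blocks.mul (B : Blocks H) (τ : ℕ → ℝ) (R : ℕ) : H →L[ℝ] H :=
  ∑ l ∈ range R, τ l • B.π l

/-- The projection onto the blocks `s, …, t - 1`. -/
noncomputable def Blocks.pr (B : Blocks H) (s t : ℕ) : H →L[ℝ] H := ∑ l ∈ Ico s t, B.π l

/-- The sum of the blocks `s, …, t - 1`. -/
noncomputable def Blocks.S (B : Blocks H) (s t : ℕ) : Submodule ℝ H :=
  LinearMap.range (B.pr s t : H →ₗ[ℝ] H)

/-- The projection onto the blocks `s, …, t - 1`, with values in their sum. -/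
noncomputable def Blocks.prS (B : Blocks H) (s t : ℕ) (x : H) : B.S s t := ⟨B.pr s t x, x, rfl⟩

/-- The number of vectors of the family `l`. -/
def NN (l : ℕ) : ℕ := (l + 1) ^ 400

/-- The incoherence bound. -/
noncomputable def tt (l : ℕ) : ℝ := 1 / (l : ℝ) ^ 12

/-- The constant of the mixing bound. -/
noncomputable def bet (l : ℕ) : ℝ := 30000 / l

/-- The seminorm of the family `l`. -/
noncomputable def pp (u : ∀ l, Fin (NN l) → H) (l : ℕ) (x : H) : ℝ :=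
  ‖fun j : Fin (NN l) => (l : ℝ) * inner ℝ (u l j) x‖

/-- The norm of the space, with the families below `R`. -/
noncomputable def nE (u : ∀ l, Fin (NN l) → H) (R : ℕ) (x : H) : ℝ :=
  √(‖x‖ ^ 2 + ∑ l ∈ range R, pp u l x ^ 2)

/-- A mixing pair for `T` between the subspaces `X` and `X'`. -/
def PMix (X X' : Submodule ℝ H) (κ : ℕ) (β : ℝ) (T : H →ₗ[ℝ] H) : Prop :=
  ∃ v w : Fin κ → H, Orthonormal ℝ v ∧ Orthonormal ℝ w ∧ (∀ a, v a ∈ X) ∧ (∀ a, w a ∈ X') ∧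
    (∀ a b, inner ℝ (v a) (w b) = 0) ∧
    ∀ c : Fin κ → ℝ, β * ∑ a, c a ^ 2 ≤ inner ℝ (T (∑ a, c a • v a)) (∑ a, c a • w a)

/-- The families lie in two consecutive blocks and in the unit ball. -/
structure Loc (B : Blocks H) (u : ∀ l, Fin (NN l) → H) : Prop where
  mem : ∀ l j, u l j ∈ B.S l (l + 2)
  le1 : ∀ l j, ‖u l j‖ ≤ 1

/-- No contraction towards the family `l` has a mixing pair. -/
def CoreAt (B : Blocks H) (u : ∀ l, Fin (NN l) → H) (l : ℕ) : Prop :=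
  ∀ T : H →ₗ[ℝ] H,
    (∀ x ∈ B.S 0 (2 * l ^ 6), ‖T x‖ ≤ nE u (2 * l ^ 6) x ∧
      ∀ j, (l : ℝ) * |inner ℝ (u l j) (T x)| ≤ nE u (2 * l ^ 6) x) →
    ¬ PMix (B.S 0 (2 * l ^ 6)) (B.S l (l + 2)) (nn l / 100) (bet l) T

/-- The properties of the random families. -/
structure Good (B : Blocks H) (l0 : ℕ) (u : ∀ l, Fin (NN l) → H) : Prop extends Loc B u where
  unit : ∀ l, l0 ≤ l → ∀ j, ‖u l j‖ = 1
  inc1 : ∀ l, l0 ≤ l → ∀ i j, i ≠ j → |inner ℝ (u l i) (u l j)| ≤ tt l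
  inc2 : ∀ l, l0 ≤ l → ∀ i j, |inner ℝ (u l i) (u (l + 1) j)| ≤ tt l
  low : ∀ l, l0 ≤ l → ∀ z ∈ B.S l (l + 2),
    ‖z‖ * NN l ≤ 128 * √(nn l : ℝ) * ∑ j, |inner ℝ (u l j) z|
  core : ∀ l, l0 ≤ l → CoreAt B u l

/-- `P` maps the blocks up to `R` into the blocks below `R` with norm at most `K`. -/
def Bd (B : Blocks H) (u : ∀ l, Fin (NN l) → H) (R : ℕ) (K : ℝ) (P : H →ₗ[ℝ] H) : Prop :=
  ∀ x ∈ B.S 0 (R + 1), P x ∈ B.S 0 R ∧ nE u (R + 1) (P x) ≤ K * nE u (R + 1) x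

/-- Operators that are nearly scalar on each pair of consecutive blocks. -/
structure Ramp (B : Blocks H) (m : ℕ → H →L[ℝ] H) : Prop where
  fin : ∀ r, ∃ R, ∀ x, m r x ∈ B.S 0 R
  le : ∀ r x, ‖m r x‖ ≤ ‖x‖
  lim : ∀ x, Tendsto (fun r => m r x) atTop (𝓝 x)
  loc : ∃ (c : ℝ) (τ o : ℕ → ℕ → ℝ), (∀ r l, 0 ≤ τ r l ∧ τ r l ≤ 1) ∧
    (∀ r l, 0 ≤ o r l ∧ (l : ℝ) * o r l ≤ c) ∧ (∀ l, Tendsto (fun r => τ r l) atTop (𝓝 1)) ∧
    (∀ l, Tendsto (fun r => o r l) atTop (𝓝 0)) ∧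
    ∀ r l x, ‖B.pr l (l + 2) (m r x) - τ r l • B.pr l (l + 2) x‖ ≤ o r l * ‖B.pr l (l + 2) x‖

/-- What is used of the space `E`. -/
structure Model (B : Blocks H) (u : ∀ l, Fin (NN l) → H) (m : ℕ → H →L[ℝ] H) (E : Type*)
    [NormedAddCommGroup E] [NormedSpace ℝ E] where
  fst : E →L[ℝ] H
  inc : ℕ → H →L[ℝ] E
  ramp : ℕ → E →L[ℝ] E
  c : ℝ
  one_le : 1 ≤ c
  inj : Function.Injective fst
  fst_inc : ∀ R x, fst (inc R x) = B.pr 0 R x
  norm_inc : ∀ R x, x ∈ B.S 0 R → ‖inc R x‖ = nE u R x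
  fst_ramp : ∀ r y, fst (ramp r y) = m r (fst y)
  ramp_le : ∀ r y, ‖ramp r y‖ ≤ c * ‖y‖
  ramp_lim : ∀ y, Tendsto (fun r => ramp r y) atTop (𝓝 y)

/-- The sequence space. -/
abbrev L2 : Type := lp (fun _ : ℕ => ℝ) 2

/-- The unit vectors. -/
noncomputable def ee (i : ℕ) : L2 := lp.single 2 i (1 : ℝ)

/-- The Cesaro means of the initial sums. -/
noncomputable def cesOp (r : ℕ) : L2 →L[ℝ] L2 :=
  ∑ i ∈ range (r + 1), (1 - (i : ℝ) / (r + 1)) • (innerSL ℝ (ee i)).smulRight (ee i)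

/-- The unit vector in the direction of `g`. -/
noncomputable def nrm {W : Type*} [NormedAddCommGroup W] [InnerProductSpace ℝ W] (g : W) : W :=
  ‖g‖⁻¹ • g

/-- `N` independent standard Gaussian vectors. -/
noncomputable def gam (W : Type*) [NormedAddCommGroup W] [InnerProductSpace ℝ W]
    [FiniteDimensional ℝ W] [MeasurableSpace W] (N : ℕ) : Measure (Fin N → W) :=
  Measure.pi fun _ => stdGaussian W

/-- The index set of the families that see the blocks below `2 * l ^ 6`. -/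
abbrev Oth (l : ℕ) : Type := Σ m : Fin (2 * l ^ 6), Fin (NN m)

/-- The vectors of the families other than `l`. -/
noncomputable def yv (B : Blocks H) (u : ∀ l, Fin (NN l) → H) (l : ℕ) (p : Oth l) :
    B.S 0 (2 * l ^ 6) :=
  if (p.1 : ℕ) = l then 0 else ((p.1 : ℕ) : ℝ) • B.prS 0 (2 * l ^ 6) (u p.1 p.2)

end Pool.Agent.P.MP_f511bc_an.Nf
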