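import Mathlib

open Finset

namespace Pool.Agent.P.MP_f511bc_an.Nf

variable {ι : Type*} [Fintype ι] [DecidableEq ι]

/-- The sign attached to a Boolean value. -/
def sgb (b : Bool) : ℝ := if b then 1 else -1

/-- The average over all choices of signs. -/
noncomputable def sgE (F : (ι → Bool) → ℝ) : ℝ := (2 ^ Fintype.card ι)⁻¹ * ∑ s, F s

theorem sgE_mono {F G : (ι → Bool) → ℝ} (h : ∀ s, F s ≤ G s) : sgE F ≤ sgE G :=
  mul_le_mul_of_nonneg_left (sum_le_sum fun s _ => h s) (by positivity)

theorem sgE_add (F G : (ι → Bool) → ℝ) : sgE (fun s => F s + G s) = sgE F + sgE G := by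
  simp only [sgE, sum_add_distrib, mul_add]

theorem sgE_mul (c : ℝ) (F : (ι → Bool) → ℝ) : sgE (fun s => c * F s) = c * sgE F := by
  simp only [sgE, ← mul_sum, mul_left_comm]

theorem sgE_const (c : ℝ) : sgE (fun _ : ι → Bool => c) = c := by
  simp [sgE]

theorem sgE_sum {κ : Type*} (t : Finset κ) (F : κ → (ι → Bool) → ℝ) :
    sgE (fun s => ∑ l ∈ t, F l s) = ∑ l ∈ t, sgE (F l) := by
  simp only [sgE, ← mul_sum]
  rw [sum_comm]

theorem sgE_prod (f : ι → Bool → ℝ) :
    sgE (fun s : ι → Bool => ∏ a, f a (s a)) = ∏ a, (f a true + f a false) / 2 := by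
  have h := prod_univ_sum (fun _ : ι => (univ : Finset Bool)) f
  rw [Fintype.piFinset_univ] at h
  rw [sgE, ← h, prod_div_distrib, prod_const, card_univ, div_eq_inv_mul]
  simp only [Fintype.sum_bool]

theorem sgE_orth (a b : ι) :
    sgE (fun s : ι → Bool => sgb (s a) * sgb (s b)) = if a = b then 1 else 0 := by
  split_ifs with h
  · subst h
    rw [← sgE_const (ι := ι) 1]
    congr 1
    funext s
    cases s a <;> simp [sgb]
  · have e : (fun s : ι → Bool => sgb (s a) * sgb (s b)) = fun s =>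
        ∏ c, (if c = a then sgb (s c) else 1) * (if c = b then sgb (s c) else 1) := by
      funext s
      rw [prod_mul_distrib]
      simp
    rw [e, sgE_prod fun c x => (if c = a then sgb x else 1) * (if c = b then sgb x else 1)]
    exact prod_eq_zero (mem_univ a) (by simp [h, sgb])

/-- Signed sums have the mean square of an orthogonal sum. -/
theorem sg_sq {H : Type*} [NormedAddCommGroup H] [InnerProductSpace ℝ H] (y : ι → H) :
    sgE (fun s : ι → Bool => ‖∑ a, sgb (s a) • y a‖ ^ 2) = ∑ a, ‖y a‖ ^ 2 := by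
  have e : (fun s : ι → Bool => ‖∑ a, sgb (s a) • y a‖ ^ 2) = fun s =>
      ∑ a, ∑ b, inner ℝ (y a) (y b) * (sgb (s a) * sgb (s b)) := by
    funext s
    rw [← real_inner_self_eq_norm_sq, sum_inner]
    refine sum_congr rfl fun a _ => ?_
    rw [inner_sum]
    refine sum_congr rfl fun b _ => ?_
    rw [real_inner_smul_left, real_inner_smul_right]
    ring
  rw [e, sgE_sum]
  refine sum_congr rfl fun a _ => ?_
  rw [sgE_sum]
  simp only [sgE_mul, sgE_orth, mul_ite, mul_one, mul_zero, sum_ite_eq, mem_univ, if_true,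
    real_inner_self_eq_norm_sq]

theorem sg_sq_real (x : ι → ℝ) :
    sgE (fun s : ι → Bool => (∑ a, sgb (s a) * x a) ^ 2) = ∑ a, x a ^ 2 := by
  simpa only [smul_eq_mul, Real.norm_eq_abs, sq_abs] using sg_sq x

theorem sg_exp (x : ι → ℝ) :
    sgE (fun s : ι → Bool => Real.exp (∑ a, sgb (s a) * x a)) ≤ Real.exp ((∑ a, x a ^ 2) / 2) := by
  simp only [Real.exp_sum]
  rw [sgE_prod fun a b => Real.exp (sgb b * x a), sum_div, Real.exp_sum]
  refine prod_le_prod (fun a _ => by positivity) fun a _ => ?_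
  have := Real.cosh_le_exp_half_sq (x a)
  rw [Real.cosh_eq] at this
  simpa [sgb] using this

theorem sg_pt {B x : ℝ} (h : B ≤ |x|) :
    x ^ 2 ≤ 8 * Real.exp (-B / 2) * (Real.exp x + Real.exp (-x)) := by
  have h1 : x ^ 2 ≤ 8 * Real.exp (|x| / 2) := by
    have := Real.quadratic_le_exp_of_nonneg (by positivity : 0 ≤ |x| / 2)
    nlinarith [sq_abs x, abs_nonneg x]
  have h2 : Real.exp (|x| / 2) ≤ Real.exp (-B / 2) * Real.exp |x| := by
    rw [← Real.exp_add]
    exact Real.exp_le_exp.2 (by linarith)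
  have h3 : Real.exp |x| ≤ Real.exp x + Real.exp (-x) := by
    rcases abs_choice x with e | e <;> rw [e] <;> linarith [Real.exp_pos x, Real.exp_pos (-x)]
  have h4 := mul_le_mul_of_nonneg_left h3 (Real.exp_pos (-B / 2)).le
  linarith

/-- The mean square of the largest of finitely many signed sums. -/
theorem sg_max_real {J : Type*} [Fintype J] (x : J → ι → ℝ) (hx : ∀ j, ∑ a, x j a ^ 2 ≤ 1)
    (B : ℝ) :
    sgE (fun s : ι → Bool => ‖fun j => ∑ a, sgb (s a) * x j a‖ ^ 2) ≤
      B ^ 2 + 32 * Fintype.card J * Real.exp (-B / 2) := by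
  have h1 : ∀ y : J → ℝ, ‖y‖ ^ 2 ≤ B ^ 2 +
      ∑ j, 8 * Real.exp (-B / 2) * (Real.exp (y j) + Real.exp (-y j)) := fun y => by
    have p : ∀ j, 0 ≤ 8 * Real.exp (-B / 2) * (Real.exp (y j) + Real.exp (-y j)) :=
      fun j => by positivity
    have p' := sum_nonneg fun j (_ : j ∈ (univ : Finset J)) => p j
    rw [← Real.le_sqrt (norm_nonneg _) (by positivity), pi_norm_le_iff_of_nonneg (by positivity)]
    intro j
    rw [Real.le_sqrt (norm_nonneg _) (by positivity), Real.norm_eq_abs, sq_abs]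
    rcases le_total B |y j| with h | h
    · have := single_le_sum (fun j _ => p j) (mem_univ j)
      linarith [sg_pt h, sq_nonneg B]
    · have := pow_le_pow_left₀ (abs_nonneg _) h 2
      rw [sq_abs] at this
      linarith
  have h2 : Real.exp (1 / 2) ≤ 2 := by
    have h := Real.exp_one_lt_three
    have e : Real.exp (1 / 2) ^ 2 = Real.exp 1 := by
      rw [← Real.exp_nat_mul]
      norm_num
    nlinarith [Real.exp_pos (1 / 2)]
  have h3 : ∀ z : ι → ℝ, ∑ a, z a ^ 2 ≤ 1 →
      sgE (fun s : ι → Bool => Real.exp (∑ a, sgb (s a) * z a)) ≤ 2 := fun z hz =>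
    (sg_exp z).trans ((Real.exp_le_exp.2 (by linarith)).trans h2)
  refine (sgE_mono fun s => h1 _).trans ?_
  rw [sgE_add, sgE_const, sgE_sum]
  refine add_le_add le_rfl ((sum_le_card_nsmul _ _ (32 * Real.exp (-B / 2)) fun j _ => ?_).trans
    (by rw [card_univ, nsmul_eq_mul]; exact le_of_eq (by ring)))
  rw [sgE_mul, sgE_add]
  have h4 := h3 (x j) (hx j)
  have h5 := h3 (-x j) (by simpa using hx j)
  simp only [Pi.neg_apply, mul_neg, sum_neg_distrib] at h5
  nlinarith [Real.exp_pos (-B / 2)]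

/-- The same for an orthonormal family tested against vectors of length at most one. -/
theorem sg_max {H : Type*} [NormedAddCommGroup H] [InnerProductSpace ℝ H] {e : ι → H}
    (he : Orthonormal ℝ e) {J : Type*} [Fintype J] (u : J → H) (hu : ∀ j, ‖u j‖ ≤ 1)
    (B : ℝ) :
    sgE (fun s : ι → Bool => ‖fun j => inner ℝ (u j) (∑ a, sgb (s a) • e a)‖ ^ 2) ≤
      B ^ 2 + 32 * Fintype.card J * Real.exp (-B / 2) := by
  have h := sg_max_real (fun j a => inner ℝ (u j) (e a)) (fun j => by
    have := he.sum_inner_products_le (s := univ) (u j)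
    simp only [Real.norm_eq_abs, sq_abs] at this
    simp only [real_inner_comm (e _) (u j)]
    nlinarith [hu j, norm_nonneg (u j)]) B
  simpa only [inner_sum, real_inner_smul_right] using h

theorem sg_norm {H : Type*} [NormedAddCommGroup H] [InnerProductSpace ℝ H] {e : ι → H}
    (he : Orthonormal ℝ e) :
    sgE (fun s : ι → Bool => ‖∑ a, sgb (s a) • e a‖ ^ 2) = Fintype.card ι := by
  rw [sg_sq]
  simp [he.1]

end Pool.Agent.P.MP_f511bc_an.Nf
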