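import Pool.Agent.P.MP_f511bc_an.Nf.BasicB
import Pool.Agent.P.MP_f511bc_an.Nf.SGA

/-! Averages over signs. -/

open Finset Module Filter Topology MeasureTheory ProbabilityTheory

universe u

namespace Pool.Agent.P.MP_f511bc_an.Nf

open Pool.Agent.P.MP_f511bc_an.Nb

variable {H : Type*} [NormedAddCommGroup H] [InnerProductSpace ℝ H] {B : Blocks H}
  {u : ∀ l, Fin (NN l) → H}

theorem sg_num : ∃ k0 : ℕ, ∀ k, k0 ≤ k → 32 * (NN (k + 1) : ℝ) * Real.exp (-(k : ℝ) / 2) ≤ 1 := by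
  have h0 : Tendsto (fun k : ℕ => ((k : ℝ) + 2) / 2) atTop atTop :=
    (tendsto_atTop_add_const_right _ 2 tendsto_natCast_atTop_atTop).atTop_div_const two_pos
  have h1 := ((Real.tendsto_pow_mul_exp_neg_atTop_nhds_zero 400).comp h0).const_mul
    (32 * 2 ^ 400 * Real.exp 1)
  rw [mul_zero] at h1
  obtain ⟨k0, hk⟩ := eventually_atTop.1 (h1.eventually (eventually_le_nhds one_pos))
  refine ⟨k0, fun k h => le_of_eq_of_le ?_ (hk k h)⟩
  have e : Real.exp (-(k : ℝ) / 2) = Real.exp 1 * Real.exp (-(((k : ℝ) + 2) / 2)) := by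
    rw [← Real.exp_add]
    congr 1
    ring
  have e' : (NN (k + 1) : ℝ) = 2 ^ 400 * (((k : ℝ) + 2) / 2) ^ 400 := by
    rw [← mul_pow, NN]
    push_cast
    congr 1
    ring
  rw [e, e', Function.comp_apply]
  generalize (2 : ℝ) ^ 400 = a
  generalize (((k : ℝ) + 2) / 2) ^ 400 = b
  ring

theorem sg_pp (h : Loc B u) {k l d : ℕ} (hl : l ≤ k + 1)
    (hk : 32 * (NN (k + 1) : ℝ) * Real.exp (-(k : ℝ) / 2) ≤ 1) {e : Fin d → H}
    (he : Orthonormal ℝ e) :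
    sgE (fun s : Fin d → Bool => pp u l (∑ a, sgb (s a) • e a) ^ 2) ≤ nn k := by
  have h1 := sg_max he (u l) (h.le1 l) k
  have e1 : (fun s : Fin d → Bool => pp u l (∑ a, sgb (s a) • e a) ^ 2) = fun s =>
      (l : ℝ) ^ 2 * ‖fun j => inner ℝ (u l j) (∑ a, sgb (s a) • e a)‖ ^ 2 := by
    funext s
    rw [← mul_pow, ← Real.norm_natCast l, ← norm_smul]
    rfl
  have h2 : (NN l : ℝ) ≤ NN (k + 1) := Nat.cast_le.2 (NN_mono hl)
  have h3 := mul_le_mul_of_nonneg_right h2 (Real.exp_pos (-(k : ℝ) / 2)).le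
  have h4 : (l : ℝ) ≤ k + 1 := by exact_mod_cast hl
  have k0 : (0 : ℝ) ≤ k := k.cast_nonneg
  have h5 : ((k : ℝ) + 1) ^ 2 * ((k : ℝ) + 1) ^ 2 ≤ nn k := by
    rw [← pow_add, nn]
    push_cast
    exact pow_le_pow_right₀ (by linarith) (by norm_num)
  rw [Fintype.card_fin] at h1
  rw [e1, sgE_mul]
  refine le_trans (mul_le_mul (pow_le_pow_left₀ l.cast_nonneg h4 2) (h1.trans ?_)
    ((sgE_const (ι := Fin d) 0).symm.trans_le (sgE_mono fun _ => sq_nonneg _)) (sq_nonneg _)) h5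
  nlinarith

theorem sg_nE (h : Loc B u) {k d : ℕ} (h100 : 100 ≤ k)
    (hk : 32 * (NN (k + 1) : ℝ) * Real.exp (-(k : ℝ) / 2) ≤ 1) (R : ℕ) {e : Fin d → H}
    (he : Orthonormal ℝ e) (hm : ∀ a, e a ∈ B.S k (k + 2)) :
    sgE (fun s : Fin d → Bool => nE u R (∑ a, sgb (s a) • e a) ^ 2) ≤ 6 * nn k := by
  have hd : d ≤ 3 * nn k := by
    have li : LinearIndependent ℝ fun a => (⟨e a, hm a⟩ : B.S k (k + 2)) :=
      LinearIndependent.of_comp (B.S k (k + 2)).subtype he.linearIndependent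
    have := li.fintype_card_le_finrank
    rw [Fintype.card_fin] at this
    exact this.trans (finrank_W B h100).2
  have hd' : (d : ℝ) ≤ 3 * nn k := by exact_mod_cast hd
  have h1 : ∀ x ∈ B.S k (k + 2),
      nE u R x ^ 2 ≤ ‖x‖ ^ 2 + ∑ l ∈ Ico (k - 1) (k + 2), pp u l x ^ 2 := fun x hx => by
    rw [nE_sq]
    refine add_le_add le_rfl ?_
    rw [← sum_filter_ne_zero]
    refine sum_le_sum_of_subset_of_nonneg (fun l hl => ?_) fun _ _ _ => sq_nonneg _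
    by_contra hc
    refine (mem_filter.1 hl).2 ?_
    rw [pp_eq_zero h hx (by rw [mem_Ico] at hc; omega), zero_pow two_ne_zero]
  refine (sgE_mono fun s => h1 _ (Submodule.sum_mem _ fun a _ =>
    Submodule.smul_mem _ _ (hm a))).trans ?_
  rw [sgE_add, sg_norm he, sgE_sum, Fintype.card_fin]
  have h2 := sum_le_card_nsmul (Ico (k - 1) (k + 2)) _ (nn k : ℝ) fun l hl =>
    sg_pp h (l := l) (by have := (mem_Ico.1 hl).2; omega) hk he
  have h3 : k + 2 - (k - 1) = 3 := by omega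
  rw [Nat.card_Ico, h3, nsmul_eq_mul] at h2
  push_cast at h2
  linarith

theorem sg (h : Loc B u) : ∃ k0 : ℕ, ∀ k, k0 ≤ k → ∀ (R d : ℕ) (e : Fin d → H), Orthonormal ℝ e →
    (∀ a, e a ∈ B.S k (k + 2)) → ∀ (C : H →ₗ[ℝ] H) (A : ℝ), 0 ≤ A →
    (∀ x ∈ B.S k (k + 2), nE u R (C x) ≤ A * nE u R x) →
    ∑ a, ‖C (e a)‖ ^ 2 ≤ 6 * A ^ 2 * nn k ∧ ∃ M : ℕ → ℝ, (∀ l, 0 ≤ M l) ∧
      (∀ (l : ℕ) j, (l : ℝ) ^ 2 * ∑ a, inner ℝ (u l j) (C (e a)) ^ 2 ≤ M l ^ 2) ∧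
      ∑ l ∈ range R, M l ^ 2 ≤ 6 * A ^ 2 * nn k := by
  obtain ⟨k0, hk0⟩ := sg_num
  refine ⟨max k0 100, fun k hk R d e he hm C A hA hC => ?_⟩
  have h1 := sg_nE h ((le_max_right _ _).trans hk) (hk0 k ((le_max_left _ _).trans hk)) R he hm
  have eC : ∀ s : Fin d → Bool, C (∑ a, sgb (s a) • e a) = ∑ a, sgb (s a) • C (e a) :=
    fun s => by simp only [map_sum, map_smul]
  have h2 : sgE (fun s : Fin d → Bool => nE u R (∑ a, sgb (s a) • C (e a)) ^ 2) ≤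
      6 * A ^ 2 * nn k := by
    refine (sgE_mono (G := fun s => A ^ 2 * nE u R (∑ a, sgb (s a) • e a) ^ 2)
      fun s => ?_).trans ?_
    · rw [← eC, ← mul_pow]
      exact pow_le_pow_left₀ (nE_nonneg _ _)
        (hC _ (Submodule.sum_mem _ fun a _ => Submodule.smul_mem _ _ (hm a))) 2
    · rw [sgE_mul]
      nlinarith [mul_le_mul_of_nonneg_left h1 (sq_nonneg A)]
  simp only [nE_sq] at h2
  rw [sgE_add, sg_sq, sgE_sum] at h2
  have p : ∀ l, 0 ≤ sgE fun s : Fin d → Bool => pp u l (∑ a, sgb (s a) • C (e a)) ^ 2 :=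
    fun l => (sgE_const (ι := Fin d) 0).symm.trans_le (sgE_mono fun _ => sq_nonneg _)
  have p1 := sum_nonneg fun l (_ : l ∈ range R) => p l
  have p2 := sum_nonneg fun a (_ : a ∈ (univ : Finset (Fin d))) => sq_nonneg ‖C (e a)‖
  refine ⟨by linarith, fun l => √(sgE fun s : Fin d → Bool =>
    pp u l (∑ a, sgb (s a) • C (e a)) ^ 2), fun l => Real.sqrt_nonneg _, fun l j => ?_, ?_⟩
  · rw [Real.sq_sqrt (p l), ← sg_sq_real, ← sgE_mul]
    refine sgE_mono fun s => ?_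
    have := pow_le_pow_left₀ (by positivity) (le_pp (u := u) l j (∑ a, sgb (s a) • C (e a))) 2
    rw [mul_pow, sq_abs] at this
    simpa only [inner_sum, real_inner_smul_right] using this
  · simp only [Real.sq_sqrt (p _)]
    linarith

end Pool.Agent.P.MP_f511bc_an.Nf
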