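import Pool.Agent.P.MP_f511bc_an.Nf.SV
import Pool.Agent.P.MP_f511bc_an.Nf.SG

/-! The blocks below the far range. -/

open Finset Module Filter Topology MeasureTheory ProbabilityTheory

universe u

namespace Pool.Agent.P.MP_f511bc_an.Nf

open Pool.Agent.P.MP_f511bc_an.Nb

variable {H : Type*} [NormedAddCommGroup H] [InnerProductSpace ℝ H] {B : Blocks H}
  {u : ∀ l, Fin (NN l) → H} {l0 : ℕ}

theorem early_card {W : Submodule ℝ H} [FiniteDimensional ℝ W] {d : ℕ} {e : Fin d → H}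
    (he : Orthonormal ℝ e) (hW : ∀ a, e a ∈ W) : d ≤ finrank ℝ W := by
  have h : Orthonormal ℝ fun a => (⟨e a, hW a⟩ : W) := W.subtypeₗᵢ.orthonormal_comp_iff.1 he
  simpa using h.linearIndependent.fintype_card_le_finrank

theorem early_bet {c η : ℝ} (hη : 0 < η) {k : ℕ} (h1 : 1 ≤ k) (hk : ⌈30000 * c / η⌉₊ ≤ k) :
    c * bet k ≤ η := by
  have h2 : (0 : ℝ) < k := Nat.cast_pos.2 h1
  have h3 := (div_le_iff₀ hη).1 (Nat.ceil_le.1 hk)
  rw [bet, ← mul_div_assoc, div_le_iff₀ h2]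
  linarith

theorem early (h : Good B l0 u) {K η : ℝ} (hK : 1 ≤ K) (hη : 0 < η) :
    ∃ k0 : ℕ, ∀ k, k0 ≤ k → ∀ (R : ℕ) (P : H →ₗ[ℝ] H), 2 * k ^ 6 ≤ R → Bd B u R K P →
    ∃ G ≤ B.S k (k + 2), finrank ℝ (B.S k (k + 2)) ≤ finrank ℝ G + nn k / 100 ∧
      ∀ τ : ℕ → ℝ, (∀ l, 0 ≤ τ l ∧ τ l ≤ 1) → (∀ l, l = k ∨ l = k + 1 ∨ 2 * k ^ 6 ≤ l → τ l = 0) →
      ∀ (d : ℕ) (e : Fin d → H), Orthonormal ℝ e → (∀ a, e a ∈ G) →
        ∑ a, inner ℝ (e a) (P (B.mul τ R (P (e a)))) ≤ η * nn k := by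
  obtain ⟨k0, h0⟩ := sg h.toLoc
  refine ⟨max (max k0 l0) (max 100 ⌈30000 * (5 * K * K) / η⌉₊), fun k hk R P hR hP => ?_⟩
  obtain ⟨a0, a1⟩ := max_le_iff.1 hk
  obtain ⟨a2, a3⟩ := max_le_iff.1 a0
  obtain ⟨a4, a5⟩ := max_le_iff.1 a1
  have a6 : k ≤ k ^ 6 := Nat.le_self_pow (by norm_num) k
  have hK0 : 0 < K := one_pos.trans_le hK
  have hb : 0 < K * bet k := mul_pos hK0 (div_pos (by norm_num) (Nat.cast_pos.2 (by omega)))
  obtain ⟨G, hG, dG, g⟩ := sv_H (B.S 0 (2 * k ^ 6) ⊓ (B.S k (k + 2))ᗮ) (B.S k (k + 2))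
    (fun x hx y hy => Submodule.inner_left_of_mem_orthogonal hy hx.2) P (nn k / 100) hb
    (core_bd h.toLoc (h.core k a3) hK hP (by omega) hR inf_le_left le_rfl le_rfl)
  refine ⟨G, hG, dG, fun τ h1 h2 d e he heG => ?_⟩
  have hX : ∀ y, B.mul τ R y ∈ B.S 0 (2 * k ^ 6) ⊓ (B.S k (k + 2))ᗮ := fun y => by
    refine ⟨(mem_S_iff B).2 fun l hl => ?_, (Submodule.mem_orthogonal _ _).2 fun w hw => ?_⟩
    · rw [pi_mul, h2 l (by omega), zero_smul, ite_self]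
    · rw [← inner_pr B hw, pr_apply, sum_eq_zero fun l hl => ?_, inner_zero_right]
      have := mem_Ico.1 hl
      rw [pi_mul, h2 l (by omega), zero_smul, ite_self]
  have h3 : ∀ a, inner ℝ (e a) (P (B.mul τ R (P (e a)))) ≤ K * bet k * ‖P (e a)‖ := fun a => by
    have h4 := g (e a) (heG a) _ (hX (P (e a)))
    rw [he.1 a, mul_one, real_inner_comm] at h4
    exact h4.trans (mul_le_mul_of_nonneg_left (norm_mul_le B
      (fun l => abs_le.2 ⟨by linarith [(h1 l).1], (h1 l).2⟩) R _) hb.le)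
  have h4 := (h0 k a2 (R + 1) d e he (fun a => hG (heG a)) P K hK0.le fun x hx =>
    (hP x (S_mono B (Nat.zero_le _) (by omega) hx)).2).1
  have h5 : (d : ℝ) ≤ 3 * nn k := by
    exact_mod_cast (early_card he fun a => hG (heG a)).trans (finrank_W B a4).2
  have h6 := sq_sum_le_card_mul_sum_sq (s := univ) (f := fun a => ‖P (e a)‖)
  rw [card_univ, Fintype.card_fin] at h6
  have h7 := early_bet hη (by omega) a5
  have h8 : (0 : ℝ) ≤ nn k := Nat.cast_nonneg _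
  generalize (nn k : ℝ) = n at h4 h5 h8 ⊢
  have h9 : ∑ a, ‖P (e a)‖ ≤ 5 * K * n := by
    refine le_of_sq_le_sq (h6.trans ((mul_le_mul h5 h4 (sum_nonneg fun _ _ => sq_nonneg _)
      (by linarith)).trans ?_)) (mul_nonneg (by linarith) h8)
    nlinarith [sq_nonneg (K * n)]
  refine (sum_le_sum fun a _ => h3 a).trans ?_
  rw [← mul_sum]
  exact (mul_le_mul_of_nonneg_left h9 hb.le).trans
    (le_of_eq_of_le (by ring) (mul_le_mul_of_nonneg_right h7 h8))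

theorem nomix (h : Good B l0 u) {K : ℝ} (hK : 1 ≤ K) :
    ∃ k0 : ℕ, ∀ k, k0 ≤ k → ∀ (R : ℕ) (P : H →ₗ[ℝ] H), 2 * k ^ 6 ≤ R → Bd B u R K P →
      ¬ PMix (B.S k (k + 2)) (B.S k (k + 2)) (nn k / 100) (1 / 10) P := by
  refine ⟨max l0 (max 2 ⌈30000 * K / (1 / 10)⌉₊), fun k hk R P hR hP => ?_⟩
  obtain ⟨a0, a1⟩ := max_le_iff.1 hk
  obtain ⟨a2, a3⟩ := max_le_iff.1 a1
  have a6 : k ≤ k ^ 6 := Nat.le_self_pow (by norm_num) k
  exact core_bd h.toLoc (h.core k a0) hK hP (by omega) hR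
    (S_mono B (Nat.zero_le _) (by omega)) le_rfl (early_bet (by norm_num) (by omega) a3)

end Pool.Agent.P.MP_f511bc_an.Nf
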