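import Mathlib

open Filter Topology Module

namespace Pool.Agent.P.MP_f511bc_an.Nf

variable {E : Type*} [NormedAddCommGroup E] [NormedSpace ℝ E]

theorem end_bound [CompleteSpace E] (T : ℕ → E →L[ℝ] E)
    (hT : ∀ x, Tendsto (fun i => T i x) atTop (𝓝 x)) :
    ∃ C : ℝ, 1 ≤ C ∧ ∀ i x, ‖T i x‖ ≤ C * ‖x‖ := by
  have h : ∀ x, ∃ C, ∀ i, ‖T i x‖ ≤ C := by
    intro x
    obtain ⟨C, hC⟩ := (hT x).norm.bddAbove_range
    exact ⟨C, fun i => hC ⟨i, rfl⟩⟩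
  obtain ⟨C, hC⟩ := banach_steinhaus h
  refine ⟨max C 1, le_max_right _ _, fun i x => ?_⟩
  calc ‖T i x‖ ≤ ‖T i‖ * ‖x‖ := (T i).le_opNorm x
    _ ≤ max C 1 * ‖x‖ :=
      mul_le_mul_of_nonneg_right ((hC i).trans (le_max_left _ _)) (norm_nonneg _)

theorem end_unif (T : ℕ → E →L[ℝ] E) (hT : ∀ x, Tendsto (fun i => T i x) atTop (𝓝 x))
    (W : Submodule ℝ E) [FiniteDimensional ℝ W] {ε : ℝ} (hε : 0 < ε) :
    ∀ᶠ i in atTop, ∀ x ∈ W, ‖T i x - x‖ ≤ ε * ‖x‖ := by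
  obtain ⟨C, hC, hb⟩ := (finBasis ℝ W).exists_opNorm_le (F := E)
  have h1 : ∀ᶠ i in atTop, ∀ j, ‖T i (finBasis ℝ W j) - finBasis ℝ W j‖ ≤ ε / C := by
    rw [eventually_all]
    intro j
    have h2 := (tendsto_iff_norm_sub_tendsto_zero.1 (hT (finBasis ℝ W j : E)))
    exact h2.eventually (ge_mem_nhds (div_pos hε hC))
  refine h1.mono fun i hi x hx => ?_
  have h3 : ‖(T i - ContinuousLinearMap.id ℝ E).comp W.subtypeL‖ ≤ C * (ε / C) :=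
    hb (div_pos hε hC).le (fun j => by simpa using hi j)
  have h4 := ((T i - ContinuousLinearMap.id ℝ E).comp W.subtypeL).le_opNorm ⟨x, hx⟩
  have h5 : C * (ε / C) = ε := by field_simp
  rw [h5] at h3
  have h6 : ‖T i x - x‖ ≤ ‖(T i - ContinuousLinearMap.id ℝ E).comp W.subtypeL‖ * ‖x‖ := by
    simpa using h4
  exact h6.trans (mul_le_mul_of_nonneg_right h3 (norm_nonneg _))

theorem end_abs [CompleteSpace E] (s P : ℕ → E →L[ℝ] E)
    (hs : ∀ x, Tendsto (fun r => s r x) atTop (𝓝 x))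
    (hP : ∀ x, Tendsto (fun i => P i x) atTop (𝓝 x))
    (hPP : ∀ i x, P i (P i x) = P i x)
    (hfin : ∀ i, FiniteDimensional ℝ (LinearMap.range (P i : E →ₗ[ℝ] E))) :
    ∃ K : ℝ, 1 ≤ K ∧ ∀ (W : Submodule ℝ E), FiniteDimensional ℝ W → ∀ ε : ℝ, 0 < ε →
      ∃ d : ℕ, ∀ δ : ℝ, 0 < δ → ∀ r0 : ℕ, ∃ r, r0 ≤ r ∧ ∃ Q : E →L[ℝ] E,
        (∀ x, ‖Q x‖ ≤ K * ‖x‖) ∧ (∀ x, ‖Q (Q x) - Q x‖ ≤ δ * ‖x‖) ∧
        (∀ x ∈ W, ‖Q x - x‖ ≤ ε * ‖x‖) ∧
        FiniteDimensional ℝ (LinearMap.range (Q : E →ₗ[ℝ] E)) ∧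
        finrank ℝ (LinearMap.range (Q : E →ₗ[ℝ] E)) ≤ d ∧ ∀ x, ∃ y, Q x = s r y := by
  obtain ⟨A, hA1, hA⟩ := end_bound s hs
  obtain ⟨B, hB1, hB⟩ := end_bound P hP
  have hA0 : 0 < A := by linarith
  have hB0 : 0 < B := by linarith
  refine ⟨A * B, by nlinarith, fun W hW ε hε => ?_⟩
  obtain ⟨i, hi⟩ := (end_unif P hP W (half_pos hε)).exists
  have := hfin i
  refine ⟨finrank ℝ (LinearMap.range (P i : E →ₗ[ℝ] E)), fun δ hδ r0 => ?_⟩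
  set η : ℝ := min (δ / (A * B * B)) (ε / 2 / B) with hη
  have hη0 : 0 < η := lt_min (by positivity) (by positivity)
  obtain ⟨r, hr, hr0⟩ := ((end_unif s hs (LinearMap.range (P i : E →ₗ[ℝ] E)) hη0).and
    (eventually_ge_atTop r0)).exists
  have hk : ∀ x, ‖s r (P i x) - P i x‖ ≤ η * (B * ‖x‖) := fun x =>
    (hr (P i x) ⟨x, rfl⟩).trans (mul_le_mul_of_nonneg_left (hB i x) hη0.le)
  have hrange : LinearMap.range ((s r).comp (P i) : E →ₗ[ℝ] E) =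
      (LinearMap.range (P i : E →ₗ[ℝ] E)).map (s r : E →ₗ[ℝ] E) := by
    rw [← LinearMap.range_comp]
    rfl
  refine ⟨r, hr0, (s r).comp (P i), fun x => ?_, fun x => ?_, fun x hx => ?_, ?_, ?_,
    fun x => ⟨P i x, rfl⟩⟩
  · calc ‖s r (P i x)‖ ≤ A * ‖P i x‖ := hA r _
      _ ≤ A * (B * ‖x‖) := mul_le_mul_of_nonneg_left (hB i x) hA0.le
      _ = A * B * ‖x‖ := by ring
  · have h1 : (s r).comp (P i) ((s r).comp (P i) x) - (s r).comp (P i) x =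
        s r (P i (s r (P i x) - P i x)) := by
      simp [map_sub, hPP]
    have h2 : η * (A * B * B) ≤ δ := by
      have h3 : η ≤ δ / (A * B * B) := min_le_left _ _
      rwa [le_div_iff₀ (by positivity)] at h3
    rw [h1]
    calc ‖s r (P i (s r (P i x) - P i x))‖ ≤ A * ‖P i (s r (P i x) - P i x)‖ := hA r _
      _ ≤ A * (B * ‖s r (P i x) - P i x‖) := mul_le_mul_of_nonneg_left (hB i _) hA0.le
      _ ≤ A * (B * (η * (B * ‖x‖))) :=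
        mul_le_mul_of_nonneg_left (mul_le_mul_of_nonneg_left (hk x) hB0.le) hA0.le
      _ = η * (A * B * B) * ‖x‖ := by ring
      _ ≤ δ * ‖x‖ := mul_le_mul_of_nonneg_right h2 (norm_nonneg _)
  · have h2 : η * B ≤ ε / 2 := by
      have h3 : η ≤ ε / 2 / B := min_le_right _ _
      rwa [le_div_iff₀ hB0] at h3
    have h4 : (s r).comp (P i) x - x = (s r (P i x) - P i x) + (P i x - x) := by
      simp
    rw [h4]
    calc ‖(s r (P i x) - P i x) + (P i x - x)‖ ≤ ‖s r (P i x) - P i x‖ + ‖P i x - x‖ :=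
          norm_add_le _ _
      _ ≤ η * (B * ‖x‖) + ε / 2 * ‖x‖ := add_le_add (hk x) (hi x hx)
      _ = (η * B + ε / 2) * ‖x‖ := by ring
      _ ≤ ε * ‖x‖ := mul_le_mul_of_nonneg_right (by linarith) (norm_nonneg _)
  · rw [hrange]
    infer_instance
  · rw [hrange]
    exact Submodule.finrank_map_le _ _

end Pool.Agent.P.MP_f511bc_an.Nf
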