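import Pool.Agent.P.MP_f511bc_an.Nf.FinB
import Pool.Agent.P.MP_f511bc_an.Nf.EndA

/-! No finite-rank projections tend to the identity. -/

open Finset Module Filter Topology MeasureTheory ProbabilityTheory

universe u

namespace Pool.Agent.P.MP_f511bc_an.Nf

open Pool.Agent.P.MP_f511bc_an.Nb

variable {H : Type*} [NormedAddCommGroup H] [InnerProductSpace ℝ H] {B : Blocks H}
  {u : ∀ l, Fin (NN l) → H} {l0 : ℕ}

theorem end_fst {m : ℕ → H →L[ℝ] H} {E : Type*} [NormedAddCommGroup E] [NormedSpace ℝ E]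
    (M : Model B u m E) {R : ℕ} {x : H} (hx : x ∈ B.S 0 R) : M.fst (M.inc R x) = x := by
  rw [M.fst_inc, (mem_S B).1 hx]

theorem end_lt_nn (l : ℕ) : l < nn l :=
  lt_of_lt_of_le (Nat.lt_succ_self l) (Nat.le_self_pow (by norm_num) _)

theorem no_proj (h : Good B l0 u) {m : ℕ → H →L[ℝ] H} (hm : Ramp B m) {E : Type*}
    [NormedAddCommGroup E] [NormedSpace ℝ E] [CompleteSpace E] (M : Model B u m E)
    (P : ℕ → E →L[ℝ] E) (hP : ∀ i y, P i (P i y) = P i y)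
    (hf : ∀ i, FiniteDimensional ℝ (LinearMap.range (P i : E →ₗ[ℝ] E))) :
    ¬ ∀ y, Tendsto (fun i => P i y) atTop (𝓝 y) := by
  intro hl
  obtain ⟨K, hK, hE⟩ := end_abs M.ramp P M.ramp_lim hl hP hf
  obtain ⟨k0, hk0⟩ := fin_all h hK
  set F : ℝ := ‖M.fst‖ + 1 with hF
  have hF0 : 0 < F := by positivity
  have hF1 : ∀ y, ‖M.fst y‖ ≤ F * ‖y‖ := fun y =>
    (M.fst.le_opNorm y).trans (mul_le_mul_of_nonneg_right (by linarith) (norm_nonneg _))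
  obtain ⟨d, hd⟩ := hE ((B.S k0 (k0 + 2)).map (M.inc (k0 + 2) : H →ₗ[ℝ] E)) inferInstance
    (1 / (6 * F * (k0 + 3))) (by positivity)
  obtain ⟨k1, hk1, hk2⟩ : ∃ k1, k0 ≤ k1 ∧ d ≤ k1 := ⟨max k0 d, le_max_left _ _, le_max_right _ _⟩
  obtain ⟨r, -, Q, q1, q2, q3, q4, q5, q6⟩ := hd (1 / (F * (1000 * (k1 + 3)))) (by positivity) 0
  obtain ⟨R0, hR0⟩ := hm.fin r
  obtain ⟨R, r1, r2, r3⟩ : ∃ R, R0 ≤ R ∧ 2 * k1 ^ 6 ≤ R ∧ k0 + 2 ≤ R :=
    ⟨R0 + 2 * k1 ^ 6 + (k0 + 2), by omega, by omega, by omega⟩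
  have a1 : ∀ y, M.fst (Q y) ∈ B.S 0 R := by
    intro y
    obtain ⟨z, hz⟩ := q6 y
    rw [hz, M.fst_ramp]
    exact S_mono B le_rfl r1 (hR0 _)
  have a2 : ∀ y, M.fst (Q y) ∈ B.S 0 (R + 1) := fun y => S_mono B le_rfl (Nat.le_succ R) (a1 y)
  have a3 : ∀ y, M.inc (R + 1) (M.fst (Q y)) = Q y := fun y => M.inj (end_fst M (a2 y))
  let T : H →ₗ[ℝ] H := (M.fst : E →ₗ[ℝ] H) ∘ₗ (Q : E →ₗ[ℝ] E) ∘ₗ (M.inc (R + 1) : H →ₗ[ℝ] E)
  have hT : ∀ x, T x = M.fst (Q (M.inc (R + 1) x)) := fun _ => rfl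
  refine hk0 k1 hk1 R T r2 (fun x hx => ⟨a1 _, ?_⟩) (fun x hx => ?_) (fun x hx => ?_)
    (fun X hX hn => ?_)
  · rw [hT, ← M.norm_inc _ _ (a2 _), a3, ← M.norm_inc _ _ hx]
    exact q1 _
  · rw [hT, hT, a3, ← map_sub, ← M.norm_inc _ _ hx]
    refine (hF1 _).trans ((mul_le_mul_of_nonneg_left (q2 _) hF0.le).trans (le_of_eq ?_))
    field_simp
  · have b1 : x ∈ B.S 0 (k0 + 2) := S_mono B (Nat.zero_le _) le_rfl hx
    have b2 : x ∈ B.S 0 (R + 1) := S_mono B le_rfl (by omega) b1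
    have b3 : M.inc (R + 1) x = M.inc (k0 + 2) x :=
      M.inj ((end_fst M b2).trans (end_fst M b1).symm)
    have b4 := q3 (M.inc (k0 + 2) x) ⟨x, hx, rfl⟩
    have b5 : ‖M.inc (k0 + 2) x‖ ≤ 3 * (k0 + 3) * ‖x‖ := by
      rw [M.norm_inc _ _ b1]
      refine (nE_le h.toLoc _ hx).trans (le_of_eq ?_)
      push_cast
      ring
    have b6 : T x - x = M.fst (Q (M.inc (k0 + 2) x) - M.inc (k0 + 2) x) := by
      rw [map_sub, end_fst M b1, hT, b3]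
    have b7 : ‖T x - x‖ ≤ 1 / 2 * ‖x‖ := by
      rw [b6]
      calc _ ≤ F * ‖Q (M.inc (k0 + 2) x) - M.inc (k0 + 2) x‖ := hF1 _
        _ ≤ F * (1 / (6 * F * (k0 + 3)) * (3 * (k0 + 3) * ‖x‖)) :=
          mul_le_mul_of_nonneg_left
            (b4.trans (mul_le_mul_of_nonneg_left b5 (by positivity))) hF0.le
        _ = 1 / 2 * ‖x‖ := by
          field_simp
          ring
    have b8 : inner ℝ x (T x) = ‖x‖ ^ 2 + inner ℝ x (T x - x) := by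
      rw [inner_sub_right, real_inner_self_eq_norm_sq]
      ring
    have b9 := (abs_le.1 (abs_real_inner_le_norm x (T x - x))).1
    have b10 := mul_le_mul_of_nonneg_left b7 (norm_nonneg x)
    rw [b8]
    nlinarith
  · by_contra hc
    have c1 : finrank ℝ X ≤ finrank ℝ (LinearMap.range (Q : E →ₗ[ℝ] E)) := by
      refine LinearMap.finrank_le_finrank_of_injective (f := (Q : E →ₗ[ℝ] E).rangeRestrict ∘ₗ
        (M.inc (R + 1) : H →ₗ[ℝ] E) ∘ₗ X.subtype) ?_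
      rw [← LinearMap.ker_eq_bot, LinearMap.ker_eq_bot']
      intro x hx
      have c2 : Q (M.inc (R + 1) x) = 0 := congrArg Subtype.val hx
      by_contra h0
      exact hc ⟨x, x.2, fun h1 => h0 (Subtype.ext h1), by rw [hT, c2, map_zero]⟩
    exact absurd (hn.trans (c1.trans (q5.trans hk2))) (not_le.2 (end_lt_nn k1))

end Pool.Agent.P.MP_f511bc_an.Nf
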