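import Mathlib

/-! Gaussian tails, nets, and the upper, lower and incoherence bounds for a Gaussian family. -/

open MeasureTheory ProbabilityTheory Real Finset

namespace Pool.Agent.P.MP_f511bc_an.Nf

theorem gau_lint (f : ℝ → ℝ) (hf : Measurable f) :
    ∫⁻ x, ENNReal.ofReal (f x) ∂gaussianReal 0 1 =
      ∫⁻ x, ENNReal.ofReal ((√(2 * π))⁻¹ * (Real.exp (-x ^ 2 / 2) * f x)) := by
  rw [gaussianReal_of_var_ne_zero 0 one_ne_zero,
    lintegral_withDensity_eq_lintegral_mul _ (measurable_gaussianPDF 0 1) hf.ennreal_ofReal]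
  refine lintegral_congr fun x => ?_
  simp only [Pi.mul_apply, gaussianPDF, gaussianPDFReal]
  rw [← ENNReal.ofReal_mul (by positivity)]
  congr 1
  simp only [NNReal.coe_one, mul_one, sub_zero]
  ring

theorem gau_sq (b : ℝ) (hb : -1 / 2 < b) :
    ∫⁻ x, ENNReal.ofReal (Real.exp (-b * x ^ 2)) ∂gaussianReal 0 1 =
      ENNReal.ofReal ((√(1 + 2 * b))⁻¹) := by
  rw [gau_lint _ (by fun_prop)]
  have hc : 0 < b + 1 / 2 := by linarith
  have e : ∀ x : ℝ, (√(2 * π))⁻¹ * (Real.exp (-x ^ 2 / 2) * Real.exp (-b * x ^ 2)) =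
      (√(2 * π))⁻¹ * Real.exp (-(b + 1 / 2) * x ^ 2) := fun x => by
    rw [← Real.exp_add]
    congr 2
    ring
  simp_rw [e]
  rw [← ofReal_integral_eq_lintegral_ofReal ((integrable_exp_neg_mul_sq hc).const_mul _)
    (Filter.Eventually.of_forall fun x => by positivity), integral_const_mul, integral_gaussian]
  congr 1
  rw [← Real.sqrt_inv, ← Real.sqrt_mul (by positivity), ← Real.sqrt_inv]
  congr 1
  have := pi_pos
  field_simp
  ring

theorem gau_abs : ∫⁻ x, ENNReal.ofReal (Real.exp (-8 * |x|)) ∂gaussianReal 0 1 ≤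
      ENNReal.ofReal (1 / 8) := by
  rw [gau_lint _ (by fun_prop)]
  have hi : Integrable fun x : ℝ => Real.exp (-8 * |x|) := by
    have h1 : IntegrableOn (fun x : ℝ => Real.exp (-8 * |x|)) (Set.Ioi 0) :=
      (exp_neg_integrableOn_Ioi 0 (b := 8) (by norm_num)).congr_fun
        (fun x hx => by simp only [abs_of_pos (Set.mem_Ioi.1 hx)]) measurableSet_Ioi
    have h2 : IntegrableOn (fun x : ℝ => Real.exp (-8 * |x|)) (Set.Iic 0) := by
      refine (integrableOn_exp_mul_Iic (a := 8) (by norm_num) 0).congr_fun (fun x hx => ?_)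
        measurableSet_Iic
      simp only [abs_of_nonpos (Set.mem_Iic.1 hx)]
      congr 1
      ring
    rw [← integrableOn_univ, ← Set.Iic_union_Ioi (a := (0 : ℝ))]
    exact h2.union h1
  have hv : ∫ x : ℝ, Real.exp (-8 * |x|) = 1 / 4 := by
    rw [integral_comp_abs (f := fun x => Real.exp (-8 * x)),
      integral_exp_mul_Ioi (by norm_num) 0]
    norm_num
  have hs : (2 : ℝ) ≤ √(2 * π) := Real.le_sqrt_of_sq_le (by linarith [Real.pi_gt_three])
  refine (lintegral_mono (g := fun x => ENNReal.ofReal (1 / 2 * Real.exp (-8 * |x|)))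
    fun x => ENNReal.ofReal_le_ofReal ?_).trans (le_of_eq ?_)
  · refine mul_le_mul ?_ (mul_le_of_le_one_left (Real.exp_pos _).le ?_) (by positivity)
      (by norm_num)
    · rw [one_div]
      exact inv_anti₀ (by norm_num) hs
    · exact Real.exp_le_one_iff.2 (by nlinarith [sq_nonneg x])
  · rw [← ofReal_integral_eq_lintegral_ofReal (hi.const_mul _)
      (Filter.Eventually.of_forall fun x => by positivity), integral_const_mul, hv]
    norm_num

variable {V : Type*} [NormedAddCommGroup V] [InnerProductSpace ℝ V] [FiniteDimensional ℝ V]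
  [MeasurableSpace V] [BorelSpace V]

theorem gau_map (z : V) : (stdGaussian V).map (fun g => inner ℝ z g) =
    gaussianReal 0 (‖z‖₊ ^ 2) := by
  have h := IsGaussian.map_eq_gaussianReal (μ := stdGaussian V) (innerSL ℝ z)
  rw [integral_strongDual_stdGaussian, variance_dual_stdGaussian, innerSL_apply_norm] at h
  refine h.trans ?_
  congr 1
  ext
  simp

/-- Chernoff bound on a product. -/
theorem gau_chern {ι X : Type*} [Fintype ι] [MeasurableSpace X] (μ : Measure X)
    [IsProbabilityMeasure μ] (J : Finset ι) (f : X → ℝ) (hf : Measurable f) {c : ℝ} (hc : 0 ≤ c)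
    (h : ∫⁻ x, ENNReal.ofReal (Real.exp (f x)) ∂μ ≤ ENNReal.ofReal c) (t : ℝ) :
    Measure.pi (fun _ : ι => μ) {g | t ≤ ∑ j ∈ J, f (g j)} ≤
      ENNReal.ofReal (c ^ J.card * Real.exp (-t)) := by
  classical
  have hm : Measurable fun g : ι → X => ENNReal.ofReal (Real.exp (∑ j ∈ J, f (g j))) := by
    fun_prop
  have h1 := meas_ge_le_lintegral_div (μ := Measure.pi fun _ : ι => μ) hm.aemeasurable
    (ε := ENNReal.ofReal (Real.exp t)) (by simp [Real.exp_pos]) ENNReal.ofReal_ne_top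
  refine (measure_mono fun g hg => ?_).trans (h1.trans ?_)
  · exact ENNReal.ofReal_le_ofReal (Real.exp_le_exp.2 hg)
  have hF : Measurable fun x => ENNReal.ofReal (Real.exp (f x)) := by fun_prop
  have e : ∀ g : ι → X, ENNReal.ofReal (Real.exp (∑ j ∈ J, f (g j))) =
      ∏ j ∈ J, ENNReal.ofReal (Real.exp (f (g j))) := fun g => by
    rw [Real.exp_sum, ENNReal.ofReal_prod_of_nonneg fun _ _ => (Real.exp_pos _).le]
  simp_rw [e]
  rw [lintegral_prod_eq_prod_lintegral_of_indepFun J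
    (fun j (g : ι → X) => ENNReal.ofReal (Real.exp (f (g j))))
    (iIndepFun_pi (μ := fun _ : ι => μ) (X := fun _ x => ENNReal.ofReal (Real.exp (f x)))
      fun _ => hF.aemeasurable) fun j => hF.comp (measurable_pi_apply j),
    Real.exp_neg, ← div_eq_mul_inv, ENNReal.ofReal_div_of_pos (Real.exp_pos _),
    ENNReal.ofReal_pow hc, ← Finset.prod_const]
  refine ENNReal.div_le_div_right (Finset.prod_le_prod' fun j _ => le_trans (le_of_eq ?_) h) _
  exact (measurePreserving_eval (fun _ : ι => μ) j).lintegral_comp hF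

omit [MeasurableSpace V] [BorelSpace V] in
theorem gau_net1 : ∃ s : Finset V, s.card ≤ 5 ^ Module.finrank ℝ V ∧ (∀ c ∈ s, ‖c‖ ≤ 1) ∧
    ∀ x : V, ‖x‖ ≤ 1 → ∃ c ∈ s, ‖x - c‖ ≤ 1 / 2 := by
  classical
  let P : ℕ → Prop := fun m => ∃ s : Finset V, s.card = m ∧ (∀ c ∈ s, ‖c‖ ≤ 1) ∧
    ∀ c ∈ s, ∀ d ∈ s, c ≠ d → 1 / 2 ≤ ‖c - d‖
  have hb : ∀ m, P m → m ≤ 5 ^ Module.finrank ℝ V := by
    rintro m ⟨s, rfl, h1, h2⟩
    have hi : Function.Injective fun c : V => (2 : ℝ) • c := smul_right_injective V two_ne_zero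
    rw [← Finset.card_image_of_injective s hi]
    refine Besicovitch.card_le_of_separated _ (fun c hc => ?_) fun c hc d hd hcd => ?_
    · obtain ⟨a, ha, rfl⟩ := Finset.mem_image.1 hc
      rw [norm_smul, Real.norm_two]
      linarith [h1 a ha]
    · obtain ⟨a, ha, rfl⟩ := Finset.mem_image.1 hc
      obtain ⟨b, hb, rfl⟩ := Finset.mem_image.1 hd
      rw [← smul_sub, norm_smul, Real.norm_two]
      linarith [h2 a ha b hb fun h => hcd (by rw [h])]
  have h0 : P 0 := ⟨∅, rfl, by simp, by simp⟩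
  obtain ⟨s, hs, h1, h2⟩ : P (Nat.findGreatest P (5 ^ Module.finrank ℝ V)) :=
    Nat.findGreatest_spec (Nat.zero_le _) h0
  refine ⟨s, hs ▸ Nat.findGreatest_le _, h1, fun x hx => ?_⟩
  by_contra hn
  push Not at hn
  have hxs : x ∉ s := fun h => by
    have := hn x h
    rw [sub_self, norm_zero] at this
    linarith
  have hP : P (s.card + 1) := by
    refine ⟨insert x s, Finset.card_insert_of_notMem hxs, fun c hc => ?_, fun c hc d hd hcd => ?_⟩
    · rcases Finset.mem_insert.1 hc with e | e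
      exacts [e ▸ hx, h1 c e]
    · rcases Finset.mem_insert.1 hc with e | e <;> rcases Finset.mem_insert.1 hd with e' | e'
      · exact absurd (e.trans e'.symm) hcd
      · exact e ▸ (hn d e').le
      · rw [norm_sub_rev]
        exact e' ▸ (hn c e).le
      · exact h2 c e d e' hcd
  have := Nat.le_findGreatest (hb _ hP) hP
  omega

omit [MeasurableSpace V] [BorelSpace V] in
theorem gau_netk (k : ℕ) : ∃ s : Finset V, s.card ≤ 5 ^ (k * Module.finrank ℝ V) ∧
    ∀ x : V, ‖x‖ ≤ 1 → ∃ c ∈ s, ‖x - c‖ ≤ (1 / 2) ^ k := by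
  classical
  obtain ⟨s1, c1, -, n1⟩ := gau_net1 (V := V)
  induction k with
  | zero => exact ⟨{0}, by simp, fun x hx => ⟨0, by simp, by simpa using hx⟩⟩
  | succ k ih =>
    obtain ⟨s, cs, ns⟩ := ih
    refine ⟨Finset.image₂ (fun c d => c + (1 / 2 : ℝ) • d) s1 s, ?_, fun x hx => ?_⟩
    · refine (Finset.card_image₂_le _ _ _).trans ?_
      rw [add_mul, one_mul, pow_add, mul_comm]
      exact Nat.mul_le_mul cs c1
    · obtain ⟨c, hc, h1⟩ := n1 x hx
      obtain ⟨d, hd, h2⟩ := ns ((2 : ℝ) • (x - c)) (by rw [norm_smul, Real.norm_two]; linarith)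
      refine ⟨_, Finset.mem_image₂_of_mem hc hd, ?_⟩
      have e : x - (c + (1 / 2 : ℝ) • d) = (1 / 2 : ℝ) • ((2 : ℝ) • (x - c) - d) := by
        rw [smul_sub, smul_smul]
        norm_num
        abel
      rw [e, norm_smul, pow_succ, Real.norm_of_nonneg (by norm_num), mul_comm]
      exact mul_le_mul_of_nonneg_right h2 (by norm_num)

theorem gau_norm (S : Set ℝ) (hS : MeasurableSet S) :
    stdGaussian V {g | ‖g‖ ^ 2 ∈ S} =
      Measure.pi (fun _ : Fin (Module.finrank ℝ V) => gaussianReal 0 1)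
        {x | ∑ i, x i ^ 2 ∈ S} := by
  have hm : MeasurableSet {g : V | ‖g‖ ^ 2 ∈ S} :=
    (by fun_prop : Measurable fun g : V => ‖g‖ ^ 2) hS
  rw [stdGaussian, Measure.map_apply (by fun_prop) hm]
  congr 1
  ext x
  simp only [Set.mem_preimage, Set.mem_ofPred_eq]
  rw [← real_inner_self_eq_norm_sq, (stdOrthonormalBasis ℝ V).orthonormal.inner_sum]
  simp [sq]

theorem gau_e4 : ∫⁻ x, ENNReal.ofReal (Real.exp (x ^ 2 / 4)) ∂gaussianReal 0 1 ≤
    ENNReal.ofReal √2 := by
  have h := gau_sq (-1 / 4) (by norm_num)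
  have e : ∀ x : ℝ, -(-1 / 4) * x ^ 2 = x ^ 2 / 4 := fun x => by ring
  simp_rw [e] at h
  rw [h, ← Real.sqrt_inv]
  norm_num

theorem gau_em : ∫⁻ x, ENNReal.ofReal (Real.exp (-x ^ 2)) ∂gaussianReal 0 1 ≤
    ENNReal.ofReal (√3)⁻¹ := by
  have h := gau_sq 1 (by norm_num)
  simp_rw [neg_mul, one_mul] at h
  rw [h]
  norm_num

theorem gau_tail_up (t : ℝ) : stdGaussian V {g | t ≤ ‖g‖ ^ 2} ≤
    ENNReal.ofReal (√2 ^ Module.finrank ℝ V * Real.exp (-(t / 4))) := by
  have h := gau_chern (ι := Fin (Module.finrank ℝ V)) (gaussianReal 0 1) univ (fun x => x ^ 2 / 4)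
    (by fun_prop) (Real.sqrt_nonneg 2) gau_e4 (t / 4)
  rw [Finset.card_univ, Fintype.card_fin] at h
  refine (gau_norm (V := V) (Set.Ici t) measurableSet_Ici).le.trans (le_trans (le_of_eq ?_) h)
  congr 1
  ext x
  simp only [Set.mem_Ici, Set.mem_ofPred_eq, ← Finset.sum_div]
  constructor <;> intro h <;> linarith

theorem gau_tail_down (t : ℝ) : stdGaussian V {g | ‖g‖ ^ 2 ≤ t} ≤
    ENNReal.ofReal ((√3)⁻¹ ^ Module.finrank ℝ V * Real.exp t) := by
  have h := gau_chern (ι := Fin (Module.finrank ℝ V)) (gaussianReal 0 1) univ (fun x => -x ^ 2)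
    (by fun_prop) (by positivity) gau_em (-t)
  rw [Finset.card_univ, Fintype.card_fin, neg_neg] at h
  refine (gau_norm (V := V) (Set.Iic t) measurableSet_Iic).le.trans (le_trans (le_of_eq ?_) h)
  congr 1
  ext x
  simp only [Set.mem_Iic, Set.mem_ofPred_eq, Finset.sum_neg_distrib, neg_le_neg_iff]

theorem gau_inner (z : V) (F : ℝ → ENNReal) (hF : Measurable F) :
    ∫⁻ g, F (inner ℝ g z) ∂stdGaussian V = ∫⁻ x, F (‖z‖ * x) ∂gaussianReal 0 1 := by
  have h1 : ∫⁻ g, F (inner ℝ g z) ∂stdGaussian V =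
      ∫⁻ x, F x ∂(stdGaussian V).map (fun g => inner ℝ z g) := by
    rw [lintegral_map hF (by fun_prop)]
    exact lintegral_congr fun g => by rw [real_inner_comm]
  rw [h1, gau_map, ← lintegral_map (g := fun x => ‖z‖ * x) hF (by fun_prop),
    gaussianReal_map_const_mul]
  congr 2
  · simp
  · ext
    simp

theorem gau_up_one {ι : Type*} [Fintype ι] (J : Finset ι) (c : V) (hc : ‖c‖ ≤ 1) (x : ℝ) :
    Measure.pi (fun _ : ι => stdGaussian V) {g | x ≤ ∑ j ∈ J, inner ℝ (g j) c ^ 2} ≤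
      ENNReal.ofReal (√2 ^ J.card * Real.exp (-(x / 4))) := by
  have h := gau_chern (ι := ι) (stdGaussian V) J (fun g => inner ℝ g c ^ 2 / 4) (by fun_prop)
    (Real.sqrt_nonneg 2) (by
      rw [gau_inner c (fun y => ENNReal.ofReal (Real.exp (y ^ 2 / 4))) (by fun_prop)]
      refine le_trans (lintegral_mono fun y => ENNReal.ofReal_le_ofReal (Real.exp_le_exp.2 ?_))
        gau_e4
      have h1 : ‖c‖ ^ 2 ≤ 1 := pow_le_one₀ (norm_nonneg _) hc
      rw [mul_pow]
      nlinarith [sq_nonneg y]) (x / 4)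
  refine le_trans (le_of_eq ?_) h
  congr 1
  ext g
  simp only [Set.mem_ofPred_eq, ← Finset.sum_div]
  constructor <;> intro h <;> linarith

omit [MeasurableSpace V] [BorelSpace V] in
theorem gau_up_net {ι : Type*} (s : Finset V) (hs : ∀ x : V, ‖x‖ ≤ 1 → ∃ c ∈ s, ‖x - c‖ ≤ 1 / 2)
    (J : Finset ι) (g : ι → V) {x : ℝ} (h : ∀ c ∈ s, ∑ j ∈ J, inner ℝ (g j) c ^ 2 ≤ x) (z : V) :
    ∑ j ∈ J, inner ℝ (g j) z ^ 2 ≤ 4 * x * ‖z‖ ^ 2 := by
  obtain ⟨L, hL⟩ : ∃ L : V →L[ℝ] EuclideanSpace ℝ J, ∀ y, ‖L y‖ ^ 2 =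
      ∑ j ∈ J, inner ℝ (g j) y ^ 2 := by
    refine ⟨LinearMap.toContinuousLinearMap ((WithLp.linearEquiv 2 ℝ (J → ℝ)).symm.toLinearMap ∘ₗ
      LinearMap.pi fun a : J => (innerSL ℝ (g a)).toLinearMap), fun y => ?_⟩
    rw [EuclideanSpace.real_norm_sq_eq, ← Finset.sum_coe_sort J]
    rfl
  have hx : 0 ≤ x := by
    obtain ⟨c, hc, -⟩ := hs 0 (by simp)
    exact (Finset.sum_nonneg fun _ _ => sq_nonneg _).trans (h c hc)
  have h1 : ‖L‖ ≤ √x + ‖L‖ / 2 := by
    refine L.opNorm_le_of_unit_norm (by positivity) fun y hy => ?_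
    obtain ⟨c, hc, hyc⟩ := hs y hy.le
    have e : L y = L c + L (y - c) := by rw [map_sub]; abel
    have h2 : ‖L c‖ ≤ √x := Real.le_sqrt_of_sq_le ((hL c).trans_le (h c hc))
    have h3 := L.le_opNorm (y - c)
    have h4 := mul_le_mul_of_nonneg_left hyc (norm_nonneg L)
    rw [e]
    linarith [norm_add_le (L c) (L (y - c))]
  have h5 : ‖L z‖ ≤ 2 * √x * ‖z‖ :=
    (L.le_opNorm z).trans (mul_le_mul_of_nonneg_right (by linarith) (norm_nonneg _))
  rw [← hL]
  refine (pow_le_pow_left₀ (norm_nonneg _) h5 2).trans (le_of_eq ?_)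
  rw [mul_pow, mul_pow, Real.sq_sqrt hx]
  norm_num

theorem gau_sum_sets {ι : Type*} [Fintype ι] {l : ℝ} (hN : Real.log (Fintype.card ι) ≤ 2 * l) :
    ∑ J : Finset ι, Real.exp (-(2 * min (l * J.card) (Fintype.card ι))) ≤ 4 := by
  classical
  rcases Nat.eq_zero_or_pos (Fintype.card ι) with h0 | h0
  · have : IsEmpty ι := Fintype.card_eq_zero_iff.1 h0
    simp
  have hp : (0 : ℝ) < Fintype.card ι := by exact_mod_cast h0
  have h1 : ∀ J : Finset ι, Real.exp (-(2 * min (l * J.card) (Fintype.card ι))) ≤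
      ((Fintype.card ι : ℝ)⁻¹) ^ J.card + (1 / 2) ^ Fintype.card ι := fun J => by
    rcases le_total (l * J.card) (Fintype.card ι : ℝ) with h | h
    · rw [min_eq_left h]
      refine le_trans ?_ (le_add_of_nonneg_right (by positivity))
      rw [← Real.exp_log (inv_pos.2 hp), ← Real.exp_nat_mul, Real.log_inv]
      refine Real.exp_le_exp.2 ?_
      nlinarith [mul_le_mul_of_nonneg_left hN (Nat.cast_nonneg (α := ℝ) J.card)]
    · rw [min_eq_right h]
      refine le_trans ?_ (le_add_of_nonneg_left (by positivity))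
      rw [show -(2 * (Fintype.card ι : ℝ)) = Fintype.card ι * (-2) by ring, Real.exp_nat_mul]
      refine pow_le_pow_left₀ (Real.exp_pos _).le ?_ _
      rw [Real.exp_neg, one_div]
      exact inv_anti₀ (by norm_num) (by linarith [Real.add_one_le_exp (2 : ℝ)])
  refine (Finset.sum_le_sum fun J _ => h1 J).trans ?_
  rw [Finset.sum_add_distrib, Finset.sum_const, Finset.card_univ, Fintype.card_finset,
    nsmul_eq_mul]
  have h2 : ∑ J : Finset ι, ((Fintype.card ι : ℝ)⁻¹) ^ J.card =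
      (1 + (Fintype.card ι : ℝ)⁻¹) ^ Fintype.card ι := by
    have := Finset.prod_one_add (f := fun _ : ι => (Fintype.card ι : ℝ)⁻¹) univ
    simp only [Finset.prod_const, Finset.card_univ, Finset.powerset_univ] at this
    exact this.symm
  have h3 : (1 + (Fintype.card ι : ℝ)⁻¹) ^ Fintype.card ι ≤ 3 := by
    refine (pow_le_pow_left₀ (by positivity) (b := Real.exp (Fintype.card ι : ℝ)⁻¹)
      (by linarith [Real.add_one_le_exp (Fintype.card ι : ℝ)⁻¹]) _).trans ?_
    rw [← Real.exp_nat_mul, mul_inv_cancel₀ hp.ne']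
    linarith [Real.exp_one_lt_d9]
  have h4 : ((2 ^ Fintype.card ι : ℕ) : ℝ) * (1 / 2) ^ Fintype.card ι = 1 := by
    push_cast
    rw [← mul_pow]
    norm_num
  linarith

theorem gau_up_prob {ι : Type*} [Fintype ι] {n l : ℝ} (hd : (Module.finrank ℝ V : ℝ) ≤ 3 * n)
    (hl : 1 ≤ l) (hN : Real.log (Fintype.card ι) ≤ 2 * l) :
    Measure.pi (fun _ : ι => stdGaussian V) {g | ∃ (J : Finset ι) (z : V),
      96 * (n + min (l * J.card) (Fintype.card ι)) * ‖z‖ ^ 2 < ∑ j ∈ J, inner ℝ (g j) z ^ 2} ≤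
      ENNReal.ofReal (4 * Real.exp (-n)) := by
  classical
  obtain ⟨s, cs, ns, hs⟩ := gau_net1 (V := V)
  have hsub : {g : ι → V | ∃ (J : Finset ι) (z : V),
      96 * (n + min (l * J.card) (Fintype.card ι)) * ‖z‖ ^ 2 < ∑ j ∈ J, inner ℝ (g j) z ^ 2} ⊆
      ⋃ J ∈ (univ : Finset (Finset ι)), ⋃ c ∈ s, {g : ι → V |
        24 * (n + min (l * J.card) (Fintype.card ι)) ≤ ∑ j ∈ J, inner ℝ (g j) c ^ 2} := by
    rintro g ⟨J, z, h⟩
    by_contra hn
    simp only [Set.mem_iUnion, Set.mem_ofPred_eq, not_exists, not_le] at hn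
    have := gau_up_net s hs J g (fun c hc => (hn J (mem_univ J) c hc).le) z
    linarith
  refine (measure_mono hsub).trans ((measure_biUnion_finset_le _ _).trans ?_)
  have hn : 0 ≤ n := by linarith [Nat.cast_nonneg (α := ℝ) (Module.finrank ℝ V)]
  have h5 : (s.card : ℝ) ≤ Real.exp (5 * n) := by
    have a1 : (s.card : ℝ) ≤ 5 ^ Module.finrank ℝ V := by exact_mod_cast cs
    have a2 : (5 : ℝ) ≤ Real.exp (5 / 3) := by
      have := Real.quadratic_le_exp_of_nonneg (x := 5 / 18) (by norm_num)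
      rw [show (5 : ℝ) / 3 = (6 : ℕ) * (5 / 18) by norm_num, Real.exp_nat_mul]
      exact le_trans (by norm_num) (pow_le_pow_left₀ (by norm_num) this 6)
    refine a1.trans ((pow_le_pow_left₀ (by norm_num) a2 _).trans ?_)
    rw [← Real.exp_nat_mul]
    exact Real.exp_le_exp.2 (by linarith)
  have hJ : ∀ J : Finset ι, Measure.pi (fun _ : ι => stdGaussian V) (⋃ c ∈ s, {g : ι → V |
        24 * (n + min (l * J.card) (Fintype.card ι)) ≤ ∑ j ∈ J, inner ℝ (g j) c ^ 2}) ≤
      ENNReal.ofReal (Real.exp (-(2 * min (l * J.card) (Fintype.card ι))) * Real.exp (-n)) := by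
    intro J
    refine (measure_biUnion_finset_le _ _).trans ((Finset.sum_le_sum fun c hc =>
      gau_up_one J c (ns c hc) _).trans ?_)
    rw [Finset.sum_const, nsmul_eq_mul, ← ENNReal.ofReal_natCast,
      ← ENNReal.ofReal_mul (Nat.cast_nonneg _)]
    refine ENNReal.ofReal_le_ofReal ?_
    have b1 : (J.card : ℝ) ≤ min (l * J.card) (Fintype.card ι) :=
      le_min (le_mul_of_one_le_left (Nat.cast_nonneg _) hl) (by exact_mod_cast J.card_le_univ)
    have b2 : √2 ^ J.card ≤ Real.exp (J.card) := by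
      rw [← Real.exp_one_pow]
      refine pow_le_pow_left₀ (Real.sqrt_nonneg _) ?_ _
      refine (Real.sqrt_le_iff.2 ⟨by norm_num, by norm_num⟩ : √2 ≤ 2).trans ?_
      linarith [Real.add_one_le_exp (1 : ℝ)]
    refine (mul_le_mul h5 (mul_le_mul_of_nonneg_right b2 (Real.exp_pos _).le) (by positivity)
      (Real.exp_pos _).le).trans ?_
    rw [← Real.exp_add, ← Real.exp_add, ← Real.exp_add]
    refine Real.exp_le_exp.2 ?_
    linarith [Nat.cast_nonneg (α := ℝ) J.card]
  refine (Finset.sum_le_sum fun J _ => hJ J).trans ?_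
  rw [← ENNReal.ofReal_sum_of_nonneg fun _ _ => by positivity, ← Finset.sum_mul]
  exact ENNReal.ofReal_le_ofReal (mul_le_mul_of_nonneg_right (gau_sum_sets hN) (Real.exp_pos _).le)

theorem gau_low_one {ι : Type*} [Fintype ι] (c : V) (hc : c ≠ 0) :
    Measure.pi (fun _ : ι => stdGaussian V)
      {g | ∑ j, |inner ℝ (g j) c| ≤ Fintype.card ι * ‖c‖ / 8} ≤
      ENNReal.ofReal ((1 / 2) ^ Fintype.card ι) := by
  have hp : 0 < ‖c‖ := norm_pos_iff.2 hc
  have h := gau_chern (ι := ι) (stdGaussian V) univ (fun g => -8 * |inner ℝ g c| / ‖c‖) (by fun_prop)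
    (c := 1 / 8) (by norm_num) (by
      rw [gau_inner c (fun y => ENNReal.ofReal (Real.exp (-8 * |y| / ‖c‖))) (by fun_prop)]
      refine le_trans (le_of_eq (lintegral_congr fun y => ?_)) gau_abs
      rw [abs_mul, abs_of_pos hp]
      congr 2
      field_simp) (-(Fintype.card ι))
  refine le_trans (le_of_eq ?_) (h.trans (ENNReal.ofReal_le_ofReal ?_))
  · congr 1
    ext g
    simp only [Set.mem_ofPred_eq, ← Finset.sum_div, ← Finset.mul_sum]
    rw [le_div_iff₀ hp]
    constructor <;> intro h <;> linarith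
  · rw [neg_neg, Finset.card_univ, ← Real.exp_one_pow, ← mul_pow]
    exact pow_le_pow_left₀ (by positivity) (by linarith [Real.exp_one_lt_d9]) _

theorem gau_low_prob {ι : Type*} [Fintype ι] (k : ℕ) {A : ℝ} (hA : 0 ≤ A)
    (hk : (1 / 8 + A) * (1 / 2) ^ k ≤ 1 / 16) :
    ∃ B : Set (ι → V), IsClosed B ∧ Measure.pi (fun _ : ι => stdGaussian V) B ≤
      ENNReal.ofReal (5 ^ (k * Module.finrank ℝ V) * (1 / 2) ^ Fintype.card ι) ∧
      ∀ g ∉ B, (∀ y, ∑ j, |inner ℝ (g j) y| ≤ Fintype.card ι * (A * ‖y‖)) →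
        ∀ z, Fintype.card ι * ‖z‖ ≤ 16 * ∑ j, |inner ℝ (g j) z| := by
  classical
  obtain ⟨s, cs, hs⟩ := gau_netk (V := V) k
  refine ⟨⋃ c ∈ s.filter (· ≠ 0), {g | ∑ j, |inner ℝ (g j) c| ≤ Fintype.card ι * ‖c‖ / 8},
    isClosed_biUnion_finset fun c _ => isClosed_le (by fun_prop) continuous_const, ?_,
    fun g hg hy z => ?_⟩
  · refine (measure_biUnion_finset_le _ _).trans ((Finset.sum_le_sum fun c hc =>
      gau_low_one c (Finset.mem_filter.1 hc).2).trans ?_)
    rw [Finset.sum_const, nsmul_eq_mul, ← ENNReal.ofReal_natCast,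
      ← ENNReal.ofReal_mul (Nat.cast_nonneg _)]
    refine ENNReal.ofReal_le_ofReal (mul_le_mul_of_nonneg_right ?_ (by positivity))
    exact_mod_cast (Finset.card_filter_le _ _).trans cs
  have hN : (0 : ℝ) ≤ Fintype.card ι := Nat.cast_nonneg _
  have he : (0 : ℝ) < (1 / 2) ^ k := by positivity
  have key : ∀ z : V, ‖z‖ = 1 → (Fintype.card ι : ℝ) ≤ 16 * ∑ j, |inner ℝ (g j) z| := by
    intro z hz
    obtain ⟨c, hc, hzc⟩ := hs z hz.le
    have h1 : 1 - (1 / 2) ^ k ≤ ‖c‖ := by linarith [norm_sub_norm_le z c]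
    have h0 : c ≠ 0 := by
      rintro rfl
      rw [norm_zero] at h1
      nlinarith [mul_nonneg hA he.le]
    simp only [Set.mem_iUnion, Set.mem_ofPred_eq, not_exists, not_le] at hg
    have h2 := hg c (Finset.mem_filter.2 ⟨hc, h0⟩)
    have h3 : ∑ j, |inner ℝ (g j) c| ≤ ∑ j, |inner ℝ (g j) z| + ∑ j, |inner ℝ (g j) (z - c)| := by
      rw [← Finset.sum_add_distrib]
      refine Finset.sum_le_sum fun j _ => ?_
      rw [inner_sub_right]
      have := abs_sub (inner ℝ (g j) z) (inner ℝ (g j) z - inner ℝ (g j) c)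
      rwa [sub_sub_cancel] at this
    have h4 := hy (z - c)
    have h5 := mul_le_mul_of_nonneg_left (mul_le_mul_of_nonneg_left hzc hA) hN
    have h6 := mul_le_mul_of_nonneg_left h1 hN
    have h7 := mul_le_mul_of_nonneg_left hk hN
    nlinarith
  rcases eq_or_ne z 0 with rfl | hz
  · simp
  have hp : 0 < ‖z‖ := norm_pos_iff.2 hz
  have h := key (‖z‖⁻¹ • z) (norm_smul_inv_norm hz)
  simp only [real_inner_smul_right, abs_mul, abs_of_pos (inv_pos.2 hp), ← Finset.mul_sum] at h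
  refine (mul_le_mul_of_nonneg_right h hp.le).trans (le_of_eq ?_)
  field_simp

theorem gau_inc_one (y : V) (x : ℝ) : stdGaussian V {g | x * ‖y‖ ^ 2 < inner ℝ g y ^ 2} ≤
    ENNReal.ofReal (√2 * Real.exp (-(x / 4))) := by
  rcases eq_or_ne y 0 with rfl | hy
  · simp
  have hp : 0 < ‖y‖ := norm_pos_iff.2 hy
  have h := gau_up_one (V := V) (ι := Unit) univ (‖y‖⁻¹ • y) (norm_smul_inv_norm hy).le x
  have hm : MeasurableSet {g : V | x * ‖y‖ ^ 2 < inner ℝ g y ^ 2} :=
    measurableSet_lt measurable_const (by fun_prop)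
  rw [← (measurePreserving_eval (fun _ : Unit => stdGaussian V) ()).measure_preimage
    hm.nullMeasurableSet]
  refine (measure_mono fun g hg => ?_).trans (h.trans (by simp))
  simp only [Set.mem_preimage, Set.mem_ofPred_eq, Function.eval] at hg
  simp only [Set.mem_ofPred_eq, Finset.univ_unique, Finset.sum_singleton, real_inner_smul_right,
    mul_pow, inv_pow]
  rw [← div_eq_inv_mul, le_div_iff₀ (by positivity)]
  exact hg.le

theorem gau_inc_prod {Ω : Type*} [MeasurableSpace Ω] (ν : Measure Ω) [IsProbabilityMeasure ν]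
    (Y : Ω → V) (hY : Measurable Y) (x : ℝ) :
    ((stdGaussian V).prod ν) {p | x * ‖Y p.2‖ ^ 2 < inner ℝ p.1 (Y p.2) ^ 2} ≤
      ENNReal.ofReal (√2 * Real.exp (-(x / 4))) := by
  have hm : MeasurableSet {p : V × Ω | x * ‖Y p.2‖ ^ 2 < inner ℝ p.1 (Y p.2) ^ 2} :=
    measurableSet_lt (by fun_prop) (by fun_prop)
  rw [Measure.prod_apply_symm hm]
  refine (lintegral_mono fun ω => gau_inc_one (Y ω) x).trans ?_
  simp

theorem gau_inc_pi {ι : Type*} [Fintype ι] {i j : ι} (hij : i ≠ j) (x : ℝ) :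
    Measure.pi (fun _ : ι => stdGaussian V) {g | x * ‖g j‖ ^ 2 < inner ℝ (g i) (g j) ^ 2} ≤
      ENNReal.ofReal (√2 * Real.exp (-(x / 4))) := by
  have hi := (iIndepFun_pi (μ := fun _ : ι => stdGaussian V) (X := fun _ x => x)
    fun _ => aemeasurable_id).indepFun hij
  have hm : MeasurableSet {p : V × V | x * ‖p.2‖ ^ 2 < inner ℝ p.1 p.2 ^ 2} :=
    measurableSet_lt (by fun_prop) (by fun_prop)
  have h1 := (indepFun_iff_map_prod_eq_prod_map_map (measurable_pi_apply i).aemeasurable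
    (measurable_pi_apply j).aemeasurable).1 hi
  rw [(measurePreserving_eval (fun _ : ι => stdGaussian V) i).map_eq,
    (measurePreserving_eval (fun _ : ι => stdGaussian V) j).map_eq] at h1
  have h2 := gau_inc_prod (V := V) (stdGaussian V) (fun y => y) measurable_id x
  rw [← h1, Measure.map_apply (by fun_prop) hm] at h2
  exact h2

end Pool.Agent.P.MP_f511bc_an.Nf
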