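import Pool.Agent.P.MP_f511bc_an.Nf.Defs
import Pool.Agent.P.MP_f511bc_an.Nf.Gau

/-! One level of the random family: lengths, incoherence and the lower bound. -/

open MeasureTheory ProbabilityTheory Real Finset Module

universe u

namespace Pool.Agent.P.MP_f511bc_an.Nf

variable {V : Type*} [NormedAddCommGroup V] [InnerProductSpace ℝ V] [FiniteDimensional ℝ V]
  [MeasurableSpace V] [BorelSpace V]

theorem lev_len : stdGaussian V {g | ‖g‖ ^ 2 ≤ (finrank ℝ V : ℝ) / 4 ∨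
    16 * (finrank ℝ V : ℝ) ≤ ‖g‖ ^ 2} ≤
      ENNReal.ofReal (2 * Real.exp (-((finrank ℝ V : ℝ) / 4))) := by
  have hw : (0 : ℝ) ≤ finrank ℝ V := Nat.cast_nonneg _
  have h1 : (√3)⁻¹ ^ finrank ℝ V * Real.exp ((finrank ℝ V : ℝ) / 4) ≤
      Real.exp (-((finrank ℝ V : ℝ) / 4)) := by
    have a : (√3)⁻¹ ≤ Real.exp (-(1 / 2)) := by
      rw [Real.exp_neg]
      refine inv_anti₀ (Real.exp_pos _) (Real.le_sqrt_of_sq_le ?_)
      rw [← Real.exp_nat_mul]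
      norm_num
      linarith [Real.exp_one_lt_d9]
    refine (mul_le_mul_of_nonneg_right (pow_le_pow_left₀ (by positivity) a _)
      (Real.exp_pos _).le).trans ?_
    rw [← Real.exp_nat_mul, ← Real.exp_add]
    exact Real.exp_le_exp.2 (by linarith)
  have h2 : √2 ^ finrank ℝ V * Real.exp (-(16 * (finrank ℝ V : ℝ) / 4)) ≤
      Real.exp (-((finrank ℝ V : ℝ) / 4)) := by
    have a : √2 ≤ Real.exp 1 := by
      refine (Real.sqrt_le_iff.2 ⟨by norm_num, by norm_num⟩ : √2 ≤ 2).trans ?_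
      linarith [Real.add_one_le_exp (1 : ℝ)]
    refine (mul_le_mul_of_nonneg_right (pow_le_pow_left₀ (by positivity) a _)
      (Real.exp_pos _).le).trans ?_
    rw [← Real.exp_nat_mul, ← Real.exp_add]
    exact Real.exp_le_exp.2 (by linarith)
  refine (measure_union_le (μ := stdGaussian V) {g : V | ‖g‖ ^ 2 ≤ (finrank ℝ V : ℝ) / 4}
    {g : V | 16 * (finrank ℝ V : ℝ) ≤ ‖g‖ ^ 2}).trans ?_
  rw [two_mul, ENNReal.ofReal_add (Real.exp_pos _).le (Real.exp_pos _).le]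
  exact add_le_add ((gau_tail_down _).trans (ENNReal.ofReal_le_ofReal h1))
    ((gau_tail_up _).trans (ENNReal.ofReal_le_ofReal h2))

theorem lev_union {Ω α : Type*} [MeasurableSpace Ω] (μ : Measure Ω) [Fintype α]
    (A : α → Set Ω) {c : ℝ} (h : ∀ a, μ (A a) ≤ ENNReal.ofReal c) :
    μ (⋃ a, A a) ≤ ENNReal.ofReal (Fintype.card α * c) := by
  refine (measure_iUnion_fintype_le μ A).trans ((Finset.sum_le_sum fun a _ => h a).trans ?_)
  rw [Finset.sum_const, nsmul_eq_mul, ← ENNReal.ofReal_natCast,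
    ← ENNReal.ofReal_mul (Nat.cast_nonneg _), Finset.card_univ]

theorem lev_own {ι : Type*} [Fintype ι] (x : ℝ) (m : ℕ)
    (hm : (1 / 8 + 4 * √(finrank ℝ V : ℝ)) * (1 / 2) ^ m ≤ 1 / 16) :
    ∃ B : Set (ι → V), MeasurableSet B ∧ Measure.pi (fun _ : ι => stdGaussian V) B ≤
      ENNReal.ofReal (Fintype.card ι * (2 * Real.exp (-((finrank ℝ V : ℝ) / 4))) +
        (Fintype.card ι : ℝ) ^ 2 * (√2 * Real.exp (-(x / 4))) +
        5 ^ (m * finrank ℝ V) * (1 / 2) ^ Fintype.card ι) ∧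
      ∀ g ∉ B, (∀ j, (finrank ℝ V : ℝ) / 4 < ‖g j‖ ^ 2 ∧ ‖g j‖ ^ 2 < 16 * (finrank ℝ V : ℝ)) ∧
        (∀ i j, i ≠ j → inner ℝ (g i) (g j) ^ 2 ≤ x * ‖g j‖ ^ 2) ∧
        ∀ z, Fintype.card ι * ‖z‖ ≤ 16 * ∑ j, |inner ℝ (g j) z| := by
  classical
  obtain ⟨B, hB, mB, gB⟩ := gau_low_prob (V := V) (ι := ι) m (by positivity) hm
  have hL : MeasurableSet {g : V | ‖g‖ ^ 2 ≤ (finrank ℝ V : ℝ) / 4 ∨
      16 * (finrank ℝ V : ℝ) ≤ ‖g‖ ^ 2} := by
    have hn : Measurable fun g : V => ‖g‖ ^ 2 := by fun_prop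
    exact (measurableSet_le hn measurable_const).union (measurableSet_le measurable_const hn)
  let A1 : ι → Set (ι → V) := fun j => (fun g => g j) ⁻¹' {g : V |
    ‖g‖ ^ 2 ≤ (finrank ℝ V : ℝ) / 4 ∨ 16 * (finrank ℝ V : ℝ) ≤ ‖g‖ ^ 2}
  let A2 : ι × ι → Set (ι → V) := fun p => if p.1 = p.2 then ∅ else
    {g | x * ‖g p.2‖ ^ 2 < inner ℝ (g p.1) (g p.2) ^ 2}
  refine ⟨((⋃ j, A1 j) ∪ ⋃ p, A2 p) ∪ B, ?_, ?_, fun g hg => ?_⟩
  · refine ((MeasurableSet.iUnion fun j => measurable_pi_apply j hL).union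
      (MeasurableSet.iUnion fun p => ?_)).union hB.measurableSet
    simp only [A2]
    split_ifs
    · exact MeasurableSet.empty
    · exact measurableSet_lt (by fun_prop) (by fun_prop)
  · rw [ENNReal.ofReal_add (by positivity) (by positivity),
      ENNReal.ofReal_add (by positivity) (by positivity)]
    refine (measure_union_le _ _).trans (add_le_add ((measure_union_le _ _).trans
      (add_le_add (lev_union _ _ fun j => ?_) ((lev_union _ _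
        (c := √2 * Real.exp (-(x / 4))) fun p => ?_).trans (le_of_eq ?_)))) mB)
    · exact ((measurePreserving_eval (fun _ : ι => stdGaussian V) j).measure_preimage
        hL.nullMeasurableSet).trans_le lev_len
    · simp only [A2]
      split_ifs with h
      · simp
      · exact gau_inc_pi h x
    · rw [Fintype.card_prod, Nat.cast_mul, sq]
  simp only [Set.mem_union, Set.mem_iUnion, not_or, not_exists] at hg
  obtain ⟨⟨g1, g2⟩, g3⟩ := hg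
  have hU : ∀ j, (finrank ℝ V : ℝ) / 4 < ‖g j‖ ^ 2 ∧ ‖g j‖ ^ 2 < 16 * (finrank ℝ V : ℝ) := by
    intro j
    have := g1 j
    simp only [A1, Set.mem_preimage, Set.mem_ofPred_eq, not_or, not_le] at this
    exact this
  refine ⟨hU, fun i j hij => ?_, gB g g3 fun y => ?_⟩
  · have := g2 (i, j)
    simp only [A2, if_neg hij, Set.mem_ofPred_eq, not_lt] at this
    exact this
  · rw [← Finset.card_univ, ← nsmul_eq_mul, ← Finset.sum_const]
    refine Finset.sum_le_sum fun j _ => (abs_real_inner_le_norm _ _).trans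
      (mul_le_mul_of_nonneg_right (abs_le_of_sq_le_sq' ?_ (by positivity)).2 (norm_nonneg _))
    rw [mul_pow, Real.sq_sqrt (Nat.cast_nonneg _)]
    linarith [(hU j).2]

theorem lev_fix {ι κ : Type*} [Fintype ι] [Fintype κ] (y : κ → V) (x : ℝ) :
    Measure.pi (fun _ : ι => stdGaussian V)
      {g | ∃ i j, x * ‖y j‖ ^ 2 < inner ℝ (g i) (y j) ^ 2} ≤
      ENNReal.ofReal (Fintype.card ι * Fintype.card κ * (√2 * Real.exp (-(x / 4)))) := by
  have e : {g : ι → V | ∃ i j, x * ‖y j‖ ^ 2 < inner ℝ (g i) (y j) ^ 2} =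
      ⋃ p : ι × κ, (fun g => g p.1) ⁻¹' {g : V | x * ‖y p.2‖ ^ 2 < inner ℝ g (y p.2) ^ 2} := by
    ext g
    simp
  rw [e]
  refine (lev_union _ _ (c := √2 * Real.exp (-(x / 4))) fun p => ?_).trans (le_of_eq ?_)
  · exact ((measurePreserving_eval (fun _ : ι => stdGaussian V) p.1).measure_preimage
      (measurableSet_lt measurable_const (by fun_prop)).nullMeasurableSet).trans_le
      (gau_inc_one _ x)
  · rw [Fintype.card_prod, Nat.cast_mul]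

theorem lev_exp {a : ℕ} {q : ℝ} (hq : 0 ≤ q) {b y : ℝ} (h : a * q + b ≤ y) :
    q ^ a * Real.exp (-y) ≤ Real.exp (-b) := by
  have h1 : q ≤ Real.exp q := by linarith [Real.add_one_le_exp q]
  refine (mul_le_mul_of_nonneg_right (pow_le_pow_left₀ hq h1 a) (Real.exp_pos _).le).trans ?_
  rw [← Real.exp_nat_mul, ← Real.exp_add]
  exact Real.exp_le_exp.2 (by linarith)

theorem lev_half (n : ℕ) : Real.exp (-(n : ℝ)) ≤ (1 / 2) ^ n := by
  rw [show -(n : ℝ) = n * (-1) by ring, Real.exp_nat_mul]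
  refine pow_le_pow_left₀ (Real.exp_pos _).le ?_ _
  rw [Real.exp_neg, one_div]
  exact inv_anti₀ (by norm_num) (by linarith [Real.add_one_le_exp (1 : ℝ)])

theorem lev_x {k : ℕ} (hk : 1 ≤ k) {w : ℝ} (hw : ((k : ℝ) + 1) ^ 48 ≤ w) :
    800 * ((k : ℝ) + 2) + (k + 8) ≤ w / (4 * (k : ℝ) ^ 24) / 4 := by
  have hk' : (1 : ℝ) ≤ k := by exact_mod_cast hk
  have h1 : (k : ℝ) ^ 24 ≤ ((k : ℝ) + 1) ^ 24 := pow_le_pow_left₀ (by linarith) (by linarith) _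
  have h2 : (2 : ℝ) ^ 23 ≤ ((k : ℝ) + 1) ^ 23 := pow_le_pow_left₀ (by norm_num) (by linarith) _
  have h3 : 16 * (800 * ((k : ℝ) + 2) + (k + 8)) ≤ ((k : ℝ) + 1) ^ 24 := by
    rw [pow_succ]
    generalize ((k : ℝ) + 1) ^ 23 = X at h2 ⊢
    nlinarith
  rw [le_div_iff₀ (by norm_num), le_div_iff₀ (by positivity)]
  have h4 := mul_le_mul h3 h1 (by positivity) (by positivity)
  rw [← pow_add] at h4
  refine le_trans (le_of_eq ?_) (h4.trans hw)
  generalize (k : ℝ) ^ 24 = X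
  ring

theorem lev_pair {k : ℕ} (hk : 1 ≤ k) {w c : ℝ} (hw : ((k : ℝ) + 1) ^ 48 ≤ w)
    (hc : c ≤ ((k : ℝ) + 2) ^ 800) :
    c * (√2 * Real.exp (-(w / (4 * (k : ℝ) ^ 24) / 4))) ≤ (1 / 2) ^ (k + 7) := by
  have h1 := lev_exp (a := 800) (q := (k : ℝ) + 2) (by positivity) (b := ((k + 8 : ℕ) : ℝ))
    (y := w / (4 * (k : ℝ) ^ 24) / 4) (by push_cast; exact lev_x hk hw)
  have h2 := lev_half (k + 8)
  have h3 : √2 ≤ 2 := Real.sqrt_le_iff.2 ⟨by norm_num, by norm_num⟩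
  have h4 := mul_le_mul hc (mul_le_mul_of_nonneg_right h3
    (Real.exp_pos (-(w / (4 * (k : ℝ) ^ 24) / 4))).le) (by positivity) (by positivity)
  rw [pow_succ (1 / 2 : ℝ) (k + 7)] at h2
  generalize ((k : ℝ) + 2) ^ 800 = X at h1 h4
  generalize Real.exp (-(w / (4 * (k : ℝ) ^ 24) / 4)) = Y at h1 h4 ⊢
  generalize (1 / 2 : ℝ) ^ (k + 7) = Z at h2 ⊢
  linarith

omit [FiniteDimensional ℝ V] [MeasurableSpace V] [BorelSpace V] in
theorem lev_cos {k : ℕ} (hk : 1 ≤ k) {w b : ℝ} (hw : 0 < w) {g y : V} (hg : w / 4 ≤ ‖g‖ ^ 2)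
    (hb : ‖y‖ ≤ b) (h : inner ℝ g y ^ 2 ≤ w / (4 * (k : ℝ) ^ 24) * ‖y‖ ^ 2) :
    ‖g‖⁻¹ * (b⁻¹ * |inner ℝ g y|) ≤ ((k : ℝ) ^ 12)⁻¹ := by
  have hk' : (0 : ℝ) < k := by exact_mod_cast hk
  have hb0 : 0 ≤ b := (norm_nonneg _).trans hb
  rcases hb0.eq_or_lt with h0 | h0
  · rw [← h0, inv_zero, zero_mul, mul_zero]
    positivity
  have hg0 : 0 < ‖g‖ := by
    refine (norm_nonneg g).lt_of_ne fun e => ?_
    rw [← e] at hg
    linarith
  have h1 : |inner ℝ g y| ≤ ((k : ℝ) ^ 12)⁻¹ * (‖g‖ * b) := by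
    refine abs_le.2 (abs_le_of_sq_le_sq' (h.trans ?_) (by positivity))
    have e : (((k : ℝ) ^ 12)⁻¹ * (‖g‖ * b)) ^ 2 = ‖g‖ ^ 2 / (k : ℝ) ^ 24 * b ^ 2 := by
      field_simp
    rw [e]
    refine mul_le_mul ?_ (pow_le_pow_left₀ (norm_nonneg _) hb 2) (by positivity) (by positivity)
    rw [← div_div]
    exact div_le_div_of_nonneg_right hg (by positivity)
  refine (mul_le_mul_of_nonneg_left (mul_le_mul_of_nonneg_left h1 (by positivity))
    (by positivity)).trans (le_of_eq ?_)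
  field_simp

theorem lev_sq {k : ℕ} (hk : 1 ≤ k) : k + 2 ≤ (k + 1) ^ 2 := by nlinarith

theorem lev_cnt {k w N : ℕ} (hk : 1 ≤ k) (hw2 : w ≤ 3 * (k + 2) ^ 48) (hN : N = (k + 1) ^ 400) :
    3 * ((24 * (k + 2) + 8) * w) + (k + 7) ≤ N := by
  have d1 := lev_sq hk
  have d2 : (k + 2) ^ 49 ≤ (k + 1) ^ 98 := by
    have := Nat.pow_le_pow_left d1 49
    rwa [← pow_mul] at this
  have d3 : 2 ^ 8 ≤ (k + 1) ^ 8 := Nat.pow_le_pow_left (by omega) 8
  have d4 : 1 ≤ (k + 2) ^ 48 := Nat.one_le_pow _ _ (by omega)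
  have d5 : (24 * (k + 2) + 8) * w ≤ (28 * (k + 2)) * (3 * (k + 2) ^ 48) :=
    Nat.mul_le_mul (by clear hN; omega) hw2
  have d6 : (k + 1) ^ 106 ≤ N := by
    rw [hN]
    exact Nat.pow_le_pow_right (Nat.succ_pos k) (by norm_num)
  have d7 : (k + 1) ^ 106 = (k + 1) ^ 8 * (k + 1) ^ 98 := by rw [← pow_add]
  have d8 := Nat.mul_le_mul d3 d2
  have d9 : (k + 2) ^ 49 = (k + 2) * (k + 2) ^ 48 := by rw [← pow_succ']
  have d10 := Nat.mul_le_mul_left (k + 2) d4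
  have d11 : 28 * (k + 2) * (3 * (k + 2) ^ 48) = 84 * ((k + 2) * (k + 2) ^ 48) := by
    generalize (k + 2) ^ 48 = X
    ring
  rw [← d7] at d8
  rw [d11, ← d9] at d5
  rw [← d9] at d10
  clear d1 d2 d3 d4 d7 d9 d11 hw2 hN
  generalize (k + 2) ^ 49 = X at d5 d8 d10
  generalize (k + 1) ^ 106 = Y at d6 d8
  generalize (24 * (k + 2) + 8) * w = Z at d5 ⊢
  omega

theorem lev_b3 {a b N : ℕ} (h : 3 * a + b ≤ N) : (5 : ℝ) ^ a * (1 / 2) ^ N ≤ (1 / 2) ^ b := by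
  obtain ⟨r, rfl⟩ := Nat.exists_eq_add_of_le h
  rw [pow_add, pow_add, pow_mul (1 / 2 : ℝ) 3, ← mul_assoc, ← mul_assoc, ← mul_pow]
  have c2 : ((5 : ℝ) * (1 / 2) ^ 3) ^ a ≤ 1 := pow_le_one₀ (by norm_num) (by norm_num)
  have c3 : (1 / 2 : ℝ) ^ r ≤ 1 := pow_le_one₀ (by norm_num) (by norm_num)
  exact (mul_le_of_le_one_right (by positivity) c3).trans
    (mul_le_of_le_one_left (by positivity) c2)

theorem lev_b1 {k : ℕ} (hk : 1 ≤ k) {w c : ℝ} (hw : ((k : ℝ) + 1) ^ 48 ≤ w)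
    (hc : c ≤ ((k : ℝ) + 2) ^ 400) : c * (2 * Real.exp (-(w / 4))) ≤ (1 / 2) ^ (k + 7) := by
  have hk' : (1 : ℝ) ≤ k := by exact_mod_cast hk
  have w0 : 0 ≤ w := le_trans (by positivity) hw
  have c0 : w / (4 * (k : ℝ) ^ 24) / 4 ≤ w / 4 := by
    refine div_le_div_of_nonneg_right (div_le_self w0 ?_) (by norm_num)
    linarith [one_le_pow₀ (n := 24) hk']
  have c4 := (lev_x hk hw).trans c0
  have c1 := lev_exp (a := 400) (q := (k : ℝ) + 2) (by positivity) (b := ((k + 8 : ℕ) : ℝ))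
    (y := w / 4) (by push_cast; linarith)
  have c2 := lev_half (k + 8)
  have c3 := mul_le_mul_of_nonneg_right hc (Real.exp_pos (-(w / 4))).le
  rw [pow_succ (1 / 2 : ℝ) (k + 7)] at c2
  clear hc hw c0
  generalize ((k : ℝ) + 2) ^ 400 = X at c1 c3
  generalize (1 / 2 : ℝ) ^ (k + 7) = Z at c2 ⊢
  linarith

theorem lev_mesh {k : ℕ} {w : ℝ} (w2 : w ≤ 3 * ((k : ℝ) + 2) ^ 48) :
    (1 / 8 + 4 * √w) * (1 / 2) ^ (24 * (k + 2) + 8) ≤ 1 / 16 := by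
  have a1 : √w ≤ 2 * ((k : ℝ) + 2) ^ 24 := by
    refine Real.sqrt_le_iff.2 ⟨by positivity, w2.trans ?_⟩
    rw [mul_pow, ← pow_mul]
    exact mul_le_mul_of_nonneg_right (by norm_num) (by positivity)
  have a2 : ((k : ℝ) + 2) ^ 24 ≤ 2 ^ (24 * (k + 2)) := by
    have : (k + 2) ^ 24 ≤ 2 ^ (24 * (k + 2)) := by
      rw [mul_comm, pow_mul]
      exact Nat.pow_le_pow_left Nat.lt_two_pow_self.le _
    exact_mod_cast this
  have a3 : (1 : ℝ) ≤ 2 ^ (24 * (k + 2)) := one_le_pow₀ (by norm_num)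
  rw [one_div_pow, mul_one_div, div_le_iff₀ (by positivity), pow_add]
  clear w2
  generalize ((k : ℝ) + 2) ^ 24 = X at a1 a2
  generalize (2 : ℝ) ^ (24 * (k + 2)) = Y at a2 a3 ⊢
  norm_num
  linarith

theorem lev_num {ι : Type*} [Fintype ι] {k : ℕ} (hk : 1 ≤ k)
    (hw1 : (k + 1) ^ 48 ≤ finrank ℝ V) (hw2 : finrank ℝ V ≤ 3 * (k + 2) ^ 48)
    (hN : Fintype.card ι = (k + 1) ^ 400) :
    ∃ B : Set (ι → V), MeasurableSet B ∧ Measure.pi (fun _ : ι => stdGaussian V) B ≤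
      ENNReal.ofReal ((1 / 2) ^ (k + 5)) ∧
      ∀ g ∉ B, (∀ j, (finrank ℝ V : ℝ) / 4 < ‖g j‖ ^ 2 ∧ ‖g j‖ ^ 2 < 16 * (finrank ℝ V : ℝ)) ∧
        (∀ i j, i ≠ j → |inner ℝ (‖g i‖⁻¹ • g i) (‖g j‖⁻¹ • g j)| ≤ ((k : ℝ) ^ 12)⁻¹) ∧
        ∀ z, Fintype.card ι * ‖z‖ ≤
          64 * √(finrank ℝ V : ℝ) * ∑ j, |inner ℝ (‖g j‖⁻¹ • g j) z| := by
  have hk' : (1 : ℝ) ≤ k := by exact_mod_cast hk
  have w1 : ((k : ℝ) + 1) ^ 48 ≤ finrank ℝ V := by exact_mod_cast hw1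
  have w2 : (finrank ℝ V : ℝ) ≤ 3 * ((k : ℝ) + 2) ^ 48 := by exact_mod_cast hw2
  have w0 : (0 : ℝ) < finrank ℝ V := lt_of_lt_of_le (by positivity) w1
  obtain ⟨B, hB, mB, gB⟩ := lev_own (V := V) (ι := ι)
    ((finrank ℝ V : ℝ) / (4 * (k : ℝ) ^ 24)) _ (lev_mesh w2)
  have hN2 : (Fintype.card ι : ℝ) ≤ ((k : ℝ) + 2) ^ 400 := by
    rw [hN, Nat.cast_pow, Nat.cast_add, Nat.cast_one]
    exact pow_le_pow_left₀ (by positivity) (by linarith only []) _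
  refine ⟨B, hB, mB.trans (ENNReal.ofReal_le_ofReal ?_), fun g hg => ?_⟩
  · have b0 : (Fintype.card ι : ℝ) ^ 2 ≤ ((k : ℝ) + 2) ^ 800 := by
      have := pow_le_pow_left₀ (Nat.cast_nonneg _) hN2 2
      rwa [← pow_mul] at this
    have b2 := lev_pair hk w1 b0
    have b1 := lev_b1 hk w1 hN2
    have b3 := lev_b3 (lev_cnt hk hw2 hN)
    refine (add_le_add (add_le_add b1 b2) b3).trans ?_
    rw [pow_add, pow_add]
    have b5 : (0 : ℝ) ≤ (1 / 2) ^ k := by positivity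
    generalize (1 / 2 : ℝ) ^ k = X at b5 ⊢
    linarith
  obtain ⟨hU, hI, hL⟩ := gB g hg
  clear gB mB hN2 w1 w2 hN hw1 hw2
  refine ⟨hU, fun i j hij => ?_, fun z => (hL z).trans ?_⟩
  · rw [real_inner_smul_left, real_inner_smul_right, abs_mul, abs_mul, abs_inv, abs_inv, abs_norm,
      abs_norm]
    exact lev_cos hk w0 (hU i).1.le le_rfl (hI i j hij)
  · rw [show 64 * √(finrank ℝ V : ℝ) = 16 * (4 * √(finrank ℝ V : ℝ)) by ring, mul_assoc,
      Finset.mul_sum _ _ (4 * √(finrank ℝ V : ℝ))]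
    refine mul_le_mul_of_nonneg_left (Finset.sum_le_sum fun j _ => ?_) (by norm_num)
    have g0 : 0 < ‖g j‖ := by
      refine (norm_nonneg _).lt_of_ne fun e => ?_
      have := (hU j).1
      rw [← e] at this
      linarith
    have g1 : ‖g j‖ ≤ 4 * √(finrank ℝ V : ℝ) := by
      refine (abs_le_of_sq_le_sq' ?_ (by positivity)).2
      rw [mul_pow, Real.sq_sqrt w0.le]
      linarith [(hU j).2]
    rw [real_inner_smul_left, abs_mul, abs_inv, abs_norm, ← mul_assoc]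
    refine le_mul_of_one_le_left (abs_nonneg _) ?_
    rw [← div_eq_mul_inv, one_le_div g0]
    exact g1

theorem lev_enn (a : ℕ) : ENNReal.ofReal ((1 / 2) ^ a) = (1 / 2) ^ a := by
  rw [ENNReal.ofReal_pow (by norm_num), ENNReal.ofReal_div_of_pos (by norm_num)]
  simp

theorem lev_mono {a b : ℕ} (h : a ≤ b) : ENNReal.ofReal ((1 / 2) ^ b) ≤ (1 / 2) ^ a := by
  rw [← lev_enn]
  exact ENNReal.ofReal_le_ofReal (pow_le_pow_of_le_one (by norm_num) (by norm_num) h)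

theorem lev_prob : ∃ l0 : ℕ, ∀ l, l0 ≤ l → ∀ (W : Type u) [NormedAddCommGroup W] [InnerProductSpace ℝ W]
    [FiniteDimensional ℝ W] [MeasurableSpace W] [BorelSpace W], 2 * nn l ≤ finrank ℝ W →
    finrank ℝ W ≤ 3 * nn l →
    ∃ A : Set (Fin (NN l) → W), MeasurableSet A ∧ gam W (NN l) A ≤ (1 / 2) ^ (l + 4) ∧
      ∀ g, g ∉ A → (∀ j, (nn l : ℝ) / 2 ≤ ‖g j‖ ^ 2 ∧ ‖g j‖ ^ 2 ≤ 48 * nn l) ∧
        (∀ i j, i ≠ j → |inner ℝ (nrm (g i)) (nrm (g j))| ≤ tt l) ∧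
        ∀ z : W, ‖z‖ * NN l ≤ 128 * √(nn l : ℝ) * ∑ j, |inner ℝ (nrm (g j)) z| := by
  refine ⟨1, fun l hl W _ _ _ _ _ h1 h2 => ?_⟩
  have e1 : (l + 1) ^ 48 ≤ finrank ℝ W := (Nat.le_mul_of_pos_left (nn l) two_pos).trans h1
  have e2 : finrank ℝ W ≤ 3 * (l + 2) ^ 48 :=
    h2.trans (Nat.mul_le_mul_left 3 (Nat.pow_le_pow_left (Nat.le_succ _) 48))
  obtain ⟨A, hA, mA, gA⟩ := lev_num (V := W) (ι := Fin (NN l)) hl e1 e2 (Fintype.card_fin _)
  refine ⟨A, hA, mA.trans (lev_mono (Nat.le_succ _)), fun g hg => ?_⟩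
  obtain ⟨hU, hI, hL⟩ := gA g hg
  clear gA mA e1 e2
  have r1 : 2 * (nn l : ℝ) ≤ finrank ℝ W := by exact_mod_cast h1
  have r2 : (finrank ℝ W : ℝ) ≤ 3 * nn l := by exact_mod_cast h2
  refine ⟨fun j => ⟨by linarith [(hU j).1], by linarith [(hU j).2]⟩, fun i j hij => ?_,
    fun z => ?_⟩
  · rw [tt, one_div]
    exact hI i j hij
  · have h3 := hL z
    rw [Fintype.card_fin, mul_comm] at h3
    refine h3.trans (mul_le_mul_of_nonneg_right ?_ (Finset.sum_nonneg fun _ _ => abs_nonneg _))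
    have h4 : √(finrank ℝ W : ℝ) ≤ 2 * √(nn l : ℝ) := by
      refine Real.sqrt_le_iff.2 ⟨mul_nonneg zero_le_two (Real.sqrt_nonneg _), ?_⟩
      rw [mul_pow, Real.sq_sqrt (Nat.cast_nonneg _)]
      linarith [Nat.cast_nonneg (α := ℝ) (nn l)]
    linarith

theorem inc2_prob : ∃ l0 : ℕ, ∀ l, l0 ≤ l → ∀ (W : Type u) [NormedAddCommGroup W] [InnerProductSpace ℝ W]
    [FiniteDimensional ℝ W] [MeasurableSpace W] [BorelSpace W], 2 * nn l ≤ finrank ℝ W →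
    finrank ℝ W ≤ 3 * nn l →
    ∀ y : Fin (NN (l + 1)) → W, (∀ j, ‖y j‖ ≤ 1) →
    gam W (NN l) {g | ∃ i j, tt l * √(nn l : ℝ) / 2 < |inner ℝ (g i) (y j)|} ≤
      (1 / 2) ^ (l + 4) := by
  refine ⟨1, fun l hl W _ _ _ _ _ _ _ y hy => ?_⟩
  have hl' : (0 : ℝ) < l := by exact_mod_cast hl
  have w1 : ((l : ℝ) + 1) ^ 48 ≤ nn l := by
    rw [nn, Nat.cast_pow, Nat.cast_add, Nat.cast_one]
  have c1 : (Fintype.card (Fin (NN l)) : ℝ) ≤ ((l : ℝ) + 2) ^ 400 := by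
    rw [Fintype.card_fin, NN, Nat.cast_pow, Nat.cast_add, Nat.cast_one]
    exact pow_le_pow_left₀ (by positivity) (by linarith only []) _
  have c2 : (Fintype.card (Fin (NN (l + 1))) : ℝ) ≤ ((l : ℝ) + 2) ^ 400 := by
    rw [Fintype.card_fin, NN, Nat.cast_pow, Nat.cast_add, Nat.cast_add, Nat.cast_one]
    exact pow_le_pow_left₀ (by positivity) (by linarith only []) _
  have c3 := mul_le_mul c1 c2 (Nat.cast_nonneg _) (by positivity)
  rw [← pow_add] at c3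
  have h1 := (lev_fix (ι := Fin (NN l)) y ((nn l : ℝ) / (4 * (l : ℝ) ^ 24))).trans
    ((ENNReal.ofReal_le_ofReal (lev_pair hl w1 c3)).trans
      (lev_mono (a := l + 4) (Nat.add_le_add_left (by norm_num) l)))
  clear c1 c2 c3 w1
  refine le_trans (measure_mono ?_) h1
  rintro g ⟨i, j, h⟩
  refine ⟨i, j, ?_⟩
  have h0 : 0 ≤ tt l * √(nn l : ℝ) / 2 :=
    div_nonneg (mul_nonneg (one_div_nonneg.2 (pow_nonneg hl'.le _)) (Real.sqrt_nonneg _))
      zero_le_two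
  have h2 := pow_lt_pow_left₀ h h0 two_ne_zero
  rw [sq_abs] at h2
  refine lt_of_le_of_lt ?_ h2
  have h3 : (tt l * √(nn l : ℝ) / 2) ^ 2 = (nn l : ℝ) / (4 * (l : ℝ) ^ 24) := by
    rw [div_pow, mul_pow, Real.sq_sqrt (Nat.cast_nonneg _), tt]
    generalize (nn l : ℝ) = X
    field_simp
    norm_num
  rw [← h3]
  exact mul_le_of_le_one_right (sq_nonneg _) (pow_le_one₀ (norm_nonneg _) (hy j))

end Pool.Agent.P.MP_f511bc_an.Nf
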