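import Mathlib

open Finset MeasureTheory Function

namespace Pool.Agent.P.MP_f511bc_an.Nf

variable {X : ℕ → Type*} [∀ i, MeasurableSpace (X i)] (μ : ∀ i, Measure (X i))
  [∀ i, IsProbabilityMeasure (μ i)]

theorem sel_upd (k : ℕ) : MeasurePreserving (fun p : (∀ i, X i) × X k => update p.1 k p.2)
    ((Measure.infinitePi μ).prod (μ k)) (Measure.infinitePi μ) := by
  refine ⟨measurable_update', Measure.eq_infinitePi μ fun s t ht => ?_⟩
  rw [Measure.map_apply measurable_update' (.pi s.countable_toSet fun i _ => ht i)]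
  have e : (fun p : (∀ i, X i) × X k => update p.1 k p.2) ⁻¹' Set.pi s t =
      Set.pi (s.erase k) t ×ˢ (if k ∈ s then t k else Set.univ) := by
    ext ⟨ω, y⟩
    simp only [Set.mem_preimage, Set.mem_pi, mem_coe, Set.mem_prod, mem_erase]
    constructor
    · intro h
      refine ⟨fun i hi => ?_, ?_⟩
      · have := h i hi.2
        rwa [update_of_ne hi.1] at this
      · split_ifs with hk
        · have := h k hk
          rwa [update_self] at this
        · trivial
    · rintro ⟨h1, h2⟩ i hi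
      rcases eq_or_ne i k with rfl | hik
      · rw [if_pos hi] at h2
        rwa [update_self]
      · rw [update_of_ne hik]
        exact h1 i ⟨hik, hi⟩
  rw [e, Measure.prod_prod, Measure.infinitePi_pi μ fun i _ => ht i]
  split_ifs with hk
  · exact prod_erase_mul s (fun i => μ i (t i)) hk
  · rw [measure_univ, mul_one, erase_eq_of_notMem hk]

/-- A measurable set with small slices in one coordinate is small. -/
theorem sel_slice (k : ℕ) {A : Set (∀ i, X i)} (hA : MeasurableSet A) {c : ENNReal}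
    (h : ∀ ω, μ k {y | update ω k y ∈ A} ≤ c) : Measure.infinitePi μ A ≤ c := by
  have m := sel_upd μ k
  rw [← m.measure_preimage hA.nullMeasurableSet, Measure.prod_apply (m.measurable hA)]
  exact (lintegral_mono fun ω => h ω).trans (by simp)

/-- The union bound. -/
theorem sel_union (l0 : ℕ) (A : ℕ → Set (∀ i, X i))
    (h : ∀ k, l0 ≤ k → Measure.infinitePi μ (A k) ≤ ENNReal.ofReal ((1 / 2) ^ (k + 2))) :
    ∃ ω, ∀ k, l0 ≤ k → ω ∉ A k := by
  by_contra hc
  push Not at hc
  have h1 : (Set.univ : Set (∀ i, X i)) ⊆ ⋃ k, if l0 ≤ k then A k else ∅ := fun ω _ => by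
    obtain ⟨k, hk, hω⟩ := hc ω
    exact Set.mem_iUnion.2 ⟨k, by rwa [if_pos hk]⟩
  have h2 : ∀ k, Measure.infinitePi μ (if l0 ≤ k then A k else ∅) ≤
      ENNReal.ofReal ((1 / 2) ^ (k + 2)) := fun k => by
    split_ifs with hk
    · exact h k hk
    · simp
  have h3 := ((measure_mono (μ := Measure.infinitePi μ) h1).trans (measure_iUnion_le _)).trans
    (ENNReal.tsum_le_tsum h2)
  have h4 : HasSum (fun k : ℕ => (1 / 2 : ℝ) ^ (k + 2)) (2 * (1 / 2) ^ 2) := by
    simpa only [pow_add] using hasSum_geometric_two.mul_right ((1 / 2 : ℝ) ^ 2)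
  rw [← ENNReal.ofReal_tsum_of_nonneg (fun _ => by positivity) h4.summable, h4.tsum_eq,
    measure_univ, ENNReal.one_le_ofReal] at h3
  norm_num at h3

/-- Selection of one point outside a sequence of measurable sets with small slices. -/
theorem sel_all (l0 : ℕ) (A : ℕ → Set (∀ i, X i)) (hA : ∀ k, l0 ≤ k → MeasurableSet (A k))
    (h : ∀ k, l0 ≤ k → ∀ ω,
      μ k {y | update ω k y ∈ A k} ≤ ENNReal.ofReal ((1 / 2) ^ (k + 2))) :
    ∃ ω, ∀ k, l0 ≤ k → ω ∉ A k :=
  sel_union μ l0 A fun k hk => sel_slice μ k (hA k hk) (h k hk)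

end Pool.Agent.P.MP_f511bc_an.Nf
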