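import Pool.Agent.P.MP_f511bc_an.Nf.Defs
import Pool.Agent.P.MP_f511bc_an.Nf.SelA

/-! A union bound in the infinite product. -/

open Finset Module Filter Topology MeasureTheory ProbabilityTheory

universe u

namespace Pool.Agent.P.MP_f511bc_an.Nf

open Pool.Agent.P.MP_f511bc_an.Nb

theorem sel {Ω : ℕ → Type*} [∀ l, MeasurableSpace (Ω l)] (μ : ∀ l, Measure (Ω l))
    [∀ l, IsProbabilityMeasure (μ l)] (A : ℕ → Set (∀ m, Ω m)) (mA : ∀ l, MeasurableSet (A l))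
    (sA : ∀ l ω, μ l {y | Function.update ω l y ∈ A l} ≤ (1 / 2) ^ (l + 2)) :
    ∃ ω : ∀ m, Ω m, ∀ l, ω ∉ A l := by
  obtain ⟨ω, h⟩ := sel_all μ 0 A (fun l _ => mA l) fun l _ ω => (sA l ω).trans_eq (by
    rw [ENNReal.ofReal_pow (by norm_num), ENNReal.ofReal_div_of_pos two_pos]
    simp)
  exact ⟨ω, fun l => h l l.zero_le⟩

end Pool.Agent.P.MP_f511bc_an.Nf
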