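import Pool.Agent.P.MP_f511bc_an.Nf.Core
import Pool.Agent.P.MP_f511bc_an.Nf.Sel
import Pool.Agent.P.MP_f511bc_an.Nf.Lev

/-! The families exist. -/

open Finset Module Filter Topology MeasureTheory ProbabilityTheory

universe u

namespace Pool.Agent.P.MP_f511bc_an.Nf

open Pool.Agent.P.MP_f511bc_an.Nb

theorem exist_nrm_le {W : Type*} [NormedAddCommGroup W] [InnerProductSpace ℝ W] (g : W) :
    ‖nrm g‖ ≤ 1 := by
  rw [nrm, norm_smul, norm_inv, norm_norm]
  exact inv_mul_le_one_of_le₀ le_rfl (norm_nonneg _)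

theorem exist_nrm_meas {W : Type*} [NormedAddCommGroup W] [InnerProductSpace ℝ W]
    [FiniteDimensional ℝ W] [MeasurableSpace W] [BorelSpace W] : Measurable (nrm : W → W) :=
  (measurable_norm.inv).smul measurable_id

theorem exist_prob (W : Type*) [NormedAddCommGroup W] [InnerProductSpace ℝ W]
    [FiniteDimensional ℝ W] [MeasurableSpace W] [BorelSpace W] (N : ℕ) :
    IsProbabilityMeasure (gam W N) := by
  unfold gam
  infer_instance

theorem exist_three (l : ℕ) :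
    ((1 / 2 : ENNReal)) ^ (l + 4) + (1 / 2) ^ (l + 4) + (1 / 2) ^ (l + 4) ≤ (1 / 2) ^ (l + 2) := by
  have h : ∀ n : ℕ, (1 / 2 : ENNReal) ^ (n + 1) + (1 / 2) ^ (n + 1) = (1 / 2) ^ n := fun n => by
    rw [pow_succ, ← mul_add, ENNReal.add_halves, mul_one]
  rw [← h (l + 2), ← h (l + 3)]
  exact add_le_add le_rfl le_self_add

variable {H : Type*} [NormedAddCommGroup H] [InnerProductSpace ℝ H]

/-- The families attached to a sample. -/
noncomputable def existU (B : Blocks H) (ω : ∀ l, Fin (NN l) → B.S l (l + 2)) (l : ℕ)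
    (j : Fin (NN l)) : H := (nrm (ω l j) : B.S l (l + 2))

theorem exist_loc (B : Blocks H) (ω : ∀ l, Fin (NN l) → B.S l (l + 2)) : Loc B (existU B ω) :=
  ⟨fun l j => (nrm (ω l j)).2, fun l j => exist_nrm_le (ω l j)⟩

theorem exist_prS_le (B : Blocks H) (ω : ∀ l, Fin (NN l) → B.S l (l + 2)) (s t m : ℕ)
    (j : Fin (NN m)) : ‖B.prS s t (existU B ω m j)‖ ≤ 1 :=
  (norm_pr_le B s t _).trans ((exist_loc B ω).le1 m j)

theorem exist_prS_meas (B : Blocks H) [∀ s t, MeasurableSpace (B.S s t)]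
    [∀ s t, BorelSpace (B.S s t)] (s t m : ℕ) (j : Fin (NN m)) :
    Measurable fun ω : ∀ l, Fin (NN l) → B.S l (l + 2) => B.prS s t (existU B ω m j) := by
  have h : Continuous fun z : B.S m (m + 2) => B.prS s t (z : H) :=
    ((B.pr s t).continuous.comp continuous_subtype_val).subtype_mk _
  exact h.measurable.comp (exist_nrm_meas.comp
    ((measurable_pi_apply j).comp (measurable_pi_apply m)))

theorem exist_update (B : Blocks H) (ω : ∀ l, Fin (NN l) → B.S l (l + 2)) {l m : ℕ} (h : m ≠ l)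
    (y : Fin (NN l) → B.S l (l + 2)) (j : Fin (NN m)) :
    existU B (Function.update ω l y) m j = existU B ω m j := by
  unfold existU
  rw [Function.update_of_ne h]

theorem exist_yv_update (B : Blocks H) (ω : ∀ l, Fin (NN l) → B.S l (l + 2)) (l : ℕ)
    (y : Fin (NN l) → B.S l (l + 2)) :
    yv B (existU B (Function.update ω l y)) l = yv B (existU B ω) l := by
  funext p
  unfold yv
  split_ifs with h
  · rfl
  · rw [exist_update B ω h]

theorem exist_yv_le (B : Blocks H) (ω : ∀ l, Fin (NN l) → B.S l (l + 2)) (l : ℕ) (p : Oth l) :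
    ‖yv B (existU B ω) l p‖ ≤ 2 * (l : ℝ) ^ 6 := by
  unfold yv
  split_ifs with h
  · rw [norm_zero]; positivity
  · rw [norm_smul, Real.norm_natCast]
    have h1 : (((p.1 : ℕ) : ℝ)) ≤ 2 * (l : ℝ) ^ 6 := by exact_mod_cast p.1.2.le
    calc _ ≤ ((p.1 : ℕ) : ℝ) * 1 :=
          mul_le_mul_of_nonneg_left (exist_prS_le B ω _ _ _ _) (Nat.cast_nonneg _)
      _ ≤ _ := by rwa [mul_one]

theorem exist_yv_meas (B : Blocks H) [∀ s t, MeasurableSpace (B.S s t)]
    [∀ s t, BorelSpace (B.S s t)] (l : ℕ) :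
    Measurable fun ω : ∀ l, Fin (NN l) → B.S l (l + 2) => yv B (existU B ω) l := by
  refine measurable_pi_lambda _ fun p => ?_
  unfold yv
  split_ifs with h
  · exact measurable_const
  · exact (exist_prS_meas B _ _ _ _).const_smul ((p.1 : ℕ) : ℝ)

theorem exist_inc2 (B : Blocks H) (ω : ∀ l, Fin (NN l) → B.S l (l + 2)) (l : ℕ) (i : Fin (NN l))
    (j : Fin (NN (l + 1))) (h1 : (nn l : ℝ) / 2 ≤ ‖ω l i‖ ^ 2)
    (h2 : |inner ℝ (ω l i) (B.prS l (l + 2) (existU B ω (l + 1) j))| ≤ tt l * √(nn l : ℝ) / 2) :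
    |inner ℝ (existU B ω l i) (existU B ω (l + 1) j)| ≤ tt l := by
  have n0 : (0 : ℝ) < nn l := by exact_mod_cast nn_pos l
  have t0 : 0 ≤ tt l := div_nonneg zero_le_one (pow_nonneg (Nat.cast_nonneg _) _)
  have h3 : √(nn l : ℝ) / 2 ≤ ‖ω l i‖ := by
    refine le_of_sq_le_sq ?_ (norm_nonneg _)
    rw [div_pow, Real.sq_sqrt n0.le]
    linarith
  have h4 : 0 < ‖ω l i‖ := lt_of_lt_of_le (half_pos (Real.sqrt_pos.2 n0)) h3
  have h5 : inner ℝ (existU B ω l i) (existU B ω (l + 1) j) =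
      ‖ω l i‖⁻¹ * inner ℝ (ω l i) (B.prS l (l + 2) (existU B ω (l + 1) j)) := by
    rw [← inner_pr B ((exist_loc B ω).mem l i), ← real_inner_smul_left]
    rfl
  rw [h5, abs_mul, abs_inv, abs_norm, inv_mul_le_iff₀ h4]
  calc _ ≤ tt l * (√(nn l : ℝ) / 2) := by rwa [← mul_div_assoc]
    _ ≤ tt l * ‖ω l i‖ := mul_le_mul_of_nonneg_left h3 t0
    _ = _ := mul_comm _ _

theorem exist_aux {H : Type u} [NormedAddCommGroup H] [InnerProductSpace ℝ H] (B : Blocks H) :
    ∃ (l0 : ℕ) (u : ∀ l, Fin (NN l) → H), Good B l0 u := by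
  let _ : ∀ s t, MeasurableSpace (B.S s t) := fun _ _ => borel _
  have : ∀ s t, BorelSpace (B.S s t) := fun _ _ => ⟨rfl⟩
  have : ∀ l, IsProbabilityMeasure (gam (B.S l (l + 2)) (NN l)) := fun l => exist_prob _ _
  obtain ⟨l1, h1⟩ := lev_prob.{u}
  obtain ⟨l2, h2⟩ := inc2_prob.{u}
  obtain ⟨l3, h3⟩ := core_prob B
  have key : ∀ l, ∃ A : Set (∀ m, Fin (NN m) → B.S m (m + 2)), MeasurableSet A ∧
      (∀ ω, gam (B.S l (l + 2)) (NN l) {y | Function.update ω l y ∈ A} ≤ (1 / 2) ^ (l + 2)) ∧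
      (l1 + l2 + l3 + 100 ≤ l → ∀ ω, ω ∉ A → (∀ j, ‖existU B ω l j‖ = 1) ∧
        (∀ i j, i ≠ j → |inner ℝ (existU B ω l i) (existU B ω l j)| ≤ tt l) ∧
        (∀ i j, |inner ℝ (existU B ω l i) (existU B ω (l + 1) j)| ≤ tt l) ∧
        (∀ z ∈ B.S l (l + 2),
          ‖z‖ * NN l ≤ 128 * √(nn l : ℝ) * ∑ j, |inner ℝ (existU B ω l j) z|) ∧
        CoreAt B (existU B ω) l) := by
    intro l
    by_cases hl : l1 + l2 + l3 + 100 ≤ l
    swap
    · exact ⟨∅, MeasurableSet.empty, fun ω => by simp, fun h => absurd h hl⟩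
    obtain ⟨d1, d2⟩ := finrank_W B (l := l) (by omega)
    obtain ⟨A1, m1, p1, q1⟩ := h1 l (by omega) (B.S l (l + 2)) d1 d2
    have p2 := h2 l (by omega) (B.S l (l + 2)) d1 d2
    obtain ⟨A3, m3, p3, q3⟩ := h3 l (by omega)
    refine ⟨({ω | ω l ∈ A1} ∪ {ω | ∃ i j, tt l * √(nn l : ℝ) / 2 <
        |inner ℝ (ω l i) (B.prS l (l + 2) (existU B ω (l + 1) j))|}) ∪
        {ω | (yv B (existU B ω) l, ω l) ∈ A3}, (MeasurableSet.union ?_ ?_).union ?_,
      fun ω => ?_, fun _ ω hω => ?_⟩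
    · exact measurable_pi_apply l m1
    · simp only [Set.ofPred_exists]
      refine MeasurableSet.iUnion fun i => MeasurableSet.iUnion fun j => ?_
      exact measurableSet_lt measurable_const (Measurable.abs (Measurable.inner
        ((measurable_pi_apply i).comp (measurable_pi_apply l)) (exist_prS_meas B _ _ _ j)))
    · exact ((exist_yv_meas B l).prodMk (measurable_pi_apply l)) m3.measurableSet
    · refine le_trans (measure_mono (t := (A1 ∪ {g | ∃ i j, tt l * √(nn l : ℝ) / 2 <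
          |inner ℝ (g i) (B.prS l (l + 2) (existU B ω (l + 1) j))|}) ∪
          {g | (yv B (existU B ω) l, g) ∈ A3}) fun y hy => ?_) ?_
      · simpa only [Set.mem_ofPred_eq, Set.mem_union, Function.update_self, exist_yv_update,
          exist_update B ω (Nat.succ_ne_self l)] using hy
      · refine (measure_union_le _ _).trans (le_trans (add_le_add
          ((measure_union_le _ _).trans (add_le_add p1
            (p2 _ fun j => exist_prS_le B ω _ _ _ j))) (p3 _ (exist_yv_le B ω l)))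
          (exist_three l))
    · simp only [Set.mem_union, Set.mem_ofPred_eq, not_or, not_exists, not_lt] at hω
      obtain ⟨⟨a1, a2⟩, a3⟩ := hω
      obtain ⟨b1, b2, b3⟩ := q1 _ a1
      have n0 : (0 : ℝ) < nn l := by exact_mod_cast nn_pos l
      refine ⟨fun j => ?_, fun i j hij => b2 i j hij,
        fun i j => exist_inc2 B ω l i j (b1 i).1 (a2 i j), fun z hz => b3 ⟨z, hz⟩,
        q3 _ _ (exist_loc B ω) (fun _ => rfl) b1 a3⟩
      have h0 : ω l j ≠ 0 := fun h => by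
        have := (b1 j).1
        rw [h, norm_zero] at this
        linarith
      exact (norm_smul_inv_norm (𝕜 := ℝ) h0 : ‖nrm (ω l j)‖ = 1)
  choose A mA sA qA using key
  obtain ⟨ω, hω⟩ := sel (fun l => gam (B.S l (l + 2)) (NN l)) A mA sA
  exact ⟨l1 + l2 + l3 + 100, existU B ω, exist_loc B ω,
    fun l hl => (qA l hl ω (hω l)).1, fun l hl => (qA l hl ω (hω l)).2.1,
    fun l hl => (qA l hl ω (hω l)).2.2.1, fun l hl => (qA l hl ω (hω l)).2.2.2.1,
    fun l hl => (qA l hl ω (hω l)).2.2.2.2⟩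

theorem exists_good (B : Blocks H) : ∃ (l0 : ℕ) (u : ∀ l, Fin (NN l) → H), Good B l0 u :=
  exist_aux B

end Pool.Agent.P.MP_f511bc_an.Nf
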