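import Pool.Agent.P.MP_f511bc_an.Nf.SG
import Pool.Agent.P.MP_f511bc_an.Nf.BasicB

/-! The far blocks. -/

open Finset RealInnerProductSpace

namespace Pool.Agent.P.MP_f511bc_an.Nf

variable {V : Type*} [NormedAddCommGroup V] [InnerProductSpace ℝ V]

theorem farx_gr_syn {ι : Type*} [DecidableEq ι] (J : Finset ι) (u : ι → V)
    (h1 : ∀ j ∈ J, ‖u j‖ ≤ 1) (h2 : ∀ i ∈ J, ∑ j ∈ J.erase i, |⟪u i, u j⟫| ≤ 1) (c : ι → ℝ) :
    ‖∑ j ∈ J, c j • u j‖ ^ 2 ≤ 2 * ∑ j ∈ J, c j ^ 2 := by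
  have e : ‖∑ j ∈ J, c j • u j‖ ^ 2 = ∑ i ∈ J, ∑ j ∈ J, c i * c j * ⟪u i, u j⟫ := by
    rw [← real_inner_self_eq_norm_sq, sum_inner]
    refine sum_congr rfl fun i _ => ?_
    rw [inner_sum]
    refine sum_congr rfl fun j _ => ?_
    rw [real_inner_smul_left, real_inner_smul_right]; ring
  have row : ∀ i ∈ J, ∑ j ∈ J, |⟪u i, u j⟫| ≤ 2 := by
    intro i hi
    rw [← add_sum_erase J _ hi, real_inner_self_eq_norm_sq, abs_of_nonneg (sq_nonneg _)]
    have := h1 i hi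
    have := h2 i hi
    nlinarith [norm_nonneg (u i)]
  have b : ∀ i j, c i * c j * ⟪u i, u j⟫ ≤
      c i ^ 2 / 2 * |⟪u i, u j⟫| + c j ^ 2 / 2 * |⟪u j, u i⟫| := by
    intro i j
    have r : |c i * c j| ≤ (c i ^ 2 + c j ^ 2) / 2 := by
      rw [abs_le]; constructor <;> nlinarith [sq_nonneg (c i + c j), sq_nonneg (c i - c j)]
    rw [real_inner_comm (u i) (u j)]
    calc c i * c j * ⟪u i, u j⟫ ≤ |c i * c j * ⟪u i, u j⟫| := le_abs_self _
      _ = |c i * c j| * |⟪u i, u j⟫| := abs_mul _ _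
      _ ≤ (c i ^ 2 + c j ^ 2) / 2 * |⟪u i, u j⟫| := mul_le_mul_of_nonneg_right r (abs_nonneg _)
      _ = _ := by ring
  have half : ∑ i ∈ J, ∑ j ∈ J, c i ^ 2 / 2 * |⟪u i, u j⟫| ≤ ∑ j ∈ J, c j ^ 2 := by
    refine sum_le_sum fun i hi => ?_
    rw [← mul_sum]
    nlinarith [row i hi, sq_nonneg (c i)]
  rw [e]
  calc _ ≤ ∑ i ∈ J, ∑ j ∈ J, (c i ^ 2 / 2 * |⟪u i, u j⟫| + c j ^ 2 / 2 * |⟪u j, u i⟫|) :=
        sum_le_sum fun i _ => sum_le_sum fun j _ => b i j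
    _ = ∑ i ∈ J, ∑ j ∈ J, c i ^ 2 / 2 * |⟪u i, u j⟫| +
        ∑ i ∈ J, ∑ j ∈ J, c i ^ 2 / 2 * |⟪u i, u j⟫| := by
        simp only [sum_add_distrib]
        congr 1
        exact sum_comm
    _ ≤ _ := by linarith

theorem farx_gr_ana {ι : Type*} [DecidableEq ι] (J : Finset ι) (u : ι → V)
    (h1 : ∀ j ∈ J, ‖u j‖ ≤ 1) (h2 : ∀ i ∈ J, ∑ j ∈ J.erase i, |⟪u i, u j⟫| ≤ 1) (z : V) :
    ∑ j ∈ J, ⟪u j, z⟫ ^ 2 ≤ 2 * ‖z‖ ^ 2 := by
  have a := farx_gr_syn J u h1 h2 fun j => ⟪u j, z⟫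
  have e : ∑ j ∈ J, ⟪u j, z⟫ ^ 2 = ⟪∑ j ∈ J, ⟪u j, z⟫ • u j, z⟫ := by
    rw [sum_inner]
    exact sum_congr rfl fun j _ => by rw [real_inner_smul_left]; ring
  set S := ∑ j ∈ J, ⟪u j, z⟫ ^ 2
  set y := ∑ j ∈ J, ⟪u j, z⟫ • u j
  have c := real_inner_le_norm y z
  nlinarith [sq_nonneg (‖y‖ - 2 * ‖z‖), norm_nonneg y, norm_nonneg z]

/-- few vectors of an almost orthonormal family see a small subspace -/
theorem farx_card_small {ι : Type*} [DecidableEq ι] (J : Finset ι) (u : ι → V)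
    (F : Submodule ℝ V) [FiniteDimensional ℝ F] (l w : ℕ) (t : ℝ) (hF : Module.finrank ℝ F ≤ w)
    (h1 : ∀ j ∈ J, ‖u j‖ ≤ 1) (h2 : ∀ i ∈ J, ∀ j ∈ J, i ≠ j → |⟪u i, u j⟫| ≤ t)
    (ht : t * (2 * l ^ 2 * w : ℕ) ≤ 1)
    (hJ : ∀ j ∈ J, ∃ y ∈ F, ‖y‖ < l * |⟪u j, y⟫|) : J.card ≤ 2 * l ^ 2 * w := by
  by_contra hc
  obtain ⟨J', hs, hcard⟩ := exists_subset_card_eq (show 2 * l ^ 2 * w + 1 ≤ J.card by omega)
  set b := stdOrthonormalBasis ℝ F
  have row : ∀ i ∈ J', ∑ j ∈ J'.erase i, |⟪u i, u j⟫| ≤ 1 := by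
    intro i hi
    calc _ ≤ ∑ _j ∈ J'.erase i, t := sum_le_sum fun j hj =>
          h2 i (hs hi) j (hs (mem_of_mem_erase hj)) (ne_of_mem_erase hj).symm
      _ = t * (2 * l ^ 2 * w : ℕ) := by
          rw [sum_const, card_erase_of_mem hi, hcard, nsmul_eq_mul, mul_comm]; simp
      _ ≤ 1 := ht
  have one : ∀ j ∈ J', (1 : ℝ) ≤ (l : ℝ) ^ 2 * ∑ a, ⟪u j, (b a : V)⟫ ^ 2 := by
    intro j hj
    obtain ⟨y, hy, h⟩ := hJ j (hs hj)
    have e : ⟪u j, y⟫ = ∑ a, ⟪b a, (⟨y, hy⟩ : F)⟫ * ⟪u j, (b a : V)⟫ := by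
      have := congrArg (fun v : F => ⟪u j, (v : V)⟫) (b.sum_repr' ⟨y, hy⟩)
      simp only [Submodule.coe_sum, Submodule.coe_smul, inner_sum, real_inner_smul_right] at this
      exact this.symm
    have n : ∑ a, ⟪b a, (⟨y, hy⟩ : F)⟫ ^ 2 ≤ ‖y‖ ^ 2 := by
      have := b.orthonormal.sum_inner_products_le (s := univ) (⟨y, hy⟩ : F)
      simpa [sq_abs] using this
    have cs := sum_mul_sq_le_sq_mul_sq univ (fun a => ⟪b a, (⟨y, hy⟩ : F)⟫)
      (fun a => ⟪u j, (b a : V)⟫)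
    rw [← e] at cs
    set S := ∑ a, ⟪u j, (b a : V)⟫ ^ 2
    have S0 : 0 ≤ S := sum_nonneg fun _ _ => sq_nonneg _
    have c2 : ⟪u j, y⟫ ^ 2 ≤ ‖y‖ ^ 2 * S := cs.trans (mul_le_mul_of_nonneg_right n S0)
    have h3 : ‖y‖ ^ 2 < (l : ℝ) ^ 2 * ⟪u j, y⟫ ^ 2 := by
      have := pow_lt_pow_left₀ h (norm_nonneg y) two_ne_zero
      rwa [mul_pow, sq_abs] at this
    by_contra hn
    push Not at hn
    have : (l : ℝ) ^ 2 * ⟪u j, y⟫ ^ 2 ≤ ‖y‖ ^ 2 * ((l : ℝ) ^ 2 * S) := by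
      nlinarith [sq_nonneg (l : ℝ)]
    nlinarith [sq_nonneg ‖y‖]
  have tot : ((2 * l ^ 2 * w + 1 : ℕ) : ℝ) ≤ (l : ℝ) ^ 2 * (2 * w) := by
    calc ((2 * l ^ 2 * w + 1 : ℕ) : ℝ) = ∑ _j ∈ J', (1 : ℝ) := by
          rw [sum_const, hcard, nsmul_eq_mul, mul_one]
      _ ≤ ∑ j ∈ J', (l : ℝ) ^ 2 * ∑ a, ⟪u j, (b a : V)⟫ ^ 2 := sum_le_sum one
      _ = (l : ℝ) ^ 2 * ∑ a, ∑ j ∈ J', ⟪u j, (b a : V)⟫ ^ 2 := by rw [← mul_sum, sum_comm]
      _ ≤ (l : ℝ) ^ 2 * ∑ _a : Fin (Module.finrank ℝ F), (2 : ℝ) := by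
          refine mul_le_mul_of_nonneg_left (sum_le_sum fun a _ => ?_) (sq_nonneg _)
          have := farx_gr_ana J' u (fun j hj => h1 j (hs hj)) row (b a : V)
          have n : ‖(b a : V)‖ = 1 := b.orthonormal.1 a
          rwa [n, one_pow, mul_one] at this
      _ ≤ _ := by
          refine mul_le_mul_of_nonneg_left ?_ (sq_nonneg _)
          rw [sum_const, card_univ, Fintype.card_fin, nsmul_eq_mul]
          have : (Module.finrank ℝ F : ℝ) ≤ w := by exact_mod_cast hF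
          linarith
  push_cast at tot
  linarith

/-- trace bound through a family of vectors -/
theorem farx_gl {β κ σ : Type*} [Fintype β] [Fintype κ] (e : β → V) (v : κ → V) (A B : ℝ)
    (hA : 0 ≤ A) (hN : 0 < Fintype.card κ)
    (low : ∀ y, (Fintype.card κ : ℝ) * √(∑ a, ⟪e a, y⟫ ^ 2) ≤ A * ∑ m, |⟪v m, y⟫|)
    (S : Finset σ) (ψ : σ → V) (q : β → σ → ℝ)
    (hB : ∀ m (c : σ → ℝ), (∀ i, c i ^ 2 = ∑ a, q a i ^ 2) → ⟪v m, ∑ i ∈ S, c i • ψ i⟫ ≤ B) :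
    ∑ a, ⟪e a, ∑ i ∈ S, q a i • ψ i⟫ ≤ A * B := by
  have N0 : (0 : ℝ) < Fintype.card κ := by exact_mod_cast hN
  set x : σ → ℝ := fun i => √(∑ a, q a i ^ 2) with hx
  have x0 : ∀ i, 0 ≤ x i := fun i => Real.sqrt_nonneg _
  have x2 : ∀ i, x i ^ 2 = ∑ a, q a i ^ 2 := fun i =>
    Real.sq_sqrt (sum_nonneg fun _ _ => sq_nonneg _)
  have s1 : ∑ a, ⟪e a, ∑ i ∈ S, q a i • ψ i⟫ ≤ ∑ i ∈ S, x i * √(∑ a, ⟪e a, ψ i⟫ ^ 2) := by
    simp only [inner_sum, real_inner_smul_right]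
    rw [sum_comm]
    exact sum_le_sum fun i _ => Real.sum_mul_le_sqrt_mul_sqrt _ _ _
  have s2 : ∀ m, ∑ i ∈ S, x i * |⟪v m, ψ i⟫| ≤ B := by
    intro m
    have := hB m (fun i => if 0 ≤ ⟪v m, ψ i⟫ then x i else -x i) (fun i => by
      rw [← x2]; split_ifs <;> ring)
    refine le_trans (le_of_eq ?_) this
    rw [inner_sum]
    refine sum_congr rfl fun i _ => ?_
    rw [real_inner_smul_right]
    split_ifs with h
    · rw [abs_of_nonneg h]
    · rw [abs_of_neg (not_le.1 h)]; ring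
  refine s1.trans (le_of_mul_le_mul_left ?_ N0)
  calc (Fintype.card κ : ℝ) * ∑ i ∈ S, x i * √(∑ a, ⟪e a, ψ i⟫ ^ 2)
      = ∑ i ∈ S, x i * ((Fintype.card κ : ℝ) * √(∑ a, ⟪e a, ψ i⟫ ^ 2)) := by
        rw [mul_sum]; exact sum_congr rfl fun i _ => by ring
    _ ≤ ∑ i ∈ S, x i * (A * ∑ m, |⟪v m, ψ i⟫|) :=
        sum_le_sum fun i _ => mul_le_mul_of_nonneg_left (low _) (x0 i)
    _ = A * ∑ m, ∑ i ∈ S, x i * |⟪v m, ψ i⟫| := by
        rw [sum_comm, mul_sum]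
        refine sum_congr rfl fun i _ => ?_
        rw [← mul_sum]; ring
    _ ≤ A * ∑ _m : κ, B := mul_le_mul_of_nonneg_left (sum_le_sum fun m _ => s2 m) hA
    _ = _ := by rw [sum_const, card_univ, nsmul_eq_mul]; ring

/-- the synthesis bounds for a sparse set `J` of an almost orthonormal layered family -/
theorem farx_syn {ι : Type*} [DecidableEq ι] (lev : ι → ℕ) (u : ι → V) (J : Finset ι) (M f w : ℕ)
    (T : ℕ → ℝ) (hJ : ∀ j ∈ J, f ≤ lev j)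
    (hc : ∀ l, (J.filter fun j => lev j = l).card ≤ 2 * l ^ 2 * w)
    (hT : ∀ i, ∀ j ∈ J, i ≠ j → f ≤ lev i + 1 → |⟪u i, u j⟫| ≤ T (lev i))
    (ho : ∀ i, ∀ j ∈ J, lev i + 2 ≤ lev j ∨ lev j + 2 ≤ lev i → ⟪u i, u j⟫ = 0)
    (T0 : ∀ m, 0 ≤ T m) (T1 : ∀ m, f ≤ m + 1 → T m * (6 * (m + 1) ^ 2 * w : ℕ) ≤ 1)
    (T2 : ∀ m : ℕ, f ≤ m + 1 → (m : ℝ) ^ 2 * T m ≤ 1) :
    (∀ i, ∑ j ∈ J.erase i, |⟪u i, u j⟫| ≤ 1) ∧ ∀ c : ι → ℝ, ∃ r : ℕ → ℝ, (∀ m, 0 ≤ r m) ∧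
      ∑ m ∈ range M, r m ^ 2 ≤ 3 * ∑ j ∈ J, c j ^ 2 ∧
      ∀ i, lev i * |∑ j ∈ J.erase i, c j * ⟪u i, u j⟫| ≤ r (lev i) := by
  set nb : ℕ → Finset ι := fun m => J.filter fun j => lev j ≤ m + 1 ∧ m ≤ lev j + 1 with hnb
  have cn : ∀ m, (nb m).card ≤ 6 * (m + 1) ^ 2 * w := by
    intro m
    have sub : nb m ⊆ ((J.filter fun j => lev j = m - 1) ∪ (J.filter fun j => lev j = m)) ∪
        (J.filter fun j => lev j = m + 1) := by
      intro j hj
      simp only [hnb, mem_filter, mem_union] at hj ⊢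
      obtain ⟨a, b, c⟩ := hj
      simp only [a, true_and]; omega
    have a := hc (m - 1)
    have b := hc m
    have c := hc (m + 1)
    have a' : 2 * (m - 1) ^ 2 * w ≤ 2 * (m + 1) ^ 2 * w := by gcongr; omega
    have b' : 2 * m ^ 2 * w ≤ 2 * (m + 1) ^ 2 * w := by gcongr; omega
    have := (card_le_card sub).trans ((card_union_le _ _).trans
      (Nat.add_le_add_right (card_union_le _ _) _))
    nlinarith
  have key : ∀ i (g : ι → ℝ), (∀ j, 0 ≤ g j) → ∑ j ∈ J.erase i, g j * |⟪u i, u j⟫| ≤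
      if f ≤ lev i + 1 then T (lev i) * ∑ j ∈ nb (lev i), g j else 0 := by
    intro i g g0
    split_ifs with h
    · rw [mul_sum, hnb]
      simp only
      rw [sum_filter]
      refine le_trans (sum_le_sum fun j hj => ?_) (sum_le_sum_of_subset_of_nonneg
        (erase_subset i J) fun j _ _ => ?_)
      · split_ifs with h'
        · rw [mul_comm (T _)]
          exact mul_le_mul_of_nonneg_left
            (hT i j (mem_of_mem_erase hj) (ne_of_mem_erase hj).symm h) (g0 j)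
        · rw [ho i j (mem_of_mem_erase hj) (by omega)]; simp
      · split_ifs
        · exact mul_nonneg (T0 _) (g0 j)
        · exact le_rfl
    · refine le_of_eq (sum_eq_zero fun j hj => ?_)
      have := hJ j (mem_of_mem_erase hj)
      rw [ho i j (mem_of_mem_erase hj) (by omega)]; simp
  have tc : ∀ m, f ≤ m + 1 → T m * (nb m).card ≤ 1 := fun m h =>
    le_trans (mul_le_mul_of_nonneg_left (by exact_mod_cast cn m) (T0 m)) (T1 m h)
  refine ⟨fun i => ?_, fun c => ⟨fun m => √(∑ j ∈ nb m, c j ^ 2), fun m => Real.sqrt_nonneg _,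
    ?_, fun i => ?_⟩⟩
  · have := key i (fun _ => 1) fun _ => zero_le_one
    simp only [one_mul, sum_const, nsmul_eq_mul, mul_one] at this
    refine this.trans ?_
    split_ifs with h
    · exact tc _ h
    · exact zero_le_one
  · have e : ∀ m ∈ range M, √(∑ j ∈ nb m, c j ^ 2) ^ 2 =
        ∑ j ∈ J, if lev j ≤ m + 1 ∧ m ≤ lev j + 1 then c j ^ 2 else 0 := by
      intro m _
      rw [Real.sq_sqrt (sum_nonneg fun _ _ => sq_nonneg _), hnb]
      simp only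
      rw [sum_filter]
    rw [sum_congr rfl e, sum_comm, mul_sum]
    refine sum_le_sum fun j _ => ?_
    rw [← sum_filter, sum_const, nsmul_eq_mul]
    refine mul_le_mul_of_nonneg_right ?_ (sq_nonneg _)
    have : ((range M).filter fun m => lev j ≤ m + 1 ∧ m ≤ lev j + 1) ⊆
        Icc (lev j - 1) (lev j + 1) := by
      intro m hm
      simp only [mem_filter, mem_Icc] at hm ⊢
      omega
    have h3 := card_le_card this
    rw [Nat.card_Icc] at h3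
    have : ((range M).filter fun m => lev j ≤ m + 1 ∧ m ≤ lev j + 1).card ≤ 3 := by omega
    exact_mod_cast this
  · have a : |∑ j ∈ J.erase i, c j * ⟪u i, u j⟫| ≤ ∑ j ∈ J.erase i, |c j| * |⟪u i, u j⟫| :=
      (abs_sum_le_sum_abs _ _).trans (le_of_eq (sum_congr rfl fun j _ => abs_mul _ _))
    have b := a.trans (key i (fun j => |c j|) fun _ => abs_nonneg _)
    split_ifs at b with h
    · refine Real.le_sqrt_of_sq_le ?_
      have cs : (∑ j ∈ nb (lev i), |c j|) ^ 2 ≤ (nb (lev i)).card * ∑ j ∈ nb (lev i), c j ^ 2 := by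
        have := sq_sum_le_card_mul_sum_sq (s := nb (lev i)) (f := fun j => |c j|)
        simpa [sq_abs] using this
      set S := ∑ j ∈ nb (lev i), c j ^ 2
      have S0 : 0 ≤ S := sum_nonneg fun _ _ => sq_nonneg _
      have b2 := pow_le_pow_left₀ (abs_nonneg _) b 2
      have t1 := tc _ h
      have t2 := T2 _ h
      have t0 := T0 (lev i)
      calc ((lev i : ℝ) * |∑ j ∈ J.erase i, c j * ⟪u i, u j⟫|) ^ 2
          ≤ (lev i : ℝ) ^ 2 * (T (lev i) ^ 2 * ((nb (lev i)).card * S)) := by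
            rw [mul_pow]
            refine mul_le_mul_of_nonneg_left (b2.trans ?_) (sq_nonneg _)
            rw [mul_pow]
            exact mul_le_mul_of_nonneg_left cs (sq_nonneg _)
        _ = ((lev i : ℝ) ^ 2 * T (lev i)) * (T (lev i) * (nb (lev i)).card) * S := by ring
        _ ≤ 1 * 1 * S := by gcongr
        _ = S := by ring
    · have := le_antisymm b (abs_nonneg _)
      rw [this, mul_zero]
      exact Real.sqrt_nonneg _

theorem farx_abs {ι β κ : Type*} [Fintype ι] [Fintype β] [Fintype κ] (Z : Submodule ℝ V)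
    (lev : ι → ℕ) (u : ι → V) (M R f w : ℕ) (T : ℕ → ℝ)
    (p : ℕ → V → ℝ) (nr : V → ℝ) (π : ℕ → V →ₗ[ℝ] V)
    (p0 : ∀ l x, 0 ≤ p l x)
    (p2 : ∀ (l : ℕ) x q, l < M → 0 ≤ q → (∀ i, lev i = l → l * |⟪u i, x⟫| ≤ q) → p l x ≤ q)
    (n1 : ∀ x, nr x ^ 2 = ‖x‖ ^ 2 + ∑ l ∈ range M, p l x ^ 2)
    (π1 : ∀ i z, ⟪u i, π (lev i) z⟫ = ⟪u i, z⟫)
    (π2 : ∀ z, ∑ l ∈ range M, ‖π l z‖ ^ 2 ≤ 2 * ‖z‖ ^ 2)
    (hu : ∀ j, f ≤ lev j → lev j < R → ‖u j‖ = 1)
    (hT : ∀ i j, f ≤ lev j → lev j < R → i ≠ j → f ≤ lev i + 1 → |⟪u i, u j⟫| ≤ T (lev i))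
    (ho : ∀ i j, lev i + 2 ≤ lev j → ⟪u i, u j⟫ = 0)
    (T0 : ∀ m, 0 ≤ T m) (T1 : ∀ m, f ≤ m + 1 → T m * (6 * (m + 1) ^ 2 * w : ℕ) ≤ 1)
    (T2 : ∀ m : ℕ, f ≤ m + 1 → (m : ℝ) ^ 2 * T m ≤ 1)
    (e : β → V) (hw : Fintype.card β ≤ w) (v : κ → V) (A D H : ℝ) (hA : 0 ≤ A) (hD : 0 ≤ D)
    (hH : 0 ≤ H) (hN : 0 < Fintype.card κ)
    (low : ∀ y, (Fintype.card κ : ℝ) * √(∑ a, ⟪e a, y⟫ ^ 2) ≤ A * ∑ m, |⟪v m, y⟫|)
    (P C : V →ₗ[ℝ] V) (hP : ∀ m, ∀ y ∈ Z, ⟪v m, P y⟫ ≤ D * nr y)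
    (Z1 : ∀ j, lev j < R → u j ∈ Z) (Z2 : ∀ a, C (e a) ∈ Z)
    (hF : ∀ a i, lev i < f ∨ R ≤ lev i → ⟪u i, C (e a)⟫ = 0)
    (hC : ∑ a, ‖C (e a)‖ ^ 2 ≤ H ^ 2) (a : ℕ → ℝ) (a0 : ∀ m, 0 ≤ a m)
    (a1 : ∀ i, (lev i : ℝ) ^ 2 * ∑ a, ⟪u i, C (e a)⟫ ^ 2 ≤ a (lev i) ^ 2)
    (a4 : ∑ m ∈ range M, a m ^ 2 ≤ H ^ 2) :
    ∑ a, ⟪e a, P (C (e a))⟫ ≤ 11 * A * D * H := by
  classical
  set F : Submodule ℝ V := Submodule.span ℝ (Set.range fun a => C (e a)) with hFd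
  have F0 : ∀ z ∈ F, ∀ i, lev i < f ∨ R ≤ lev i → ⟪u i, z⟫ = 0 := by
    intro z hz i hi
    induction hz using Submodule.span_induction with
    | mem x h => obtain ⟨a, rfl⟩ := h; exact hF a i hi
    | zero => simp
    | add x y _ _ a b => rw [inner_add_right, a, b, add_zero]
    | smul c x _ a => rw [real_inner_smul_right, a, mul_zero]
  have : FiniteDimensional ℝ F := FiniteDimensional.span_of_finite ℝ (Set.finite_range _)
  have FZ : F ≤ Z := Submodule.span_le.2 (by rintro _ ⟨a, rfl⟩; exact Z2 a)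
  have Fw : Module.finrank ℝ F ≤ w := (finrank_range_le_card _).trans hw
  set J : Finset ι := univ.filter fun j => ∃ z ∈ F, ‖π (lev j) z‖ < lev j * |⟪u j, z⟫| with hJd
  have J1 : ∀ j ∈ J, f ≤ lev j ∧ lev j < R := by
    intro j hj
    obtain ⟨z, hz, h⟩ := (mem_filter.1 hj).2
    by_contra hn
    rw [F0 z hz j (by omega), abs_zero, mul_zero] at h
    exact absurd h (not_lt.2 (norm_nonneg _))
  have Ju : ∀ j ∈ J, ‖u j‖ = 1 := fun j hj => hu j (J1 j hj).1 (J1 j hj).2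
  have J2 : ∀ l, (J.filter fun j => lev j = l).card ≤ 2 * l ^ 2 * w := by
    intro l
    by_cases hl : f ≤ l
    · refine farx_card_small _ u (F.map (π l)) l w (T l) ((Submodule.finrank_map_le _ _).trans Fw)
        (fun j hj => (Ju j (mem_filter.1 hj).1).le) (fun i hi j hj h => ?_) ?_ (fun j hj => ?_)
      · have a := mem_filter.1 hi
        have b := J1 j (mem_filter.1 hj).1
        have := hT i j b.1 b.2 h (by omega)
        rwa [a.2] at this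
      · refine le_trans (mul_le_mul_of_nonneg_left ?_ (T0 l)) (T1 l (by omega))
        have : 2 * l ^ 2 * w ≤ 6 * (l + 1) ^ 2 * w := by gcongr <;> omega
        exact_mod_cast this
      · obtain ⟨a, b⟩ := mem_filter.1 hj
        obtain ⟨z, hz, h⟩ := (mem_filter.1 a).2
        subst b
        exact ⟨_, Submodule.mem_map_of_mem hz, by rwa [π1]⟩
    · have : (J.filter fun j => lev j = l) = ∅ :=
        filter_eq_empty_iff.2 fun j hj h => hl (by have := (J1 j hj).1; omega)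
      rw [this]; simp
  obtain ⟨row, rest⟩ := farx_syn lev u J M f w T (fun j hj => (J1 j hj).1) J2
    (fun i j hj => hT i j (J1 j hj).1 (J1 j hj).2)
    (fun i j _ h => h.elim (ho i j) fun h => by rw [real_inner_comm]; exact ho j i h) T0 T1 T2
  have ana := farx_gr_ana J u (fun j hj => (Ju j hj).le) fun i _ => row i
  have sy := farx_gr_syn J u (fun j hj => (Ju j hj).le) fun i _ => row i
  have split : ∀ (c : ι → ℝ) i, ⟪u i, ∑ j ∈ J, c j • u j⟫ =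
      (if i ∈ J then c i else 0) + ∑ j ∈ J.erase i, c j * ⟪u i, u j⟫ := by
    intro c i
    simp only [inner_sum, real_inner_smul_right]
    split_ifs with h
    · rw [← add_sum_erase J _ h, real_inner_self_eq_norm_sq, Ju i h]; ring
    · rw [erase_eq_of_notMem h, zero_add]
  have up : ∀ (y : V) (a r : ℕ → ℝ), (∀ m, 0 ≤ a m) → (∀ m, 0 ≤ r m) →
      (∀ i, lev i * |⟪u i, y⟫| ≤ a (lev i) + r (lev i)) →
      nr y ^ 2 ≤ ‖y‖ ^ 2 + 2 * ∑ m ∈ range M, a m ^ 2 + 2 * ∑ m ∈ range M, r m ^ 2 := by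
    intro y a r a0 r0 h
    rw [n1, add_assoc, mul_sum, mul_sum, ← sum_add_distrib]
    refine add_le_add le_rfl (sum_le_sum fun m hm => ?_)
    have := p2 m y (a m + r m) (mem_range.1 hm) (add_nonneg (a0 m) (r0 m)) fun i hi => hi ▸ h i
    nlinarith [p0 m y, sq_nonneg (a m - r m)]
  set Q : V →ₗ[ℝ] V := ∑ j ∈ J, (innerₛₗ ℝ (u j)).smulRight (u j) with hQ
  have Qa : ∀ z, Q z = ∑ j ∈ J, ⟪u j, z⟫ • u j := by
    intro z
    rw [hQ, LinearMap.sum_apply]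
    rfl
  have one : ∀ z ∈ F, nr (z - Q z) ≤ 6 * ‖z‖ := by
    intro z hz
    obtain ⟨r, r0, r1, r2⟩ := rest fun j => ⟪u j, z⟫
    have h := up (z - Q z) (fun m => ‖π m z‖) r (fun _ => norm_nonneg _) r0 (fun i => by
      have r3 := r2 i
      have l0 : (0 : ℝ) ≤ lev i := Nat.cast_nonneg _
      rw [inner_sub_right, Qa, split]
      split_ifs with hi
      · rw [← sub_sub, sub_self, zero_sub, abs_neg]
        linarith [norm_nonneg (π (lev i) z)]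
      · have : lev i * |⟪u i, z⟫| ≤ ‖π (lev i) z‖ := by
          by_contra hn
          exact hi (mem_filter.2 ⟨mem_univ _, z, hz, not_le.1 hn⟩)
        rw [zero_add]
        refine le_trans (mul_le_mul_of_nonneg_left (abs_sub _ _) l0) ?_
        rw [mul_add]; linarith)
    have a := ana z
    have b := sy fun j => ⟪u j, z⟫
    rw [← Qa] at b
    have c := π2 z
    have d : ‖z - Q z‖ ^ 2 ≤ 2 * ‖z‖ ^ 2 + 2 * ‖Q z‖ ^ 2 := by
      have := pow_le_pow_left₀ (norm_nonneg _) (norm_sub_le z (Q z)) 2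
      nlinarith [sq_nonneg (‖z‖ - ‖Q z‖)]
    refine abs_le_of_sq_le_sq' ?_ (by positivity) |>.2
    nlinarith [sq_nonneg ‖z‖]
  have JZ : ∀ c : ι → ℝ, ∑ j ∈ J, c j • u j ∈ Z := fun c =>
    Z.sum_mem fun j hj => Z.smul_mem _ (Z1 j (J1 j hj).2)
  have two : ∀ c : ι → ℝ, (∀ i, c i ^ 2 = ∑ a, ⟪u i, C (e a)⟫ ^ 2) →
      nr (∑ j ∈ J, c j • u j) ≤ 5 * H := by
    intro c hc
    obtain ⟨r, r0, r1, r2⟩ := rest c
    have a3 : ∀ i, lev i * |c i| ≤ a (lev i) := by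
      intro i
      refine (abs_le_of_sq_le_sq' ?_ (a0 _)).2
      rw [mul_pow, sq_abs, hc]
      exact a1 i
    have h := up (∑ j ∈ J, c j • u j) a r a0 r0 (fun i => by
      have r3 := r2 i
      have l0 : (0 : ℝ) ≤ lev i := Nat.cast_nonneg _
      rw [split]
      refine le_trans (mul_le_mul_of_nonneg_left (abs_add_le _ _) l0) ?_
      rw [mul_add]
      refine add_le_add ?_ r3
      split_ifs
      · exact a3 i
      · rw [abs_zero, mul_zero]; exact a0 _)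
    have b := sy c
    have s : ∑ j ∈ J, c j ^ 2 ≤ 2 * H ^ 2 := by
      rw [sum_congr rfl fun j _ => hc j, sum_comm]
      refine le_trans (sum_le_sum fun a _ => ana (C (e a))) ?_
      rw [← mul_sum]; linarith
    refine abs_le_of_sq_le_sq' ?_ (by positivity) |>.2
    nlinarith [sq_nonneg H]
  set b := stdOrthonormalBasis ℝ F
  have Cm : ∀ a, C (e a) ∈ F := fun a => Submodule.subset_span ⟨a, rfl⟩
  have bo : Orthonormal ℝ fun t => (b t : V) := b.orthonormal.comp_linearIsometry F.subtypeₗᵢ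
  have rep : ∀ a, C (e a) = ∑ t, ⟪(b t : V), C (e a)⟫ • (b t : V) := by
    intro a
    have := congrArg (fun y : F => (y : V)) (b.sum_repr' ⟨C (e a), Cm a⟩)
    simp only [Submodule.coe_sum, Submodule.coe_smul] at this
    exact this.symm
  have g1 := farx_gl e v A (D * (6 * H)) hA hN low univ (fun t => P ((b t : V) - Q (b t)))
    (fun a t => ⟪(b t : V), C (e a)⟫) (fun m c hc => by
      have e1 : ∑ t, c t • P ((b t : V) - Q (b t)) =
          P ((∑ t, c t • (b t : V)) - Q (∑ t, c t • (b t : V))) := by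
        simp only [map_sum, map_smul, map_sub, smul_sub, sum_sub_distrib]
      rw [e1]
      have mF : ∑ t, c t • (b t : V) ∈ F := F.sum_mem fun t _ => F.smul_mem _ (b t).2
      refine (hP m _ (Z.sub_mem (FZ mF) (Qa _ ▸ JZ _))).trans
        (mul_le_mul_of_nonneg_left ((one _ mF).trans ?_) hD)
      have n : ‖∑ t, c t • (b t : V)‖ ^ 2 ≤ H ^ 2 := by
        rw [← real_inner_self_eq_norm_sq, bo.inner_sum]
        have : ∑ t, (starRingEnd ℝ) (c t) * c t = ∑ t, ∑ a, ⟪(b t : V), C (e a)⟫ ^ 2 :=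
          sum_congr rfl fun t _ => by rw [← hc]; simp [sq]
        rw [this, sum_comm]
        refine le_trans (sum_le_sum fun a _ => ?_) hC
        simpa [sq_abs] using bo.sum_inner_products_le (s := univ) (C (e a))
      have := (abs_le_of_sq_le_sq' n hH).2
      linarith)
  have g2 := farx_gl e v A (D * (5 * H)) hA hN low J (fun j => P (u j))
    (fun a j => ⟪u j, C (e a)⟫) (fun m c hc => by
      have e1 : ∑ j ∈ J, c j • P (u j) = P (∑ j ∈ J, c j • u j) := by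
        simp only [map_sum, map_smul]
      rw [e1]
      exact (hP m _ (JZ c)).trans (mul_le_mul_of_nonneg_left (two c hc) hD))
  have fin : ∀ a, ⟪e a, P (C (e a))⟫ =
      ⟪e a, ∑ t, ⟪(b t : V), C (e a)⟫ • P ((b t : V) - Q (b t))⟫ +
      ⟪e a, ∑ j ∈ J, ⟪u j, C (e a)⟫ • P (u j)⟫ := by
    intro a
    have e1 : ∑ t, ⟪(b t : V), C (e a)⟫ • P ((b t : V) - Q (b t)) =
        P (C (e a) - Q (C (e a))) := by
      conv_rhs => rw [rep a]
      simp only [map_sum, map_smul, map_sub, smul_sub, sum_sub_distrib]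
    have e2 : ∑ j ∈ J, ⟪u j, C (e a)⟫ • P (u j) = P (Q (C (e a))) := by
      rw [Qa]; simp only [map_sum, map_smul]
    rw [e1, e2, ← inner_add_right, ← map_add, sub_add_cancel]
  rw [sum_congr rfl fun a _ => fin a, sum_add_distrib]
  linarith

theorem farx_num1 {k m : ℕ} (hk : 64 ≤ k) (h : k ^ 6 ≤ m + 1) :
    tt (m - 1) * (6 * (m + 1) ^ 2 * (3 * nn k) : ℕ) ≤ 1 ∧ (m : ℝ) ^ 2 * tt (m - 1) ≤ 1 := by
  have k6 : 64 ≤ k ^ 6 := hk.trans (Nat.le_self_pow (by norm_num) k)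
  obtain ⟨s, rfl⟩ : ∃ s, m = s + 1 := ⟨m - 1, by omega⟩
  have s2 : 2 ≤ s := by omega
  have s0 : (0 : ℝ) < (s : ℝ) ^ 12 := by
    have : (0 : ℝ) < s := by exact_mod_cast (by omega : 0 < s)
    positivity
  have a : 6 * (s + 1 + 1) ^ 2 * (3 * nn k) ≤ s ^ 12 := by
    have b1 : nn k ≤ (2 * k) ^ 48 := Nat.pow_le_pow_left (by omega) 48
    have b2 : (k ^ 6) ^ 10 ≤ (2 * s) ^ 10 := Nat.pow_le_pow_left (by omega) 10
    have b3 : 64 ^ 12 ≤ k ^ 12 := Nat.pow_le_pow_left hk 12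
    have b4 : (s + 1 + 1) ^ 2 ≤ (2 * s) ^ 2 := Nat.pow_le_pow_left (by omega) 2
    have b5 : 72 * (2 * k) ^ 48 ≤ s ^ 10 := by
      refine Nat.le_of_mul_le_mul_left (c := 2 ^ 10) ?_ (by norm_num)
      calc 2 ^ 10 * (72 * (2 * k) ^ 48) = (2 ^ 10 * 72 * 2 ^ 48) * k ^ 48 := by ring
        _ ≤ k ^ 12 * k ^ 48 := Nat.mul_le_mul_right _ (le_trans (by norm_num) b3)
        _ = (k ^ 6) ^ 10 := by ring
        _ ≤ (2 * s) ^ 10 := b2
        _ = _ := by ring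
    calc 6 * (s + 1 + 1) ^ 2 * (3 * nn k) ≤ 6 * (2 * s) ^ 2 * (3 * (2 * k) ^ 48) :=
          Nat.mul_le_mul (Nat.mul_le_mul_left _ b4) (Nat.mul_le_mul_left _ b1)
      _ = s ^ 2 * (72 * (2 * k) ^ 48) := by ring
      _ ≤ s ^ 2 * s ^ 10 := Nat.mul_le_mul_left _ b5
      _ = _ := by ring
  have b : (s + 1) ^ 2 ≤ s ^ 12 := by
    calc (s + 1) ^ 2 ≤ (s ^ 6) ^ 2 := Nat.pow_le_pow_left (by
          have : s ^ 2 ≤ s ^ 6 := Nat.pow_le_pow_right (by omega) (by norm_num)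
          nlinarith) 2
      _ = _ := by ring
  rw [Nat.add_sub_cancel, tt]
  constructor
  · rw [div_mul_eq_mul_div, one_mul, div_le_one s0]
    exact_mod_cast a
  · rw [mul_one_div, div_le_one s0]
    exact_mod_cast b

theorem farx_tt_le {l : ℕ} (h : 2 ≤ l) : tt l ≤ tt (l - 1) := by
  have : (0 : ℝ) < ((l - 1 : ℕ) : ℝ) := by exact_mod_cast (by omega : 0 < l - 1)
  refine one_div_le_one_div_of_le (pow_pos this 12) (pow_le_pow_left₀ this.le ?_ 12)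
  exact_mod_cast Nat.sub_le l 1

variable {H : Type*} [NormedAddCommGroup H] [InnerProductSpace ℝ H] {B : Blocks H}
  {u : ∀ l, Fin (NN l) → H} {l0 : ℕ}

theorem far (h : Good B l0 u) {K η : ℝ} (hK : 1 ≤ K) (hη : 0 < η) :
    ∃ k0 : ℕ, ∀ k, k0 ≤ k → ∀ (R : ℕ) (P : H →ₗ[ℝ] H), 2 * k ^ 6 ≤ R → Bd B u R K P →
    ∀ τ : ℕ → ℝ, (∀ l, 0 ≤ τ l ∧ τ l ≤ 1) → (∀ l, l ≤ k ^ 6 → τ l = 0) →
    (∀ l : ℕ, (l : ℝ) * |τ l - τ (l + 1)| ≤ 2) →
    ∀ (d : ℕ) (e : Fin d → H), Orthonormal ℝ e → (∀ a, e a ∈ B.S k (k + 2)) →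
      ∑ a, inner ℝ (e a) (P (B.mul τ R (P (e a)))) ≤ η * nn k := by
  obtain ⟨k1, hsg⟩ := sg h.toLoc
  refine ⟨k1 + l0 + 100 + ⌈21120 * K ^ 2 / η⌉₊, fun k hk R P hR hP τ t0 t1 t2 d e he hW => ?_⟩
  have K0 : 0 ≤ K := zero_le_one.trans hK
  have k6 : 2 * k ≤ k ^ 6 := by
    have : k ^ 2 ≤ k ^ 6 := Nat.pow_le_pow_right (by omega) (by norm_num)
    nlinarith [show 100 ≤ k by omega]
  have k0 : (0 : ℝ) < k := by exact_mod_cast (by omega : 0 < k)
  have WZ : B.S k (k + 2) ≤ B.S 0 (R + 1) := S_mono B (Nat.zero_le _) (by omega)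
  set C : H →ₗ[ℝ] H := (B.mul τ R : H →ₗ[ℝ] H) ∘ₗ P with hC
  have Ca : ∀ x, C x = B.mul τ R (P x) := fun _ => rfl
  obtain ⟨s1, a, a0, a1, a2⟩ := hsg k (by omega) (R + 1) d e he hW C (6 * K) (by linarith)
    (fun x hx => by
      have b := nE_mul_le h.toLoc zero_le_two t0 t2 (R' := R + 1) (hP x (WZ hx)).1
      have c := (hP x (WZ hx)).2
      rw [Ca]; linarith)
  have n0 : (0 : ℝ) ≤ nn k := Nat.cast_nonneg _
  have q0 := Real.sqrt_nonneg (nn k : ℝ)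
  have q2 : √(nn k : ℝ) ^ 2 = nn k := Real.sq_sqrt n0
  have hH : 6 * (6 * K) ^ 2 * nn k ≤ (15 * K * √(nn k : ℝ)) ^ 2 := by
    rw [mul_pow (15 * K), q2]
    nlinarith [mul_nonneg (sq_nonneg K) n0]
  have far0 : ∀ x, C x ∈ B.S (k ^ 6 + 1) R := by
    intro x
    refine (mem_S_iff B).2 fun l hl => ?_
    rw [Ca, pi_mul]
    split_ifs with h'
    · rw [t1 l (by omega), zero_smul]
    · rfl
  have hd : d ≤ 3 * nn k := by
    have li : LinearIndependent ℝ fun a => (⟨e a, hW a⟩ : B.S k (k + 2)) :=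
      LinearIndependent.of_comp (B.S k (k + 2)).subtype he.linearIndependent
    have := li.fintype_card_le_finrank
    rw [Fintype.card_fin] at this
    exact this.trans (finrank_W B (by omega)).2
  have main := farx_abs (ι := Σ m : Fin (R + 1), Fin (NN m)) (B.S 0 (R + 1)) (fun i => i.1)
    (fun i => u i.1 i.2) (R + 1) R (k ^ 6) (3 * nn k) (fun m => tt (m - 1)) (pp u) (nE u (R + 1))
    (fun l => (B.pr l (l + 2) : H →ₗ[ℝ] H)) pp_nonneg
    (fun l x q hl q0 hq => pp_le q0 fun j => hq ⟨⟨l, hl⟩, j⟩ rfl) (nE_sq _)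
    (fun i z => inner_pr B (h.mem _ _) z) (fun z => sum_pair_le B _ z)
    (fun j h1 _ => h.unit _ (by omega) _)
    (by
      rintro ⟨⟨l, hl⟩, i⟩ ⟨⟨m, hm⟩, j⟩ h1 h2 ne h3
      dsimp only at h1 h2 h3 i j ⊢
      have l2 : 2 ≤ l := by omega
      rcases lt_trichotomy l m with c | c | c
      · rcases eq_or_lt_of_le (Nat.succ_le_of_lt c) with c | c
        · subst c
          exact (h.inc2 l (by omega) i j).trans (farx_tt_le l2)
        · rw [S_orth B c (h.mem l i) (h.mem m j), abs_zero]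
          exact one_div_nonneg.2 (pow_nonneg (Nat.cast_nonneg _) _)
      · subst c
        exact (h.inc1 l (by omega) i j fun c => ne (by rw [c])).trans (farx_tt_le l2)
      · rw [real_inner_comm]
        rcases eq_or_lt_of_le (Nat.succ_le_of_lt c) with c | c
        · subst c
          exact h.inc2 m (by omega) j i
        · rw [S_orth B c (h.mem m j) (h.mem l i), abs_zero]
          exact one_div_nonneg.2 (pow_nonneg (Nat.cast_nonneg _) _))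
    (fun i j c => S_orth B c (h.mem _ _) (h.mem _ _))
    (fun m => one_div_nonneg.2 (pow_nonneg (Nat.cast_nonneg _) _))
    (fun m hm => (farx_num1 (by omega) hm).1) (fun m hm => (farx_num1 (by omega) hm).2)
    e (by rwa [Fintype.card_fin]) (u k) (128 * √(nn k : ℝ)) (K / k) (15 * K * √(nn k : ℝ))
    (by linarith) (div_nonneg K0 k0.le) (mul_nonneg (by linarith) q0)
    (by rw [Fintype.card_fin]; exact Nat.pow_pos (Nat.succ_pos k))
    (fun y => by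
      have b := h.low k (by omega) _ (pr_mem B k (k + 2) y)
      simp only [inner_pr B (h.mem k _)] at b
      refine le_trans ?_ b
      rw [Fintype.card_fin, mul_comm]
      refine mul_le_mul_of_nonneg_right (Real.sqrt_le_iff.2 ⟨norm_nonneg _, ?_⟩) (Nat.cast_nonneg _)
      have := he.sum_inner_products_le (s := univ) (B.pr k (k + 2) y)
      simpa only [inner_pr B (hW _), Real.norm_eq_abs, sq_abs] using this)
    P C
    (fun m y hy => by
      have b := ((le_pp k m (P y)).trans (pp_le_nE (R := R + 1) (by omega) _)).trans (hP y hy).2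
      rw [div_mul_eq_mul_div, le_div_iff₀ k0, mul_comm]
      exact (mul_le_mul_of_nonneg_left (le_abs_self _) k0.le).trans b)
    (fun j hj => S_mono B (Nat.zero_le _) (by omega) (h.mem _ _))
    (fun a => S_mono B (Nat.zero_le _) (by omega) (far0 _))
    (fun a i c => c.elim (fun c => S_orth B (by omega) (h.mem _ _) (far0 _)) fun c => by
      rw [real_inner_comm]; exact S_orth B c (far0 _) (h.mem _ _))
    (s1.trans hH) a a0 (fun i => a1 _ _) (a2.trans hH)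
  refine main.trans ?_
  have e1 : 11 * (128 * √(nn k : ℝ)) * (K / k) * (15 * K * √(nn k : ℝ)) =
      21120 * K ^ 2 / k * √(nn k : ℝ) ^ 2 := by ring
  rw [e1, q2]
  refine mul_le_mul_of_nonneg_right ?_ n0
  have c : 21120 * K ^ 2 / η ≤ k :=
    (Nat.le_ceil _).trans (by exact_mod_cast (by omega : ⌈21120 * K ^ 2 / η⌉₊ ≤ k))
  rw [div_le_iff₀ hη] at c
  rw [div_le_iff₀ k0]
  linarith

end Pool.Agent.P.MP_f511bc_an.Nf
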