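import Pool.Agent.P.MP_f511bc_an.Nf.Step
import Pool.Agent.P.MP_f511bc_an.Nf.Early
import Pool.Agent.P.MP_f511bc_an.Nf.Far

/-! One block cannot see both signs. -/

open Finset Module Filter Topology MeasureTheory ProbabilityTheory

universe u

namespace Pool.Agent.P.MP_f511bc_an.Nf

open Pool.Agent.P.MP_f511bc_an.Nb

variable {H : Type*} [NormedAddCommGroup H] [InnerProductSpace ℝ H] {B : Blocks H}
  {u : ∀ l, Fin (NN l) → H} {l0 : ℕ}

/-- The symbol that rises from `0` at `f` to `1` at `2 * f`. -/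
noncomputable def finA_chi (f l : ℕ) : ℝ := (min (l - f) f : ℕ) / (f : ℝ)

theorem finA_mem {f : ℕ} (hf : 0 < f) (l : ℕ) : 0 ≤ finA_chi f l ∧ finA_chi f l ≤ 1 := by
  refine ⟨by unfold finA_chi; positivity, ?_⟩
  rw [finA_chi, div_le_one (by exact_mod_cast hf)]
  exact_mod_cast min_le_right _ _

theorem finA_zero {f l : ℕ} (h : l ≤ f) : finA_chi f l = 0 := by
  simp [finA_chi, Nat.sub_eq_zero_of_le h]

theorem finA_one {f l : ℕ} (hf : 0 < f) (h : 2 * f ≤ l) : finA_chi f l = 1 := by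
  rw [finA_chi, min_eq_right (by omega), div_self (by exact_mod_cast hf.ne')]

theorem finA_lip {f : ℕ} (hf : 0 < f) (l : ℕ) :
    (l : ℝ) * |finA_chi f l - finA_chi f (l + 1)| ≤ 2 := by
  have hf' : (0 : ℝ) < f := by exact_mod_cast hf
  have : min (l + 1 - f) f = min (l - f) f ∨
      (min (l + 1 - f) f = min (l - f) f + 1 ∧ l ≤ 2 * f) := by omega
  rcases this with e | ⟨e, hl⟩
  · simp [finA_chi, e]
  · have hl' : (l : ℝ) ≤ 2 * f := by exact_mod_cast hl
    rw [finA_chi, finA_chi, e, ← sub_div, Nat.cast_add_one, sub_add_cancel_left, abs_div, abs_neg,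
      abs_one, abs_of_pos hf', mul_one_div, div_le_iff₀ hf']
    exact hl'

theorem finA_split {k f R : ℕ} (hR : k + 2 ≤ R) (hf : k + 1 ≤ f) {y : H} (hy : y ∈ B.S 0 R) :
    y = B.pr k (k + 2) y + B.mul (fun l => if l ∈ Ico k (k + 2) then 0 else 1 - finA_chi f l) R y +
      B.mul (finA_chi f) R y := by
  have e : ∑ l ∈ Ico k (k + 2), B.π l y =
      ∑ l ∈ range R, if l ∈ Ico k (k + 2) then B.π l y else 0 := by
    rw [Finset.sum_ite_mem, Finset.inter_eq_right.2 fun l hl => by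
      simp only [mem_Ico, mem_range] at hl ⊢
      omega]
  conv_lhs => rw [← (mem_S B).1 hy, pr_apply, ← range_eq_Ico]
  rw [pr_apply, mul_apply, mul_apply, e, ← sum_add_distrib, ← sum_add_distrib]
  refine sum_congr rfl fun l _ => ?_
  split_ifs with hl
  · rw [finA_zero (by simp only [mem_Ico] at hl; omega)]
    simp
  · rw [zero_add, ← add_smul, sub_add_cancel, one_smul]

theorem fin_one (h : Good B l0 u) {K : ℝ} (hK : 1 ≤ K) :
    ∃ k0 : ℕ, ∀ k, k0 ≤ k → ∀ (R : ℕ) (P : H →ₗ[ℝ] H), 2 * k ^ 6 ≤ R → Bd B u R K P →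
    (∀ x ∈ B.S 0 (R + 1), ‖P (P x) - P x‖ ≤ nE u (R + 1) x / (1000 * (k + 3))) →
    ∀ Xp Xm : Submodule ℝ H, Xp ≤ B.S k (k + 2) → Xm ≤ B.S k (k + 2) →
    nn k ≤ 4 * finrank ℝ Xp → nn k ≤ 4 * finrank ℝ Xm →
    (∀ x ∈ Xp, 1 / 2 * ‖x‖ ^ 2 ≤ inner ℝ x (P x)) →
    (∀ x ∈ Xm, inner ℝ x (P x) ≤ 1 / 2 * ‖x‖ ^ 2) → False := by
  obtain ⟨k1, h1⟩ := nomix h hK
  obtain ⟨k2, h2⟩ := early h hK (η := 1 / 10) (by norm_num)
  obtain ⟨k3, h3⟩ := far h hK (η := 1 / 10) (by norm_num)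
  refine ⟨k1 + k2 + k3 + 100, fun k hk R P hR hP hpp Xp Xm hp hm dp dm qp qm => ?_⟩
  have hf : k + 1 ≤ k ^ 6 := by
    have h100 : 100 ≤ k := by omega
    calc k + 1 ≤ k * k := by nlinarith
      _ = k ^ 2 := (sq k).symm
      _ ≤ k ^ 6 := Nat.pow_le_pow_right (by omega) (by norm_num)
  have f0 : 0 < k ^ 6 := by omega
  obtain ⟨G0, hG0, d0, q0⟩ := step (B.S k (k + 2)) (B.pr k (k + 2) : H →ₗ[ℝ] H) P
    (fun x => pr_mem B _ _ x) (fun y hy x => inner_pr B hy x) (κ := nn k / 100) Xp Xm hp hm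
    (by omega) (by omega) qp qm (h1 k (by omega) R P hR hP)
  obtain ⟨G1, hG1, d1, q1⟩ := h2 k (by omega) R P hR hP
  have dG := finrank_inf_le _ G0 G1 hG0 hG1 d0 d1
  have dW := (finrank_W B (l := k) (by omega)).1
  have hG : G0 ⊓ G1 ≤ B.S k (k + 2) := inf_le_left.trans hG0
  have : FiniteDimensional ℝ (G0 ⊓ G1 : Submodule ℝ H) := Submodule.finiteDimensional_of_le hG
  obtain ⟨d, hd, e, he, hmem⟩ : ∃ d, d = finrank ℝ (G0 ⊓ G1 : Submodule ℝ H) ∧ ∃ e : Fin d → H,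
      Orthonormal ℝ e ∧ ∀ a, e a ∈ G0 ⊓ G1 :=
    ⟨_, rfl, (G0 ⊓ G1).subtypeₗᵢ ∘ stdOrthonormalBasis ℝ (G0 ⊓ G1 : Submodule ℝ H),
      (LinearIsometry.orthonormal_comp_iff _).2 (stdOrthonormalBasis ℝ _).orthonormal,
      fun a => (stdOrthonormalBasis ℝ (G0 ⊓ G1 : Submodule ℝ H) a).2⟩
  have s1 := q1 (fun l => if l ∈ Ico k (k + 2) then 0 else 1 - finA_chi (k ^ 6) l)
    (fun l => by
      have := finA_mem f0 l
      split_ifs
      · norm_num
      · constructor <;> linarith [this.1, this.2])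
    (fun l hl => by
      split_ifs with hl'
      · rfl
      · rw [finA_one f0 (by simp only [mem_Ico] at hl'; omega), sub_self])
    d e he fun a => (hmem a).2
  have s2 := h3 k (by omega) R P hR hP (finA_chi (k ^ 6)) (finA_mem f0) (fun l hl => finA_zero hl)
    (finA_lip f0) d e he fun a => hG (hmem a)
  have s3 : ∀ a, (197 / 1000 : ℝ) ≤ inner ℝ (e a) (P (B.mul
      (fun l => if l ∈ Ico k (k + 2) then 0 else 1 - finA_chi (k ^ 6) l) R (P (e a)))) +
      inner ℝ (e a) (P (B.mul (finA_chi (k ^ 6)) R (P (e a)))) := fun a => by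
    have n1 : ‖e a‖ = 1 := he.1 a
    have m1 : e a ∈ B.S 0 (R + 1) := S_mono B (Nat.zero_le _) (by omega) (hG (hmem a))
    have t1 := q0 _ (hmem a).1
    have t2 := congrArg (fun y => inner ℝ (e a) (P y))
      (finA_split (k := k) (f := k ^ 6) (by omega) hf (hP _ m1).1)
    simp only [map_add, inner_add_right] at t2
    have t3 : ‖P (P (e a)) - P (e a)‖ ≤ 3 / 1000 := by
      refine (hpp _ m1).trans ?_
      have := nE_le h.toLoc (R + 1) (hG (hmem a))
      rw [n1] at this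
      rw [div_le_iff₀ (by positivity)]
      push_cast at this
      linarith
    have t4 := abs_real_inner_le_norm (e a) (P (P (e a)) - P (e a))
    rw [n1, one_mul, inner_sub_right] at t4
    have t5 := (abs_le.1 (t4.trans t3)).1
    rw [n1] at t1
    change _ ≤ _ - inner ℝ (e a) (P (B.pr k (k + 2) (P (e a)))) at t1
    linarith
  have s4 := sum_le_sum fun a (_ : a ∈ (univ : Finset (Fin d))) => s3 a
  rw [sum_add_distrib, sum_const, card_univ, Fintype.card_fin, nsmul_eq_mul] at s4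
  have s5 : 191 * nn k ≤ 100 * d := by omega
  have s6 : (191 : ℝ) * nn k ≤ 100 * d := by exact_mod_cast s5
  have s7 : (0 : ℝ) < nn k := by exact_mod_cast nn_pos k
  linarith

end Pool.Agent.P.MP_f511bc_an.Nf
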