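import Pool.Agent.P.MP_f511bc_an.Nb.Spec

/-! The descent along a chain of overlapping subspaces. -/

open Module

namespace Pool.Agent.P.MP_f511bc_an.Nf

variable {H : Type*} [NormedAddCommGroup H] [InnerProductSpace ℝ H]

theorem finba_sign (P : H →ₗ[ℝ] H) (W : Submodule ℝ H) [FiniteDimensional ℝ W] (a : ℝ) :
    ∃ A B : Submodule ℝ H, A ≤ W ∧ B ≤ W ∧ finrank ℝ A + finrank ℝ B = finrank ℝ W ∧
      (∀ x ∈ A, a * ‖x‖ ^ 2 ≤ inner ℝ x (P x)) ∧ ∀ x ∈ B, inner ℝ x (P x) ≤ a * ‖x‖ ^ 2 := by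
  obtain ⟨A, B, h, qA, qB⟩ := Nb.sign2 (K := ℝ)
    ((W.orthogonalProjectionOnto : H →ₗ[ℝ] W) ∘ₗ P ∘ₗ W.subtype) a
  have e : ∀ x : W, RCLike.re (inner ℝ x
      (((W.orthogonalProjectionOnto : H →ₗ[ℝ] W) ∘ₗ P ∘ₗ W.subtype) x)) =
      inner ℝ (x : H) (P x) := by
    intro x
    simp
  refine ⟨A.map W.subtype, B.map W.subtype, Submodule.map_subtype_le _ _,
    Submodule.map_subtype_le _ _, ?_, ?_, ?_⟩
  · rwa [Submodule.finrank_map_subtype_eq, Submodule.finrank_map_subtype_eq]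
  · rintro _ ⟨x, hx, rfl⟩
    exact e x ▸ qA x hx
  · rintro _ ⟨x, hx, rfl⟩
    exact e x ▸ qB x hx

theorem finba_pick (W : ℕ → Submodule ℝ H) [∀ l, FiniteDimensional ℝ (W l)] (n : ℕ → ℕ)
    (hn : Monotone n) {k0 k1 : ℕ} (hk : k0 ≤ k1)
    (hW : finrank ℝ (W k1) = n k1 + n (k1 + 1))
    (hO : ∀ l, n (l + 1) ≤ finrank ℝ (W l ⊓ W (l + 1) : Submodule ℝ H))
    (P : H →ₗ[ℝ] H) (h0 : ∀ x ∈ W k0, 1 / 2 * ‖x‖ ^ 2 ≤ inner ℝ x (P x))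
    (hr : ∀ X ≤ W k1, n k1 ≤ finrank ℝ X → ∃ x ∈ X, x ≠ 0 ∧ P x = 0) :
    ∃ k, k0 < k ∧ k ≤ k1 ∧ ∃ Gp Gm : Submodule ℝ H, Gp ≤ W k ∧ Gm ≤ W k ∧
      n k ≤ 2 * finrank ℝ Gp ∧ n k ≤ 2 * finrank ℝ Gm ∧
      (∀ x ∈ Gp, 1 / 2 * ‖x‖ ^ 2 ≤ inner ℝ x (P x)) ∧
      ∀ x ∈ Gm, inner ℝ x (P x) ≤ 1 / 2 * ‖x‖ ^ 2 := by
  classical
  let h : ℕ → Prop := fun k => ∃ X : Submodule ℝ H, X ≤ W k ∧
    2 * finrank ℝ (W k) ≤ 2 * finrank ℝ X + n k ∧ ∀ x ∈ X, 1 / 2 * ‖x‖ ^ 2 ≤ inner ℝ x (P x)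
  have a0 : h k0 := ⟨W k0, le_rfl, Nat.le_add_right _ _, h0⟩
  have a1 : ¬ h k1 := by
    rintro ⟨X, h1, h2, h3⟩
    have h6 : n k1 ≤ n (k1 + 1) := hn (Nat.le_succ k1)
    obtain ⟨x, hx, hx0, hx1⟩ := hr X h1 (by omega)
    have h4 := h3 x hx
    rw [hx1, inner_zero_right] at h4
    have h5 : 0 < ‖x‖ ^ 2 := pow_pos (norm_pos_iff.2 hx0) 2
    linarith
  have hex : ∃ k, k0 ≤ k ∧ ¬ h k := ⟨k1, hk, a1⟩
  obtain ⟨b0, b1⟩ := Nat.find_spec hex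
  have b2 : Nat.find hex ≤ k1 := Nat.find_min' hex ⟨hk, a1⟩
  have b3 := fun m => Nat.find_min hex (m := m)
  generalize Nat.find hex = k at b0 b1 b2 b3
  have b4 : k0 < k := lt_of_le_of_ne b0 (by rintro rfl; exact b1 a0)
  obtain ⟨j, rfl⟩ : ∃ j, k = j + 1 := ⟨k - 1, by omega⟩
  have b5 : h j := by
    by_contra hc
    exact b3 j (Nat.lt_succ_self j) ⟨by omega, hc⟩
  obtain ⟨X, x1, x2, x3⟩ := b5
  obtain ⟨A, B, hA, hB, hAB, qA, qB⟩ := finba_sign P (W (j + 1)) (1 / 2)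
  have : FiniteDimensional ℝ X := Submodule.finiteDimensional_of_le x1
  have c1 := Submodule.finrank_sup_add_finrank_inf_eq X (W j ⊓ W (j + 1))
  have c2 : finrank ℝ (X ⊔ W j ⊓ W (j + 1) : Submodule ℝ H) ≤ finrank ℝ (W j) :=
    Submodule.finrank_mono (sup_le x1 inf_le_left)
  have c3 := hO j
  have c4 : n j ≤ n (j + 1) := hn (Nat.le_succ j)
  have c7 : 2 * finrank ℝ A + n (j + 1) < 2 * finrank ℝ (W (j + 1)) := by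
    by_contra hc
    exact b1 ⟨A, hA, by omega, qA⟩
  refine ⟨j + 1, b4, b2, X ⊓ (W j ⊓ W (j + 1)), B, inf_le_right.trans inf_le_right, hB, ?_, ?_,
    fun x hx => x3 x hx.1, qB⟩
  · omega
  · omega

end Pool.Agent.P.MP_f511bc_an.Nf
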