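import Pool.Agent.P.MP_f511bc_an.Nf.FinA
import Pool.Agent.P.MP_f511bc_an.Nf.FinBA

/-! The chain over the blocks. -/

open Finset Module Filter Topology MeasureTheory ProbabilityTheory

universe u

namespace Pool.Agent.P.MP_f511bc_an.Nf

open Pool.Agent.P.MP_f511bc_an.Nb

variable {H : Type*} [NormedAddCommGroup H] [InnerProductSpace ℝ H] {B : Blocks H}
  {u : ∀ l, Fin (NN l) → H} {l0 : ℕ}

theorem finb_div {a : ℝ} (ha : 0 ≤ a) {k k1 : ℕ} (h : k ≤ k1) :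
    a / (1000 * ((k1 : ℝ) + 3)) ≤ a / (1000 * ((k : ℝ) + 3)) := by
  have h2 : (k : ℝ) ≤ k1 := by exact_mod_cast h
  exact div_le_div_of_nonneg_left ha (by positivity) (by linarith)

theorem fin_all (h : Good B l0 u) {K : ℝ} (hK : 1 ≤ K) :
    ∃ k0 : ℕ, ∀ k1, k0 ≤ k1 → ∀ (R : ℕ) (P : H →ₗ[ℝ] H), 2 * k1 ^ 6 ≤ R → Bd B u R K P →
    (∀ x ∈ B.S 0 (R + 1), ‖P (P x) - P x‖ ≤ nE u (R + 1) x / (1000 * (k1 + 3))) →
    (∀ x ∈ B.S k0 (k0 + 2), 1 / 2 * ‖x‖ ^ 2 ≤ inner ℝ x (P x)) →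
    (∀ X ≤ B.S k1 (k1 + 2), nn k1 ≤ finrank ℝ X → ∃ x ∈ X, x ≠ 0 ∧ P x = 0) →
    False := by
  obtain ⟨k0, hk0⟩ := fin_one h hK
  refine ⟨k0, fun k1 hk R P hR hP hPP h0 hr => ?_⟩
  have hW : finrank ℝ (B.S k1 (k1 + 2)) = nn k1 + nn (k1 + 1) := by
    rw [finrank_S, sum_Ico_succ_top (by omega), sum_Ico_succ_top (by omega)]
    simp
  have hO : ∀ l, nn (l + 1) ≤
      finrank ℝ (B.S l (l + 2) ⊓ B.S (l + 1) (l + 1 + 2) : Submodule ℝ H) := by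
    intro l
    have h1 : finrank ℝ (B.S (l + 1) (l + 2)) = nn (l + 1) := by
      rw [finrank_S, sum_Ico_succ_top (by omega)]
      simp
    rw [← h1]
    exact Submodule.finrank_mono
      (le_inf (S_mono B (by omega) le_rfl) (S_mono B le_rfl (by omega)))
  obtain ⟨k, k2, k3, Gp, Gm, g1, g2, g3, g4, g5, g6⟩ :=
    finba_pick (fun l => B.S l (l + 2)) nn (fun _ _ hl => nn_mono hl) hk hW hO P h0 hr
  exact hk0 k k2.le R P (le_trans (Nat.mul_le_mul_left 2 (Nat.pow_le_pow_left k3 6)) hR) hP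
    (fun x hx => (hPP x hx).trans (finb_div (nE_nonneg _ _) k3)) Gp Gm g1 g2
    (g3.trans (Nat.mul_le_mul_right _ (by norm_num)))
    (g4.trans (Nat.mul_le_mul_right _ (by norm_num))) g5 g6

end Pool.Agent.P.MP_f511bc_an.Nf
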