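import Pool.Agent.P.MP_f511bc_an.Nf.BasicA

/-! The blocks of the sequence space. -/

open Finset Module Filter Topology MeasureTheory ProbabilityTheory

universe u

namespace Pool.Agent.P.MP_f511bc_an.Nf

open Pool.Agent.P.MP_f511bc_an.Nb

theorem ltwo_inner (i : ℕ) (x : L2) : inner ℝ (ee i) x = x i := by
  simp [ee, lp.inner_single_left]

theorem ltwo_ee (i j : ℕ) : ee i j = if j = i then 1 else 0 := by
  simp [ee, lp.single_apply, Pi.single_apply]

/-- The projection onto the coordinates in `s`. -/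
noncomputable def ltwoP (s : Finset ℕ) : L2 →L[ℝ] L2 :=
  ∑ i ∈ s, (innerSL ℝ (ee i)).smulRight (ee i)

theorem ltwoP_apply (s : Finset ℕ) (x : L2) : ltwoP s x = ∑ i ∈ s, x i • ee i := by
  simp [ltwoP, ltwo_inner]

theorem ltwoP_coord (s : Finset ℕ) (x : L2) (j : ℕ) :
    ltwoP s x j = if j ∈ s then x j else 0 := by
  rw [← ltwo_inner, ltwoP_apply, inner_sum]
  simp [inner_smul_right, ltwo_inner, ltwo_ee]

theorem ltwo_on : Orthonormal ℝ ee := by
  rw [orthonormal_iff_ite]
  intro i j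
  rw [ltwo_inner, ltwo_ee]

theorem ltwoP_rank (s : Finset ℕ) :
    finrank ℝ (LinearMap.range (ltwoP s : L2 →ₗ[ℝ] L2)) = s.card := by
  have h1 : LinearMap.range (ltwoP s : L2 →ₗ[ℝ] L2) =
      Submodule.span ℝ (Set.range fun i : s => ee i) := by
    apply le_antisymm
    · rintro _ ⟨x, rfl⟩
      rw [ContinuousLinearMap.coe_coe, ltwoP_apply]
      exact Submodule.sum_mem _ fun i hi =>
        Submodule.smul_mem _ _ (Submodule.subset_span ⟨⟨i, hi⟩, rfl⟩)
    · rw [Submodule.span_le]
      rintro _ ⟨i, rfl⟩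
      refine ⟨ee i, ?_⟩
      ext j
      rw [ContinuousLinearMap.coe_coe, ltwoP_coord, ltwo_ee]
      by_cases h : j = i
      · simp [h]
      · simp [h]
  have h2 : LinearIndependent ℝ fun i : s => ee i :=
    ltwo_on.linearIndependent.comp _ Subtype.val_injective
  rw [h1, finrank_span_eq_card h2, Fintype.card_coe]

theorem ltwo_aa_succ (l : ℕ) : aa (l + 1) = aa l + nn l := Finset.sum_range_succ _ _

theorem ltwo_aa_mono : StrictMono aa := strictMono_nat_of_lt_succ fun l => by
  have : 0 < nn l := by unfold nn; positivity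
  rw [ltwo_aa_succ]
  omega

theorem ltwo_sum (t : ℕ) (x : L2) :
    ∑ l ∈ range t, ltwoP (Ico (aa l) (aa (l + 1))) x = ∑ i ∈ range (aa t), x i • ee i := by
  induction t with
  | zero => simp [aa]
  | succ t ih =>
    rw [Finset.sum_range_succ, ih, ltwoP_apply,
      Finset.sum_range_add_sum_Ico _ (ltwo_aa_mono.monotone (Nat.le_succ t))]

theorem exists_blocks : ∃ B : Blocks L2, ∀ (t : ℕ) (x : L2),
    B.pr 0 t x = ∑ i ∈ range (aa t), x i • ee i := by
  refine ⟨⟨fun l => ltwoP (Ico (aa l) (aa (l + 1))), fun l x y => ?_, fun l x => ?_,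
    fun l m x h => ?_, fun l => ?_, fun x => ?_⟩, fun t x => ?_⟩
  · rw [ltwoP_apply, ltwoP_apply, sum_inner, inner_sum]
    refine Finset.sum_congr rfl fun i _ => ?_
    rw [real_inner_smul_left, real_inner_smul_right, ltwo_inner, real_inner_comm, ltwo_inner,
      mul_comm]
  · ext j
    simp only [ltwoP_coord]
    split_ifs <;> rfl
  · ext j
    simp only [ltwoP_coord, Finset.mem_Ico]
    split_ifs with h1 h2
    · exfalso
      have h3 := ltwo_aa_mono.lt_iff_lt.1 (h1.1.trans_lt h2.2)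
      have h4 := ltwo_aa_mono.lt_iff_lt.1 (h2.1.trans_lt h1.2)
      omega
    · rfl
    · rfl
  · rw [ltwoP_rank, Nat.card_Ico, ltwo_aa_succ, Nat.add_sub_cancel_left]
  · simp only [ltwo_sum]
    have h1 := (lp.hasSum_single (E := fun _ : ℕ => ℝ) (p := 2) (by simp) x).tendsto_sum_nat
    have h2 : ∀ i, x i • ee i = lp.single 2 i (x i) := fun i => by
      rw [ee, ← lp.single_smul, smul_eq_mul, mul_one]
    simp only [h2]
    exact h1.comp ltwo_aa_mono.tendsto_atTop
  · rw [← ltwo_sum, Blocks.pr, _root_.sum_apply, Finset.range_eq_Ico]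

end Pool.Agent.P.MP_f511bc_an.Nf
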