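import Pool.Agent.P.MP_f511bc_an.Nf.Space

/-! The space is reflexive. -/

open Finset Module Filter Topology MeasureTheory ProbabilityTheory

namespace Pool.Agent.P.MP_f511bc_an.Nf

open Pool.Agent.P.MP_f511bc_an.Nb

theorem refl_tail {F : ℕ → Type} [∀ l, NormedAddCommGroup (F l)] [∀ l, NormedSpace ℝ (F l)]
    (G : lp F 2 →L[ℝ] ℝ) {ε : ℝ} (hε : 0 < ε) :
    ∃ R : ℕ, ∀ y : lp F 2, |G y - ∑ l ∈ range R, G (lp.single 2 l (y l))| ≤ ε * ‖y‖ := by
  obtain ⟨g, hg⟩ : ∃ g : ∀ l, F l →L[ℝ] ℝ, ∀ l v, g l v = G (lp.single 2 l v) :=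
    ⟨fun l => G.comp (lp.singleContinuousLinearMap ℝ F 2 l), fun _ _ => rfl⟩
  have hv : ∀ l, ∃ v : F l, ‖v‖ ≤ 1 ∧ ‖g l‖ / 2 ≤ g l v := fun l => by
    rcases (norm_nonneg (g l)).eq_or_lt with h0 | h0
    · exact ⟨0, by simp, by rw [← h0, map_zero]; norm_num⟩
    obtain ⟨v, h1, h2⟩ := (g l).exists_lt_apply_of_lt_opNorm (half_lt_self h0)
    rcases le_total 0 (g l v) with h3 | h3
    · exact ⟨v, h1.le, by rw [Real.norm_of_nonneg h3] at h2; exact h2.le⟩
    · exact ⟨-v, by rw [norm_neg]; exact h1.le,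
        by rw [Real.norm_of_nonpos h3] at h2; rw [map_neg]; exact h2.le⟩
  choose v v1 v2 using hv
  have hs : ∀ A : Finset ℕ, ∑ l ∈ A, ‖g l‖ ^ 2 ≤ 4 * ‖G‖ ^ 2 := fun A => by
    have n1 : ‖∑ l ∈ A, lp.single (E := F) 2 l (‖g l‖ • v l)‖ ^ 2 ≤ ∑ l ∈ A, ‖g l‖ ^ 2 := by
      have h := lp.norm_sum_single (E := F) (p := 2) (by norm_num) (fun l => ‖g l‖ • v l) A
      simp only [ENNReal.toReal_ofNat, Real.rpow_ofNat] at h
      rw [h]
      refine sum_le_sum fun l _ => pow_le_pow_left₀ (norm_nonneg _) ?_ 2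
      rw [norm_smul, norm_norm]
      exact mul_le_of_le_one_right (norm_nonneg _) (v1 l)
    have n2 : (∑ l ∈ A, ‖g l‖ ^ 2) / 2 ≤ G (∑ l ∈ A, lp.single (E := F) 2 l (‖g l‖ • v l)) := by
      rw [map_sum, sum_div]
      refine sum_le_sum fun l _ => ?_
      rw [← hg, map_smul, smul_eq_mul, sq, mul_div_assoc]
      exact mul_le_mul_of_nonneg_left (v2 l) (norm_nonneg _)
    have n3 := (le_abs_self _).trans
      (G.le_opNorm (∑ l ∈ A, lp.single (E := F) 2 l (‖g l‖ • v l)))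
    have n4 : 0 ≤ ∑ l ∈ A, ‖g l‖ ^ 2 := sum_nonneg fun _ _ => sq_nonneg _
    nlinarith [sq_nonneg (2 * ‖G‖ - ‖∑ l ∈ A, lp.single (E := F) 2 l (‖g l‖ • v l)‖)]
  have sm : Summable fun l => ‖g l‖ ^ 2 := summable_of_sum_le (fun _ => sq_nonneg _) hs
  obtain ⟨A, hA⟩ := summable_iff_vanishing_norm.1 sm (ε ^ 2) (by positivity)
  obtain ⟨R, hR⟩ := A.exists_nat_subset_range
  refine ⟨R, fun y => ?_⟩
  have h1 : Tendsto (fun n => |∑ l ∈ range n, G (lp.single 2 l (y l)) -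
      ∑ l ∈ range R, G (lp.single 2 l (y l))|) atTop
      (𝓝 |G y - ∑ l ∈ range R, G (lp.single 2 l (y l))|) :=
    ((((lp.hasSum_single (by norm_num) y).mapL G).tendsto_sum_nat).sub_const _).abs
  refine le_of_tendsto h1 (eventually_atTop.2 ⟨R, fun n hn => ?_⟩)
  rw [← sum_Ico_eq_sub _ hn]
  have h2 : ∑ l ∈ Ico R n, ‖g l‖ ^ 2 ≤ ε ^ 2 := by
    refine (le_abs_self _).trans (hA _ (disjoint_left.2 fun l hl hl' => ?_)).le
    exact absurd (mem_range.1 (hR hl')) (not_lt.2 (mem_Ico.1 hl).1)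
  have h3 : ∑ l ∈ Ico R n, ‖y l‖ ^ 2 ≤ ‖y‖ ^ 2 := by
    have h := lp.sum_rpow_le_norm_rpow (E := F) (p := 2) (by norm_num) y (Ico R n)
    simpa only [ENNReal.toReal_ofNat, Real.rpow_ofNat] using h
  have h4 : |∑ l ∈ Ico R n, G (lp.single 2 l (y l))| ≤ ∑ l ∈ Ico R n, ‖g l‖ * ‖y l‖ :=
    (abs_sum_le_sum_abs _ _).trans (sum_le_sum fun l _ => by
      rw [← hg]
      exact (g l).le_opNorm _)
  refine h4.trans (abs_le_of_sq_le_sq' ((sum_mul_sq_le_sq_mul_sq _ _ _).trans ?_)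
    (by positivity)).2
  rw [mul_pow]
  exact mul_le_mul h2 h3 (sum_nonneg fun _ _ => sq_nonneg _) (sq_nonneg _)

section

variable {H : Type} [NormedAddCommGroup H] [InnerProductSpace ℝ H]

theorem refl_dense (u : ∀ l, Fin (NN l) → H) (f : spGr u →L[ℝ] ℝ) {ε : ℝ} (hε : 0 < ε) :
    ∃ ψ : H →L[ℝ] ℝ, ∀ z, |f z - ψ (spFst u z)| ≤ ε * ‖z‖ := by
  obtain ⟨F, hF, -⟩ := exists_extension_norm_eq (𝕜 := ℝ) (spGr u) f
  obtain ⟨e, he⟩ : ∃ e : (H × lp (fun l : ℕ => Fin (NN l) → ℝ) 2) →L[ℝ] ℝ,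
      ∀ z : SpAmb H, F z = e (z.fst, z.snd) :=
    ⟨F.comp (WithLp.prodContinuousLinearEquiv 2 ℝ _ _).symm.toContinuousLinearMap, fun _ => rfl⟩
  obtain ⟨R, hR⟩ := refl_tail (e.comp (ContinuousLinearMap.inr ℝ _ _)) hε
  refine ⟨e.comp (ContinuousLinearMap.inl ℝ _ _) + ∑ l ∈ range R,
    (e.comp (ContinuousLinearMap.inr ℝ _ _)).comp
      ((lp.singleContinuousLinearMap ℝ (fun l : ℕ => Fin (NN l) → ℝ) 2 l).comp (spPhi u l)),
    fun z => ?_⟩
  have h1 := hR z.1.snd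
  have h2 : ‖z.1.snd‖ ≤ ‖z‖ := WithLp.norm_snd_le _ z.1
  refine le_trans (le_of_eq ?_) (h1.trans (mul_le_mul_of_nonneg_left h2 hε.le))
  have h3 : f z = e (z.1.fst, 0) + e (0, z.1.snd) := by
    rw [← map_add, Prod.mk_add_mk, add_zero, zero_add, ← he, hF]
  have h4 : ∀ l, z.1.snd l = spPhi u l z.1.fst := z.2
  rw [h3, add_apply, _root_.sum_apply]
  simp only [h4]
  congr 1
  exact add_sub_add_left_eq_sub _ _ _

theorem refl_att (u : ∀ l, Fin (NN l) → H) (l : ℕ) (x : H) :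
    ∃ w : H, inner ℝ w x = pp u l x ∧ ∀ y, |inner ℝ w y| ≤ pp u l y := by
  have : Nonempty (Fin (NN l)) := ⟨⟨0, Nat.pow_pos (Nat.succ_pos l)⟩⟩
  obtain ⟨j, hj⟩ := Finite.exists_max fun j : Fin (NN l) => |(l : ℝ) * inner ℝ (u l j) x|
  have h1 : pp u l x = |(l : ℝ) * inner ℝ (u l j) x| :=
    le_antisymm ((pi_norm_le_iff_of_nonneg (abs_nonneg _)).2 hj)
      (norm_le_pi_norm (fun j : Fin (NN l) => (l : ℝ) * inner ℝ (u l j) x) j)
  have h2 : ∀ y, |(l : ℝ) * inner ℝ (u l j) y| ≤ pp u l y := fun y =>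
    norm_le_pi_norm (fun j : Fin (NN l) => (l : ℝ) * inner ℝ (u l j) y) j
  rcases le_total 0 ((l : ℝ) * inner ℝ (u l j) x) with h | h
  · refine ⟨(l : ℝ) • u l j, ?_, fun y => ?_⟩
    · rw [real_inner_smul_left, h1, abs_of_nonneg h]
    · rw [real_inner_smul_left]
      exact h2 y
  · refine ⟨-((l : ℝ) • u l j), ?_, fun y => ?_⟩
    · rw [inner_neg_left, real_inner_smul_left, h1, abs_of_nonpos h]
    · rw [inner_neg_left, abs_neg, real_inner_smul_left]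
      exact h2 y

theorem refl_abs [CompleteSpace H] (u : ∀ l, Fin (NN l) → H) {E : Type} [NormedAddCommGroup E]
    [NormedSpace ℝ E] (q : E →L[ℝ] H)
    (m1 : ∀ (A : Finset ℕ) z, ∑ l ∈ A, pp u l (q z) ^ 2 ≤ ‖z‖ ^ 2)
    (hex : ∀ x, (Summable fun l => pp u l x ^ 2) → ∃ z, q z = x)
    (hd : ∀ (f : E →L[ℝ] ℝ) (ε : ℝ), 0 < ε → ∃ ψ : H →L[ℝ] ℝ, ∀ z, |f z - ψ (q z)| ≤ ε * ‖z‖) :
    Function.Surjective (NormedSpace.inclusionInDoubleDual ℝ E) := by
  intro Φ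
  obtain ⟨L, hL⟩ : ∃ L : H →L[ℝ] StrongDual ℝ E, ∀ w z, L w z = inner ℝ w (q z) :=
    ⟨((ContinuousLinearMap.compL ℝ E H ℝ).flip q).comp
      (InnerProductSpace.toDual ℝ H).toContinuousLinearEquiv.toContinuousLinearMap,
      fun _ _ => rfl⟩
  obtain ⟨x, hx⟩ : ∃ x : H, ∀ w, Φ (L w) = inner ℝ w x :=
    ⟨(InnerProductSpace.toDual ℝ H).symm (Φ.comp L), fun w => by
      rw [real_inner_comm, InnerProductSpace.toDual_symm_apply]
      rfl⟩
  choose w w1 w2 using fun l => refl_att u l x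
  have hs : ∀ A : Finset ℕ, ∑ l ∈ A, pp u l x ^ 2 ≤ ‖Φ‖ ^ 2 := fun A => by
    have n0 : 0 ≤ ∑ l ∈ A, pp u l x ^ 2 := sum_nonneg fun _ _ => sq_nonneg _
    have n1 : Φ (L (∑ l ∈ A, pp u l x • w l)) = ∑ l ∈ A, pp u l x ^ 2 := by
      rw [hx, sum_inner]
      exact sum_congr rfl fun l _ => by rw [real_inner_smul_left, w1, sq]
    have n2 : ‖L (∑ l ∈ A, pp u l x • w l)‖ ≤ √(∑ l ∈ A, pp u l x ^ 2) := by
      refine ContinuousLinearMap.opNorm_le_bound _ (Real.sqrt_nonneg _) fun z => ?_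
      have m2 : ‖L (∑ l ∈ A, pp u l x • w l) z‖ ≤ ∑ l ∈ A, pp u l x * pp u l (q z) := by
        rw [hL, sum_inner]
        refine (abs_sum_le_sum_abs _ _).trans (sum_le_sum fun l _ => ?_)
        rw [real_inner_smul_left, abs_mul, abs_of_nonneg (pp_nonneg l x)]
        exact mul_le_mul_of_nonneg_left (w2 l _) (pp_nonneg l x)
      refine m2.trans (abs_le_of_sq_le_sq' ((sum_mul_sq_le_sq_mul_sq _ _ _).trans ?_)
        (mul_nonneg (Real.sqrt_nonneg _) (norm_nonneg _))).2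
      rw [mul_pow, Real.sq_sqrt n0]
      exact mul_le_mul_of_nonneg_left (m1 A z) n0
    have n3 := (le_abs_self _).trans ((Φ.le_opNorm (L (∑ l ∈ A, pp u l x • w l))).trans
      (mul_le_mul_of_nonneg_left n2 (norm_nonneg _)))
    rw [n1] at n3
    nlinarith [Real.sq_sqrt n0, sq_nonneg (‖Φ‖ - √(∑ l ∈ A, pp u l x ^ 2))]
  obtain ⟨z, hz⟩ := hex x (summable_of_sum_le (fun _ => sq_nonneg _) hs)
  refine ⟨z, ContinuousLinearMap.ext fun f => ?_⟩
  show f z = Φ f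
  refine eq_of_forall_dist_le fun ε hε => ?_
  have hp : 0 < ‖z‖ + ‖Φ‖ + 1 := by positivity
  obtain ⟨ψ, hψ⟩ := hd f _ (div_pos hε hp)
  obtain ⟨a, ha⟩ : ∃ a : H, ∀ y, ψ y = inner ℝ a y :=
    ⟨(InnerProductSpace.toDual ℝ H).symm ψ, fun y =>
      (InnerProductSpace.toDual_symm_apply).symm⟩
  have h1 : ‖f - L a‖ ≤ ε / (‖z‖ + ‖Φ‖ + 1) :=
    ContinuousLinearMap.opNorm_le_bound _ (div_pos hε hp).le fun y => by
      rw [sub_apply, hL, ← ha]
      exact hψ y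
  have h2 := (Φ.le_opNorm (f - L a)).trans (mul_le_mul_of_nonneg_left h1 (norm_nonneg _))
  have h3 := hψ z
  rw [map_sub, hx, Real.norm_eq_abs] at h2
  rw [ha, hz] at h3
  have h4 := abs_sub_le (f z) (inner ℝ a x) (Φ f)
  rw [abs_sub_comm (inner ℝ a x)] at h4
  have h5 : ε / (‖z‖ + ‖Φ‖ + 1) * (‖z‖ + ‖Φ‖ + 1) = ε := div_mul_cancel₀ _ hp.ne'
  rw [Real.dist_eq]
  nlinarith [div_pos hε hp]

theorem sp_refl [CompleteSpace H] (u : ∀ l, Fin (NN l) → H) :
    Function.Surjective (NormedSpace.inclusionInDoubleDual ℝ (spGr u)) :=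
  refl_abs u (spFst u) (fun A z => by
    rw [sp_norm]
    exact le_add_of_nonneg_of_le (sq_nonneg _)
      ((sp_sum u z).summable.sum_le_tsum A fun _ _ => sq_nonneg _)) (sp_ex u)
    fun f _ hε => refl_dense u f hε

end

theorem exists_model_refl {H : Type} [NormedAddCommGroup H] [InnerProductSpace ℝ H] [CompleteSpace H]
    {B : Blocks H} {u : ∀ l, Fin (NN l) → H} (h : Loc B u) {m : ℕ → H →L[ℝ] H} (hm : Ramp B m) :
    ∃ (E : Type) (_ : NormedAddCommGroup E) (_ : NormedSpace ℝ E), CompleteSpace E ∧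
      Function.Surjective (NormedSpace.inclusionInDoubleDual ℝ E) ∧
      Nonempty (Model B u m E) := by
  choose I hI using sp_inc h
  choose R hR using hm.fin
  obtain ⟨c, τ, o, hτ, ho, lτ, lo, e⟩ := hm.loc
  have hc : 0 ≤ c := by simpa using (ho 0 0).2
  have hf : ∀ r y, spFst u (I (R r) (m r (spFst u y))) = m r (spFst u y) := fun r y => by
    rw [hI]
    exact (mem_S B).1 (hR r _)
  have hw : ∀ x : H, Summable fun l => ‖B.pr l (l + 2) x‖ ^ 2 := fun x =>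
    summable_of_sum_le (fun l => sq_nonneg _) fun A => sum_pair_le B A x
  have hb : ∀ y : spGr u, Summable fun l =>
      2 * pp u l (spFst u y) ^ 2 + 2 * c ^ 2 * ‖B.pr l (l + 2) (spFst u y)‖ ^ 2 := fun y =>
    ((sp_sum u y).summable.mul_left 2).add ((hw _).mul_left _)
  have a1 : ∀ r l, |τ r l| ≤ 1 := fun r l => by
    rw [abs_of_nonneg (hτ r l).1]
    exact (hτ r l).2
  have a2 : ∀ r l, |1 - τ r l| ≤ 1 := fun r l => by
    rw [abs_of_nonneg (sub_nonneg.2 (hτ r l).2)]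
    linarith [(hτ r l).1]
  refine ⟨spGr u, inferInstance, inferInstance, (sp_closed u).completeSpace_coe, sp_refl u,
    ⟨⟨spFst u, I, fun r => (I (R r)).comp ((m r).comp (spFst u)), 2 + 2 * c, by linarith,
      sp_inj u, hI, fun R x hx => ?_, hf, fun r y => ?_, fun y => ?_⟩⟩⟩
  · have h1 : spFst u (I R x) = x := by
      rw [hI]
      exact (mem_S B).1 hx
    rw [sp_norm_fin h (R := R) _ (by rw [h1]; exact hx), h1]
  · refine le_of_sq_le_sq ?_ (by positivity)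
    have n1 : ‖I (R r) (m r (spFst u y))‖ ^ 2 =
        ‖m r (spFst u y)‖ ^ 2 + ∑' l, pp u l (m r (spFst u y)) ^ 2 := by
      have g : (I (R r) (m r (spFst u y))).1.fst = m r (spFst u y) := hf r y
      rw [sp_norm, g]
    have s1 : Summable fun l => pp u l (m r (spFst u y)) ^ 2 := by
      have g : (I (R r) (m r (spFst u y))).1.fst = m r (spFst u y) := hf r y
      have g2 := (sp_sum u (I (R r) (m r (spFst u y)))).summable
      rwa [g] at g2
    have n2 : ‖y‖ ^ 2 = ‖spFst u y‖ ^ 2 + ∑' l, pp u l (spFst u y) ^ 2 := sp_norm u y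
    have s2 : Summable fun l => pp u l (spFst u y) ^ 2 := (sp_sum u y).summable
    have h1 := s1.tsum_le_tsum (fun l => sp_sq (pp_nonneg l _) (pp_nonneg l _) (norm_nonneg _)
      (sp_near h l _ _ (e r l (spFst u y))).1 (a1 r l) (ho r l).2) (hb y)
    rw [(s2.mul_left 2).tsum_add ((hw _).mul_left _), tsum_mul_left, tsum_mul_left] at h1
    have h2 : ∑' l, ‖B.pr l (l + 2) (spFst u y)‖ ^ 2 ≤ 2 * ‖spFst u y‖ ^ 2 :=
      (hw _).tsum_le_of_sum_le fun A => sum_pair_le B A _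
    have h3 := pow_le_pow_left₀ (norm_nonneg _) (hm.le r (spFst u y)) 2
    have h4 : 0 ≤ ∑' l, pp u l (spFst u y) ^ 2 := tsum_nonneg fun l => sq_nonneg _
    have h5 := mul_le_mul_of_nonneg_left h2 (by positivity : 0 ≤ 2 * c ^ 2)
    have h6 : 0 ≤ ‖spFst u y‖ ^ 2 := sq_nonneg _
    show ‖I (R r) (m r (spFst u y))‖ ^ 2 ≤ _
    rw [mul_pow, n1, n2]
    nlinarith [mul_nonneg hc h4, mul_nonneg hc h6, mul_nonneg (sq_nonneg c) h4]
  · have n1 : ∀ r, ‖y - I (R r) (m r (spFst u y))‖ ^ 2 = ‖spFst u y - m r (spFst u y)‖ ^ 2 +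
        ∑' l, pp u l (spFst u y - m r (spFst u y)) ^ 2 := by
      intro r
      have : spFst u (y - I (R r) (m r (spFst u y))) = spFst u y - m r (spFst u y) := by
        rw [map_sub, hf]
      rw [sp_norm, ← this]
      rfl
    have t1 : Tendsto (fun r => ‖spFst u y - m r (spFst u y)‖ ^ 2) atTop (𝓝 0) := by
      have := (((tendsto_const_nhds (x := spFst u y)).sub (hm.lim (spFst u y))).norm).pow 2
      simpa using this
    have t2 : Tendsto (fun r => ∑' l, pp u l (spFst u y - m r (spFst u y)) ^ 2) atTop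
        (𝓝 (∑' _l : ℕ, (0 : ℝ))) := by
      refine tendsto_tsum_of_dominated_convergence (hb y) (fun l => ?_)
        (Eventually.of_forall fun r l => ?_)
      · have g1 := ((((tendsto_const_nhds (x := (1 : ℝ))).sub (lτ l)).abs.mul_const
          (pp u l (spFst u y))).add (((lo l).const_mul (l : ℝ)).mul_const
            ‖B.pr l (l + 2) (spFst u y)‖))
        simp only [sub_self, abs_zero, zero_mul, mul_zero, add_zero] at g1
        have g2 := (squeeze_zero (fun r => pp_nonneg l _)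
          (fun r => (sp_near h l _ _ (e r l (spFst u y))).2) g1).pow 2
        simpa using g2
      · rw [Real.norm_eq_abs, abs_of_nonneg (sq_nonneg _)]
        exact sp_sq (pp_nonneg l _) (pp_nonneg l _) (norm_nonneg _)
          (sp_near h l _ _ (e r l (spFst u y))).2 (a2 r l) (ho r l).2
    have t3 : Tendsto (fun r => ‖y - I (R r) (m r (spFst u y))‖ ^ 2) atTop (𝓝 0) := by
      have := t1.add t2
      simp only [tsum_zero, add_zero] at this
      exact this.congr fun r => (n1 r).symm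
    have t4 := t3.sqrt
    simp only [Real.sqrt_sq (norm_nonneg _), Real.sqrt_zero] at t4
    exact tendsto_iff_norm_sub_tendsto_zero.2 (t4.congr fun r => norm_sub_rev _ _)

end Pool.Agent.P.MP_f511bc_an.Nf
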