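import Pool.Agent.P.MP_f511bc_an.Nf.TBG
import Pool.Agent.P.MP_f511bc_an.Nf.LTwo
import Pool.Agent.P.MP_f511bc_an.Nf.Ces
import Pool.Agent.P.MP_f511bc_an.Nf.End
import Pool.Agent.P.MP_f511bc_an.Nf.Refl
import Pool.Agent.P.MP_f511bc_an.Nf.Exist

/-! The assembly. -/

open Finset Module Filter Topology MeasureTheory ProbabilityTheory

universe u

namespace Pool.Agent.P.MP_f511bc_an.Nf

open Pool.Agent.P.MP_f511bc_an.Nb

theorem final : ∃ (E : Type) (_ : NormedAddCommGroup E) (_ : NormedSpace ℝ E), CompleteSpace E ∧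
    Function.Surjective (NormedSpace.inclusionInDoubleDual ℝ E) ∧
    (∃ x : ℕ → E, ∀ t : ℕ → ℕ → ℝ, Consistent t →
      (∃ C : ℝ, ∀ n m : ℕ, ((m : ℝ) + 1) * |t n m| ≤ C) → IsTBasis t x) ∧
    ∀ P : ℕ → E →L[ℝ] E, (∀ i y, P i (P i y) = P i y) →
      (∀ i, FiniteDimensional ℝ (LinearMap.range (P i : E →ₗ[ℝ] E))) →
      ¬ ∀ y, Tendsto (fun i => P i y) atTop (𝓝 y) := by
  obtain ⟨B, hB⟩ := exists_blocks
  obtain ⟨l0, u, hu⟩ := exists_good B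
  obtain ⟨E, i1, i2, i3, i4, ⟨M⟩⟩ := exists_model_refl hu.toLoc (ces_ramp B hB)
  exact ⟨E, i1, i2, i3, i4, tbasis_all B hB hu.toLoc M,
    fun P hP hf => no_proj hu (ces_ramp B hB) M P hP hf⟩

end Pool.Agent.P.MP_f511bc_an.Nf
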