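import Mathlib

open Finset Module MeasureTheory ProbabilityTheory

namespace Pool.Agent.P.MP_f511bc_an.Nf

theorem gf_le_vol : gaussianReal 0 1 ≤ (volume : Measure ℝ) := by
  rw [gaussianReal_of_var_ne_zero _ one_ne_zero]
  refine (withDensity_mono (g := 1) (Filter.Eventually.of_forall fun x => ?_)).trans_eq
    withDensity_one
  rw [gaussianPDF, Pi.one_apply, ENNReal.ofReal_le_one, gaussianPDFReal]
  have h1 : (1 : ℝ) ≤ √(2 * Real.pi * (1 : NNReal)) :=
    Real.one_le_sqrt.2 (by have := Real.pi_gt_three; simp only [NNReal.coe_one]; linarith)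
  refine mul_le_one₀ (inv_le_one_of_one_le₀ h1) (Real.exp_pos _).le (Real.exp_le_one_iff.2 ?_)
  exact div_nonpos_of_nonpos_of_nonneg (neg_nonpos.2 (sq_nonneg _)) (by positivity)

theorem gf_pi_le {α : Type*} [Fintype α] (T : Set (α → ℝ)) :
    (Measure.pi fun _ : α => gaussianReal 0 1) T ≤ volume T := by
  have h : (Measure.pi fun _ : α => gaussianReal 0 1).toOuterMeasure ≤
      OuterMeasure.pi fun _ : α => (volume : Measure ℝ).toOuterMeasure :=
    OuterMeasure.le_pi.2 fun s _ => by
      rw [Measure.coe_toOuterMeasure, Measure.pi_pi]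
      exact prod_le_prod' fun i _ => Measure.le_iff'.1 gf_le_vol (s i)
  refine (h T).trans ?_
  rw [volume_pi, Measure.pi_def]
  exact le_toMeasure_apply _ _ T

theorem gf_fub {V : Type*} [NormedAddCommGroup V] [InnerProductSpace ℝ V] [FiniteDimensional ℝ V]
    [MeasurableSpace V] [BorelSpace V] {α β ι : Type} [Fintype α] [Fintype β] [Fintype ι]
    (b : OrthonormalBasis (α ⊕ β) ℝ V) (A : Set (ι → V)) (hA : MeasurableSet A) (c : ENNReal)
    (h2 : ∀ y : ι → β → ℝ, ∃ T : ι → Set (α → ℝ), (∀ i, volume (T i) ≤ c) ∧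
      ∀ g ∈ A, (∀ i j, b.repr (g i) (Sum.inr j) = y i j) →
        ∀ i, (fun j => b.repr (g i) (Sum.inl j)) ∈ T i) :
    (Measure.pi fun _ : ι => stdGaussian V) A ≤ c ^ Fintype.card ι := by
  classical
  have m1 : MeasurePreserving (fun x : α ⊕ β → ℝ => ∑ i, x i • b i)
      (Measure.pi fun _ => gaussianReal 0 1) (stdGaussian V) :=
    ⟨by fun_prop, (stdGaussian_eq_map_pi_orthonormalBasis b).symm⟩
  have m2 := measurePreserving_sumPiEquivProdPi_symm (X := fun _ : α ⊕ β => ℝ)
    fun _ => gaussianReal 0 1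
  have m3 := m1.comp m2
  have m4 := measurePreserving_pi (ι := ι) _ _ fun _ => m3
  have m5 := (measurePreserving_arrowProdEquivProdArrow (α → ℝ) (β → ℝ) ι
    (fun _ => Measure.pi fun _ => gaussianReal 0 1)
    fun _ => Measure.pi fun _ => gaussianReal 0 1).symm
  have m6 := m4.comp m5
  rw [← m6.measure_preimage hA.nullMeasurableSet, Measure.prod_apply_symm (m6.measurable hA)]
  refine (lintegral_mono (g := fun _ => c ^ Fintype.card ι) fun y => ?_).trans (by simp)
  obtain ⟨T, hT, h⟩ := h2 y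
  have hr : ∀ (x : α ⊕ β → ℝ) j, b.repr (∑ i, x i • b i) j = x j := fun x j => by
    simp [Pi.single_apply, -Fintype.sum_sum_type]
  refine (measure_mono (t := Set.pi Set.univ T) fun x hx i _ => ?_).trans ?_
  · have := h _ hx (fun i j => hr _ _) i
    have e : ∀ u v : α → ℝ, (∀ j, u j = v j) → u ∈ T i → v ∈ T i := fun u v h hu => funext h ▸ hu
    exact e _ _ (fun j => hr _ (Sum.inl j)) this
  · rw [Measure.pi_pi, ← Finset.card_univ, ← Finset.prod_const]
    exact Finset.prod_le_prod' fun i _ => (gf_pi_le _).trans (hT i)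

end Pool.Agent.P.MP_f511bc_an.Nf
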