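import Mathlib

open Finset Module MeasureTheory ProbabilityTheory

namespace Pool.Agent.P.MP_f511bc_an.Nf

variable {X : Type*} [NormedAddCommGroup X] [InnerProductSpace ℝ X]

theorem mau_prob {σ : Type*} [Fintype σ] (p : σ → ℝ) (hp : ∀ s, 0 ≤ p s) (h1 : ∑ s, p s = 1)
    (Y : σ → X) {L : ℝ} (hY : ∀ s, ‖Y s‖ ≤ L) (r : ℕ) :
    ∃ s : Fin r → σ, ‖(r : ℝ) • ∑ s, p s • Y s - ∑ t, Y (s t)‖ ^ 2 ≤ r * L ^ 2 := by
  set z := ∑ s, p s • Y s with hz
  induction r with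
  | zero => exact ⟨Fin.elim0, by simp⟩
  | succ r ih =>
    obtain ⟨s, hs⟩ := ih
    set v := (r : ℝ) • z - ∑ t, Y (s t) with hv
    have h2 : ∑ a, p a * ‖v + z - Y a‖ ^ 2 ≤ ∑ a, p a * (‖v‖ ^ 2 + L ^ 2) := by
      have h3 : ∑ a, p a * inner ℝ (v + z) (Y a) = inner ℝ (v + z) z := by
        conv_rhs => rw [hz, inner_sum]
        exact sum_congr rfl fun a _ => (real_inner_smul_right _ _ _).symm
      have h4 : ∑ a, p a * ‖v + z - Y a‖ ^ 2 ≤
          ∑ a, (p a * (‖v + z‖ ^ 2 + L ^ 2) - 2 * (p a * inner ℝ (v + z) (Y a))) :=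
        sum_le_sum fun a _ => by
          have := mul_le_mul_of_nonneg_left (pow_le_pow_left₀ (norm_nonneg _) (hY a) 2) (hp a)
          rw [norm_sub_sq_real]
          linarith
      rw [sum_sub_distrib, ← mul_sum, h3, ← sum_mul, h1, norm_add_sq_real, inner_add_left,
        real_inner_self_eq_norm_sq] at h4
      rw [← sum_mul, h1]
      nlinarith [sq_nonneg ‖z‖]
    obtain ⟨a, ha⟩ : ∃ a, ‖v + z - Y a‖ ^ 2 ≤ ‖v‖ ^ 2 + L ^ 2 := by
      by_contra hc
      push Not at hc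
      obtain ⟨a, -, ha⟩ := exists_lt_of_sum_lt (s := univ) (f := fun _ => (0 : ℝ)) (g := p)
        (by simp [h1])
      exact absurd h2 (not_le.2 (sum_lt_sum
        (fun b _ => mul_le_mul_of_nonneg_left (hc b).le (hp b))
        ⟨a, mem_univ a, mul_lt_mul_of_pos_left (hc a) ha⟩))
    refine ⟨Fin.cons a s, ?_⟩
    have e : ((r + 1 : ℕ) : ℝ) • z - ∑ t, Y (Fin.cons (α := fun _ => σ) a s t) = v + z - Y a := by
      rw [Fin.sum_univ_succ, hv]
      simp only [Fin.cons_zero, Fin.cons_succ, Nat.cast_add, Nat.cast_one, add_smul, one_smul]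
      abel
    rw [e]
    push_cast
    linarith

/-- The signed vectors used in the covering. -/
def mauY {ι : Type*} (y : ι → X) : Option (ι ⊕ ι) → X
  | none => 0
  | some (Sum.inl i) => y i
  | some (Sum.inr i) => -y i

theorem mau_ac {ι : Type*} [Fintype ι] (y : ι → X) {L : ℝ} (hL : 0 ≤ L) (hy : ∀ i, ‖y i‖ ≤ L)
    (a : ι → ℝ) (ha : ∑ i, |a i| ≤ 1) {r : ℕ} (hr : 0 < r) (hLr : L ^ 2 ≤ r) :
    ∃ s : Fin r → Option (ι ⊕ ι), ‖∑ i, a i • y i - (r : ℝ)⁻¹ • ∑ t, mauY y (s t)‖ ≤ 1 := by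
  let p : Option (ι ⊕ ι) → ℝ := fun s => match s with
    | none => 1 - ∑ i, |a i|
    | some (Sum.inl i) => max (a i) 0
    | some (Sum.inr i) => max (-a i) 0
  have hp : ∀ s, 0 ≤ p s := by
    rintro (_ | i | i)
    · exact sub_nonneg.2 ha
    · exact le_max_right _ _
    · exact le_max_right _ _
  have h1 : ∑ s, p s = 1 := by
    rw [Fintype.sum_option, Fintype.sum_sum_type, ← sum_add_distrib]
    simp only [p, max_zero_add_max_neg_zero_eq_abs_self]
    ring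
  have hz : ∑ s, p s • mauY y s = ∑ i, a i • y i := by
    rw [Fintype.sum_option, Fintype.sum_sum_type, ← sum_add_distrib]
    simp only [p, mauY, smul_zero, zero_add, smul_neg, ← sub_eq_add_neg, ← sub_smul,
      max_zero_sub_max_neg_zero_eq_self]
  obtain ⟨s, hs⟩ := mau_prob p hp h1 (mauY y) (L := L) (by
    rintro (_ | i | i)
    · simpa [mauY] using hL
    · exact hy i
    · simpa [mauY] using hy i) r
  refine ⟨s, ?_⟩
  have hr' : (0 : ℝ) < r := by exact_mod_cast hr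
  rw [hz] at hs
  have e : ∑ i, a i • y i - (r : ℝ)⁻¹ • ∑ t, mauY y (s t) =
      (r : ℝ)⁻¹ • ((r : ℝ) • ∑ i, a i • y i - ∑ t, mauY y (s t)) := by
    rw [smul_sub, inv_smul_smul₀ hr'.ne']
  rw [e, norm_smul, norm_inv, Real.norm_natCast, inv_mul_le_iff₀ hr', mul_one]
  exact le_of_sq_le_sq (by nlinarith) hr'.le

end Pool.Agent.P.MP_f511bc_an.Nf
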