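import Pool.Agent.P.MP_f511bc_an.Nf.GFub
import Pool.Agent.P.MP_f511bc_an.Nf.Mau
import Pool.Agent.P.MP_f511bc_an.Nb.Poly

open Finset Module MeasureTheory ProbabilityTheory

namespace Pool.Agent.P.MP_f511bc_an.Nf

theorem pt_ball {k : ℕ} (x : EuclideanSpace ℝ (Fin k)) {R : ℝ} (hR : 0 ≤ R) :
    volume {c : Fin k → ℝ | ‖WithLp.toLp 2 c - x‖ ≤ R} ≤
      ENNReal.ofReal ((2 * (R * √k)) ^ k / k.factorial) := by
  refine le_trans (measure_mono (t := (fun c : Fin k → ℝ => c + -x.ofLp) ⁻¹'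
    {c | ∑ i, |c i| ≤ R * √k}) fun c hc => ?_) ?_
  · have h1 : ∑ i, |c i - x i| ^ 2 ≤ R ^ 2 := by
      have := pow_le_pow_left₀ (norm_nonneg _) hc 2
      rw [EuclideanSpace.real_norm_sq_eq] at this
      simpa using this
    have h2 := sq_sum_le_card_mul_sum_sq (s := univ) (f := fun i => |c i - x i|)
    rw [card_univ, Fintype.card_fin] at h2
    change ∑ i, |c i + -x i| ≤ R * √k
    simp only [← sub_eq_add_neg]
    refine le_of_sq_le_sq ?_ (by positivity)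
    rw [mul_pow, Real.sq_sqrt (Nat.cast_nonneg k)]
    nlinarith [mul_le_mul_of_nonneg_left h1 (Nat.cast_nonneg (α := ℝ) k)]
  · rw [measure_preimage_add_right]
    exact Nb.poly_l1 k (by positivity)

theorem pt_raw {W Y : Type*} [NormedAddCommGroup W] [InnerProductSpace ℝ W]
    [FiniteDimensional ℝ W] [MeasurableSpace W] [BorelSpace W] [NormedAddCommGroup Y]
    [InnerProductSpace ℝ Y] {k N r : ℕ} {ι : Type} [Fintype ι] (emb S : W →ₗ[ℝ] Y)
    (hemb : ∀ x, ‖emb x‖ ≤ ‖x‖) (v : Fin k → Y) (w : Fin k → W) (hv : Orthonormal ℝ v)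
    (hw : Orthonormal ℝ w) (hvw : ∀ a b, inner ℝ (v a) (emb (w b)) = 0) {β : ℝ} (hβ : 0 < β)
    (hc : ∀ c : Fin k → ℝ, β * ∑ a, c a ^ 2 ≤ inner ℝ (∑ a, c a • v a) (S (∑ a, c a • w a)))
    (y : ι → Y) {L hi ρ s : ℝ} (hhi : 0 ≤ hi) (hρ : 0 ≤ ρ) (hs : 0 ≤ s)
    (hy : ∀ i, ‖y i‖ ≤ L) (hsL : s * hi ≤ L) (hr : 0 < r) (hLr : L ^ 2 ≤ r)
    (A : Set (Fin N → W)) (hA : MeasurableSet A)
    (h : ∀ g ∈ A, (∀ j, ‖g j‖ ≤ hi) ∧ ∀ j, ∃ (b : Y) (a : ι ⊕ Fin N → ℝ),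
      ‖b‖ ≤ 2 ∧ ∑ i, |a i| ≤ 1 ∧
        S (g j) = ρ • (b + ∑ i, a i • Sum.elim y (fun i => s • emb (g i)) i)) :
    (Measure.pi fun _ : Fin N => stdGaussian W) A ≤
      ENNReal.ofReal ((2 * (Fintype.card ι + N) + 1) ^ r *
        ((2 * (3 * ρ / β * √k)) ^ k / k.factorial)) ^ N := by
  classical
  have hk : k ≤ finrank ℝ W := by simpa using hw.linearIndependent.fintype_card_le_finrank
  obtain ⟨b, hb⟩ := Orthonormal.exists_orthonormalBasis_extension_of_card_eq (𝕜 := ℝ) (E := W)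
    (ι := Fin k ⊕ Fin (finrank ℝ W - k)) (by simp [hk]) (v := Sum.elim w 0)
    (s := Set.range Sum.inl) (by
      refine ⟨?_, ?_⟩
      · rintro ⟨_, a, rfl⟩
        exact hw.1 a
      · rintro ⟨_, a, rfl⟩ ⟨_, c, rfl⟩ h
        exact hw.2 fun hac => h (by rw [hac]))
  have hbw : ∀ a, b (Sum.inl a) = w a := fun a => hb _ ⟨a, rfl⟩
  obtain ⟨U, hU⟩ : ∃ U : Y →ₗ[ℝ] EuclideanSpace ℝ (Fin k), ∀ x a, U x a = inner ℝ (v a) x :=
    ⟨(WithLp.linearEquiv 2 ℝ (Fin k → ℝ)).symm.toLinearMap ∘ₗ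
      LinearMap.pi fun a => (innerSL ℝ (v a)).toLinearMap, fun _ _ => rfl⟩
  obtain ⟨Wm, hW⟩ : ∃ Wm : EuclideanSpace ℝ (Fin k) →ₗ[ℝ] W, ∀ c, Wm c = ∑ a, c a • w a :=
    ⟨Fintype.linearCombination ℝ w ∘ₗ (WithLp.linearEquiv 2 ℝ (Fin k → ℝ)).toLinearMap,
      fun _ => rfl⟩
  have hUn : ∀ x, ‖U x‖ ≤ ‖x‖ := fun x => by
    refine abs_le_of_sq_le_sq' ?_ (norm_nonneg x) |>.2
    rw [EuclideanSpace.norm_sq_eq]
    simpa only [hU] using hv.sum_inner_products_le (s := univ) x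
  have hUW : ∀ c, U (emb (Wm c)) = 0 := fun c => by
    ext a
    simp [hU, hW, hvw]
  have hmn : ∀ c, β * ‖c‖ ≤ ‖(U ∘ₗ S ∘ₗ Wm) c‖ := fun c => by
    have h2 : inner ℝ c ((U ∘ₗ S ∘ₗ Wm) c) = inner ℝ (∑ a, c a • v a) (S (∑ a, c a • w a)) := by
      rw [← hW, PiLp.inner_apply, sum_inner]
      refine sum_congr rfl fun a _ => ?_
      rw [LinearMap.comp_apply, LinearMap.comp_apply, hU, real_inner_smul_left, mul_comm]
      rfl
    have h3 := hc fun a => c a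
    rw [← h2, ← EuclideanSpace.real_norm_sq_eq] at h3
    have h4 := real_inner_le_norm c ((U ∘ₗ S ∘ₗ Wm) c)
    rcases (norm_nonneg c).eq_or_lt with h0 | h0
    · rw [← h0, mul_zero]
      exact norm_nonneg _
    · nlinarith
  have hinj : Function.Injective (U ∘ₗ S ∘ₗ Wm) := (injective_iff_map_eq_zero _).2 fun c h => by
    have := hmn c
    rw [h, norm_zero] at this
    exact norm_le_zero_iff.1 (by nlinarith [norm_nonneg c])
  obtain ⟨m, hm⟩ : ∃ m : EuclideanSpace ℝ (Fin k) ≃ₗ[ℝ] EuclideanSpace ℝ (Fin k),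
      ∀ c, m c = U (S (Wm c)) := ⟨LinearEquiv.ofInjectiveEndo _ hinj, fun _ => rfl⟩
  have hbr : Orthonormal ℝ fun j : Fin (finrank ℝ W - k) => b (Sum.inr j) :=
    b.orthonormal.comp _ Sum.inr_injective
  have hg : ∀ x : W, x = Wm (WithLp.toLp 2 fun a => b.repr x (Sum.inl a)) +
      ∑ j, b.repr x (Sum.inr j) • b (Sum.inr j) := fun x => by
    conv_lhs => rw [← b.sum_repr x]
    simp [hW, hbw]
  have hGn : ∀ x : W, ‖∑ j, b.repr x (Sum.inr j) • b (Sum.inr j)‖ ≤ ‖x‖ := fun x => by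
    refine le_of_sq_le_sq ?_ (norm_nonneg x)
    rw [← real_inner_self_eq_norm_sq, hbr.inner_sum]
    simpa [b.repr_apply_apply, sq] using hbr.sum_inner_products_le (s := univ) x
  have hL : 0 ≤ L := le_trans (by positivity) hsL
  refine (gf_fub b A hA _ fun z => ?_).trans_eq (by rw [Fintype.card_fin])
  set G : Fin N → W := fun i => ∑ j, z i j • b (Sum.inr j) with hGd
  let y' : ι ⊕ Fin N → EuclideanSpace ℝ (Fin k) := Sum.elim (fun i => U (y i))
    fun i => if ‖G i‖ ≤ hi then s • U (emb (G i)) else 0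
  have hy' : ∀ i, ‖y' i‖ ≤ L := by
    rintro (i | i)
    · exact (hUn _).trans (hy i)
    · change ‖if ‖G i‖ ≤ hi then s • U (emb (G i)) else 0‖ ≤ L
      split_ifs with h1
      · rw [norm_smul, Real.norm_of_nonneg (by positivity)]
        exact (mul_le_mul_of_nonneg_left ((hUn _).trans ((hemb _).trans h1))
          (by positivity)).trans hsL
      · simpa using hL
  refine ⟨fun i => ⋃ t : Fin r → Option ((ι ⊕ Fin N) ⊕ (ι ⊕ Fin N)),
    {c : Fin k → ℝ | ‖WithLp.toLp 2 c - m.symm (ρ • (r : ℝ)⁻¹ • ∑ q, mauY y' (t q) -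
      U (S (G i)))‖ ≤ 3 * ρ / β}, fun i => ?_, fun g hgA hgz i => ?_⟩
  · refine (measure_iUnion_fintype_le _ _).trans ((sum_le_card_nsmul _ _ _ fun t _ =>
      pt_ball _ (by positivity)).trans (le_of_eq ?_))
    rw [nsmul_eq_mul, ENNReal.ofReal_mul (by positivity), ← ENNReal.ofReal_natCast]
    congr 2
    simp only [card_univ, Fintype.card_fun, Fintype.card_option, Fintype.card_sum,
      Fintype.card_fin]
    push_cast
    ring
  · obtain ⟨h1, h2⟩ := h g hgA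
    have hgi : ∀ i, g i = Wm (WithLp.toLp 2 fun a => b.repr (g i) (Sum.inl a)) + G i :=
      fun i => by simpa only [hgz] using hg (g i)
    have hGi : ∀ i, ‖G i‖ ≤ hi := fun i => by
      have := hGn (g i)
      simp only [hgz] at this
      exact this.trans (h1 i)
    obtain ⟨d, a, hd, ha, hS⟩ := h2 i
    obtain ⟨t, ht⟩ := mau_ac y' hL hy' a ha hr hLr
    have e1 : ∀ q, y' q = U (Sum.elim y (fun i => s • emb (g i)) q) := by
      rintro (q | q)
      · rfl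
      · have e2 : U (emb (g q)) = U (emb (G q)) := by
          rw [hgi q, map_add, map_add, hUW, zero_add]
        simp only [y', Sum.elim_inr, if_pos (hGi q), map_smul, e2]
    have e3 : U (S (g i)) = ρ • (U d + ∑ q, a q • y' q) := by
      simp only [hS, e1, map_smul, map_add, map_sum]
    refine Set.mem_iUnion.2 ⟨t, ?_⟩
    have e5 := hmn (WithLp.toLp 2 (fun a => b.repr (g i) (Sum.inl a)) -
      m.symm (ρ • (r : ℝ)⁻¹ • ∑ q, mauY y' (t q) - U (S (G i))))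
    have e6 : m (WithLp.toLp 2 fun a => b.repr (g i) (Sum.inl a)) = U (S (g i)) - U (S (G i)) := by
      rw [hm, eq_sub_iff_add_eq, ← map_add, ← map_add, ← hgi]
    rw [LinearMap.comp_apply, LinearMap.comp_apply, ← hm, map_sub m, m.apply_symm_apply, e6,
      sub_sub_sub_cancel_right, e3, ← smul_sub, norm_smul, Real.norm_of_nonneg hρ,
      add_sub_assoc] at e5
    have e8 := mul_le_mul_of_nonneg_left (norm_add_le_of_le ((hUn d).trans hd) ht) hρ
    rw [Set.mem_ofPred_eq, le_div_iff₀ hβ]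
    linarith

end Pool.Agent.P.MP_f511bc_an.Nf
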