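import Pool.Agent.P.MP_f511bc_an.Nb.Chain

/-! Singular values and the spectral step of the chain. -/

open Finset Module

namespace Pool.Agent.P.MP_f511bc_an.Nf

open Pool.Agent.P.MP_f511bc_an.Nb

variable {X W : Type*} [NormedAddCommGroup X] [InnerProductSpace ℝ X] [FiniteDimensional ℝ X]
  [NormedAddCommGroup W] [InnerProductSpace ℝ W] [FiniteDimensional ℝ W]

theorem sv (A : X →ₗ[ℝ] W) (k : ℕ) {b : ℝ} (hb : 0 ≤ b) :
    (∃ (v : Fin k → X) (w : Fin k → W), Orthonormal ℝ v ∧ Orthonormal ℝ w ∧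
      ∀ c : Fin k → ℝ, b * ∑ a, c a ^ 2 ≤ inner ℝ (A (∑ a, c a • v a)) (∑ a, c a • w a)) ∨
    ∃ G : Submodule ℝ W, finrank ℝ W < finrank ℝ G + k ∧
      ∀ y ∈ G, ‖LinearMap.adjoint A y‖ ≤ b * ‖y‖ := by
  classical
  have hS : (A ∘ₗ LinearMap.adjoint A).IsSymmetric := by
    intro x y
    simp only [LinearMap.comp_apply]
    rw [← LinearMap.adjoint_inner_right, LinearMap.adjoint_inner_left]
  obtain ⟨e, l, he⟩ : ∃ (e : OrthonormalBasis (Fin (finrank ℝ W)) ℝ W)
      (l : Fin (finrank ℝ W) → ℝ), ∀ i, A (LinearMap.adjoint A (e i)) = l i • e i :=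
    ⟨hS.eigenvectorBasis rfl, hS.eigenvalues rfl, fun i => hS.apply_eigenvectorBasis rfl i⟩
  have hin : ∀ i j, inner ℝ (LinearMap.adjoint A (e i)) (LinearMap.adjoint A (e j)) =
      l j * inner ℝ (e i) (e j) := by
    intro i j
    rw [LinearMap.adjoint_inner_left, he, real_inner_smul_right]
  by_cases hk : k ≤ (univ.filter fun i => b ^ 2 < l i).card
  · left
    obtain ⟨f, hf⟩ : ∃ f : Fin k ↪ Fin (finrank ℝ W), ∀ a, b ^ 2 < l (f a) := by
      let g := ((univ.filter fun i => b ^ 2 < l i).equivFin).symm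
      refine ⟨⟨fun a => (g (Fin.castLE hk a) : Fin (finrank ℝ W)), fun a a' h => ?_⟩, fun a => ?_⟩
      · exact Fin.castLE_injective hk (g.injective (Subtype.ext h))
      · exact (mem_filter.1 (g (Fin.castLE hk a)).2).2
    have hpos : ∀ a, 0 < l (f a) := fun a => lt_of_le_of_lt (sq_nonneg b) (hf a)
    have hs : ∀ a, 0 < √(l (f a)) := fun a => Real.sqrt_pos.2 (hpos a)
    have hss : ∀ a, √(l (f a)) * √(l (f a)) = l (f a) := fun a => Real.mul_self_sqrt (hpos a).le
    have hw : Orthonormal ℝ fun a => e (f a) := e.orthonormal.comp f f.injective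
    have hw' := orthonormal_iff_ite.1 hw
    refine ⟨fun a => (√(l (f a)))⁻¹ • LinearMap.adjoint A (e (f a)), fun a => e (f a), ?_, hw,
      fun c => ?_⟩
    · rw [orthonormal_iff_ite]
      intro a a'
      rw [real_inner_smul_left, real_inner_smul_right, hin, hw']
      split_ifs with h
      · subst h
        have := (hs a).ne'
        rw [← hss a, Real.sqrt_mul_self (hs a).le]
        field_simp
      · simp
    · have h1 : A (∑ a, c a • (√(l (f a)))⁻¹ • LinearMap.adjoint A (e (f a))) =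
          ∑ a, (c a * √(l (f a))) • e (f a) := by
        rw [map_sum]
        refine sum_congr rfl fun a _ => ?_
        rw [map_smul, map_smul, he, smul_smul, smul_smul]
        have := (hs a).ne'
        have h2 : c a * (√(l (f a)))⁻¹ * l (f a) = c a * √(l (f a)) := by
          rw [mul_assoc, inv_mul_eq_div, Real.div_sqrt]
        rw [h2]
      rw [h1, hw.inner_sum, mul_sum]
      refine sum_le_sum fun a _ => ?_
      have h3 : b ≤ √(l (f a)) := Real.le_sqrt_of_sq_le (hf a).le
      simp only [conj_trivial]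
      nlinarith [sq_nonneg (c a)]
  · right
    obtain ⟨G, dG, hG⟩ := coord_sub e (univ.filter fun i => ¬ b ^ 2 < l i)
    have hc := card_filter_add_card_filter_not (s := univ) fun i => b ^ 2 < l i
    rw [card_univ, Fintype.card_fin] at hc
    refine ⟨G, by omega, fun y hy => ?_⟩
    have h1 : ‖LinearMap.adjoint A y‖ ^ 2 = ∑ i, l i * ‖inner ℝ (e i) y‖ ^ 2 := by
      rw [← real_inner_self_eq_norm_sq, LinearMap.adjoint_inner_left,
        ← e.sum_inner_mul_inner y]
      refine sum_congr rfl fun i _ => ?_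
      rw [← LinearMap.adjoint_inner_left, LinearMap.adjoint_inner_right, he, real_inner_smul_left,
        real_inner_comm (e i) y, Real.norm_eq_abs, sq_abs]
      ring
    have h2 := sum_le_of e l (b ^ 2) y fun i hi => hG y hy i (by simpa using hi)
    refine le_of_sq_le_sq ?_ (mul_nonneg hb (norm_nonneg _))
    rw [h1, mul_pow]
    exact h2

theorem chain_g0 (T : W →ₗ[ℝ] W) {k : ℕ} (hM : ¬ Mix k T) (Gp Gm : Submodule ℝ W)
    (h1 : 4 * k ≤ finrank ℝ Gp) (h2 : 4 * k ≤ finrank ℝ Gm)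
    (qp : ∀ x ∈ Gp, (1 / 2) * ‖x‖ ^ 2 ≤ inner ℝ x (T x))
    (qm : ∀ x ∈ Gm, inner ℝ x (T x) ≤ (1 / 2) * ‖x‖ ^ 2) :
    ∃ Z : Submodule ℝ W, finrank ℝ W < finrank ℝ Z + 8 * k ∧
      ∀ x ∈ Z, (1 / 5) * ‖x‖ ^ 2 ≤ inner ℝ x (T x - T (T x)) := by
  have hS : (T + LinearMap.adjoint T - LinearMap.id : W →ₗ[ℝ] W).IsSymmetric := by
    intro x y
    simp only [LinearMap.sub_apply, LinearMap.add_apply, LinearMap.id_apply, inner_sub_left,
      inner_add_left, inner_sub_right, inner_add_right, LinearMap.adjoint_inner_left,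
      LinearMap.adjoint_inner_right]
    ring
  have hQ : ∀ x, RCLike.re (inner ℝ x ((T + LinearMap.adjoint T - LinearMap.id : W →ₗ[ℝ] W) x)) =
      2 * inner ℝ x (T x) - ‖x‖ ^ 2 := by
    intro x
    rw [LinearMap.sub_apply, LinearMap.add_apply, LinearMap.id_apply, inner_sub_right,
      inner_add_right, map_sub, map_add, chain_adj, inner_self_eq_norm_sq, RCLike.re_to_real]
    ring
  obtain ⟨P2, Z, N2, hdim, q1, q2, q3⟩ := spec3 _ hS (t := 2 / 5) (by norm_num)
  have hP2 : finrank ℝ P2 < 4 * k := by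
    by_contra hc
    refine hM (spread T P2 Gm (not_lt.1 hc) h2 (a := 7 / 10) (b := 1 / 2) (by norm_num)
      (fun x hx => ?_) qm)
    have := q1 x hx
    rw [hQ] at this
    rw [RCLike.re_to_real]
    linarith
  have hN2 : finrank ℝ N2 < 4 * k := by
    by_contra hc
    refine hM (spread T Gp N2 h1 (not_lt.1 hc) (a := 1 / 2) (b := 3 / 10) (by norm_num) qp
      fun x hx => ?_)
    have := q3 x hx
    rw [hQ] at this
    rw [RCLike.re_to_real]
    linarith
  exact ⟨Z, by omega, fun x hx => chain_sq T x (q2 x hx)⟩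

end Pool.Agent.P.MP_f511bc_an.Nf
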