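import Pool.Agent.P.MP_f511bc_an.Nf.Defs
import Pool.Agent.P.MP_f511bc_an.Nf.SVA

/-! Singular values. -/

open Finset Module Filter Topology MeasureTheory ProbabilityTheory

universe u

namespace Pool.Agent.P.MP_f511bc_an.Nf

open Pool.Agent.P.MP_f511bc_an.Nb

variable {H : Type*} [NormedAddCommGroup H] [InnerProductSpace ℝ H]

theorem sv_H (X X' : Submodule ℝ H) [FiniteDimensional ℝ X] [FiniteDimensional ℝ X']
    (ho : ∀ x ∈ X, ∀ y ∈ X', inner ℝ x y = 0) (A : H →ₗ[ℝ] H) (κ : ℕ) {b : ℝ} (hb : 0 < b)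
    (h : ¬ PMix X X' κ b A) :
    ∃ G ≤ X', finrank ℝ X' ≤ finrank ℝ G + κ ∧
      ∀ y ∈ G, ∀ x ∈ X, inner ℝ (A x) y ≤ b * ‖x‖ * ‖y‖ := by
  obtain ⟨A', hA⟩ : ∃ A' : X →ₗ[ℝ] X', ∀ (x : X) (y : X'),
      inner ℝ (A' x) y = inner ℝ (A x) (y : H) :=
    ⟨(X'.orthogonalProjectionOnto : H →ₗ[ℝ] X') ∘ₗ A ∘ₗ X.subtype, fun x y =>
      Submodule.inner_orthogonalProjectionOnto_eq_of_mem_right y (A x)⟩
  rcases sv A' κ hb.le with ⟨v, w, hv, hw, hc⟩ | ⟨G, dG, hG⟩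
  · refine (h ⟨fun a => v a, fun a => w a, X.subtypeₗᵢ.orthonormal_comp_iff.2 hv,
      X'.subtypeₗᵢ.orthonormal_comp_iff.2 hw, fun a => (v a).2, fun a => (w a).2,
      fun a a' => ho _ (v a).2 _ (w a').2, fun c => ?_⟩).elim
    have h1 := hc c
    rw [hA] at h1
    simpa only [Submodule.coe_sum, Submodule.coe_smul] using h1
  · refine ⟨G.map X'.subtype, X'.map_subtype_le G, ?_, ?_⟩
    · rw [Submodule.finrank_map_subtype_eq]
      exact dG.le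
    · rintro _ ⟨y, hy, rfl⟩ x hx
      have h1 := hA ⟨x, hx⟩ y
      have h2 := real_inner_le_norm (⟨x, hx⟩ : X) (LinearMap.adjoint A' y)
      rw [LinearMap.adjoint_inner_right, h1] at h2
      have h3 := mul_le_mul_of_nonneg_left (hG y hy) (norm_nonneg (⟨x, hx⟩ : X))
      have h4 : ‖(⟨x, hx⟩ : X)‖ = ‖x‖ := rfl
      have h5 : ‖X'.subtype y‖ = ‖y‖ := rfl
      rw [h4] at h2 h3
      rw [h5]
      exact h2.trans (h3.trans_eq (by ring))

end Pool.Agent.P.MP_f511bc_an.Nf
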