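import Pool.Agent.P.MP_f511bc_an.Nb.Proj

/-! The initial sum projections of a decomposition into finite-dimensional subspaces. -/

open Finset Module Filter Topology

namespace Pool.Agent.P.MP_f511bc_an.Nf

variable {E : Type*} [NormedAddCommGroup E] [NormedSpace ℝ E] [CompleteSpace E]

theorem side_fdd (F : ℕ → Submodule ℝ E) (hf : ∀ i, FiniteDimensional ℝ (F i))
    (hF : ∀ y : E, ∃! c : ∀ i, F i, Tendsto (fun n => ∑ i ∈ range n, (c i : E)) atTop (𝓝 y)) :
    ∃ P : ℕ → E →L[ℝ] E, (∀ i y, P i (P i y) = P i y) ∧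
      (∀ i, FiniteDimensional ℝ (LinearMap.range (P i : E →ₗ[ℝ] E))) ∧
      ∀ y, Tendsto (fun i => P i y) atTop (𝓝 y) := by
  let X : Submodule ℝ C(OnePoint ℕ, E) :=
    { carrier := {s | s ((0 : ℕ) : OnePoint ℕ) = 0 ∧
        ∀ n : ℕ, s ((n + 1 : ℕ) : OnePoint ℕ) - s (n : OnePoint ℕ) ∈ F n}
      add_mem' := fun {a b} ha hb => ⟨by simp [ha.1, hb.1], fun n => by
        have := (F n).add_mem (ha.2 n) (hb.2 n)
        simp only [ContinuousMap.add_apply]
        convert this using 1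
        abel⟩
      zero_mem' := ⟨rfl, fun n => by simp⟩
      smul_mem' := fun c a ha => ⟨by simp [ha.1], fun n => by
        have := (F n).smul_mem c (ha.2 n)
        simpa only [ContinuousMap.smul_apply, smul_sub] using this⟩ }
  have hX : IsClosed (X : Set C(OnePoint ℕ, E)) := by
    have e : (X : Set C(OnePoint ℕ, E)) = {s | s ((0 : ℕ) : OnePoint ℕ) = 0} ∩
        ⋂ n : ℕ, (fun s : C(OnePoint ℕ, E) =>
          s ((n + 1 : ℕ) : OnePoint ℕ) - s (n : OnePoint ℕ)) ⁻¹' (F n : Set E) := by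
      ext s
      simp only [Set.mem_inter_iff, Set.mem_iInter, Set.mem_preimage, SetLike.mem_coe]
      rfl
    rw [e]
    refine (isClosed_eq (by fun_prop) continuous_const).inter (isClosed_iInter fun n => ?_)
    exact (F n).closed_of_finiteDimensional.preimage (by fun_prop)
  have : CompleteSpace X := hX.completeSpace_coe
  let ev : OnePoint ℕ → X →L[ℝ] E := fun p => (ContinuousMap.evalCLM ℝ p).comp X.subtypeL
  have hev : ∀ p (s : X), ev p s = (s : C(OnePoint ℕ, E)) p := fun _ _ => rfl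
  have hsum : ∀ (s : X) (n : ℕ), ∑ i ∈ range n, (ev ((i + 1 : ℕ) : OnePoint ℕ) s - ev (i : ℕ) s) =
      ev (n : ℕ) s := fun s n => by
    rw [sum_range_sub (fun i : ℕ => ev (i : OnePoint ℕ) s), hev ((0 : ℕ) : OnePoint ℕ), s.2.1,
      sub_zero]
  have hlim : ∀ s : X, Tendsto (fun n : ℕ => ev n s) atTop (𝓝 (ev OnePoint.infty s)) := fun s =>
    (OnePoint.continuous_iff_from_nat _).1 (s : C(OnePoint ℕ, E)).continuous
  have hmk : ∀ (c : ∀ i, F i) (y : E),
      Tendsto (fun n => ∑ i ∈ range n, (c i : E)) atTop (𝓝 y) →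
      ∃ s : X, ev OnePoint.infty s = y ∧ ∀ n : ℕ, ev n s = ∑ i ∈ range n, (c i : E) :=
    fun c y h => ⟨⟨OnePoint.continuousMapMkNat _ y h, rfl, fun n => by
      change ∑ i ∈ range (n + 1), (c i : E) - ∑ i ∈ range n, (c i : E) ∈ F n
      rw [sum_range_succ, add_sub_cancel_left]
      exact (c n).2⟩, rfl, fun _ => rfl⟩
  have hinj : ∀ s s' : X, ev OnePoint.infty s = ev OnePoint.infty s' → s = s' := by
    intro s s' h
    have h1 : ∀ s : X, Tendsto (fun n => ∑ i ∈ range n,
        ((⟨_, s.2.2 i⟩ : F i) : E)) atTop (𝓝 (ev OnePoint.infty s)) := fun s =>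
      (hlim s).congr fun n => (hsum s n).symm
    have h2 := (hF _).unique (h1 s) (h ▸ h1 s')
    ext p
    induction p using OnePoint.rec with
    | infty => exact h
    | coe n =>
      rw [← hev, ← hev, ← hsum, ← hsum]
      exact sum_congr rfl fun i _ => congrArg Subtype.val (congrFun h2 i)
  let L : X ≃L[ℝ] E := ContinuousLinearEquiv.ofBijective (ev OnePoint.infty)
    (LinearMap.ker_eq_bot.2 hinj) (LinearMap.range_eq_top.2 fun y => by
      obtain ⟨c, hc, -⟩ := hF y
      obtain ⟨s, hs, -⟩ := hmk c y hc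
      exact ⟨s, hs⟩)
  have hL : ∀ s, L s = ev OnePoint.infty s := fun _ => rfl
  refine ⟨fun n => (ev n).comp (L.symm : E →L[ℝ] X), fun n y => ?_, fun n => ?_, fun y => ?_⟩
  · obtain ⟨s, rfl⟩ := L.surjective y
    have hc : ∀ m, n ≤ m → ∑ i ∈ range m, ((if i < n then ⟨_, s.2.2 i⟩ else 0 : F i) : E) =
        ev n s := fun m hm => by
      rw [← hsum s n, ← sum_subset (range_mono hm) fun i _ hi => by
        rw [if_neg (by simpa using hi)]; rfl]
      exact sum_congr rfl fun i hi => by rw [if_pos (mem_range.1 hi)]; rfl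
    obtain ⟨s', h1, h2⟩ := hmk (fun i => if i < n then ⟨_, s.2.2 i⟩ else 0) (ev n s)
      (tendsto_const_nhds.congr' ((eventually_ge_atTop n).mono fun m hm => (hc m hm).symm))
    change ev n (L.symm (ev n (L.symm (L s)))) = ev n (L.symm (L s))
    rw [L.symm_apply_apply, ← h1, ← hL, L.symm_apply_apply, h2, hc n le_rfl, hL, h1]
  · refine Submodule.finiteDimensional_of_le (S₂ := (range n).sup F) ?_
    rintro _ ⟨y, rfl⟩
    change ev n (L.symm y) ∈ _
    rw [← hsum]
    exact Submodule.sum_mem _ fun i hi => (le_sup (f := F) hi) ((L.symm y).2.2 i)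
  · have := hlim (L.symm y)
    rwa [← hL, L.apply_symm_apply] at this

theorem side_basis (x : ℕ → E) (hx : ∀ y : E, ∃! α : ℕ → ℝ,
      Tendsto (fun n => ∑ i ∈ range n, α i • x i) atTop (𝓝 y)) :
    ∃ P : ℕ → E →L[ℝ] E, (∀ i y, P i (P i y) = P i y) ∧
      (∀ i, FiniteDimensional ℝ (LinearMap.range (P i : E →ₗ[ℝ] E))) ∧
      ∀ y, Tendsto (fun i => P i y) atTop (𝓝 y) := by
  obtain ⟨P, g, -, -, h0, h1, h2, h3, -⟩ := Nb.projs x hx
  refine ⟨P, h2, fun n => ?_, h3⟩
  refine Submodule.finiteDimensional_of_le (S₂ := (range n).sup fun i => ℝ ∙ x i) ?_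
  rintro _ ⟨y, rfl⟩
  change P n y ∈ _
  induction n with
  | zero => simp [h0]
  | succ n ih =>
    rw [h1, range_add_one, sup_insert]
    exact Submodule.add_mem _ (Submodule.mem_sup_right ih)
      (Submodule.mem_sup_left (Submodule.smul_mem _ _ (Submodule.mem_span_singleton_self _)))

end Pool.Agent.P.MP_f511bc_an.Nf
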