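import Pool.Agent.P.MP_f511bc_an.Nf.BasicB

/-! The space. -/

open Finset Module Filter Topology MeasureTheory ProbabilityTheory

universe u

namespace Pool.Agent.P.MP_f511bc_an.Nf

open Pool.Agent.P.MP_f511bc_an.Nb

section

variable {H : Type} [NormedAddCommGroup H] [InnerProductSpace ℝ H]

/-- The values of the family `l` at a vector. -/
noncomputable def spPhi (u : ∀ l, Fin (NN l) → H) (l : ℕ) : H →L[ℝ] (Fin (NN l) → ℝ) :=
  ContinuousLinearMap.pi fun j => (l : ℝ) • innerSL ℝ (u l j)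

theorem sp_norm_phi (u : ∀ l, Fin (NN l) → H) (l : ℕ) (x : H) : ‖spPhi u l x‖ = pp u l x := rfl

/-- The ambient product. -/
abbrev SpAmb (H : Type) : Type := WithLp 2 (H × lp (fun l : ℕ => Fin (NN l) → ℝ) 2)

/-- The graph of the maps `spPhi u l`. -/
def spGr (u : ∀ l, Fin (NN l) → H) : Submodule ℝ (SpAmb H) where
  carrier := {z | ∀ l, z.snd l = spPhi u l z.fst}
  add_mem' := fun {z w} hz hw l => by
    rw [WithLp.add_snd, WithLp.add_fst, lp.coeFn_add, Pi.add_apply, hz l, hw l, map_add]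
  zero_mem' := fun l => by
    rw [WithLp.zero_snd, WithLp.zero_fst, lp.coeFn_zero, Pi.zero_apply, map_zero]
  smul_mem' := fun c z hz l => by
    rw [WithLp.smul_snd, WithLp.smul_fst, lp.coeFn_smul, Pi.smul_apply, hz l, map_smul]

theorem sp_closed (u : ∀ l, Fin (NN l) → H) : IsClosed (spGr u : Set (SpAmb H)) := by
  have h : (spGr u : Set (SpAmb H)) = ⋂ l, {z : SpAmb H | z.snd l = spPhi u l z.fst} := by
    ext z
    rw [Set.mem_iInter]
    rfl
  rw [h]
  exact isClosed_iInter fun l => isClosed_eq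
    (((lp.evalCLM ℝ (fun l : ℕ => Fin (NN l) → ℝ) 2 l).continuous).comp
      (WithLp.continuous_snd 2 _ _))
    ((spPhi u l).continuous.comp (WithLp.continuous_fst 2 _ _))

theorem sp_sum (u : ∀ l, Fin (NN l) → H) (z : spGr u) :
    HasSum (fun l => pp u l z.1.fst ^ 2) (‖z.1.snd‖ ^ 2) := by
  have h := lp.hasSum_norm (p := 2) (by norm_num) z.1.snd
  have h2 : ∀ l, z.1.snd l = spPhi u l z.1.fst := z.2
  simp only [h2, sp_norm_phi] at h
  simpa using h

theorem sp_norm (u : ∀ l, Fin (NN l) → H) (z : spGr u) :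
    ‖z‖ ^ 2 = ‖z.1.fst‖ ^ 2 + ∑' l, pp u l z.1.fst ^ 2 := by
  rw [(sp_sum u z).tsum_eq]
  exact WithLp.prod_norm_sq_eq_of_L2 z.1

/-- The first coordinate. -/
noncomputable def spFst (u : ∀ l, Fin (NN l) → H) : spGr u →L[ℝ] H :=
  LinearMap.mkContinuous
    { toFun := fun z => z.1.fst
      map_add' := fun _ _ => rfl
      map_smul' := fun _ _ => rfl } 1 fun z => by
    rw [one_mul]
    refine le_of_sq_le_sq ?_ (norm_nonneg _)
    rw [sp_norm]
    exact le_add_of_nonneg_right (tsum_nonneg fun l => sq_nonneg _)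

theorem sp_inj (u : ∀ l, Fin (NN l) → H) : Function.Injective (spFst u) := by
  intro z w h
  have h1 : z.1.fst = w.1.fst := h
  have h2 : z.1.snd = w.1.snd := lp.ext (funext fun l => by rw [z.2 l, w.2 l, h1])
  exact Subtype.ext (WithLp.ofLp_injective 2 (Prod.ext h1 h2))

theorem sp_ex (u : ∀ l, Fin (NN l) → H) (x : H) (h : Summable fun l => pp u l x ^ 2) :
    ∃ z : spGr u, spFst u z = x := by
  have hm : Memℓp (fun l => spPhi u l x) 2 := by
    refine (memℓp_gen_iff (by norm_num)).2 ?_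
    simpa [sp_norm_phi] using h
  exact ⟨⟨WithLp.toLp 2 (x, ⟨fun l => spPhi u l x, hm⟩), fun _ => rfl⟩, rfl⟩

variable {B : Blocks H} {u : ∀ l, Fin (NN l) → H}

theorem sp_norm_fin (h : Loc B u) {R : ℕ} (z : spGr u) (hz : spFst u z ∈ B.S 0 R) :
    ‖z‖ = nE u R (spFst u z) := by
  refine (sq_eq_sq₀ (norm_nonneg _) (nE_nonneg _ _)).1 ?_
  rw [sp_norm, nE_sq, tsum_eq_sum (s := range R)]
  · rfl
  · intro l hl
    have : pp u l z.1.fst = 0 := pp_eq_zero h hz (Or.inr (by simpa using hl))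
    rw [this]
    simp

theorem sp_inc (h : Loc B u) (R : ℕ) :
    ∃ I : H →L[ℝ] spGr u, ∀ x, spFst u (I x) = B.pr 0 R x := by
  have h1 : ∀ x, ∃ z : spGr u, spFst u z = B.pr 0 R x := fun x =>
    sp_ex u _ (summable_of_ne_finset_zero (s := range R) fun l hl => by
      rw [pp_eq_zero h (pr_mem B 0 R x) (Or.inr (by simpa using hl))]
      simp)
  choose f hf using h1
  let A : H →ₗ[ℝ] spGr u :=
    { toFun := f
      map_add' := fun x y => sp_inj u (by rw [map_add, hf, hf, hf, map_add])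
      map_smul' := fun c x => sp_inj u (by rw [map_smul, hf, hf, map_smul]; rfl) }
  refine ⟨A.mkContinuous (3 * (R + 1)) fun x => ?_, hf⟩
  have h2 : ‖f x‖ = nE u R (spFst u (f x)) := sp_norm_fin h _ (by rw [hf]; exact pr_mem B 0 R x)
  rw [hf] at h2
  refine h2.le.trans ((nE_le h R (pr_mem B 0 R x)).trans ?_)
  exact mul_le_mul_of_nonneg_left (norm_pr_le B 0 R x) (by positivity)

theorem sp_near (h : Loc B u) (l : ℕ) (x y : H) {t o : ℝ}
    (e : ‖B.pr l (l + 2) y - t • B.pr l (l + 2) x‖ ≤ o * ‖B.pr l (l + 2) x‖) :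
    pp u l y ≤ |t| * pp u l x + l * o * ‖B.pr l (l + 2) x‖ ∧
      pp u l (x - y) ≤ |1 - t| * pp u l x + l * o * ‖B.pr l (l + 2) x‖ := by
  have h1 : pp u l (y - t • x) ≤ l * o * ‖B.pr l (l + 2) x‖ := by
    refine (pp_le_pr h l _).trans ?_
    rw [map_sub, map_smul, mul_assoc]
    exact mul_le_mul_of_nonneg_left e (Nat.cast_nonneg l)
  constructor
  · have h2 := pp_add_le (u := u) l (t • x) (y - t • x)
    rw [add_sub_cancel, pp_smul] at h2
    linarith
  · have h2 := pp_add_le (u := u) l ((1 - t) • x) ((-1 : ℝ) • (y - t • x))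
    rw [pp_smul, pp_smul, abs_neg, abs_one, one_mul,
      show (1 - t) • x + (-1 : ℝ) • (y - t • x) = x - y by module] at h2
    linarith

theorem sp_sq {p q s t c w : ℝ} (hp : 0 ≤ p) (hq : 0 ≤ q) (hw : 0 ≤ w) (h : p ≤ t * q + s * w)
    (ht : t ≤ 1) (hs : s ≤ c) : p ^ 2 ≤ 2 * q ^ 2 + 2 * c ^ 2 * w ^ 2 := by
  have h1 : p ≤ q + c * w := by nlinarith
  have h2 := pow_le_pow_left₀ hp h1 2
  nlinarith [sq_nonneg (q - c * w)]

end

theorem exists_model {H : Type} [NormedAddCommGroup H] [InnerProductSpace ℝ H] [CompleteSpace H]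
    {B : Blocks H} {u : ∀ l, Fin (NN l) → H} (h : Loc B u) {m : ℕ → H →L[ℝ] H} (hm : Ramp B m) :
    ∃ (E : Type) (_ : NormedAddCommGroup E) (_ : NormedSpace ℝ E), CompleteSpace E ∧
      Nonempty (Model B u m E) := by
  choose I hI using sp_inc h
  choose R hR using hm.fin
  obtain ⟨c, τ, o, hτ, ho, lτ, lo, e⟩ := hm.loc
  have hc : 0 ≤ c := by simpa using (ho 0 0).2
  have hf : ∀ r y, spFst u (I (R r) (m r (spFst u y))) = m r (spFst u y) := fun r y => by
    rw [hI]
    exact (mem_S B).1 (hR r _)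
  have hw : ∀ x : H, Summable fun l => ‖B.pr l (l + 2) x‖ ^ 2 := fun x =>
    summable_of_sum_le (fun l => sq_nonneg _) fun A => sum_pair_le B A x
  have hb : ∀ y : spGr u, Summable fun l =>
      2 * pp u l (spFst u y) ^ 2 + 2 * c ^ 2 * ‖B.pr l (l + 2) (spFst u y)‖ ^ 2 := fun y =>
    ((sp_sum u y).summable.mul_left 2).add ((hw _).mul_left _)
  have a1 : ∀ r l, |τ r l| ≤ 1 := fun r l => by
    rw [abs_of_nonneg (hτ r l).1]
    exact (hτ r l).2
  have a2 : ∀ r l, |1 - τ r l| ≤ 1 := fun r l => by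
    rw [abs_of_nonneg (sub_nonneg.2 (hτ r l).2)]
    linarith [(hτ r l).1]
  refine ⟨spGr u, inferInstance, inferInstance, (sp_closed u).completeSpace_coe,
    ⟨⟨spFst u, I, fun r => (I (R r)).comp ((m r).comp (spFst u)), 2 + 2 * c, by linarith,
      sp_inj u, hI, fun R x hx => ?_, hf, fun r y => ?_, fun y => ?_⟩⟩⟩
  · have h1 : spFst u (I R x) = x := by
      rw [hI]
      exact (mem_S B).1 hx
    rw [sp_norm_fin h (R := R) _ (by rw [h1]; exact hx), h1]
  · refine le_of_sq_le_sq ?_ (by positivity)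
    have n1 : ‖I (R r) (m r (spFst u y))‖ ^ 2 =
        ‖m r (spFst u y)‖ ^ 2 + ∑' l, pp u l (m r (spFst u y)) ^ 2 := by
      have g : (I (R r) (m r (spFst u y))).1.fst = m r (spFst u y) := hf r y
      rw [sp_norm, g]
    have s1 : Summable fun l => pp u l (m r (spFst u y)) ^ 2 := by
      have g : (I (R r) (m r (spFst u y))).1.fst = m r (spFst u y) := hf r y
      have g2 := (sp_sum u (I (R r) (m r (spFst u y)))).summable
      rwa [g] at g2
    have n2 : ‖y‖ ^ 2 = ‖spFst u y‖ ^ 2 + ∑' l, pp u l (spFst u y) ^ 2 := sp_norm u y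
    have s2 : Summable fun l => pp u l (spFst u y) ^ 2 := (sp_sum u y).summable
    have h1 := s1.tsum_le_tsum (fun l => sp_sq (pp_nonneg l _) (pp_nonneg l _) (norm_nonneg _)
      (sp_near h l _ _ (e r l (spFst u y))).1 (a1 r l) (ho r l).2) (hb y)
    rw [(s2.mul_left 2).tsum_add ((hw _).mul_left _), tsum_mul_left, tsum_mul_left] at h1
    have h2 : ∑' l, ‖B.pr l (l + 2) (spFst u y)‖ ^ 2 ≤ 2 * ‖spFst u y‖ ^ 2 :=
      (hw _).tsum_le_of_sum_le fun A => sum_pair_le B A _
    have h3 := pow_le_pow_left₀ (norm_nonneg _) (hm.le r (spFst u y)) 2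
    have h4 : 0 ≤ ∑' l, pp u l (spFst u y) ^ 2 := tsum_nonneg fun l => sq_nonneg _
    have h5 := mul_le_mul_of_nonneg_left h2 (by positivity : 0 ≤ 2 * c ^ 2)
    have h6 : 0 ≤ ‖spFst u y‖ ^ 2 := sq_nonneg _
    show ‖I (R r) (m r (spFst u y))‖ ^ 2 ≤ _
    rw [mul_pow, n1, n2]
    nlinarith [mul_nonneg hc h4, mul_nonneg hc h6, mul_nonneg (sq_nonneg c) h4]
  · have n1 : ∀ r, ‖y - I (R r) (m r (spFst u y))‖ ^ 2 = ‖spFst u y - m r (spFst u y)‖ ^ 2 +
        ∑' l, pp u l (spFst u y - m r (spFst u y)) ^ 2 := by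
      intro r
      have : spFst u (y - I (R r) (m r (spFst u y))) = spFst u y - m r (spFst u y) := by
        rw [map_sub, hf]
      rw [sp_norm, ← this]
      rfl
    have t1 : Tendsto (fun r => ‖spFst u y - m r (spFst u y)‖ ^ 2) atTop (𝓝 0) := by
      have := (((tendsto_const_nhds (x := spFst u y)).sub (hm.lim (spFst u y))).norm).pow 2
      simpa using this
    have t2 : Tendsto (fun r => ∑' l, pp u l (spFst u y - m r (spFst u y)) ^ 2) atTop
        (𝓝 (∑' _l : ℕ, (0 : ℝ))) := by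
      refine tendsto_tsum_of_dominated_convergence (hb y) (fun l => ?_)
        (Eventually.of_forall fun r l => ?_)
      · have g1 := ((((tendsto_const_nhds (x := (1 : ℝ))).sub (lτ l)).abs.mul_const
          (pp u l (spFst u y))).add (((lo l).const_mul (l : ℝ)).mul_const
            ‖B.pr l (l + 2) (spFst u y)‖))
        simp only [sub_self, abs_zero, zero_mul, mul_zero, add_zero] at g1
        have g2 := (squeeze_zero (fun r => pp_nonneg l _)
          (fun r => (sp_near h l _ _ (e r l (spFst u y))).2) g1).pow 2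
        simpa using g2
      · rw [Real.norm_eq_abs, abs_of_nonneg (sq_nonneg _)]
        exact sp_sq (pp_nonneg l _) (pp_nonneg l _) (norm_nonneg _)
          (sp_near h l _ _ (e r l (spFst u y))).2 (a2 r l) (ho r l).2
    have t3 : Tendsto (fun r => ‖y - I (R r) (m r (spFst u y))‖ ^ 2) atTop (𝓝 0) := by
      have := t1.add t2
      simp only [tsum_zero, add_zero] at this
      exact this.congr fun r => (n1 r).symm
    have t4 := t3.sqrt
    simp only [Real.sqrt_sq (norm_nonneg _), Real.sqrt_zero] at t4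
    exact tendsto_iff_norm_sub_tendsto_zero.2 (t4.congr fun r => norm_sub_rev _ _)

end Pool.Agent.P.MP_f511bc_an.Nf
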