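import Pool.Agent.P.MP_f511bc_an.Nf.Defs
import Pool.Agent.P.MP_f511bc_an.Nf.SVA

/-! The compression of an operator that is not mixing. -/

open Finset Module Filter Topology MeasureTheory ProbabilityTheory

universe u

namespace Pool.Agent.P.MP_f511bc_an.Nf

open Pool.Agent.P.MP_f511bc_an.Nb

variable {H : Type*} [NormedAddCommGroup H] [InnerProductSpace ℝ H]

theorem step (W : Submodule ℝ H) [FiniteDimensional ℝ W] (q P : H →ₗ[ℝ] H) (hq : ∀ x, q x ∈ W)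
    (hq' : ∀ y ∈ W, ∀ x, inner ℝ y (q x) = inner ℝ y x) {κ : ℕ} (Xp Xm : Submodule ℝ H)
    (hp : Xp ≤ W) (hm : Xm ≤ W) (dp : 4 * κ ≤ finrank ℝ Xp) (dm : 4 * κ ≤ finrank ℝ Xm)
    (qp : ∀ x ∈ Xp, 1 / 2 * ‖x‖ ^ 2 ≤ inner ℝ x (P x))
    (qm : ∀ x ∈ Xm, inner ℝ x (P x) ≤ 1 / 2 * ‖x‖ ^ 2) (h : ¬ PMix W W κ (1 / 10) P) :
    ∃ G ≤ W, finrank ℝ W ≤ finrank ℝ G + 8 * κ ∧
      ∀ x ∈ G, 1 / 5 * ‖x‖ ^ 2 ≤ inner ℝ x (P x) - inner ℝ x (P (q (P x))) := by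
  obtain ⟨T, hT⟩ : ∃ T : W →ₗ[ℝ] W, ∀ x : W, (T x : H) = q (P x) :=
    ⟨(q ∘ₗ P ∘ₗ W.subtype).codRestrict W fun x => hq _, fun x => rfl⟩
  have hI : ∀ y x : W, inner ℝ y (T x) = inner ℝ (y : H) (P x) := fun y x => by
    rw [Submodule.coe_inner, hT, hq' _ y.2]
  have hM : ¬ Mix κ T := by
    rintro ⟨v, w, hv, hw, ho, hc⟩
    refine h ⟨fun a => w a, fun a => v a, W.subtypeₗᵢ.orthonormal_comp_iff.2 hw,
      W.subtypeₗᵢ.orthonormal_comp_iff.2 hv, fun a => (w a).2, fun a => (v a).2,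
      fun a a' => ?_, fun c => ?_⟩
    · rw [real_inner_comm]
      exact ho a' a
    · have h1 := hc c
      rw [RCLike.re_to_real, hI, real_inner_comm] at h1
      simpa only [Submodule.coe_sum, Submodule.coe_smul, RCLike.ofReal_real_eq_id, id] using h1
  obtain ⟨Z, dZ, hZ⟩ := chain_g0 T hM (Xp.comap W.subtype) (Xm.comap W.subtype)
    (by rwa [(Submodule.comapSubtypeEquivOfLe hp).finrank_eq])
    (by rwa [(Submodule.comapSubtypeEquivOfLe hm).finrank_eq])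
    (fun x hx => by rw [hI]; exact qp x hx) fun x hx => by rw [hI]; exact qm x hx
  refine ⟨Z.map W.subtype, W.map_subtype_le Z, ?_, ?_⟩
  · rw [Submodule.finrank_map_subtype_eq]
    exact dZ.le
  · rintro _ ⟨x, hx, rfl⟩
    have h1 := hZ x hx
    rw [inner_sub_right, hI, hI, hT] at h1
    exact h1

theorem sign_sub (W : Submodule ℝ H) [FiniteDimensional ℝ W] (P : H →ₗ[ℝ] H) :
    ∃ Xp Xm : Submodule ℝ H, Xp ≤ W ∧ Xm ≤ W ∧ finrank ℝ Xp + finrank ℝ Xm = finrank ℝ W ∧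
      (∀ x ∈ Xp, 1 / 2 * ‖x‖ ^ 2 ≤ inner ℝ x (P x)) ∧
      ∀ x ∈ Xm, inner ℝ x (P x) ≤ 1 / 2 * ‖x‖ ^ 2 := by
  obtain ⟨T, hI⟩ : ∃ T : W →ₗ[ℝ] W, ∀ x : W, inner ℝ x (T x) = inner ℝ (x : H) (P x) :=
    ⟨(W.orthogonalProjectionOnto : H →ₗ[ℝ] W) ∘ₗ P ∘ₗ W.subtype, fun x =>
      Submodule.inner_orthogonalProjectionOnto_eq_of_mem_left x (P x)⟩
  obtain ⟨Gp, Gm, hd, qp, qm⟩ := sign2 T (1 / 2)
  refine ⟨Gp.map W.subtype, Gm.map W.subtype, W.map_subtype_le Gp, W.map_subtype_le Gm, ?_, ?_, ?_⟩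
  · rw [Submodule.finrank_map_subtype_eq, Submodule.finrank_map_subtype_eq]
    exact hd
  · rintro _ ⟨x, hx, rfl⟩
    have h1 := qp x hx
    rw [RCLike.re_to_real, hI] at h1
    exact h1
  · rintro _ ⟨x, hx, rfl⟩
    have h1 := qm x hx
    rw [RCLike.re_to_real, hI] at h1
    exact h1

end Pool.Agent.P.MP_f511bc_an.Nf
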