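import Pool.Agent.P.MP_f511bc_an.Nf.BasicA
import Pool.Agent.P.MP_f511bc_an.Defs

/-! The unit vectors are a Cesaro basis. -/

open Finset Module Filter Topology MeasureTheory ProbabilityTheory

universe u

namespace Pool.Agent.P.MP_f511bc_an.Nf

open Pool.Agent.P.MP_f511bc_an.Nb

theorem tb_row {E : Type*} [AddCommGroup E] [Module ℝ E] (y : ℕ → E) (n : ℕ) :
    ∑ m ∈ range (n + 1), ∑ i ∈ range (m + 1), y i =
      ∑ i ∈ range (n + 1), ((n : ℝ) + 1 - i) • y i := by
  induction n with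
  | zero => simp
  | succ n ih =>
    rw [sum_range_succ, ih, sum_range_succ _ (n + 1), sum_range_succ _ (n + 1), ← add_assoc,
      ← sum_add_distrib]
    have h1 : ∀ i ∈ range (n + 1), ((n : ℝ) + 1 - i) • y i + y i =
        (((n + 1 : ℕ) : ℝ) + 1 - i) • y i := by
      intro i _
      rw [show (((n + 1 : ℕ) : ℝ) + 1 - i) = ((n : ℝ) + 1 - i) + 1 by push_cast; ring, add_smul,
        one_smul]
    rw [sum_congr rfl h1]
    simp

theorem tb_expands {E : Type*} [NormedAddCommGroup E] [NormedSpace ℝ E] (e : ℕ → E) (α : ℕ → ℝ)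
    (y : E) : Expands (fun n m : ℕ => if m ≤ n then (1 : ℝ) / (n + 1) else 0) e α y ↔
      Tendsto (fun n : ℕ => ∑ i ∈ range (n + 1), ((1 - (i : ℝ) / (n + 1)) * α i) • e i) atTop
        (𝓝 y) := by
  have key : ∀ n : ℕ, Tendsto (fun M => ∑ m ∈ range M,
      (if m ≤ n then (1 : ℝ) / (n + 1) else 0) • ∑ i ∈ range (m + 1), α i • e i) atTop
      (𝓝 (∑ i ∈ range (n + 1), ((1 - (i : ℝ) / (n + 1)) * α i) • e i)) := by
    intro n
    refine tendsto_const_nhds.congr' ?_
    filter_upwards [eventually_ge_atTop (n + 1)] with M hM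
    have e1 : ∑ m ∈ range (n + 1), (if m ≤ n then (1 : ℝ) / (n + 1) else 0) •
        ∑ i ∈ range (m + 1), α i • e i = ∑ m ∈ range M, (if m ≤ n then (1 : ℝ) / (n + 1) else 0) •
        ∑ i ∈ range (m + 1), α i • e i :=
      sum_subset (range_subset_range.2 hM) fun m _ hm => by
        rw [if_neg (by simpa using hm), zero_smul]
    have e2 : ∑ m ∈ range (n + 1), (if m ≤ n then (1 : ℝ) / (n + 1) else 0) •
        ∑ i ∈ range (m + 1), α i • e i = ∑ m ∈ range (n + 1), ((1 : ℝ) / (n + 1)) •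
        ∑ i ∈ range (m + 1), α i • e i :=
      sum_congr rfl fun m hm => by rw [if_pos (Nat.lt_succ_iff.1 (mem_range.1 hm))]
    rw [← e1, e2, ← smul_sum, tb_row, smul_sum]
    refine sum_congr rfl fun i _ => ?_
    rw [smul_smul, smul_smul]
    have h1 : (n : ℝ) + 1 ≠ 0 := by positivity
    have h2 : (1 - (i : ℝ) / (n + 1)) * α i = 1 / ((n : ℝ) + 1) * ((n : ℝ) + 1 - i) * α i := by
      field_simp
    rw [h2]
  constructor
  · rintro ⟨σ, h1, h2⟩
    exact h2.congr fun n => tendsto_nhds_unique (h1 n) (key n)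
  · exact fun h => ⟨_, key, h⟩

theorem tb_inner (i : ℕ) (z : L2) : inner ℝ (ee i) z = z i := by
  rw [ee, lp.inner_single_left]
  simp

theorem tb_ee (i j : ℕ) : ee i j = if j = i then 1 else 0 := by
  rw [ee, lp.single_apply, Pi.single_apply]

theorem tb_le_aa (t : ℕ) : t ≤ aa t := by
  have h : ∑ _m ∈ range t, 1 ≤ ∑ m ∈ range t, nn m := sum_le_sum fun m _ => nn_pos m
  simpa [aa] using h

theorem tb_sum (s : Finset ℕ) (i : ℕ) (hi : i ∈ s) : ∑ j ∈ s, ee i j • ee j = ee i := by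
  rw [sum_eq_single_of_mem i hi]
  · rw [tb_ee, if_pos rfl, one_smul]
  · intro j _ hj
    rw [tb_ee, if_neg hj, zero_smul]

theorem tb_ces (r : ℕ) (z : L2) :
    cesOp r z = ∑ i ∈ range (r + 1), ((1 - (i : ℝ) / (r + 1)) * z i) • ee i := by
  rw [cesOp, _root_.sum_apply]
  refine sum_congr rfl fun i _ => ?_
  rw [_root_.smul_apply, ContinuousLinearMap.smulRight_apply, innerSL_apply_apply,
    tb_inner, smul_smul]

theorem tb_lim (i : ℕ) (a : ℝ) :
    Tendsto (fun n : ℕ => (1 - (i : ℝ) / (n + 1)) * a) atTop (𝓝 a) := by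
  have h : Tendsto (fun n : ℕ => (i : ℝ) / (n + 1)) atTop (𝓝 0) :=
    tendsto_const_nhds.div_atTop (tendsto_atTop_add_const_right _ _ tendsto_natCast_atTop_atTop)
  simpa using (h.const_sub 1).mul_const a

theorem tbasis (B : Blocks L2)
    (hB : ∀ (t : ℕ) (x : L2), B.pr 0 t x = ∑ i ∈ range (aa t), x i • ee i)
    {u : ∀ l, Fin (NN l) → L2} {E : Type*} [NormedAddCommGroup E] [NormedSpace ℝ E]
    (M : Model B u cesOp E) :
    ∃ x : ℕ → E, IsTBasis (fun n m : ℕ => if m ≤ n then (1 : ℝ) / (n + 1) else 0) x := by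
  have hx : ∀ i, M.fst (M.inc (i + 1) (ee i)) = ee i := fun i => by
    rw [M.fst_inc, hB]
    exact tb_sum _ i (mem_range.2 ((Nat.lt_succ_self i).trans_le (tb_le_aa _)))
  refine ⟨fun i => M.inc (i + 1) (ee i), fun y => ⟨fun i => M.fst y i, ?_, fun α hα => ?_⟩⟩
  · refine (tb_expands _ _ _).2 ((M.ramp_lim y).congr fun n => M.inj ?_)
    rw [M.fst_ramp, tb_ces, map_sum]
    exact sum_congr rfl fun i _ => by rw [map_smul, hx]
  · funext i
    have h1 := (((innerSL ℝ (ee i)).comp M.fst).continuous.tendsto y).comp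
      ((tb_expands _ _ _).1 hα)
    have h2 : Tendsto (fun n : ℕ => (1 - (i : ℝ) / (n + 1)) * α i) atTop (𝓝 (M.fst y i)) := by
      rw [← tb_inner]
      refine h1.congr' ?_
      filter_upwards [eventually_ge_atTop i] with n hn
      rw [Function.comp_apply, map_sum, sum_eq_single_of_mem i (mem_range.2 (by omega))]
      · rw [map_smul, ContinuousLinearMap.comp_apply, hx, innerSL_apply_apply, tb_inner, tb_ee,
          if_pos rfl, smul_eq_mul, mul_one]
      · intro j _ hj
        rw [map_smul, ContinuousLinearMap.comp_apply, hx, innerSL_apply_apply, tb_inner, tb_ee,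
          if_neg hj.symm, smul_zero]
    exact tendsto_nhds_unique (tb_lim i (α i)) h2

end Pool.Agent.P.MP_f511bc_an.Nf
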