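import Pool.Agent.P.MP_f511bc_an.Nf.BasicB
import Pool.Agent.P.MP_f511bc_an.Nf.Ces
import Pool.Agent.P.MP_f511bc_an.Nf.TB

/-! The unit vectors are a basis for every consistent matrix with entries of harmonic order. -/

open Finset Module Filter Topology MeasureTheory ProbabilityTheory

namespace Pool.Agent.P.MP_f511bc_an.Nf

open Pool.Agent.P.MP_f511bc_an.Nb

section

variable {E : Type*} [NormedAddCommGroup E] [NormedSpace ℝ E]

theorem tbg_zero {ι : Type*} (l : Filter ι) (x : ℕ → E)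
    (hd : ∀ y, y ∈ closure (Submodule.span ℝ (Set.range x) : Set E)) (A : ι → E →L[ℝ] E) {C : ℝ}
    (hC : 0 ≤ C) (hA : ∀ i y, ‖A i y‖ ≤ C * ‖y‖) (hx : ∀ j, Tendsto (fun i => A i (x j)) l (𝓝 0))
    (y : E) : Tendsto (fun i => A i y) l (𝓝 0) := by
  have h1 : ∀ z ∈ Submodule.span ℝ (Set.range x), Tendsto (fun i => A i z) l (𝓝 0) := by
    intro z hz
    induction hz using Submodule.span_induction with
    | mem z hz =>
      obtain ⟨j, rfl⟩ := hz
      exact hx j
    | zero => simpa using tendsto_const_nhds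
    | add z w _ _ hz hw => simpa using hz.add hw
    | smul c z _ hz => simpa using hz.const_smul c
  refine Metric.tendsto_nhds.2 fun ε hε => ?_
  obtain ⟨z, hz, hyz⟩ := Metric.mem_closure_iff.1 (hd y) (ε / 2 / (C + 1)) (by positivity)
  filter_upwards [Metric.tendsto_nhds.1 (h1 z hz) (ε / 2) (by positivity)] with i hi
  rw [dist_zero_right] at hi ⊢
  rw [dist_eq_norm, lt_div_iff₀ (by positivity)] at hyz
  have h2 : A i y = A i z + A i (y - z) := by
    rw [← map_add, add_sub_cancel]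
  have h3 := norm_add_le (A i z) (A i (y - z))
  have h4 := hA i (y - z)
  rw [h2]
  nlinarith [norm_nonneg (y - z)]

theorem tbg_swap (t α : ℕ → ℝ) (x : ℕ → E) (M : ℕ) :
    ∑ m ∈ range M, t m • ∑ i ∈ range (m + 1), α i • x i =
      ∑ i ∈ range M, ((∑ m ∈ Ico i M, t m) * α i) • x i := by
  induction M with
  | zero => simp
  | succ M ih =>
    rw [sum_range_succ, ih, smul_sum, sum_range_succ _ M, sum_range_succ _ M, ← add_assoc,
      ← sum_add_distrib, Nat.Ico_succ_singleton, sum_singleton, smul_smul]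
    refine congrArg (· + (t M * α M) • x M) (sum_congr rfl fun i hi => ?_)
    rw [sum_Ico_succ_top (mem_range.1 hi).le, add_mul, add_smul, smul_smul]

theorem tbg_tail {t : ℕ → ℝ} (ht : Summable t) (i : ℕ) :
    Tendsto (fun M => ∑ m ∈ Ico i M, t m) atTop (𝓝 (∑' m, t m - ∑ m ∈ range i, t m)) := by
  refine (ht.hasSum.tendsto_sum_nat.sub_const _).congr' ?_
  filter_upwards [eventually_ge_atTop i] with M hM
  rw [sum_Ico_eq_sub _ hM]

theorem tbg_abs [CompleteSpace E] (x : ℕ → E) (f : ℕ → E →L[ℝ] ℝ)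
    (hf : ∀ i j, f i (x j) = if i = j then 1 else 0)
    (hd : ∀ y, y ∈ closure (Submodule.span ℝ (Set.range x) : Set E)) {t : ℕ → ℕ → ℝ}
    (ht : Consistent t) {C : ℝ} (hC : 0 ≤ C)
    (hb : ∀ n M y, ‖∑ i ∈ range M, ((∑ m ∈ Ico i M, t n m) * f i y) • x i‖ ≤ C * ‖y‖) :
    IsTBasis t x := by
  obtain ⟨⟨C0, h0⟩, h1, h2⟩ := ht
  have hs : ∀ n, Summable (t n) := fun n => (h0 n).1.of_norm
  have hτ : ∀ i, Tendsto (fun n => ∑' m, t n m - ∑ m ∈ range i, t n m) atTop (𝓝 1) := by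
    intro i
    have := h2.sub (tendsto_finsetSum (range i) fun m _ => h1 m)
    simpa using this
  have hco : ∀ (c : ℕ → ℝ) (M i : ℕ), i < M → f i (∑ j ∈ range M, c j • x j) = c i := by
    intro c M i hi
    rw [map_sum, sum_eq_single_of_mem i (mem_range.2 hi)]
    · rw [map_smul, hf, if_pos rfl, smul_eq_mul, mul_one]
    · intro j _ hj
      rw [map_smul, hf, if_neg hj.symm, smul_zero]
  let A : ℕ → ℕ → E →L[ℝ] E := fun n M =>
    ∑ i ∈ range M, (∑ m ∈ Ico i M, t n m) • (f i).smulRight (x i)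
  have hA : ∀ n M y, A n M y = ∑ i ∈ range M, ((∑ m ∈ Ico i M, t n m) * f i y) • x i := by
    intro n M y
    simp only [A, _root_.sum_apply, _root_.smul_apply, ContinuousLinearMap.smulRight_apply,
      smul_smul]
  have hAx : ∀ n j, Tendsto (fun M => A n M (x j)) atTop
      (𝓝 ((∑' m, t n m - ∑ m ∈ range j, t n m) • x j)) := by
    intro n j
    refine ((tbg_tail (hs n) j).smul_const (x j)).congr' ?_
    filter_upwards [eventually_gt_atTop j] with M hM
    rw [hA, sum_eq_single_of_mem j (mem_range.2 hM)]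
    · rw [hf, if_pos rfl, mul_one]
    · intro i _ hi
      rw [hf, if_neg hi, mul_zero, zero_smul]
  have hlim : ∀ n y, ∃ z, Tendsto (fun M => A n M y) atTop (𝓝 z) := by
    intro n y
    refine cauchySeq_tendsto_of_complete (cauchySeq_iff_tendsto_dist_atTop_0.2 ?_)
    have h := tbg_zero atTop x hd (fun p : ℕ × ℕ => A n p.1 - A n p.2) (C := C + C)
      (by positivity) (fun p y => ?_) (fun j => ?_) y
    · simp only [dist_eq_norm]
      exact tendsto_zero_iff_norm_tendsto_zero.1 h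
    · rw [_root_.sub_apply, add_mul, hA, hA]
      exact (norm_sub_le _ _).trans (add_le_add (hb _ _ _) (hb _ _ _))
    · have h := cauchySeq_iff_tendsto_dist_atTop_0.1 (hAx n j).cauchySeq
      simp only [dist_eq_norm] at h
      exact tendsto_zero_iff_norm_tendsto_zero.2 h
  choose σ hσ using hlim
  have hσb : ∀ n y, ‖σ n y‖ ≤ C * ‖y‖ := fun n y =>
    le_of_tendsto' (hσ n y).norm fun M => by rw [hA]; exact hb n M y
  let S : ℕ → E →L[ℝ] E := fun n => LinearMap.mkContinuous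
    { toFun := σ n
      map_add' := fun y z => tendsto_nhds_unique (hσ n (y + z))
        (((hσ n y).add (hσ n z)).congr fun M => (map_add _ _ _).symm)
      map_smul' := fun c y => tendsto_nhds_unique (hσ n (c • y))
        (((hσ n y).const_smul c).congr fun M => (map_smul _ _ _).symm) } C (hσb n)
  have hS : ∀ n y, S n y = σ n y := fun _ _ => rfl
  have hconv : ∀ y, Tendsto (fun n => σ n y) atTop (𝓝 y) := by
    intro y
    have h := tbg_zero atTop x hd (fun n => S n - ContinuousLinearMap.id ℝ E) (C := C + 1)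
      (by positivity) (fun n y => ?_) (fun j => ?_) y
    · exact tendsto_sub_nhds_zero_iff.1 h
    · rw [_root_.sub_apply, add_mul, one_mul]
      exact (norm_sub_le _ _).trans (add_le_add (hσb n y) le_rfl)
    · have h := (hτ j).smul_const (x j)
      rw [one_smul] at h
      exact tendsto_sub_nhds_zero_iff.2
        (h.congr fun n => tendsto_nhds_unique (hAx n j) (hσ n (x j)))
  refine fun y => ⟨fun i => f i y, ⟨fun n => σ n y, fun n => (hσ n y).congr fun M => ?_, hconv y⟩,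
    fun α hα => ?_⟩
  · rw [hA, tbg_swap]
  · obtain ⟨s, s1, s2⟩ := hα
    funext i
    have e1 : ∀ n, f i (s n) = (∑' m, t n m - ∑ m ∈ range i, t n m) * α i := by
      intro n
      refine tendsto_nhds_unique (((f i).continuous.tendsto _).comp (s1 n))
        (((tbg_tail (hs n) i).mul_const (α i)).congr' ?_)
      filter_upwards [eventually_gt_atTop i] with M hM
      rw [Function.comp_apply, tbg_swap, hco _ M i hM]
    have e2 := (hτ i).mul_const (α i)
    rw [one_mul] at e2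
    exact tendsto_nhds_unique e2 ((((f i).continuous.tendsto _).comp s2).congr e1)

end

theorem tbg_mul (B : Blocks L2)
    (hB : ∀ (t : ℕ) (x : L2), B.pr 0 t x = ∑ i ∈ range (aa t), x i • ee i)
    {u : ∀ l, Fin (NN l) → L2} (h : Loc B u) {τ : ℕ → ℝ} {a c : ℝ} (ha : 0 ≤ a) (hc : 0 ≤ c)
    (h0 : ∀ i, |τ i| ≤ a)
    (h1 : ∀ l i : ℕ, aa l ≤ i → i < aa (l + 2) → (l : ℝ) * |τ i - τ (aa l)| ≤ c) (R : ℕ)
    {z w : L2} (hw : ∀ i, w i = τ i * z i) : nE u R w ≤ (2 * a + 2 * c) * nE u R z := by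
  have p0 : ∀ t (x : L2) j, B.pr 0 t x j = if j < aa t then x j else 0 := fun t x j => by
    rw [hB, ces_sum]
  have p1 : ∀ l (x : L2) j, B.pr l (l + 2) x j =
      if aa l ≤ j ∧ j < aa (l + 2) then x j else 0 := fun l x j => by
    have h : B.pr l (l + 2) x = B.pr 0 (l + 2) x - B.pr 0 l x := by
      rw [eq_sub_iff_add_eq', ← add_apply, Blocks.pr, Blocks.pr, Blocks.pr,
        sum_Ico_consecutive _ (Nat.zero_le _) (Nat.le_add_right _ _)]
    have h2 := ces_aa_mono (Nat.le_add_right l 2)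
    rw [h, lp.coeFn_sub, Pi.sub_apply, p0, p0]
    split_ifs <;> first | omega | simp
  have n1 : ‖w‖ ≤ a * ‖z‖ := ces_norm ha fun j => by
    rw [hw, abs_mul]
    exact mul_le_mul_of_nonneg_right (h0 j) (abs_nonneg _)
  have n2 : ∀ l, pp u l w ^ 2 ≤ 2 * a ^ 2 * pp u l z ^ 2 + 2 * c ^ 2 * ‖B.pr l (l + 2) z‖ ^ 2 := by
    intro l
    have g1 : ‖(l : ℝ) • B.pr l (l + 2) (w - τ (aa l) • z)‖ ≤ c * ‖B.pr l (l + 2) z‖ :=
      ces_norm hc fun j => by
        rw [lp.coeFn_smul, Pi.smul_apply, p1, p1, smul_eq_mul]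
        split_ifs with hj
        · rw [lp.coeFn_sub, Pi.sub_apply, lp.coeFn_smul, Pi.smul_apply, smul_eq_mul, hw, ← sub_mul,
            abs_mul, abs_mul, ← mul_assoc, Nat.abs_cast]
          exact mul_le_mul_of_nonneg_right (h1 l j hj.1 hj.2) (abs_nonneg _)
        · simp
    rw [norm_smul, Real.norm_natCast] at g1
    have g2 := pp_add_le (u := u) l (τ (aa l) • z) (w - τ (aa l) • z)
    rw [add_sub_cancel, pp_smul] at g2
    have g3 := pp_le_pr h l (w - τ (aa l) • z)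
    have g4 := mul_le_mul_of_nonneg_right (h0 (aa l)) (pp_nonneg (u := u) l z)
    have g5 : pp u l w ≤ a * pp u l z + c * ‖B.pr l (l + 2) z‖ := by linarith
    have g6 := pow_le_pow_left₀ (pp_nonneg l w) g5 2
    nlinarith [sq_nonneg (a * pp u l z - c * ‖B.pr l (l + 2) z‖)]
  refine le_of_sq_le_sq ?_ (mul_nonneg (by positivity) (nE_nonneg _ _))
  have n3 := sum_le_sum fun l (_ : l ∈ range R) => n2 l
  rw [sum_add_distrib, ← mul_sum, ← mul_sum] at n3
  have n4 := mul_le_mul_of_nonneg_left (sum_pair_le B (range R) z) (by positivity : 0 ≤ 2 * c ^ 2)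
  have n5 := pow_le_pow_left₀ (norm_nonneg _) n1 2
  have n6 : 0 ≤ ∑ l ∈ range R, pp u l z ^ 2 := sum_nonneg fun l _ => sq_nonneg _
  have n7 : 0 ≤ ‖z‖ ^ 2 := sq_nonneg _
  rw [mul_pow, nE_sq, nE_sq]
  nlinarith [mul_nonneg (mul_nonneg ha hc) n6, mul_nonneg (mul_nonneg ha hc) n7,
    mul_nonneg (sq_nonneg a) n6, mul_nonneg (sq_nonneg a) n7, mul_nonneg (sq_nonneg c) n6]

theorem tbg_osc {t : ℕ → ℝ} {C : ℝ} (hC : 0 ≤ C) (ht : ∀ m : ℕ, ((m : ℝ) + 1) * |t m| ≤ C)
    (M l i : ℕ) (h1 : aa l ≤ i) (h2 : i < aa (l + 2)) :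
    (l : ℝ) * |∑ m ∈ Ico i M, t m - ∑ m ∈ Ico (aa l) M, t m| ≤ 98 * 3 ^ 48 * C := by
  have e1 : ∑ m ∈ Ico (aa l) M, t m - ∑ m ∈ Ico i M, t m = ∑ m ∈ Ico (aa l) M \ Ico i M, t m :=
    (sum_sdiff_eq_sub (Ico_subset_Ico h1 le_rfl)).symm
  have e2 : Ico (aa l) M \ Ico i M ⊆ Ico (aa l) (aa (l + 2)) := by
    intro m hm
    simp only [Finset.mem_sdiff, mem_Ico] at hm ⊢
    omega
  have hp : (0 : ℝ) < aa l + 1 := by positivity
  have e3 : |∑ m ∈ Ico (aa l) M \ Ico i M, t m| ≤ ((aa (l + 2) : ℝ) - aa l) * (C / (aa l + 1)) := by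
    refine (abs_sum_le_sum_abs _ _).trans ((sum_le_sum_of_subset_of_nonneg e2
      fun m _ _ => abs_nonneg _).trans ?_)
    have e4 := sum_le_card_nsmul (Ico (aa l) (aa (l + 2))) (fun m => |t m|) (C / (aa l + 1))
      fun m hm => by
        rw [le_div_iff₀ hp]
        have : (aa l : ℝ) ≤ m := by exact_mod_cast (mem_Ico.1 hm).1
        nlinarith [ht m, abs_nonneg (t m)]
    rwa [Nat.card_Ico, nsmul_eq_mul, Nat.cast_sub (h1.trans h2.le)] at e4
  rw [abs_sub_comm, e1]
  have e5 : (aa l : ℝ) / (aa l + 1) ≤ 1 := (div_le_one hp).2 (by linarith)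
  calc (l : ℝ) * |∑ m ∈ Ico (aa l) M \ Ico i M, t m|
      ≤ l * (((aa (l + 2) : ℝ) - aa l) * (C / (aa l + 1))) :=
        mul_le_mul_of_nonneg_left e3 (Nat.cast_nonneg _)
    _ = l * ((aa (l + 2) : ℝ) - aa l) * (C / (aa l + 1)) := (mul_assoc _ _ _).symm
    _ ≤ 98 * 3 ^ 48 * aa l * (C / (aa l + 1)) :=
        mul_le_mul_of_nonneg_right (ces_gr l) (div_nonneg hC hp.le)
    _ = 98 * 3 ^ 48 * C * ((aa l : ℝ) / (aa l + 1)) := by ring
    _ ≤ 98 * 3 ^ 48 * C := mul_le_of_le_one_right (by positivity) e5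

theorem tbasis_all (B : Blocks L2)
    (hB : ∀ (t : ℕ) (x : L2), B.pr 0 t x = ∑ i ∈ range (aa t), x i • ee i)
    {u : ∀ l, Fin (NN l) → L2} (h : Loc B u) {E : Type*} [NormedAddCommGroup E] [NormedSpace ℝ E]
    [CompleteSpace E] (M : Model B u cesOp E) :
    ∃ x : ℕ → E, ∀ t : ℕ → ℕ → ℝ, Consistent t →
      (∃ C : ℝ, ∀ n m : ℕ, ((m : ℝ) + 1) * |t n m| ≤ C) → IsTBasis t x := by
  have hfin : ∀ (c : ℕ → ℝ) (n R : ℕ), n ≤ R → (∑ i ∈ range n, c i • ee i : L2) ∈ B.S 0 R := by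
    intro c n R hn
    rw [mem_S, hB]
    refine lp.ext (funext fun j => ?_)
    rw [ces_sum, ces_sum]
    have := tb_le_aa R
    split_ifs <;> first | rfl | omega
  have hx : ∀ i, M.fst (M.inc (i + 1) (ee i)) = ee i := fun i => by
    rw [M.fst_inc, hB]
    exact tb_sum _ i (mem_range.2 ((Nat.lt_succ_self i).trans_le (tb_le_aa _)))
  have hsum : ∀ (c : ℕ → ℝ) (n : ℕ), M.fst (∑ i ∈ range n, c i • M.inc (i + 1) (ee i)) =
      ∑ i ∈ range n, c i • ee i := fun c n => by
    rw [map_sum]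
    exact sum_congr rfl fun i _ => by rw [map_smul, hx]
  have hnorm : ∀ (R : ℕ) (y : E), M.fst y ∈ B.S 0 R → ‖y‖ = nE u R (M.fst y) := by
    intro R y hy
    have : y = M.inc R (M.fst y) := M.inj (by rw [M.fst_inc, (mem_S B).1 hy])
    rw [← M.norm_inc R _ hy, ← this]
  have hr : ∀ r y, M.ramp r y = ∑ i ∈ range (r + 1),
      ((1 - (i : ℝ) / (r + 1)) * M.fst y i) • M.inc (i + 1) (ee i) := fun r y =>
    M.inj (by rw [M.fst_ramp, tb_ces, hsum])
  refine ⟨fun i => M.inc (i + 1) (ee i), fun t ht hC => ?_⟩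
  obtain ⟨C, hC⟩ := hC
  have hC0 : 0 ≤ C := le_trans (by positivity) (hC 0 0)
  obtain ⟨a, ha⟩ := ht.1
  have ha0 : 0 ≤ a := le_trans (tsum_nonneg fun m => norm_nonneg _) (ha 0).2
  refine tbg_abs _ (fun i => (innerSL ℝ (ee i)).comp M.fst) (fun i j => ?_) (fun y => ?_) ht
    (C := 2 * a + 2 * (98 * 3 ^ 48 * C)) (by positivity) fun n N y => ?_
  · rw [ContinuousLinearMap.comp_apply, hx, innerSL_apply_apply, tb_inner, tb_ee]
  · refine mem_closure_of_tendsto (M.ramp_lim y) (Eventually.of_forall fun r => ?_)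
    rw [hr]
    exact Submodule.sum_mem _ fun i _ =>
      Submodule.smul_mem _ _ (Submodule.subset_span ⟨i, rfl⟩)
  · have hcont : Continuous fun y : E => ‖∑ i ∈ range N, ((∑ m ∈ Ico i N, t n m) *
        ((innerSL ℝ (ee i)).comp M.fst) y) • M.inc (i + 1) (ee i)‖ :=
      (continuous_finsetSum _ fun i _ => (continuous_const.mul
        ((innerSL ℝ (ee i)).comp M.fst).continuous).smul continuous_const).norm
    refine le_of_tendsto_of_tendsto' ((hcont.tendsto y).comp (M.ramp_lim y))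
      ((M.ramp_lim y).norm.const_mul _) fun r => ?_
    have m1 : M.fst (M.ramp r y) ∈ B.S 0 (N + (r + 1)) := by
      rw [hr, hsum]
      exact hfin _ _ _ (Nat.le_add_left _ _)
    rw [Function.comp_apply, hnorm (N + (r + 1)) _ m1,
      hnorm (N + (r + 1)) _ (by rw [hsum]; exact hfin _ _ _ (Nat.le_add_right _ _))]
    refine tbg_mul B hB h (τ := fun i => ∑ m ∈ Ico i N, t n m) ha0 (by positivity)
      (fun i => ?_) (fun l i => tbg_osc hC0 (hC n) N l i) _ fun i => ?_
    · exact (abs_sum_le_sum_abs _ _).trans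
        (((ha n).1.sum_le_tsum _ fun m _ => norm_nonneg _).trans (ha n).2)
    · rw [hsum, ces_sum]
      split_ifs with hi
      · rw [ContinuousLinearMap.comp_apply, innerSL_apply_apply, tb_inner]
      · rw [Ico_eq_empty hi, sum_empty, zero_mul]

theorem tbg_ces (n m : ℕ) :
    ((m : ℝ) + 1) * |if m ≤ n then (1 : ℝ) / (n + 1) else 0| ≤ 1 := by
  split_ifs with h
  · have h1 : (m : ℝ) ≤ n := by exact_mod_cast h
    rw [abs_of_nonneg (by positivity), mul_one_div, div_le_one (by positivity)]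
    linarith
  · simp

end Pool.Agent.P.MP_f511bc_an.Nf
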